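import Pool.Agent.RC.Basic

set_option autoImplicit false

open MeasureTheory Set Filter Topology

namespace Pool.Agent.RC

theorem a1_cs (f g : ℝ → ℝ) (hf : Tst f) (hg : Continuous g) (hgc : HasCompactSupport g) :
    ∫ y, |f y * g y| ≤ √(∫ y, f y ^ 2) * √(∫ y, g y ^ 2) := by
  have hf2 : Integrable (fun x => f x ^ 2) := hf.int_sq
  have hg2 : Integrable (fun x => g x ^ 2) :=
    (hg.pow 2).integrable_of_hasCompactSupport (by simpa [pow_two] using hgc.mul_left (f' := g))
  have hfg : Integrable (fun x => |f x * g x|) :=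
    ((hf.continuous.mul hg).integrable_of_hasCompactSupport hgc.mul_left).abs
  have key : ∀ t : ℝ, 0 ≤ (∫ y, f y ^ 2) * (t * t) + (-(2 * ∫ y, |f y * g y|)) * t + ∫ y, g y ^ 2 := by
    intro t
    have h1 : 0 ≤ ∫ y, (t * |f y| - |g y|) ^ 2 := integral_nonneg fun y => sq_nonneg _
    have h2 : (fun y => (t * |f y| - |g y|) ^ 2) =
        fun y => (t * t) * f y ^ 2 - (2 * t) * |f y * g y| + g y ^ 2 := by
      ext y
      rw [abs_mul]
      nlinarith [sq_abs (f y), sq_abs (g y)]
    have h3 : ∫ y, ((t * t) * f y ^ 2 - (2 * t) * |f y * g y| + g y ^ 2) =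
        (t * t) * (∫ y, f y ^ 2) - (2 * t) * (∫ y, |f y * g y|) + ∫ y, g y ^ 2 := by
      have i1 : Integrable (fun y => (t * t) * f y ^ 2) := hf2.const_mul _
      have i2 : Integrable (fun y => (2 * t) * |f y * g y|) := hfg.const_mul _
      have i3 : Integrable (fun y => (t * t) * f y ^ 2 - (2 * t) * |f y * g y|) := i1.sub i2
      rw [integral_add i3 hg2, integral_sub i1 i2, integral_const_mul, integral_const_mul]
    rw [h2, h3] at h1
    linarith
  have hd := discrim_le_zero key
  unfold discrim at hd
  have h0 : 0 ≤ ∫ y, |f y * g y| := integral_nonneg fun y => abs_nonneg _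
  rw [← Real.sqrt_mul (integral_nonneg fun y => sq_nonneg _)]
  refine Real.le_sqrt_of_sq_le ?_
  nlinarith

/-- [RC-A1] One-dimensional Agmon inequality. -/
theorem a1_agmon (f : ℝ → ℝ) (h : Tst f) (x : ℝ) :
    f x ^ 2 ≤ √(∫ y, f y ^ 2) * √(∫ y, deriv f y ^ 2) := by
  refine le_trans ?_ (a1_cs f (deriv f) h h.continuous_deriv h.deriv_compact)
  have hD : ∀ y, HasDerivAt (fun y => f y ^ 2) (2 * (f y * deriv f y)) y := by
    intro y
    have := (h.differentiable y).hasDerivAt.pow 2
    refine this.congr_deriv ?_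
    simp
    ring
  have hi : Integrable (fun y => 2 * (f y * deriv f y)) :=
    ((h.continuous.mul h.continuous_deriv).integrable_of_hasCompactSupport
      h.deriv_compact.mul_left).const_mul 2
  have hia : Integrable (fun y => |f y * deriv f y|) :=
    ((h.continuous.mul h.continuous_deriv).integrable_of_hasCompactSupport
      h.deriv_compact.mul_left).abs
  have hc : HasCompactSupport (fun y => f y ^ 2) := by
    have e : (fun y => f y ^ 2) = f * f := by
      ext y
      simp [pow_two]
    rw [e]
    exact h.2.mul_left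
  have ht := hc.is_zero_at_infty
  have htop : Tendsto (fun y => f y ^ 2) atTop (𝓝 0) := ht.mono_left atTop_le_cocompact
  have hbot : Tendsto (fun y => f y ^ 2) atBot (𝓝 0) := ht.mono_left atBot_le_cocompact
  have h1 := integral_Iic_of_hasDerivAt_of_tendsto' (a := x) (fun y _ => hD y) hi.integrableOn hbot
  have h2 := integral_Ioi_of_hasDerivAt_of_tendsto' (a := x) (fun y _ => hD y) hi.integrableOn htop
  rw [sub_zero] at h1
  rw [zero_sub] at h2
  have h3 : ∫ y in Iic x, 2 * (f y * deriv f y) ≤ ∫ y in Iic x, 2 * |f y * deriv f y| := by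
    refine integral_mono hi.integrableOn (hia.const_mul 2).integrableOn fun y => ?_
    have := le_abs_self (f y * deriv f y)
    simp only
    linarith
  have h4 : -∫ y in Ioi x, 2 * (f y * deriv f y) ≤ ∫ y in Ioi x, 2 * |f y * deriv f y| := by
    rw [← integral_neg]
    refine integral_mono hi.integrableOn.neg (hia.const_mul 2).integrableOn fun y => ?_
    have := neg_abs_le (f y * deriv f y)
    simp only
    linarith
  have h5 : ∫ y, 2 * |f y * deriv f y| = (∫ y in Iic x, 2 * |f y * deriv f y|) +
      ∫ y in Ioi x, 2 * |f y * deriv f y| := by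
    rw [← integral_add_compl measurableSet_Iic (hia.const_mul 2), compl_Iic]
  rw [integral_const_mul] at h5
  linarith

end Pool.Agent.RC
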