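import Pool.Agent.RC.A1

set_option autoImplicit false

open MeasureTheory Set

namespace Pool.Agent.RC

/-- the double sum of a product of two linear combinations -/
theorem a2_sq_sum {n : ℕ} (ξ u : Fin n → ℝ) :
    (∑ i, ξ i * u i) ^ 2 = ∑ i, ∑ j, ξ i * ξ j * (u i * u j) := by
  rw [pow_two, Finset.sum_mul_sum]
  refine Finset.sum_congr rfl fun i _ => Finset.sum_congr rfl fun j _ => ?_
  ring

/-- integral of the square of a linear combination -/
theorem a2_int_sq {n : ℕ} (g : Fin n → ℝ → ℝ) (hg : ∀ i j, Integrable fun x => g i x * g j x)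
    (ξ : Fin n → ℝ) : ∫ y, (∑ i, ξ i * g i y) ^ 2 = ∑ i, ∑ j, ξ i * ξ j * ∫ y, g i y * g j y := by
  have h1 : ∀ y, (∑ i, ξ i * g i y) ^ 2 = ∑ i, ∑ j, ξ i * ξ j * (g i y * g j y) :=
    fun y => a2_sq_sum ξ fun i => g i y
  simp_rw [h1]
  rw [integral_finsetSum _ fun i _ => integrable_finsetSum _ fun j _ => (hg i j).const_mul _]
  refine Finset.sum_congr rfl fun i _ => ?_
  rw [integral_finsetSum _ fun j _ => (hg i j).const_mul _]
  refine Finset.sum_congr rfl fun j _ => ?_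
  rw [integral_const_mul]

theorem a2_cube {S Q : ℝ} (hS : 0 ≤ S) (hQ : 0 ≤ Q) (h : S ^ 2 ≤ √S * √Q) : S ^ 3 ≤ Q := by
  have hs := Real.sqrt_nonneg S
  have hq := Real.sqrt_nonneg Q
  have h1 : √S ^ 2 = S := Real.sq_sqrt hS
  have h2 : √Q ^ 2 = Q := Real.sq_sqrt hQ
  rcases hs.lt_or_eq with h0 | h0
  · have h3 : √S ^ 3 ≤ √Q := by
      have h4 : √S * √S ^ 3 ≤ √S * √Q := by
        calc √S * √S ^ 3 = (√S ^ 2) ^ 2 := by ring
          _ = S ^ 2 := by rw [h1]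
          _ ≤ √S * √Q := h
      exact le_of_mul_le_mul_left h4 h0
    calc S ^ 3 = (√S ^ 3) ^ 2 := by rw [← h1]; ring_nf; rw [Real.sqrt_sq hs]
      _ ≤ √Q ^ 2 := pow_le_pow_left₀ (pow_nonneg hs 3) h3 2
      _ = Q := h2
  · have h3 : S = 0 := by rw [← h1, ← h0]; ring
    rw [h3]
    simpa using hQ

/-- the pointwise inequality -/
theorem a2_pointwise {n : ℕ} (φ : Fin n → ℝ → ℝ) (h : ∀ i, Tst (φ i))
    (ho : ∀ i j, ∫ x, φ i x * φ j x = if i = j then 1 else 0) (x : ℝ) :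
    (∑ i, φ i x ^ 2) ^ 3 ≤ ∑ i, ∑ j, φ i x * φ j x * ∫ y, deriv (φ i) y * deriv (φ j) y := by
  set ξ : Fin n → ℝ := fun i => φ i x with hξ
  have hT : Tst (lc φ ξ) := Tst.lc h ξ
  have h1 := a1_agmon (lc φ ξ) hT x
  have e1 : lc φ ξ x = ∑ i, φ i x ^ 2 := by
    unfold lc
    refine Finset.sum_congr rfl fun i _ => ?_
    rw [hξ]
    ring
  have e2 : ∫ y, lc φ ξ y ^ 2 = ∑ i, φ i x ^ 2 := by
    unfold lc
    rw [a2_int_sq φ (fun i j => (h i).int_mul (h j)) ξ]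
    refine Finset.sum_congr rfl fun i _ => ?_
    rw [Finset.sum_eq_single i]
    · rw [ho, if_pos rfl, hξ]
      ring
    · intro j _ hj
      rw [ho, if_neg (Ne.symm hj), mul_zero]
    · intro hi
      exact absurd (Finset.mem_univ i) hi
  have e3 : ∀ y, deriv (lc φ ξ) y = ∑ i, ξ i * deriv (φ i) y := by
    intro y
    have hd : HasDerivAt (lc φ ξ) (∑ i, ξ i * deriv (φ i) y) y := by
      unfold lc
      exact HasDerivAt.fun_sum fun i _ => ((h i).differentiable y).hasDerivAt.const_mul (ξ i)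
    exact hd.deriv
  have e4 : ∫ y, deriv (lc φ ξ) y ^ 2 =
      ∑ i, ∑ j, φ i x * φ j x * ∫ y, deriv (φ i) y * deriv (φ j) y := by
    simp_rw [e3]
    exact a2_int_sq (fun i => deriv (φ i)) (fun i j => (h i).int_deriv_mul (h j)) ξ
  have h2 : 0 ≤ ∫ y, deriv (lc φ ξ) y ^ 2 := integral_nonneg fun y => sq_nonneg _
  rw [e4] at h2
  rw [e1, e2, e4] at h1
  exact a2_cube (Finset.sum_nonneg fun i _ => sq_nonneg _) h2 h1

/-- [RC-A2] The inequality of Eden and Foias: `∫ ρ³ ≤ ∑ ∫ φ_i'²` for `ρ = ∑ φ_i²`, `φ_i` orthonormal.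
PROOF. Fix `x` and put `ξ_i = φ_i x`, `f = ∑ ξ_i φ_i` (a test function, `Tst.lc`), `ρ = ∑ ξ_i²`. Then
`f x = ρ`, `∫ f² = ∑_{i,j} ξ_i ξ_j ∫ φ_i φ_j = ∑ ξ_i² = ρ` and
`∫ f'² = ∑_{i,j} ξ_i ξ_j T_{ij}`, `T_{ij} = ∫ φ_i' φ_j'` (`deriv` of the finite sum; finite sums of
integrable functions). By `a1_agmon` `ρ² ≤ √ρ · √(∑ ξ_i ξ_j T_ij)`; hence
`ρ³ ≤ ∑ ξ_i ξ_j T_ij` (if `ρ = 0` the right side is `≥ 0`, it is `∫ f'²`; otherwise square and divide by
`ρ`). This is the pointwise inequality `ρ(x)³ ≤ ∑_{i,j} T_{ij} φ_i x φ_j x`; integrate over `x`: the right side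
gives `∑_{i,j} T_{ij} δ_{ij} = ∑ T_{ii}`. (Both sides are continuous with compact support, so integrable.) -/
theorem a2_eden_foias {n : ℕ} (φ : Fin n → ℝ → ℝ) (h : ∀ i, Tst (φ i))
    (ho : ∀ i j, ∫ x, φ i x * φ j x = if i = j then 1 else 0) :
    ∫ x, (∑ i, φ i x ^ 2) ^ 3 ≤ ∑ i, ∫ x, deriv (φ i) x ^ 2 := by
  set T : Fin n → Fin n → ℝ := fun i j => ∫ y, deriv (φ i) y * deriv (φ j) y with hT
  have hint : ∀ i j, Integrable fun x => φ i x * φ j x * T i j :=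
    fun i j => ((h i).int_mul (h j)).mul_const _
  have h1 : ∫ x, (∑ i, φ i x ^ 2) ^ 3 ≤ ∫ x, ∑ i, ∑ j, φ i x * φ j x * T i j := by
    refine integral_mono_of_nonneg (Filter.Eventually.of_forall fun x => ?_)
      (integrable_finsetSum _ fun i _ => integrable_finsetSum _ fun j _ => hint i j)
      (Filter.Eventually.of_forall fun x => a2_pointwise φ h ho x)
    exact pow_nonneg (Finset.sum_nonneg fun i _ => sq_nonneg _) 3
  refine h1.trans (le_of_eq ?_)
  rw [integral_finsetSum _ fun i _ => integrable_finsetSum _ fun j _ => hint i j]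
  refine Finset.sum_congr rfl fun i _ => ?_
  rw [integral_finsetSum _ fun j _ => hint i j, Finset.sum_eq_single i]
  · rw [integral_mul_const, ho, if_pos rfl, one_mul, hT]
    refine integral_congr_ae (Filter.Eventually.of_forall fun x => ?_)
    simp only
    ring
  · intro j _ hj
    rw [integral_mul_const, ho, if_neg (Ne.symm hj), zero_mul]
  · intro hi
    exact absurd (Finset.mem_univ i) hi

end Pool.Agent.RC
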