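import Pool.Agent.RC.A2

set_option autoImplicit false

open MeasureTheory Set

namespace Pool.Agent.RC

/-- [RC-A3] pointwise: `a ρ - ρ³ ≤ (2/(3√3)) a^{3/2}` for `a, ρ ≥ 0`.
PROOF. With `a = 3 u²`, `u = √(a/3) ≥ 0`: `a^{3/2} = 3√3 u³`, so the claim is `3u²ρ - ρ³ ≤ 2u³`, i.e.
`0 ≤ (u - ρ)² (2u + ρ)`. -/
theorem a3_pointwise (a ρ : ℝ) (ha : 0 ≤ a) (hρ : 0 ≤ ρ) :
    a * ρ - ρ ^ 3 ≤ 2 / (3 * √3) * a ^ (3 / 2 : ℝ) := by
  have hu0 : 0 ≤ √(a / 3) := Real.sqrt_nonneg _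
  have hu2 : √(a / 3) ^ 2 = a / 3 := Real.sq_sqrt (by positivity)
  have h3 : √(3 : ℝ) ^ 2 = 3 := Real.sq_sqrt (by norm_num)
  have h3p : 0 < √(3 : ℝ) := Real.sqrt_pos.2 (by norm_num)
  have h4 : a ^ (3 / 2 : ℝ) = (√3 * √(a / 3)) ^ 3 := by
    have ha' : a = (√3 * √(a / 3)) ^ (2 : ℝ) := by
      rw [Real.rpow_two, mul_pow, h3, hu2]
      ring
    have hnn : 0 ≤ √3 * √(a / 3) := by positivity
    calc a ^ (3 / 2 : ℝ) = ((√3 * √(a / 3)) ^ (2 : ℝ)) ^ (3 / 2 : ℝ) := by rw [← ha']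
      _ = (√3 * √(a / 3)) ^ (3 : ℝ) := by
          rw [← Real.rpow_mul hnn]
          norm_num
      _ = (√3 * √(a / 3)) ^ 3 := by
          exact_mod_cast Real.rpow_natCast _ 3
  have h5 : 2 / (3 * √3) * (√3 * √(a / 3)) ^ 3 = 2 * √(a / 3) ^ 3 := by
    have : (√3 * √(a / 3)) ^ 3 = √3 ^ 2 * (√3 * √(a / 3) ^ 3) := by ring
    rw [this, h3]
    field_simp
  rw [h4, h5]
  have h6 : a = 3 * √(a / 3) ^ 2 := by
    rw [hu2]
    ring
  have h7 : a * ρ - ρ ^ 3 = 3 * √(a / 3) ^ 2 * ρ - ρ ^ 3 := by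
    conv_lhs => rw [h6]
  rw [h7]
  have h8 : 0 ≤ (√(a / 3) - ρ) ^ 2 * (2 * √(a / 3) + ρ) := by positivity
  nlinarith [h8]

/-- [RC-A3] PROOF. With `ρ = ∑ φ_i²`, `∑ (∫ a φ_i² - ∫ φ_i'²) ≤ ∫ a ρ - ∫ ρ³` by `a2_eden_foias`, and
integrate `a3_pointwise`. All functions are continuous with compact support. -/
theorem a3_lower {n : ℕ} (φ : Fin n → ℝ → ℝ) (h : ∀ i, Tst (φ i))
    (ho : ∀ i j, ∫ x, φ i x * φ j x = if i = j then 1 else 0) (a : ℝ → ℝ) (ha : Continuous a)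
    (ha0 : ∀ x, 0 ≤ a x) (hac : HasCompactSupport a) :
    ∑ i, ((∫ x, a x * φ i x ^ 2) - ∫ x, deriv (φ i) x ^ 2) ≤
      2 / (3 * √3) * ∫ x, a x ^ (3 / 2 : ℝ) := by
  have hcont : ∀ i, Continuous (φ i) := fun i => (h i).continuous
  have hρc : Continuous (fun x => ∑ i, φ i x ^ 2) :=
    continuous_finsetSum _ fun i _ => (hcont i).pow 2
  have hint1 : ∀ i, Integrable (fun x => a x * φ i x ^ 2) := fun i =>
    (ha.mul ((hcont i).pow 2)).integrable_of_hasCompactSupport hac.mul_right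
  have hint2 : Integrable (fun x => a x * ∑ i, φ i x ^ 2) :=
    (ha.mul hρc).integrable_of_hasCompactSupport hac.mul_right
  have hρs : HasCompactSupport (fun x => ∑ i, φ i x ^ 2) := by
    have h1 := (Tst.sum (Finset.univ : Finset (Fin n)) (f := fun i x => φ i x * φ i x)
      (fun i _ => ⟨(h i).1.mul (h i).1, (h i).2.mul_left⟩)).2
    simpa [pow_two] using h1
  have hint3 : Integrable (fun x => (∑ i, φ i x ^ 2) ^ 3) := by
    have h1 : (fun x => (∑ i, φ i x ^ 2) ^ 3) =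
        fun x => (∑ i, φ i x ^ 2) * (∑ i, φ i x ^ 2) ^ 2 := by
      ext x
      ring
    rw [h1]
    exact (hρc.mul (hρc.pow 2)).integrable_of_hasCompactSupport hρs.mul_right
  have hac2 : HasCompactSupport (fun x => a x ^ (3 / 2 : ℝ)) := by
    refine hac.comp_left (g := fun t : ℝ => t ^ (3 / 2 : ℝ)) ?_
    exact Real.zero_rpow (by norm_num)
  have hint4 : Integrable (fun x => a x ^ (3 / 2 : ℝ)) :=
    (ha.rpow_const fun x => Or.inr (by norm_num)).integrable_of_hasCompactSupport hac2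
  have h1 : ∑ i, ((∫ x, a x * φ i x ^ 2) - ∫ x, deriv (φ i) x ^ 2) ≤
      (∫ x, a x * ∑ i, φ i x ^ 2) - ∫ x, (∑ i, φ i x ^ 2) ^ 3 := by
    rw [Finset.sum_sub_distrib]
    have h2 : ∑ i, (∫ x, a x * φ i x ^ 2) = ∫ x, a x * ∑ i, φ i x ^ 2 := by
      rw [← integral_finsetSum _ fun i _ => hint1 i]
      refine integral_congr_ae (Filter.Eventually.of_forall fun x => ?_)
      simp only [Finset.mul_sum]
    rw [h2]
    exact sub_le_sub_left (a2_eden_foias φ h ho) _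
  refine h1.trans ?_
  rw [← integral_sub hint2 hint3, ← integral_const_mul]
  refine integral_mono (hint2.sub hint3) (hint4.const_mul _) fun x => ?_
  exact a3_pointwise (a x) _ (ha0 x) (Finset.sum_nonneg fun i _ => sq_nonneg _)

end Pool.Agent.RC
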