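import Pool.Agent.RC.Basic

set_option autoImplicit false

open MeasureTheory Set

namespace Pool.Agent.RC

theorem a4_hf_zero (w : ℝ → ℝ) (q : ℝ) : hf w q (fun _ => 0) = 0 := by
  unfold hf
  simp

theorem a4_hf_smul {f : ℝ → ℝ} (h : Tst f) (w : ℝ → ℝ) (q r : ℝ) :
    hf w q (fun x => r * f x) = r ^ 2 * hf w q f := by
  unfold hf
  rw [← integral_const_mul]
  refine integral_congr_ae (Filter.Eventually.of_forall fun x => ?_)
  simp only
  rw [deriv_const_mul r (h.differentiable x)]
  ring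

theorem a4_pos {f : ℝ → ℝ} (h : Tst f) {w : ℝ → ℝ} {q : ℝ} (hn : hf w q f < 0) : 0 < ∫ x, f x ^ 2 := by
  have hex : ∃ x, f x ≠ 0 := by
    by_contra hno
    push Not at hno
    have h0 : f = fun _ => 0 := funext hno
    rw [h0, a4_hf_zero] at hn
    exact lt_irrefl _ hn
  obtain ⟨x, hx⟩ := hex
  refine Continuous.integral_pos_of_hasCompactSupport_nonneg_nonzero (x := x) (h.continuous.pow 2) ?_ ?_ ?_
  · have h1 : (fun y => f y ^ 2) = f * f := by
      funext y
      rw [Pi.mul_apply, pow_two]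
    rw [h1]
    exact h.2.mul_left
  · intro y
    exact sq_nonneg _
  · exact pow_ne_zero 2 hx

theorem a4_kernel {m K : ℕ} (h : K + 1 ≤ m) (M : Matrix (Fin K) (Fin m) ℝ) :
    ∃ c : Fin m → ℝ, c ≠ 0 ∧ ∀ j, ∑ i, M j i * c i = 0 := by
  have h1 : LinearMap.ker (Matrix.mulVecLin M) ≠ ⊥ := by
    refine LinearMap.ker_ne_bot_of_finrank_lt ?_
    rw [Module.finrank_fin_fun, Module.finrank_fin_fun]
    omega
  obtain ⟨c, hc, hc0⟩ := Submodule.exists_mem_ne_zero_of_ne_bot h1
  refine ⟨c, hc0, fun j => ?_⟩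
  have h2 := congrFun (LinearMap.mem_ker.1 hc) j
  exact h2

theorem a4_step (w : ℝ → ℝ) (hw : CPot w) (q : ℝ) {m : ℕ} (v : Fin m → ℝ → ℝ) (hv : Neg w q v) (K : ℕ)
    (hm : K + 1 ≤ m) (φ : ℕ → ℝ → ℝ) (hφ : ∀ k, k < K → Tst (φ k)) :
    ∃ ψ : ℝ → ℝ, Tst ψ ∧ ∫ x, ψ x ^ 2 = 1 ∧ (∀ j, j < K → ∫ x, ψ x * φ j x = 0) ∧ hf w 0 ψ < -q := by
  obtain ⟨c, hc0, hc⟩ := a4_kernel hm (fun (j : Fin K) (i : Fin m) => ∫ x, v i x * φ j x)
  have hT : Tst (lc v c) := Tst.lc hv.1 c
  have hn := hv.2 c hc0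
  have hs := a4_pos hT hn
  obtain ⟨s, hs'⟩ : ∃ s : ℝ, s = ∫ x, lc v c x ^ 2 := ⟨_, rfl⟩
  rw [← hs'] at hs
  have hr : (1 / √s) ^ 2 = 1 / s := by
    rw [div_pow, one_pow, Real.sq_sqrt hs.le]
  have hsq : ∫ x, (1 / √s * lc v c x) ^ 2 = 1 := by
    have h1 : (fun x => (1 / √s * lc v c x) ^ 2) = fun x => 1 / s * lc v c x ^ 2 := by
      funext x
      rw [mul_pow, hr]
    rw [h1, integral_const_mul, ← hs', one_div, inv_mul_cancel₀ hs.ne']
  refine ⟨fun x => 1 / √s * lc v c x, hT.const_mul _, hsq, fun j hj => ?_, ?_⟩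
  · have h1 : (fun x => 1 / √s * lc v c x * φ j x) = fun x => 1 / √s * ∑ i, c i * (v i x * φ j x) := by
      funext x
      unfold lc
      rw [mul_assoc, Finset.sum_mul]
      congr 1
      refine Finset.sum_congr rfl fun i _ => ?_
      ring
    rw [h1, integral_const_mul, integral_finsetSum _ fun i _ => ((hv.1 i).int_mul (hφ j hj)).const_mul _]
    have h2 := hc ⟨j, hj⟩
    have h3 : ∑ i, ∫ x, c i * (v i x * φ j x) = 0 := by
      rw [← h2]
      refine Finset.sum_congr rfl fun i _ => ?_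
      rw [integral_const_mul, mul_comm]
    rw [h3, mul_zero]
  · rw [hf_level (hT.const_mul _) hw.pot 0 q, a4_hf_smul hT, hsq, hr]
    have h1 : 1 / s * hf w q (lc v c) < 0 := mul_neg_of_pos_of_neg (one_div_pos.2 hs) hn
    linarith

/-- [RC-A4] Greedy choice of orthonormal functions in negative spaces.
PROOF. Choose `φ_0, φ_1, ...` one after the other (strong recursion, or prove by induction on `K ≤ N` that there
are `φ : Fin K → ℝ → ℝ` with the three properties for `k < K`). Step `k`: the linear map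
`ℝ^{m k} → ℝ^k`, `c ↦ (∫ lc (v k) c · φ_j)_{j<k}` has a nonzero kernel element `c` because
`k + 1 ≤ m k` (`LinearMap.exists_ne_zero_...`/`exists_ne_zero_of_finrank_lt`-type lemma or
`LinearMap.ker_ne_bot_of_finrank_lt`). Put `f = lc (v k) c`; it is a test function and `hf w (q k) f < 0`. Then
`∫ f² > 0`: otherwise `f = 0` everywhere (a continuous function; `Continuous.integral_pos_of_hasCompactSupport_nonneg_nonzero`
or `integral_eq_zero_iff_of_nonneg` and `Continuous.ae_eq_iff_eq`), so `hf w (q k) f = 0`. Put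
`φ_k = f / √(∫ f²)`. Then `∫ φ_k² = 1`, `∫ φ_k φ_j = 0` for `j < k` and, by `hf_level`,
`hf w 0 φ_k = hf w (q k) φ_k - q k ∫ φ_k² < - q k`, as `hf w (q k) φ_k = hf w (q k) f / ∫ f² < 0`. -/
theorem a4_greedy (w : ℝ → ℝ) (hw : CPot w) (N : ℕ) (q : Fin N → ℝ) (m : Fin N → ℕ)
    (v : ∀ k : Fin N, Fin (m k) → ℝ → ℝ) (hv : ∀ k, Neg w (q k) (v k))
    (hm : ∀ k : Fin N, (k : ℕ) + 1 ≤ m k) :
    ∃ φ : Fin N → ℝ → ℝ, (∀ k, Tst (φ k)) ∧
      (∀ i j, ∫ x, φ i x * φ j x = if i = j then 1 else 0) ∧ ∀ k, hf w 0 (φ k) < -q k := by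
  have H : ∀ K : ℕ, K ≤ N → ∃ φ : ℕ → ℝ → ℝ, (∀ k, k < K → Tst (φ k)) ∧
      (∀ i j, i < K → j < K → ∫ x, φ i x * φ j x = if i = j then 1 else 0) ∧
      ∀ k (hk : k < N), k < K → hf w 0 (φ k) < -q ⟨k, hk⟩ := by
    intro K
    induction K with
    | zero =>
      intro _
      exact ⟨fun _ _ => 0, fun k hk => absurd hk (Nat.not_lt_zero _), fun i j hi => absurd hi (Nat.not_lt_zero _),
        fun k _ hk => absurd hk (Nat.not_lt_zero _)⟩
    | succ K ih =>
      intro hK
      obtain ⟨φ, h1, h2, h3⟩ := ih (by omega)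
      obtain ⟨ψ, g1, g2, g3, g4⟩ := a4_step w hw (q ⟨K, hK⟩) (v ⟨K, hK⟩) (hv ⟨K, hK⟩) K (hm ⟨K, hK⟩) φ h1
      refine ⟨Function.update φ K ψ, fun k hk => ?_, fun i j hi hj => ?_, fun k hk hkK => ?_⟩
      · by_cases hkK : k = K
        · subst hkK
          rw [Function.update_self]
          exact g1
        · rw [Function.update_of_ne hkK]
          exact h1 k (by omega)
      · by_cases hiK : i = K
        · by_cases hjK : j = K
          · subst hiK
            subst hjK
            rw [Function.update_self, if_pos rfl, ← g2]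
            refine integral_congr_ae (Filter.Eventually.of_forall fun x => ?_)
            simp only
            ring
          · subst hiK
            rw [Function.update_self, Function.update_of_ne hjK, if_neg (Ne.symm hjK)]
            exact g3 j (by omega)
        · by_cases hjK : j = K
          · subst hjK
            rw [Function.update_self, Function.update_of_ne hiK, if_neg hiK]
            rw [← g3 i (by omega)]
            refine integral_congr_ae (Filter.Eventually.of_forall fun x => ?_)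
            simp only
            ring
          · rw [Function.update_of_ne hiK, Function.update_of_ne hjK]
            exact h2 i j (by omega) (by omega)
      · by_cases hk' : k = K
        · subst hk'
          rw [Function.update_self]
          exact g4
        · rw [Function.update_of_ne hk']
          exact h3 k hk (by omega)
  obtain ⟨φ, h1, h2, h3⟩ := H N le_rfl
  refine ⟨fun k => φ k, fun k => h1 k k.2, fun i j => ?_, fun k => h3 k k.2 k.2⟩
  rw [h2 i j i.2 j.2]
  by_cases h : i = j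
  · rw [if_pos h, if_pos (congrArg _ h)]
  · rw [if_neg h, if_neg (fun h' => h (Fin.ext h'))]

end Pool.Agent.RC
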