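import Pool.Agent.RC.A3
import Pool.Agent.RC.A4

set_option autoImplicit false

open MeasureTheory Set

namespace Pool.Agent.RC

/-- [RC-A5] Lower bound for `∫ (w-μ)₊^{3/2}` by the levels. -/
theorem a5_high (w : ℝ → ℝ) (hw : CPot w) (μ : ℝ) (hμ : 0 ≤ μ) (N : ℕ) (q : Fin N → ℝ)
    (m : Fin N → ℕ) (v : ∀ k : Fin N, Fin (m k) → ℝ → ℝ) (hv : ∀ k, Neg w (q k) (v k))
    (hm : ∀ k : Fin N, (k : ℕ) + 1 ≤ m k) :
    ∑ k, (q k - μ) ≤ 2 / (3 * √3) * ∫ x, (max 0 (w x - μ)) ^ (3 / 2 : ℝ) := by
  obtain ⟨φ, hφ, ho, hneg⟩ := a4_greedy w hw N q m v hv hm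
  have hac : Continuous (fun x => max 0 (w x - μ)) :=
    continuous_const.max (hw.1.sub continuous_const)
  have has : HasCompactSupport (fun x => max 0 (w x - μ)) := by
    refine hw.2.2.mono ?_
    intro x hx
    rw [Function.mem_support] at hx ⊢
    intro h0
    apply hx
    simp only [h0, zero_sub]
    exact max_eq_left (by linarith)
  refine le_trans (Finset.sum_le_sum fun k _ => ?_)
    (a3_lower φ hφ ho _ hac (fun x => le_max_left _ _) has)
  have h1 := hneg k
  have i1 : Integrable (fun x => max 0 (w x - μ) * φ k x ^ 2) :=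
    (hac.mul ((hφ k).continuous.pow 2)).integrable_of_hasCompactSupport has.mul_right
  have i2 : Integrable (fun x => deriv (φ k) x ^ 2) := (hφ k).int_deriv_sq
  have i3 : Integrable (fun x => φ k x ^ 2) := (hφ k).int_sq
  have i4 : Integrable (fun x => w x * φ k x ^ 2) := by
    have := (hφ k).int_pot_mul (hφ k) hw.pot
    refine this.congr (Filter.Eventually.of_forall fun x => ?_)
    simp only
    ring
  have e1 : hf w 0 (φ k) = (∫ x, deriv (φ k) x ^ 2) - ∫ x, w x * φ k x ^ 2 := by
    unfold hf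
    rw [← integral_sub i2 i4]
    refine integral_congr_ae (Filter.Eventually.of_forall fun x => ?_)
    simp only
    ring
  have e2 : ∫ x, φ k x ^ 2 = 1 := by
    have := ho k k
    rw [if_pos rfl] at this
    rw [← this]
    refine integral_congr_ae (Filter.Eventually.of_forall fun x => ?_)
    simp only
    ring
  have e3 : (∫ x, w x * φ k x ^ 2) - μ ≤ ∫ x, max 0 (w x - μ) * φ k x ^ 2 := by
    have e4 : (∫ x, w x * φ k x ^ 2) - μ = ∫ x, (w x * φ k x ^ 2 - μ * φ k x ^ 2) := by
      rw [integral_sub i4 (i3.const_mul μ), integral_const_mul, e2, mul_one]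
    rw [e4]
    refine integral_mono (i4.sub (i3.const_mul μ)) i1 fun x => ?_
    have := mul_le_mul_of_nonneg_right (le_max_right 0 (w x - μ)) (sq_nonneg (φ k x))
    simp only
    linarith
  rw [e1] at h1
  linarith

end Pool.Agent.RC
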