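import Pool.Agent.RC.Basic

/-!
# [RC] Prüfer angles and the verification function: definitions
-/

set_option autoImplicit false

open MeasureTheory Set Real

namespace Pool.Agent.RC

/-- right hand side of the Prüfer equation: `v = r sin ϑ`, `v' = r cos ϑ` for `v'' = (q - w) v` -/
noncomputable def pf (w : ℝ → ℝ) (q x ϑ : ℝ) : ℝ := cos ϑ ^ 2 + (w x - q) * sin ϑ ^ 2

/-- `Z(s) = (1 - (2/3) cot² s)₊` (equal to `0` where `sin s = 0`) -/
noncomputable def Zs (s : ℝ) : ℝ := max 0 (5 * sin s ^ 2 - 2) / (3 * sin s ^ 2)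

/-- `g(s) = Z²(3+Z)/4` -/
noncomputable def gs (s : ℝ) : ℝ := Zs s ^ 2 * (3 + Zs s) / 4

/-- derivative of `gs` -/
noncomputable def dg (s : ℝ) : ℝ := Zs s * (2 + Zs s) * (cos s / sin s) / sin s ^ 2

/-- derivative of `aa` -/
noncomputable def da (s : ℝ) : ℝ := Zs s * (2 / 5 + Zs s / 8) / sin s ^ 2

/-- `a(s)` -/
noncomputable def aa (s : ℝ) : ℝ := ∫ u in (0 : ℝ)..s, da u

/-- derivative of `bb` (equal to `0` where `sin t = 0`, since `x / 0 = 0`) -/
noncomputable def db (t : ℝ) : ℝ := √(1 / 4 - (cos t / sin t) ^ 2) / sin t ^ 2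

/-- `b(t)` -/
noncomputable def bb (t : ℝ) : ℝ := ∫ u in (0 : ℝ)..t, db u

/-- `D(t) = b(t) - t/8`, a `π`-periodic function -/
noncomputable def Dt (t : ℝ) : ℝ := bb t - t / 8

/-- the verification function -/
noncomputable def VV (s t : ℝ) : ℝ := aa s + (1 - gs s) * bb t + gs s * (t / 8)

end Pool.Agent.RC
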