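import Pool.Agent.RC.Ang

set_option autoImplicit false

open MeasureTheory Set Real

namespace Pool.Agent.RC

theorem b1_sin (x y : ℝ) : |sin x - sin y| ≤ |x - y| := by
  have h := Real.lipschitzWith_sin.dist_le_mul x y
  rw [Real.dist_eq, Real.dist_eq] at h
  simpa using h

/-- [RC-B1] Global solutions of the Prüfer equation on a compact interval.
PROOF. Picard-Lindelöf on `[a-1, b+1]` with initial time `a`, initial value `0`
(`IsPicardLindelof.exists_eq_forall_mem_Icc_hasDerivWithinAt₀` or the current name). The vector field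
`pf w q x ϑ = cos²ϑ + (w x - q) sin²ϑ` is continuous in `x`, bounded by `C = 1 + sup_{[a-1,b+1]} |w| + |q|` for all
`ϑ`, and globally Lipschitz in `ϑ` with constant `2 C + 2` or so
(`pf w q x ϑ = 1 + (w x - q - 1) sin²ϑ`, `|sin²ϑ - sin²ϑ'| ≤ 2 |ϑ - ϑ'|`). Since the bound `C` holds for all `ϑ`,
take the radius of the closed ball to be `C (b - a + 2)`, so the condition `C * max (tmax - t0) (t0 - tmin) ≤ radius`
holds. At points `x ∈ [a, b]` (interior points of `[a-1, b+1]`) `HasDerivWithinAt` upgrades to `HasDerivAt`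
(`Icc_mem_nhds`). -/
theorem b1_prufer (w : ℝ → ℝ) (hw : Continuous w) (q a b : ℝ) (hab : a ≤ b) :
    ∃ ϑ : ℝ → ℝ, ϑ a = 0 ∧ ∀ x ∈ Icc a b, HasDerivAt ϑ (pf w q x (ϑ x)) x := by
  obtain ⟨M, hM⟩ := (isCompact_Icc (a := a - 1) (b := b + 1)).exists_bound_of_continuousOn hw.continuousOn
  have hM0 : 0 ≤ M := (norm_nonneg _).trans (hM a ⟨by linarith, by linarith⟩)
  have hq0 := abs_nonneg q
  obtain ⟨C, hC⟩ : ∃ C : ℝ, C = 1 + M + |q| := ⟨_, rfl⟩
  have hC1 : 1 ≤ C := by linarith
  have hbd : ∀ x ∈ Icc (a - 1) (b + 1), |w x - q| ≤ C - 1 := by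
    intro x hx
    have h1 := hM x hx
    rw [Real.norm_eq_abs] at h1
    have h2 := abs_sub (w x) q
    linarith
  have hpf : ∀ x ϑ, pf w q x ϑ = 1 + (w x - q - 1) * sin ϑ ^ 2 := by
    intro x ϑ
    unfold pf
    rw [Real.cos_sq']
    ring
  have hC0 : 0 ≤ C := by linarith
  have hR0 : 0 ≤ C * (b - a + 2) := mul_nonneg hC0 (by linarith)
  have ha : a ∈ Icc (a - 1) (b + 1) := ⟨by linarith, by linarith⟩
  have hPL : IsPicardLindelof (pf w q) (⟨a, ha⟩ : Icc (a - 1) (b + 1)) (0 : ℝ)
      (⟨C * (b - a + 2), hR0⟩ : NNReal) 0 (⟨C, hC0⟩ : NNReal) (⟨2 * C, by linarith⟩ : NNReal) := by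
    refine ⟨fun t ht => ?_, fun x _ => ?_, fun t ht x _ => ?_, ?_⟩
    · refine LipschitzWith.lipschitzOnWith (LipschitzWith.of_dist_le_mul fun x y => ?_)
      rw [Real.dist_eq, Real.dist_eq, hpf, hpf]
      change _ ≤ 2 * C * |x - y|
      have h1 : 1 + (w t - q - 1) * sin x ^ 2 - (1 + (w t - q - 1) * sin y ^ 2) =
          (w t - q - 1) * ((sin x - sin y) * (sin x + sin y)) := by ring
      rw [h1, abs_mul, abs_mul]
      have h2 : |w t - q - 1| ≤ C := by
        have h3 := hbd t ht
        have h4 := abs_sub (w t - q) 1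
        rw [abs_one] at h4
        linarith
      have h3 : |sin x - sin y| ≤ |x - y| := b1_sin x y
      have h4 : |sin x + sin y| ≤ 2 := by
        rw [abs_le]
        have a1 := Real.neg_one_le_sin x
        have a2 := Real.neg_one_le_sin y
        have a3 := Real.sin_le_one x
        have a4 := Real.sin_le_one y
        constructor <;> linarith
      have h5 : |sin x - sin y| * |sin x + sin y| ≤ |x - y| * 2 :=
        mul_le_mul h3 h4 (abs_nonneg _) (abs_nonneg _)
      calc |w t - q - 1| * (|sin x - sin y| * |sin x + sin y|) ≤ C * (|x - y| * 2) :=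
            mul_le_mul h2 h5 (by positivity) hC0
        _ = 2 * C * |x - y| := by ring
    · have h1 : (fun t => pf w q t x) = fun t => cos x ^ 2 + (w t - q) * sin x ^ 2 := rfl
      change ContinuousOn (fun t => pf w q t x) _
      rw [h1]
      exact (continuous_const.add ((hw.sub continuous_const).mul continuous_const)).continuousOn
    · rw [Real.norm_eq_abs]
      change _ ≤ C
      unfold pf
      have h1 := hbd t ht
      have h2 := Real.sin_sq_add_cos_sq x
      have h3 : |cos x ^ 2 + (w t - q) * sin x ^ 2| ≤ |cos x ^ 2| + |(w t - q) * sin x ^ 2| := abs_add_le _ _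
      rw [abs_mul, abs_of_nonneg (sq_nonneg (cos x)), abs_of_nonneg (sq_nonneg (sin x))] at h3
      have h4 : |w t - q| * sin x ^ 2 ≤ (C - 1) * 1 :=
        mul_le_mul h1 (by nlinarith [sq_nonneg (cos x)]) (sq_nonneg _) (by linarith)
      have h5 : cos x ^ 2 ≤ 1 := by nlinarith [sq_nonneg (sin x)]
      linarith
    · change C * max (b + 1 - a) (a - (a - 1)) ≤ C * (b - a + 2) - 0
      rw [sub_zero]
      refine mul_le_mul_of_nonneg_left (max_le ?_ ?_) hC0 <;> linarith
  obtain ⟨α, h0, h1⟩ := hPL.exists_eq_forall_mem_Icc_hasDerivWithinAt₀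
  refine ⟨α, h0, fun x hx => ?_⟩
  exact (h1 x ⟨by linarith [hx.1], by linarith [hx.2]⟩).hasDerivAt
    (Icc_mem_nhds (by linarith [hx.1]) (by linarith [hx.2]))

end Pool.Agent.RC
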