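import Pool.Agent.RC.Ang

set_option autoImplicit false

open MeasureTheory Set Real

namespace Pool.Agent.RC

theorem b2_pf (w : ℝ → ℝ) (q x θ : ℝ) (k : ℤ) (h : θ = (k : ℝ) * π) : pf w q x θ = 1 := by
  have h1 : sin θ = 0 := by rw [h, sin_int_mul_pi]
  have h2 : cos θ ^ 2 = 1 := by
    have := sin_sq_add_cos_sq θ
    rw [h1] at this
    linarith
  rw [pf, h1, h2]
  ring

theorem b2_slope {f : ℝ → ℝ} {d z : ℝ} (h : HasDerivAt f d z) (hd : 0 < d) :
    ∃ ε > 0, ∀ u, u ≠ z → |u - z| < ε → 0 < (f u - f z) / (u - z) := by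
  have h1 := hasDerivAt_iff_tendsto_slope.1 h
  have h2 : ∀ᶠ u in nhdsWithin z {z}ᶜ, 0 < slope f z u := h1.eventually (lt_mem_nhds hd)
  rw [eventually_nhdsWithin_iff, Metric.eventually_nhds_iff] at h2
  obtain ⟨ε, hε, h3⟩ := h2
  refine ⟨ε, hε, fun u hu huz => ?_⟩
  have h4 := h3 (by rw [Real.dist_eq]; exact huz) hu
  rwa [slope_def_field] at h4

/-- [RC-B2] The Prüfer angle crosses the levels `kπ` only upwards.
PROOF. At a point `z ∈ [a,b]` with `ϑ z = kπ` we have `sin (ϑ z) = 0`, `cos² = 1`, so `ϑ' z = 1 > 0`.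
Let `x < y` in `[a,b]`, `kπ ≤ ϑ x`, and suppose `ϑ y ≤ kπ`. Let `z = sInf {u ∈ [x,y] : x < u, ϑ u ≤ kπ}` or argue with
`s = {u ∈ Icc x y | ϑ u ≤ kπ} \ {x}`: near `x`, `ϑ u > kπ` for `u > x` close to `x` (if `ϑ x > kπ` by continuity, if
`ϑ x = kπ` because the derivative is `1`). Hence there is `x' ∈ (x,y)` with `ϑ > kπ` on `(x, x']`. Let
`z = sInf {u ∈ [x', y] | ϑ u ≤ kπ}`: by continuity `ϑ z = kπ`, `z > x'`, and `ϑ > kπ` on `[x', z)`, so
`(ϑ u - ϑ z)/(u - z) ≤ 0` for `u < z` close to `z`, contradicting `ϑ' z = 1`. -/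
theorem b2_cross (w : ℝ → ℝ) (q a b : ℝ) (ϑ : ℝ → ℝ)
    (h : ∀ x ∈ Icc a b, HasDerivAt ϑ (pf w q x (ϑ x)) x) (k : ℤ) (x y : ℝ) (hx : x ∈ Icc a b)
    (hy : y ∈ Icc a b) (hxy : x < y) (hk : (k : ℝ) * π ≤ ϑ x) : (k : ℝ) * π < ϑ y := by
  by_contra hcon
  rw [not_lt] at hcon
  have hsub : ∀ u ∈ Icc x y, u ∈ Icc a b := fun u hu => ⟨hx.1.trans hu.1, hu.2.trans hy.2⟩
  -- a point `x'` with a larger angle
  obtain ⟨x', hx'1, hx'2, hx'3⟩ : ∃ x', x ≤ x' ∧ x' < y ∧ (k : ℝ) * π < ϑ x' := by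
    rcases eq_or_lt_of_le hk with h1 | h1
    · have h2 := h x hx
      rw [b2_pf w q x (ϑ x) k h1.symm] at h2
      obtain ⟨ε, hε, h3⟩ := b2_slope h2 one_pos
      have hm : 0 < min ε (y - x) := lt_min hε (sub_pos.2 hxy)
      refine ⟨x + min ε (y - x) / 2, by linarith, ?_, ?_⟩
      · have := min_le_right ε (y - x)
        linarith
      · have h4 := h3 (x + min ε (y - x) / 2) (by linarith) (by
          rw [add_sub_cancel_left, abs_of_pos (by linarith)]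
          have := min_le_left ε (y - x)
          linarith)
        rw [add_sub_cancel_left, div_pos_iff_of_pos_right (by linarith)] at h4
        rw [h1]
        linarith
    · exact ⟨x, le_rfl, hxy, h1⟩
  have hcont : ContinuousOn ϑ (Icc x' y) := fun u hu =>
    (h u (hsub u ⟨hx'1.trans hu.1, hu.2⟩)).continuousAt.continuousWithinAt
  obtain ⟨s, hs⟩ : ∃ s : Set ℝ, s = Icc x' y ∩ ϑ ⁻¹' Iic ((k : ℝ) * π) := ⟨_, rfl⟩
  have hclosed : IsClosed s := by
    rw [hs]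
    exact hcont.preimage_isClosed_of_isClosed isClosed_Icc isClosed_Iic
  have hne : s.Nonempty := ⟨y, by rw [hs]; exact ⟨⟨hx'2.le, le_rfl⟩, hcon⟩⟩
  have hbdd : BddBelow s := ⟨x', fun u hu => by rw [hs] at hu; exact hu.1.1⟩
  have hz := hclosed.csInf_mem hne hbdd
  obtain ⟨z, hzd⟩ : ∃ z, z = sInf s := ⟨_, rfl⟩
  rw [← hzd] at hz
  have hz' : z ∈ Icc x' y ∧ ϑ z ≤ (k : ℝ) * π := by rw [hs] at hz; exact hz
  have hxz : x' < z := by
    rcases eq_or_lt_of_le hz'.1.1 with h1 | h1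
    · rw [← h1] at hz'
      exact absurd hz'.2 (not_le.2 hx'3)
    · exact h1
  have hlt : ∀ u, x' ≤ u → u < z → (k : ℝ) * π < ϑ u := by
    intro u hu1 hu2
    by_contra h1
    rw [not_lt] at h1
    have h2 : u ∈ s := by
      rw [hs]
      exact ⟨⟨hu1, hu2.le.trans hz'.1.2⟩, h1⟩
    have h3 := csInf_le hbdd h2
    rw [← hzd] at h3
    linarith
  have hzab : z ∈ Icc a b := hsub z ⟨hx'1.trans hz'.1.1, hz'.1.2⟩
  have hzeq : ϑ z = (k : ℝ) * π := by
    apply le_antisymm hz'.2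
    have h1 : Filter.Tendsto ϑ (nhdsWithin z (Iio z)) (nhds (ϑ z)) :=
      (h z hzab).continuousAt.continuousWithinAt
    refine ge_of_tendsto h1 ?_
    filter_upwards [Ioo_mem_nhdsLT hxz] with u hu
    exact (hlt u hu.1.le hu.2).le
  have h2 := h z hzab
  rw [b2_pf w q z (ϑ z) k hzeq] at h2
  obtain ⟨ε, hε, h3⟩ := b2_slope h2 one_pos
  have hm : 0 < min ε (z - x') := lt_min hε (sub_pos.2 hxz)
  have h4 := h3 (z - min ε (z - x') / 2) (by linarith) (by
    rw [abs_sub_comm, sub_sub_cancel, abs_of_pos (by linarith)]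
    have := min_le_left ε (z - x')
    linarith)
  have h5 := hlt (z - min ε (z - x') / 2) (by
    have := min_le_right ε (z - x')
    linarith) (by linarith)
  rw [hzeq] at h4
  have h6 : (ϑ (z - min ε (z - x') / 2) - (k : ℝ) * π) / (z - min ε (z - x') / 2 - z) ≤ 0 :=
    div_nonpos_of_nonneg_of_nonpos (by linarith) (by linarith)
  linarith

end Pool.Agent.RC
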