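import Pool.Agent.RC.Ang

set_option autoImplicit false

open MeasureTheory Set Real

namespace Pool.Agent.RC

theorem b3_sin_ne {k : ℤ} {θ : ℝ} (h1 : (k : ℝ) * π < θ) (h2 : θ < ((k : ℝ) + 1) * π) :
    sin θ ≠ 0 := by
  intro h
  obtain ⟨n, hn⟩ := Real.sin_eq_zero_iff.1 h
  rw [← hn] at h1 h2
  have h3 := lt_of_mul_lt_mul_right h1 pi_pos.le
  have h4 := lt_of_mul_lt_mul_right h2 pi_pos.le
  have h5 : k < n := by exact_mod_cast h3
  have h6 : n < k + 1 := by exact_mod_cast h4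
  omega

/-- continuity of `f² cot ϑ` at a common zero -/
theorem b3_end (w : ℝ → ℝ) (q x₀ : ℝ) (ϑ : ℝ → ℝ) (h : HasDerivAt ϑ (pf w q x₀ (ϑ x₀)) x₀)
    (f : ℝ → ℝ) (hf : DifferentiableAt ℝ f x₀) (h0 : f x₀ = 0) :
    ContinuousAt (fun x => f x ^ 2 * (cos (ϑ x) / sin (ϑ x))) x₀ := by
  by_cases hs : sin (ϑ x₀) = 0
  · have hc : cos (ϑ x₀) ^ 2 = 1 := by
      have := sin_sq_add_cos_sq (ϑ x₀)
      rw [hs] at this
      linarith
    have hp : pf w q x₀ (ϑ x₀) = 1 := by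
      unfold pf
      rw [hs, hc]
      ring
    rw [hp] at h
    have hS : HasDerivAt (fun x => sin (ϑ x)) (cos (ϑ x₀) * 1) x₀ := h.sin
    rw [mul_one] at hS
    have h1 := (hasDerivAt_iff_tendsto_slope.1 hf.hasDerivAt)
    have h2 := (hasDerivAt_iff_tendsto_slope.1 hS)
    have hc0 : cos (ϑ x₀) ≠ 0 := by
      intro h3
      rw [h3] at hc
      norm_num at hc
    have h3 : Filter.Tendsto (fun x => cos (ϑ x)) (nhdsWithin x₀ {x₀}ᶜ) (nhds (cos (ϑ x₀))) :=
      ((continuous_cos.continuousAt.comp h.continuousAt).tendsto).mono_left nhdsWithin_le_nhds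
    have h4 : Filter.Tendsto (fun x => x - x₀) (nhdsWithin x₀ {x₀}ᶜ) (nhds 0) := by
      have : Filter.Tendsto (fun x => x - x₀) (nhds x₀) (nhds (x₀ - x₀)) :=
        (continuous_id.sub continuous_const).tendsto x₀
      rw [sub_self] at this
      exact this.mono_left nhdsWithin_le_nhds
    have h5 := ((h4.mul (h1.pow 2)).mul h3).div h2 hc0
    rw [zero_mul, zero_mul, zero_div] at h5
    have h6 : ContinuousAt (fun x => f x ^ 2 * (cos (ϑ x) / sin (ϑ x))) x₀ ↔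
        Filter.Tendsto (fun x => f x ^ 2 * (cos (ϑ x) / sin (ϑ x))) (nhdsWithin x₀ {x₀}ᶜ)
          (nhds (f x₀ ^ 2 * (cos (ϑ x₀) / sin (ϑ x₀)))) := continuousAt_iff_punctured_nhds
    rw [h6, h0]
    have h7 : (0 : ℝ) ^ 2 * (cos (ϑ x₀) / sin (ϑ x₀)) = 0 := by ring
    rw [h7]
    refine h5.congr' ?_
    filter_upwards [self_mem_nhdsWithin] with x hx
    have hd : x - x₀ ≠ 0 := sub_ne_zero.2 hx
    simp only [slope_def_module, smul_eq_mul, h0, hs, sub_zero, Pi.div_apply]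
    have e : (x - x₀) * (x - x₀)⁻¹ = 1 := mul_inv_cancel₀ hd
    rw [div_eq_mul_inv, div_eq_mul_inv, mul_inv, inv_inv]
    calc (x - x₀) * ((x - x₀)⁻¹ * f x) ^ 2 * cos (ϑ x) * ((x - x₀) * (sin (ϑ x))⁻¹)
        = ((x - x₀) * (x - x₀)⁻¹) ^ 2 * (f x ^ 2 * (cos (ϑ x) * (sin (ϑ x))⁻¹)) := by ring
      _ = _ := by rw [e]; ring
  · have h1 : ContinuousAt (fun x => cos (ϑ x) / sin (ϑ x)) x₀ :=
      (continuous_cos.continuousAt.comp h.continuousAt).div
        (continuous_sin.continuousAt.comp h.continuousAt) hs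
    exact (hf.continuousAt.pow 2).mul h1

/-- [RC-B3] Jacobi's inequality between two consecutive zeros of the Prüfer solution.
PROOF. If `α = β` trivial. On `(α,β)` `sin (ϑ x) ≠ 0`; put `ρ = cos ϑ / sin ϑ`. Then
`ρ' = -ϑ'/sin²ϑ = -ρ² - (w - q)`, so
`(f² ρ)' = 2 f f' ρ - f² ρ² + (q - w) f² = f'² + (q - w) f² - (f' - f ρ)²`.
For `α < x < y < β`: `∫_x^y (f'² + (q-w) f²) ≥ f(y)²ρ(y) - f(x)²ρ(x)` (FTC `intervalIntegral.integral_eq_sub_of_hasDerivAt`
and `(f' - fρ)² ≥ 0`). Now let `x → α+`, `y → β-`: `f² ρ → 0` at both ends. At `α`: if `sin (ϑ α) ≠ 0`, `ρ` is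
continuous at `α` and `f α = 0`. If `sin (ϑ α) = 0` then `ϑ' (α) = cos² = 1`, so `x ↦ sin (ϑ x)` has derivative `cos (ϑ α) = ± 1` at
`α`, hence `|sin (ϑ x)| ≥ |x - α|/2` near `α`; and `|f x| ≤ C |x - α|` near `α` (differentiable, `f α = 0`); so
`|f² ρ| ≤ 2 C² |x - α| → 0`. The same at `β`. The left side is continuous in `x`, `y` up to the ends (the integrand is
continuous on `ℝ`). Note: `h` gives differentiability of `ϑ` on `[α,β]` (two-sided derivatives). -/
theorem b3_interval (w : ℝ → ℝ) (hw : Continuous w) (q α β : ℝ) (hαβ : α ≤ β) (ϑ : ℝ → ℝ)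
    (h : ∀ x ∈ Icc α β, HasDerivAt ϑ (pf w q x (ϑ x)) x) (k : ℤ)
    (hk : ∀ x ∈ Ioo α β, (k : ℝ) * π < ϑ x ∧ ϑ x < ((k : ℝ) + 1) * π) (f : ℝ → ℝ)
    (hf : ContDiff ℝ 1 f) (h1 : f α = 0) (h2 : f β = 0) :
    0 ≤ ∫ x in α..β, (deriv f x ^ 2 + (q - w x) * f x ^ 2) := by
  have hd : Differentiable ℝ f := hf.differentiable one_ne_zero
  have hdc : Continuous (deriv f) := hf.continuous_deriv le_rfl
  have hG : Continuous (fun x => deriv f x ^ 2 + (q - w x) * f x ^ 2) :=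
    (hdc.pow 2).add ((continuous_const.sub hw).mul (hd.continuous.pow 2))
  set G : ℝ → ℝ := fun x => deriv f x ^ 2 + (q - w x) * f x ^ 2 with hGd
  set F : ℝ → ℝ := fun x => f x ^ 2 * (cos (ϑ x) / sin (ϑ x)) with hFd
  have hI : ∀ x, HasDerivAt (fun y => ∫ t in α..y, G t) (G x) x := fun x =>
    (hG.integral_hasStrictDerivAt α x).hasDerivAt
  have hFderiv : ∀ x ∈ Ioo α β, HasDerivAt F (2 * f x * deriv f x * (cos (ϑ x) / sin (ϑ x)) +
      f x ^ 2 * (-(pf w q x (ϑ x)) / sin (ϑ x) ^ 2)) x := by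
    intro x hx
    have hs := b3_sin_ne (hk x hx).1 (hk x hx).2
    have h3 := h x (Ioo_subset_Icc_self hx)
    have h4 := ((hd x).hasDerivAt.pow 2).mul (h3.cos.div h3.sin hs)
    refine h4.congr_deriv ?_
    have h5 := sin_sq_add_cos_sq (ϑ x)
    simp only [Pi.pow_apply, Nat.cast_ofNat, Pi.div_apply]
    have h6 : -sin (ϑ x) * pf w q x (ϑ x) * sin (ϑ x) - cos (ϑ x) * (cos (ϑ x) * pf w q x (ϑ x)) =
        -(pf w q x (ϑ x)) := by
      linear_combination -(pf w q x (ϑ x)) * h5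
    rw [h6]
    ring
  have hFc : ContinuousOn F (Icc α β) := by
    intro x hx
    rcases eq_or_lt_of_le hx.1 with h3 | h3
    · subst h3
      exact (b3_end w q α ϑ (h α hx) f (hd α) h1).continuousWithinAt
    rcases eq_or_lt_of_le hx.2 with h4 | h4
    · subst h4
      exact (b3_end w q x ϑ (h x hx) f (hd x) h2).continuousWithinAt
    exact (hFderiv x ⟨h3, h4⟩).continuousAt.continuousWithinAt
  have hmono : MonotoneOn (fun x => (∫ t in α..x, G t) - F x) (Icc α β) := by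
    refine monotoneOn_of_deriv_nonneg (convex_Icc α β) ?_ ?_ ?_
    · refine ContinuousOn.sub ?_ hFc
      exact fun x _ => (hI x).continuousAt.continuousWithinAt
    · intro x hx
      rw [interior_Icc] at hx
      exact ((hI x).sub (hFderiv x hx)).differentiableAt.differentiableWithinAt
    · intro x hx
      rw [interior_Icc] at hx
      have h3 := ((hI x).sub (hFderiv x hx)).deriv
      have e : deriv (fun x => (∫ t in α..x, G t) - F x) x =
          (deriv f x - f x * (cos (ϑ x) / sin (ϑ x))) ^ 2 := by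
        refine h3.trans ?_
        have hs := b3_sin_ne (hk x hx).1 (hk x hx).2
        rw [hGd]
        simp only [pf]
        field_simp
        ring
      rw [e]
      exact sq_nonneg _
  have h3 := hmono (left_mem_Icc.2 hαβ) (right_mem_Icc.2 hαβ) hαβ
  simp only [hFd, h1, h2, intervalIntegral.integral_same] at h3
  have e1 : (0 : ℝ) - 0 ^ 2 * (cos (ϑ α) / sin (ϑ α)) = 0 := by ring
  have e2 : ((0 : ℝ) ^ 2 * (cos (ϑ β) / sin (ϑ β))) = 0 := by ring
  rw [e1, e2, sub_zero] at h3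
  exact h3

end Pool.Agent.RC
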