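import Pool.Agent.RC.B2
import Pool.Agent.RC.B3

set_option autoImplicit false

open MeasureTheory Set Real

namespace Pool.Agent.RC

theorem b4_kernel {m : ℕ} (v : Fin (m + 1) → ℝ → ℝ) (t : ℕ → ℝ) :
    ∃ c : Fin (m + 1) → ℝ, c ≠ 0 ∧ ∀ k : ℕ, 1 ≤ k → k ≤ m → lc v c (t k) = 0 := by
  let L : (Fin (m + 1) → ℝ) →ₗ[ℝ] (Fin m → ℝ) :=
    { toFun := fun c k => lc v c (t (k + 1))
      map_add' := by
        intro c d
        ext k
        simp only [lc, Pi.add_apply, add_mul, Finset.sum_add_distrib]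
      map_smul' := by
        intro r c
        ext k
        simp only [lc, Pi.smul_apply, smul_eq_mul, mul_assoc, ← Finset.mul_sum, RingHom.id_apply] }
  have h1 : LinearMap.ker L ≠ ⊥ := by
    apply LinearMap.ker_ne_bot_of_finrank_lt
    simp
  obtain ⟨c, hc, hc0⟩ := Submodule.exists_mem_ne_zero_of_ne_bot h1
  refine ⟨c, hc0, fun k hk1 hk2 => ?_⟩
  have h2 : L c = 0 := hc
  have h3 := congrFun h2 ⟨k - 1, by omega⟩
  have h4 : L c ⟨k - 1, by omega⟩ = lc v c (t ((k - 1) + 1)) := rfl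
  rw [h4, Nat.sub_add_cancel hk1] at h3
  exact h3

/-- [RC-B4] A negative space of dimension `n` forces the Prüfer angle to reach `nπ`.
PROOF. `n = 0`: `0 ≤ ϑ b` (if `a = b` trivial, otherwise `b2_cross` with `k = 0`). Let `n ≥ 1` and suppose `ϑ b < nπ`
(then `a < b` as `ϑ a = 0`).
For `k = 1, ..., n-1` put `t_k = sSup {x ∈ [a,b] | ϑ x ≤ kπ}` (the set contains `a`), and `t_0 = a`, `t_n = b`. Then
`a = t_0 ≤ t_1 ≤ ... ≤ t_n = b`; `ϑ t_k ≤ kπ` (closed set); for `x ∈ (t_k, b]` `ϑ x > kπ` (for `k = 0` by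
`b2_cross` from `ϑ a = 0`); for `x < t_{k+1}`, `x ∈ [a,b]`, `ϑ x < (k+1)π` (otherwise `ϑ t_{k+1} > (k+1)π` by `b2_cross`;
for `k + 1 = n` likewise: otherwise `ϑ b > nπ`). The linear map `ℝⁿ → ℝ^{n-1}`, `c ↦ (lc v c (t_k))_{1≤k≤n-1}` has a
nonzero kernel element `c`; put `f = lc v c`. Then `f t_k = 0` for `k = 0..n` (`f a = f b = 0` by the support hypothesis),
and `b3_interval` on `[t_k, t_{k+1}]` with level `k` gives `∫_{t_k}^{t_{k+1}} (f'² + (q-w) f²) ≥ 0`. Summing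
(`intervalIntegral.sum_integral_adjacent_intervals`), `∫_a^b ≥ 0`. Since `f = 0` outside `(a,b)`, also `deriv f = 0`
outside `[a,b]`, `hf w q f = ∫_a^b (...) ≥ 0`, contradiction with `Neg`. -/
theorem b4_count (w : ℝ → ℝ) (hw : Continuous w) (q a b : ℝ) (hab : a ≤ b) (ϑ : ℝ → ℝ)
    (h0 : ϑ a = 0) (h : ∀ x ∈ Icc a b, HasDerivAt ϑ (pf w q x (ϑ x)) x) (n : ℕ)
    (v : Fin n → ℝ → ℝ) (hv : Neg w q v) (hs : ∀ i, ∀ x ∉ Ioo a b, v i x = 0) :
    (n : ℝ) * π ≤ ϑ b := by
  have ha : a ∈ Icc a b := left_mem_Icc.2 hab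
  have hb : b ∈ Icc a b := right_mem_Icc.2 hab
  rcases Nat.eq_zero_or_pos n with hn | hn
  · subst hn
    rw [Nat.cast_zero, zero_mul]
    rcases eq_or_lt_of_le hab with h1 | h1
    · rw [← h1, h0]
    · have h2 := b2_cross w q a b ϑ h 0 a b ha hb h1 (by rw [h0]; simp)
      simp only [Int.cast_zero, zero_mul] at h2
      exact h2.le
  obtain ⟨m, rfl⟩ : ∃ m, n = m + 1 := ⟨n - 1, by omega⟩
  by_contra hcon
  rw [not_le] at hcon
  -- the points
  set S : ℕ → Set ℝ := fun k => {x | x ∈ Icc a b ∧ ϑ x ≤ (k : ℝ) * π} with hS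
  set T : ℕ → ℝ := fun k => sSup (S k) with hT
  have hcont : ContinuousOn ϑ (Icc a b) := fun x hx => (h x hx).continuousAt.continuousWithinAt
  have hSa : ∀ k, a ∈ S k := fun k => ⟨ha, by rw [h0]; positivity⟩
  have hSb : ∀ k, BddAbove (S k) := fun k => ⟨b, fun x hx => hx.1.2⟩
  have hSc : ∀ k, IsClosed (S k) := by
    intro k
    have := hcont.preimage_isClosed_of_isClosed isClosed_Icc (isClosed_Iic (a := (k : ℝ) * π))
    exact this
  have hTm : ∀ k, T k ∈ S k := fun k => (hSc k).csSup_mem ⟨a, hSa k⟩ (hSb k)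
  have hTle : ∀ k x, x ∈ S k → x ≤ T k := fun k x hx => le_csSup (hSb k) hx
  have hmono : ∀ k, T k ≤ T (k + 1) := by
    intro k
    refine hTle (k + 1) (T k) ⟨(hTm k).1, (hTm k).2.trans ?_⟩
    push_cast
    nlinarith [pi_pos]
  have hT0 : T 0 = a := by
    refine le_antisymm ?_ (hTle 0 a (hSa 0))
    by_contra h3
    rw [not_le] at h3
    have h4 := b2_cross w q a b ϑ h 0 a (T 0) ha (hTm 0).1 h3 (by rw [h0]; simp)
    have h5 := (hTm 0).2
    simp only [Int.cast_zero, Nat.cast_zero, zero_mul] at h4 h5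
    linarith
  have hTn : T (m + 1) = b :=
    le_antisymm (hTm (m + 1)).1.2 (hTle (m + 1) b ⟨hb, hcon.le⟩)
  have hlev : ∀ k, ∀ x ∈ Ioo (T k) (T (k + 1)), ((k : ℤ) : ℝ) * π < ϑ x ∧
      ϑ x < (((k : ℤ) : ℝ) + 1) * π := by
    intro k x hx
    have hxI : x ∈ Icc a b := ⟨(hTm k).1.1.trans hx.1.le, hx.2.le.trans (hTm (k + 1)).1.2⟩
    constructor
    · by_contra h3
      rw [not_lt] at h3
      have := hTle k x ⟨hxI, by exact_mod_cast h3⟩
      exact absurd hx.1 (not_lt.2 this)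
    · by_contra h3
      rw [not_lt] at h3
      have h4 := b2_cross w q a b ϑ h ((k + 1 : ℕ) : ℤ) x (T (k + 1)) hxI (hTm (k + 1)).1 hx.2
        (by push_cast; push_cast at h3; exact h3)
      have h5 := (hTm (k + 1)).2
      rw [Int.cast_natCast] at h4
      exact absurd h4 (not_lt.2 h5)
  obtain ⟨c, hc, hck⟩ := b4_kernel v T
  have hf : Tst (lc v c) := Tst.lc hv.1 c
  have hfz : ∀ x ∉ Ioo a b, lc v c x = 0 := by
    intro x hx
    unfold lc
    exact Finset.sum_eq_zero fun i _ => by rw [hs i x hx, mul_zero]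
  have hfT : ∀ k, k ≤ m + 1 → lc v c (T k) = 0 := by
    intro k hk
    rcases Nat.eq_zero_or_pos k with h3 | h3
    · rw [h3, hT0]
      exact hfz a fun h4 => lt_irrefl _ h4.1
    rcases eq_or_lt_of_le hk with h4 | h4
    · rw [h4, hTn]
      exact hfz b fun h4 => lt_irrefl _ h4.2
    exact hck k h3 (by omega)
  have hG : Continuous (fun x => deriv (lc v c) x ^ 2 + (q - w x) * lc v c x ^ 2) :=
    (hf.continuous_deriv.pow 2).add ((continuous_const.sub hw).mul (hf.continuous.pow 2))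
  have hsum := intervalIntegral.sum_integral_adjacent_intervals (μ := volume) (n := m + 1) (a := T)
    (f := fun x => deriv (lc v c) x ^ 2 + (q - w x) * lc v c x ^ 2)
    fun k _ => hG.intervalIntegrable _ _
  have hpos : 0 ≤ ∫ x in a..b, (deriv (lc v c) x ^ 2 + (q - w x) * lc v c x ^ 2) := by
    rw [← hT0, ← hTn, ← hsum]
    refine Finset.sum_nonneg fun k hk => ?_
    rw [Finset.mem_range] at hk
    refine b3_interval w hw q (T k) (T (k + 1)) (hmono k) ϑ ?_ (k : ℤ) (hlev k) (lc v c) hf.1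
      (hfT k (by omega)) (hfT (k + 1) (by omega))
    intro x hx
    exact h x ⟨(hTm k).1.1.trans hx.1, hx.2.trans (hTm (k + 1)).1.2⟩
  have hneg := hv.2 c hc
  have hderiv : ∀ x ∉ Icc a b, deriv (lc v c) x = 0 := by
    intro x hx
    have h3 : lc v c =ᶠ[nhds x] fun _ => (0 : ℝ) := by
      have h4 : (Icc a b)ᶜ ∈ nhds x := isClosed_Icc.isOpen_compl.mem_nhds hx
      filter_upwards [h4] with y hy
      exact hfz y fun h5 => hy (Ioo_subset_Icc_self h5)
    rw [h3.deriv_eq]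
    exact deriv_const x 0
  have heq : Pool.Agent.RC.hf w q (lc v c) =
      ∫ x in a..b, (deriv (lc v c) x ^ 2 + (q - w x) * lc v c x ^ 2) := by
    rw [intervalIntegral.integral_of_le hab, ← integral_Icc_eq_integral_Ioc,
      setIntegral_eq_integral_of_forall_compl_eq_zero]
    · rfl
    · intro x hx
      rw [hderiv x hx, hfz x fun h5 => hx (Ioo_subset_Icc_self h5)]
      ring
  rw [heq] at hneg
  exact absurd hneg (not_lt.2 hpos)

end Pool.Agent.RC
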