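import Mathlib

/-!
# [RC] the sharp Cwikel-Lieb-Rozenblum constant for radial potentials in dimension three

Common definitions of the project (problem MP_8d28ad_mp).  See `RC_BLUEPRINT.md`.
-/

set_option autoImplicit false

open MeasureTheory Set

namespace Pool.Agent.RC

/-! ### one-dimensional quadratic forms -/

/-- test functions on the line -/
def Tst (v : ℝ → ℝ) : Prop := ContDiff ℝ 1 v ∧ HasCompactSupport v

/-- the bilinear form of `-v'' + (q - w) v` -/
noncomputable def hB (w : ℝ → ℝ) (q : ℝ) (f g : ℝ → ℝ) : ℝ :=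
  ∫ x, (deriv f x * deriv g x + (q - w x) * (f x * g x))

/-- the quadratic form of `-v'' + (q - w) v` -/
noncomputable def hf (w : ℝ → ℝ) (q : ℝ) (v : ℝ → ℝ) : ℝ :=
  ∫ x, (deriv v x ^ 2 + (q - w x) * v x ^ 2)

/-- linear combinations -/
def lc {n : ℕ} (v : Fin n → ℝ → ℝ) (c : Fin n → ℝ) : ℝ → ℝ := fun x => ∑ i, c i * v i x

/-- the functions `v i` are test functions and the form of `-d²/dx² + q - w` is negative on all their
nontrivial linear combinations -/
def Neg (w : ℝ → ℝ) (q : ℝ) {n : ℕ} (v : Fin n → ℝ → ℝ) : Prop :=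
  (∀ i, Tst (v i)) ∧ ∀ c : Fin n → ℝ, c ≠ 0 → hf w q (lc v c) < 0

/-- continuous potentials -/
def CPot (w : ℝ → ℝ) : Prop := Continuous w ∧ (∀ x, 0 ≤ w x) ∧ HasCompactSupport w

/-- bounded measurable potentials -/
def Pot (w : ℝ → ℝ) : Prop :=
  Measurable w ∧ (∀ x, 0 ≤ w x) ∧ (∃ K, ∀ x, w x ≤ K) ∧ HasCompactSupport w

/-! ### elementary facts -/

theorem Tst.continuous {v : ℝ → ℝ} (h : Tst v) : Continuous v := h.1.continuous

theorem Tst.differentiable {v : ℝ → ℝ} (h : Tst v) : Differentiable ℝ v :=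
  h.1.differentiable one_ne_zero

theorem Tst.continuous_deriv {v : ℝ → ℝ} (h : Tst v) : Continuous (deriv v) :=
  h.1.continuous_deriv le_rfl

theorem Tst.deriv_compact {v : ℝ → ℝ} (h : Tst v) : HasCompactSupport (deriv v) := h.2.deriv

theorem Tst.zero : Tst (fun _ => 0) := ⟨contDiff_const, HasCompactSupport.zero⟩

theorem Tst.add {f g : ℝ → ℝ} (hf : Tst f) (hg : Tst g) : Tst (fun x => f x + g x) :=
  ⟨hf.1.add hg.1, hf.2.add hg.2⟩

theorem Tst.const_mul {f : ℝ → ℝ} (hf : Tst f) (c : ℝ) : Tst (fun x => c * f x) :=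
  ⟨contDiff_const.mul hf.1, hf.2.mul_left⟩

theorem Tst.sum {ι : Type*} (s : Finset ι) {f : ι → ℝ → ℝ} (hf : ∀ i ∈ s, Tst (f i)) :
    Tst (fun x => ∑ i ∈ s, f i x) := by
  classical
  induction s using Finset.induction_on with
  | empty => simpa using Tst.zero
  | insert a s ha ih =>
    have h1 := (hf a (Finset.mem_insert_self a s)).add
      (ih fun i hi => hf i (Finset.mem_insert_of_mem hi))
    simpa [Finset.sum_insert ha] using h1

theorem Tst.lc {n : ℕ} {v : Fin n → ℝ → ℝ} (hv : ∀ i, Tst (v i)) (c : Fin n → ℝ) :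
    Tst (lc v c) := Tst.sum _ fun i _ => (hv i).const_mul (c i)

theorem CPot.bdd {w : ℝ → ℝ} (h : CPot w) : ∃ K, ∀ x, w x ≤ K := by
  obtain ⟨K, hK⟩ := h.1.bounded_above_of_compact_support h.2.2
  exact ⟨K, fun x => (le_abs_self _).trans (hK x)⟩

theorem CPot.pot {w : ℝ → ℝ} (h : CPot w) : Pot w :=
  ⟨h.1.measurable, h.2.1, h.bdd, h.2.2⟩

theorem Tst.int_sq {f : ℝ → ℝ} (hf : Tst f) : Integrable (fun x => f x ^ 2) :=
  (hf.continuous.pow 2).integrable_of_hasCompactSupport
    (by simpa [pow_two] using hf.2.mul_left (f' := f))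

theorem Tst.int_mul {f g : ℝ → ℝ} (hf : Tst f) (hg : Tst g) : Integrable (fun x => f x * g x) :=
  (hf.continuous.mul hg.continuous).integrable_of_hasCompactSupport hg.2.mul_left

theorem Tst.int_deriv_mul {f g : ℝ → ℝ} (hf : Tst f) (hg : Tst g) :
    Integrable (fun x => deriv f x * deriv g x) :=
  (hf.continuous_deriv.mul hg.continuous_deriv).integrable_of_hasCompactSupport
    hg.deriv_compact.mul_left

theorem Tst.int_deriv_sq {f : ℝ → ℝ} (hf : Tst f) : Integrable (fun x => deriv f x ^ 2) := by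
  simpa [pow_two] using hf.int_deriv_mul hf

theorem Tst.int_pot_mul {f g : ℝ → ℝ} (hf : Tst f) (hg : Tst g) {w : ℝ → ℝ} (hw : Pot w) :
    Integrable (fun x => w x * (f x * g x)) := by
  obtain ⟨K, hK⟩ := hw.2.2.1
  refine (hf.int_mul hg).bdd_mul (c := K) hw.1.aestronglyMeasurable ?_
  refine Filter.Eventually.of_forall fun x => ?_
  rw [Real.norm_eq_abs, abs_of_nonneg (hw.2.1 x)]
  exact hK x

theorem Tst.int_form {f g : ℝ → ℝ} (hf : Tst f) (hg : Tst g) {w : ℝ → ℝ} (hw : Pot w) (q : ℝ) :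
    Integrable (fun x => deriv f x * deriv g x + (q - w x) * (f x * g x)) := by
  refine (hf.int_deriv_mul hg).add ?_
  have h1 : (fun x => (q - w x) * (f x * g x)) =
      fun x => q * (f x * g x) - w x * (f x * g x) := by
    ext x
    ring
  rw [h1]
  exact ((hf.int_mul hg).const_mul q).sub (hf.int_pot_mul hg hw)

theorem hf_eq_hB (w : ℝ → ℝ) (q : ℝ) (v : ℝ → ℝ) : hf w q v = hB w q v v := by
  unfold hf hB
  refine integral_congr_ae (Filter.Eventually.of_forall fun x => ?_)
  simp only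
  ring

theorem hB_comm (w : ℝ → ℝ) (q : ℝ) (f g : ℝ → ℝ) : hB w q f g = hB w q g f := by
  unfold hB
  refine integral_congr_ae (Filter.Eventually.of_forall fun x => ?_)
  simp only
  ring

theorem hf_level {f : ℝ → ℝ} (hf1 : Tst f) {w : ℝ → ℝ} (hw : Pot w) (q q' : ℝ) :
    hf w q f = hf w q' f + (q - q') * ∫ x, f x ^ 2 := by
  have h1 : Integrable (fun x => deriv f x ^ 2 + (q' - w x) * f x ^ 2) := by
    have := hf1.int_form hf1 hw q'
    refine this.congr (Filter.Eventually.of_forall fun x => ?_)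
    simp only
    ring
  unfold hf
  rw [← integral_const_mul, ← integral_add h1 (hf1.int_sq.const_mul _)]
  refine integral_congr_ae (Filter.Eventually.of_forall fun x => ?_)
  simp only
  ring

/-- A negative family at a level is negative at all lower levels. -/
theorem Neg.mono {w : ℝ → ℝ} (hw : Pot w) {q q' : ℝ} (hq : q' ≤ q) {n : ℕ} {v : Fin n → ℝ → ℝ}
    (h : Neg w q v) : Neg w q' v := by
  refine ⟨h.1, fun c hc => ?_⟩
  have h1 := h.2 c hc
  have h2 := hf_level (Tst.lc h.1 c) hw q' q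
  have h3 : 0 ≤ ∫ x, lc v c x ^ 2 := integral_nonneg fun x => sq_nonneg _
  nlinarith [mul_nonneg (sub_nonneg.2 hq) h3]

end Pool.Agent.RC
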