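import Pool.Agent.RC.Ang

set_option autoImplicit false

open MeasureTheory Set Real

namespace Pool.Agent.RC

/-- [RC-C1] `0 ≤ Z`. -/
theorem c1_Zs_nonneg (s : ℝ) : 0 ≤ Zs s := by
  unfold Zs
  positivity

/-- [RC-C1] `Z ≤ 1`: `max 0 (5 sin² - 2) ≤ 3 sin²` as `sin² ≤ 1` (`div_le_one_of_le₀`). -/
theorem c1_Zs_le_one (s : ℝ) : Zs s ≤ 1 := by
  unfold Zs
  apply div_le_one_of_le₀
  · apply max_le
    · positivity
    · nlinarith [sin_sq_add_cos_sq s, sq_nonneg (cos s)]
  · positivity

/-- [RC-C1] `Zs` vanishes where `5 sin² ≤ 2`. -/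
theorem c1_Zs_zero (s : ℝ) (h : 5 * sin s ^ 2 ≤ 2) : Zs s = 0 := by
  unfold Zs
  rw [max_eq_left (by linarith), zero_div]

/-- [RC-C1] for `sin s ≠ 0`: `max 0 (5 sin² - 2)/(3 sin²) = max 0 ((5 sin² - 2)/(3 sin²))` and
`(5 sin² - 2)/(3 sin²) = 1 - (2/3) cot²` by `sin² + cos² = 1`. -/
theorem c1_Zs_eq (s : ℝ) (h : sin s ≠ 0) : Zs s = max 0 (1 - 2 / 3 * (cos s / sin s) ^ 2) := by
  have h0 : 0 < 3 * sin s ^ 2 := by positivity
  have h1 : 1 - 2 / 3 * (cos s / sin s) ^ 2 = (5 * sin s ^ 2 - 2) / (3 * sin s ^ 2) := by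
    have : cos s ^ 2 = 1 - sin s ^ 2 := by rw [← sin_sq_add_cos_sq s]; ring
    rw [div_pow, this]
    field_simp
    ring
  unfold Zs
  rw [h1]
  rcases le_total (5 * sin s ^ 2 - 2) 0 with h2 | h2
  · rw [max_eq_left h2, max_eq_left (div_nonpos_of_nonpos_of_nonneg h2 h0.le), zero_div]
  · rw [max_eq_right h2, max_eq_right (div_nonneg h2 h0.le)]

theorem c1_Zs_alt (s : ℝ) : Zs s = max 0 (5 * sin s ^ 2 - 2) / (3 * max (sin s ^ 2) (2 / 5)) := by
  rcases le_total (sin s ^ 2) (2 / 5) with h | h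
  · rw [c1_Zs_zero s (by linarith), max_eq_left (by linarith), zero_div]
  · rw [max_eq_left h]
    rfl

/-- [RC-C1] Continuity. PROOF. `Zs s = max 0 (5 sin² s - 2) / (3 * max (sin² s) (2/5))` for all `s` (if
`sin² s < 2/5` the numerator is `0`), a quotient of continuous functions with denominator `≥ 6/5`. -/
theorem c1_Zs_continuous : Continuous Zs := by
  have h : Zs = fun s => max 0 (5 * sin s ^ 2 - 2) / (3 * max (sin s ^ 2) (2 / 5)) :=
    funext c1_Zs_alt
  rw [h]
  refine Continuous.div ?_ ?_ ?_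
  · exact continuous_const.max (((continuous_sin.pow 2).const_mul 5).sub continuous_const)
  · exact ((continuous_sin.pow 2).max continuous_const).const_mul 3
  · intro s
    have : (0 : ℝ) < max (sin s ^ 2) (2 / 5) := lt_max_of_lt_right (by norm_num)
    positivity

/-- [RC-C1] Periodicity (`sin (s + π) = - sin s`). -/
theorem c1_Zs_add_pi (s : ℝ) : Zs (s + π) = Zs s := by
  unfold Zs
  rw [sin_add_pi, neg_sq]

theorem c1_gs_add_pi (s : ℝ) : gs (s + π) = gs s := by
  unfold gs
  rw [c1_Zs_add_pi]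

/-- [RC-C1] `0 ≤ g ≤ 1`. -/
theorem c1_gs_mem (s : ℝ) : 0 ≤ gs s ∧ gs s ≤ 1 := by
  have h0 := c1_Zs_nonneg s
  have h1 := c1_Zs_le_one s
  unfold gs
  constructor
  · positivity
  · have : Zs s ^ 2 ≤ 1 := by nlinarith
    nlinarith

/-- [RC-C1] The function `g` is differentiable everywhere (also at the kinks of `Z`).
PROOF. (i) `5 sin² s < 2`: `gs` is `0` near `s` (`c1_Zs_zero`) and `dg s = 0`. (ii) `5 sin² s > 2`: near `s`,
`Zs = 1 - (2/3) (cos/sin)²` (`c1_Zs_eq`, positive there), which has derivative `(4/3) (cos/sin)/sin²`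
(`(cos/sin)' = -1/sin²`), so `gs' = (6Z + 3Z²)/4 · Z' = Z (2+Z) (cos/sin)/sin² = dg`. (iii) `5 sin² s = 2`: `Zs s = 0`,
`gs s = 0`, `dg s = 0`, and near `s`: `3 sin² u ≥ 1`, so `0 ≤ Zs u ≤ |5 sin² u - 2| = 5 |sin² u - sin² s| ≤ 10 |u - s|`,
hence `0 ≤ gs u ≤ Zs u ^ 2 ≤ 100 (u-s)²` (`hasDerivAt_iff_isLittleO`, `Asymptotics.IsBigO`/`isLittleO` of a square). -/
theorem c1_gs_deriv (s : ℝ) : HasDerivAt gs (dg s) s := by
  have hc : Continuous fun u : ℝ => 5 * sin u ^ 2 - 2 :=
    ((continuous_sin.pow 2).const_mul 5).sub continuous_const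
  rcases lt_trichotomy (5 * sin s ^ 2 - 2) 0 with h | h | h
  · have h1 : ∀ᶠ u in nhds s, gs u = (fun _ => (0 : ℝ)) u := by
      filter_upwards [hc.continuousAt.eventually (gt_mem_nhds h)] with u hu
      unfold gs
      rw [c1_Zs_zero u (by linarith)]
      norm_num
    have h2 : dg s = 0 := by
      unfold dg
      rw [c1_Zs_zero s (by linarith)]
      norm_num
    rw [h2]
    exact (hasDerivAt_const s (0 : ℝ)).congr_of_eventuallyEq h1
  · have hz : Zs s = 0 := c1_Zs_zero s (by linarith)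
    have hg : gs s = 0 := by unfold gs; rw [hz]; norm_num
    have hd : dg s = 0 := by unfold dg; rw [hz]; norm_num
    rw [hd, hasDerivAt_iff_isLittleO]
    have hb : (fun u => gs u - gs s - (u - s) • (0 : ℝ)) =O[nhds s] fun u => (u - s) ^ 2 := by
      refine Asymptotics.IsBigO.of_bound 100 ?_
      refine Filter.Eventually.of_forall fun u => ?_
      rw [hg, smul_zero, sub_zero, sub_zero, Real.norm_eq_abs, Real.norm_eq_abs,
        abs_of_nonneg (c1_gs_mem u).1, abs_of_nonneg (sq_nonneg _)]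
      have h2 : gs u ≤ Zs u ^ 2 := by
        unfold gs
        have := c1_Zs_le_one u
        nlinarith [sq_nonneg (Zs u)]
      have h3 : Zs u ≤ 10 * |u - s| := by
        have h4 : Zs u ≤ |5 * sin u ^ 2 - 2| := by
          rcases le_total (5 * sin u ^ 2 - 2) 0 with h5 | h5
          · rw [c1_Zs_zero u (by linarith)]
            exact abs_nonneg _
          · unfold Zs
            rw [max_eq_right h5, abs_of_nonneg h5]
            exact div_le_self h5 (by linarith)
        have h5 : 5 * sin u ^ 2 - 2 = 5 * ((sin u - sin s) * (sin u + sin s)) := by linarith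
        have h6 : |sin u - sin s| ≤ |u - s| := by
          have := Real.lipschitzWith_sin.dist_le_mul u s
          simpa [Real.dist_eq] using this
        have h7 : |sin u + sin s| ≤ 2 := by
          rw [abs_le]
          constructor
          · linarith [neg_one_le_sin u, neg_one_le_sin s]
          · linarith [sin_le_one u, sin_le_one s]
        calc Zs u ≤ |5 * sin u ^ 2 - 2| := h4
          _ = 5 * (|sin u - sin s| * |sin u + sin s|) := by
              rw [h5, abs_mul, abs_mul, abs_of_nonneg (by norm_num : (0:ℝ) ≤ 5)]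
          _ ≤ 5 * (|u - s| * 2) := by gcongr
          _ = 10 * |u - s| := by ring
      have h4 := c1_Zs_nonneg u
      calc gs u ≤ Zs u ^ 2 := h2
        _ ≤ (10 * |u - s|) ^ 2 := by gcongr
        _ = 100 * (u - s) ^ 2 := by rw [mul_pow, sq_abs]; norm_num
    refine hb.trans_isLittleO ?_
    have h1 := Asymptotics.isLittleO_pow_sub_sub s (by norm_num : 1 < 2)
    simpa only [Real.norm_eq_abs, sq_abs] using h1
  · have hs : sin s ≠ 0 := by
      intro h0
      rw [h0] at h
      norm_num at h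
    have h1 : ∀ᶠ u in nhds s, gs u = (fun u => ((5 * sin u ^ 2 - 2) / (3 * sin u ^ 2)) ^ 2 *
        (3 + (5 * sin u ^ 2 - 2) / (3 * sin u ^ 2)) / 4) u := by
      filter_upwards [hc.continuousAt.eventually (lt_mem_nhds h)] with u hu
      unfold gs Zs
      rw [max_eq_right hu.le]
    have hz : Zs s = (5 * sin s ^ 2 - 2) / (3 * sin s ^ 2) := by
      unfold Zs
      rw [max_eq_right h.le]
    have h2 : HasDerivAt (fun u => (5 * sin u ^ 2 - 2) / (3 * sin u ^ 2))
        (4 / 3 * (cos s / sin s) / sin s ^ 2) s := by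
      have h3 : HasDerivAt (fun u => sin u ^ 2) (2 * sin s * cos s) s := by
        simpa using (hasDerivAt_sin s).fun_pow 2
      have h4 := ((h3.const_mul 5).sub_const 2).div (h3.const_mul 3) (by positivity)
      refine h4.congr_deriv ?_
      field_simp
      ring
    have h3 := ((h2.pow 2).mul (h2.const_add 3)).div_const 4
    refine (h3.congr_deriv ?_).congr_of_eventuallyEq h1
    unfold dg
    rw [hz]
    simp only [Pi.pow_apply]
    push_cast
    ring

end Pool.Agent.RC
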