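import Pool.Agent.RC.C1

set_option autoImplicit false

open MeasureTheory Set Real

namespace Pool.Agent.RC

/-- [RC-C2] -/
theorem c2_da_nonneg (s : ℝ) : 0 ≤ da s := by
  have := c1_Zs_nonneg s
  unfold da
  positivity

theorem c2_da_alt (s : ℝ) : da s = Zs s * (2 / 5 + Zs s / 8) / max (sin s ^ 2) (2 / 5) := by
  unfold da
  rcases le_total (sin s ^ 2) (2 / 5) with h | h
  · rw [c1_Zs_zero s (by linarith), zero_mul, zero_div, zero_div]
  · rw [max_eq_left h]

/-- [RC-C2] PROOF. `da s = Zs s * (2/5 + Zs s/8) / max (sin² s) (2/5)` for all `s` (`Zs s = 0` if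
`5 sin² s ≤ 2`, `c1_Zs_zero`), and `Zs` is continuous. -/
theorem c2_da_continuous : Continuous da := by
  have h : da = fun s => Zs s * (2 / 5 + Zs s / 8) / max (sin s ^ 2) (2 / 5) :=
    funext c2_da_alt
  rw [h]
  refine Continuous.div ?_ ?_ ?_
  · exact c1_Zs_continuous.mul (continuous_const.add (c1_Zs_continuous.div_const 8))
  · exact (continuous_sin.pow 2).max continuous_const
  · intro s
    exact (lt_max_of_lt_right (by norm_num) : (0 : ℝ) < max (sin s ^ 2) (2 / 5)).ne'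

/-- [RC-C2] fundamental theorem of calculus (`Continuous.deriv_integral`, `intervalIntegral.integral_hasDerivAt_right`). -/
theorem c2_aa_deriv (s : ℝ) : HasDerivAt aa (da s) s := by
  exact intervalIntegral.integral_hasDerivAt_right (c2_da_continuous.intervalIntegrable 0 s)
    (c2_da_continuous.stronglyMeasurableAtFilter _ _) c2_da_continuous.continuousAt

theorem c2_aa_zero : aa 0 = 0 := by
  unfold aa
  exact intervalIntegral.integral_same

/-- [RC-C2] monotone, as `da ≥ 0` (`monotone_of_deriv_nonneg`). -/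
theorem c2_aa_mono : Monotone aa := by
  refine monotone_of_deriv_nonneg (fun s => (c2_aa_deriv s).differentiableAt) fun s => ?_
  rw [(c2_aa_deriv s).deriv]
  exact c2_da_nonneg s

theorem c2_periodic : Function.Periodic da π := by
  intro s
  unfold da
  rw [c1_Zs_add_pi, sin_add_pi, neg_sq]

/-- The primitive of `da` in terms of `θ = -cos s / sin s`. -/
noncomputable def c2_A (θ : ℝ) : ℝ :=
  2 / 5 * (θ - 2 / 9 * θ ^ 3) + 1 / 8 * (θ - 4 / 9 * θ ^ 3 + 4 / 45 * θ ^ 5)

theorem c2_A_deriv (θ : ℝ) : HasDerivAt c2_A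
    ((1 - 2 / 3 * θ ^ 2) * (2 / 5 + (1 - 2 / 3 * θ ^ 2) / 8)) θ := by
  have h1 : HasDerivAt (fun θ : ℝ => θ ^ 3) (3 * θ ^ 2) θ := by
    simpa using hasDerivAt_pow 3 θ
  have h2 : HasDerivAt (fun θ : ℝ => θ ^ 5) (5 * θ ^ 4) θ := by
    simpa using hasDerivAt_pow 5 θ
  have h3 := (((hasDerivAt_id θ).sub (h1.const_mul (2 / 9))).const_mul (2 / 5)).add
    ((((hasDerivAt_id θ).sub (h1.const_mul (4 / 9))).add (h2.const_mul (4 / 45))).const_mul (1 / 8))
  refine h3.congr_deriv ?_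
  ring

/-- `s₀`, where `sin² s₀ = 2/5`. -/
noncomputable def c2_s0 : ℝ := arctan (√(2 / 3))

theorem c2_s0_pos : 0 < c2_s0 := by
  unfold c2_s0
  rw [← arctan_zero]
  exact arctan_strictMono (by positivity)

theorem c2_s0_lt : c2_s0 < π / 2 := arctan_lt_pi_div_two _

theorem c2_cos_s0 : cos c2_s0 = √(3 / 5) := by
  unfold c2_s0
  rw [cos_arctan, sq_sqrt (by norm_num), show (1 : ℝ) + 2 / 3 = (3 / 5)⁻¹ by norm_num, sqrt_inv,
    one_div, inv_inv]

theorem c2_sin_s0 : sin c2_s0 = √(2 / 5) := by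
  have h0 : 0 ≤ sin c2_s0 := sin_nonneg_of_nonneg_of_le_pi c2_s0_pos.le (by linarith [c2_s0_lt, pi_pos])
  have h1 : sin c2_s0 ^ 2 = 2 / 5 := by
    have := sin_sq_add_cos_sq c2_s0
    rw [c2_cos_s0, sq_sqrt (by norm_num)] at this
    linarith
  rw [← h1, sqrt_sq h0]

theorem c2_int1 : ∫ u in (0 : ℝ)..c2_s0, da u = 0 := by
  have : ∫ u in (0 : ℝ)..c2_s0, da u = ∫ u in (0 : ℝ)..c2_s0, (0 : ℝ) := by
    refine intervalIntegral.integral_congr fun u hu => ?_
    rw [uIcc_of_le c2_s0_pos.le] at hu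
    have h1 : sin u ≤ sin c2_s0 :=
      sin_le_sin_of_le_of_le_pi_div_two (by linarith [hu.1, pi_pos]) c2_s0_lt.le hu.2
    have h2 : 0 ≤ sin u :=
      sin_nonneg_of_nonneg_of_le_pi hu.1 (by linarith [hu.2, c2_s0_lt, pi_pos])
    have h3 : sin u ^ 2 ≤ 2 / 5 := by
      have : sin u ^ 2 ≤ sin c2_s0 ^ 2 := by gcongr
      rwa [c2_sin_s0, sq_sqrt (by norm_num)] at this
    change da u = 0
    unfold da
    rw [c1_Zs_zero u (by linarith), zero_mul, zero_div]
  rw [this, intervalIntegral.integral_zero]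

theorem c2_int3 : ∫ u in (π - c2_s0)..π, da u = 0 := by
  have h : ∀ u, da (π - u) = da u := by
    intro u
    unfold da Zs
    rw [sin_pi_sub]
  have := intervalIntegral.integral_comp_sub_left (a := 0) (b := c2_s0) (fun u => da u) π
  rw [sub_zero] at this
  rw [← this]
  simp only [h]
  exact c2_int1

theorem c2_int2 : ∫ u in c2_s0..(π - c2_s0), da u = √6 / 3 := by
  have hle : c2_s0 ≤ π - c2_s0 := by linarith [c2_s0_lt]
  have hd : ∀ u ∈ uIcc c2_s0 (π - c2_s0),
      HasDerivAt (fun u => c2_A (-(cos u / sin u))) (da u) u := by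
    intro u hu
    rw [uIcc_of_le hle] at hu
    have h0 := c2_s0_pos
    have h1 : √(2 / 5) ≤ sin u := by
      rw [← c2_sin_s0]
      rcases le_total u (π / 2) with h | h
      · exact sin_le_sin_of_le_of_le_pi_div_two (by linarith [pi_pos]) h hu.1
      · rw [← sin_pi_sub u]
        exact sin_le_sin_of_le_of_le_pi_div_two (by linarith [pi_pos]) (by linarith)
          (by linarith [hu.2])
    have hs : 0 < sin u := lt_of_lt_of_le (by positivity) h1
    have h2 : 2 / 5 ≤ sin u ^ 2 := by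
      have : √(2 / 5) ^ 2 ≤ sin u ^ 2 := by gcongr
      rwa [sq_sqrt (by norm_num)] at this
    have h3 : HasDerivAt (fun u => -(cos u / sin u)) (1 / sin u ^ 2) u := by
      refine ((hasDerivAt_cos u).div (hasDerivAt_sin u) hs.ne').neg.congr_deriv ?_
      have : sin u * sin u + cos u * cos u = 1 := by
        have := sin_sq_add_cos_sq u
        nlinarith
      field_simp
      linarith
    have h4 := (c2_A_deriv (-(cos u / sin u))).comp u h3
    refine h4.congr_deriv ?_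
    have hz : Zs u = 1 - 2 / 3 * (cos u / sin u) ^ 2 := by
      unfold Zs
      rw [max_eq_right (by linarith)]
      have : cos u ^ 2 = 1 - sin u ^ 2 := by rw [← sin_sq_add_cos_sq u]; ring
      rw [div_pow, this]
      field_simp
      ring
    unfold da
    rw [hz, neg_sq]
    ring
  rw [intervalIntegral.integral_eq_sub_of_hasDerivAt hd
    (c2_da_continuous.intervalIntegrable _ _)]
  have hθ : cos c2_s0 / sin c2_s0 = √6 / 2 := by
    rw [c2_cos_s0, c2_sin_s0, ← sqrt_div (by norm_num),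
      show (3 / 5 : ℝ) / (2 / 5) = 6 / 2 ^ 2 by norm_num, sqrt_div (by norm_num),
      sqrt_sq (by norm_num)]
  rw [cos_pi_sub, sin_pi_sub, neg_div, neg_neg, hθ]
  have h6 : √6 ^ 2 = 6 := sq_sqrt (by norm_num)
  have h63 : √6 ^ 3 = 6 * √6 := by rw [pow_succ, h6]
  have h65 : √6 ^ 5 = 36 * √6 := by
    have : √6 ^ 5 = √6 ^ 2 * √6 ^ 2 * √6 := by ring
    rw [this, h6]
    norm_num
  unfold c2_A
  rw [div_pow, div_pow, neg_div', div_pow, div_pow]
  have e3 : (-√6) ^ 3 = -(6 * √6) := by rw [← h63]; ring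
  have e5 : (-√6) ^ 5 = -(36 * √6) := by rw [← h65]; ring
  rw [e3, e5, h63, h65]
  ring

/-- [RC-C2] PROOF. `da` is `π`-periodic (`c1_Zs_add_pi`, `sin (s+π)^2 = sin s ^2`), so
`aa (s+π) - aa s = ∫_s^{s+π} da = ∫_0^π da` (`Function.Periodic.intervalIntegral_add_eq`). Value: let `θ₀ = √(3/2)`,
`s₀ = arctan (√(2/3))`, so `cot s₀ = θ₀`, `sin² s₀ = 2/5`. On `[0,s₀]` and `[π-s₀,π]` `sin² ≤ 2/5`, so `da = 0`. On
`[s₀, π - s₀]`, with `θ = -cos s / sin s` (derivative `1/sin² s`), `Zs s = 1 - 2θ²/3` (as `θ² ≤ 3/2`) and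
`A(θ) = (2/5) (θ - (2/9) θ³) + (1/8) (θ - (4/9) θ³ + (4/45) θ⁵)` one has `d/ds A(θ(s)) = da s`
(`intervalIntegral.integral_eq_sub_of_hasDerivAt`), so the integral is `A(θ₀) - A(-θ₀) = 2 A(θ₀)`
`= 2 θ₀ ((2/5)(2/3) + (1/8)(8/15)) = (2/3) θ₀ = √6/3` (`θ₀² = 3/2`). -/
theorem c2_aa_add_pi (s : ℝ) : aa (s + π) = aa s + √6 / 3 := by
  have hi : ∀ a b : ℝ, IntervalIntegrable da volume a b := fun a b =>
    c2_da_continuous.intervalIntegrable a b
  have h1 : ∫ u in (0 : ℝ)..π, da u = √6 / 3 := by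
    rw [← intervalIntegral.integral_add_adjacent_intervals (hi 0 c2_s0) (hi c2_s0 π),
      ← intervalIntegral.integral_add_adjacent_intervals (hi c2_s0 (π - c2_s0))
        (hi (π - c2_s0) π), c2_int1, c2_int2, c2_int3]
    ring
  have h2 : ∫ u in s..(s + π), da u = ∫ u in (0 : ℝ)..(0 + π), da u :=
    c2_periodic.intervalIntegral_add_eq s 0
  unfold aa
  rw [← intervalIntegral.integral_add_adjacent_intervals (hi 0 s) (hi s (s + π)), h2, zero_add, h1]

end Pool.Agent.RC
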