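import Pool.Agent.RC.Ang

set_option autoImplicit false

open MeasureTheory Set Real

namespace Pool.Agent.RC

/-- [RC-C3] -/
theorem c3_db_nonneg (t : ℝ) : 0 ≤ db t := by
  unfold db
  positivity

/-- [RC-C3] `db` vanishes where `5 sin² ≤ 4` (there `cot² ≥ 1/4`, or `sin t = 0`). -/
theorem c3_db_zero (t : ℝ) (h : 5 * sin t ^ 2 ≤ 4) : db t = 0 := by
  unfold db
  by_cases hs : sin t = 0
  · rw [hs]
    simp
  · have h0 : 0 < sin t ^ 2 := by positivity
    have h1 : 1 / 4 - (cos t / sin t) ^ 2 ≤ 0 := by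
      rw [div_pow, sub_nonpos, le_div_iff₀ h0, cos_sq']
      linarith
    rw [Real.sqrt_eq_zero_of_nonpos h1, zero_div]

theorem c3_db_form (t : ℝ) : db t = √(max 0 (5 * sin t ^ 2 - 4) / (4 * max (sin t ^ 2) (4 / 5))) /
    max (sin t ^ 2) (4 / 5) := by
  rcases le_total (5 * sin t ^ 2) 4 with h | h
  · rw [c3_db_zero t h, max_eq_left (by linarith), zero_div, Real.sqrt_zero, zero_div]
  · have h0 : 0 < sin t ^ 2 := by linarith
    rw [max_eq_right (by linarith), max_eq_left (by linarith)]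
    unfold db
    have h1 : 1 / 4 - (cos t / sin t) ^ 2 = (5 * sin t ^ 2 - 4) / (4 * sin t ^ 2) := by
      rw [div_pow, cos_sq', div_sub_div _ _ (by norm_num) h0.ne']
      congr 1
      ring
    rw [h1]

/-- [RC-C3] PROOF. For `sin t ≠ 0`, `1/4 - cot² t = (5 sin² t - 4)/(4 sin² t)`. So for all `t`
`db t = √(max 0 (5 sin² t - 4) / (4 max (sin² t) (4/5))) / max (sin² t) (4/5)` (both sides are `0` if `5 sin² t ≤ 4`), a
composition of continuous functions. -/
theorem c3_db_continuous : Continuous db := by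
  have h : db = fun t => √(max 0 (5 * sin t ^ 2 - 4) / (4 * max (sin t ^ 2) (4 / 5))) /
      max (sin t ^ 2) (4 / 5) := funext c3_db_form
  rw [h]
  have hm : ∀ t : ℝ, 0 < max (sin t ^ 2) (4 / 5) := fun t => lt_max_of_lt_right (by norm_num)
  refine Continuous.div ?_ ?_ fun t => (hm t).ne'
  · refine Real.continuous_sqrt.comp ?_
    refine Continuous.div ?_ ?_ fun t => ?_
    · fun_prop
    · fun_prop
    · have := hm t
      positivity
  · fun_prop

/-- [RC-C3] fundamental theorem of calculus. -/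
theorem c3_bb_deriv (t : ℝ) : HasDerivAt bb (db t) t :=
  (c3_db_continuous.integral_hasStrictDerivAt 0 t).hasDerivAt

theorem c3_bb_zero : bb 0 = 0 := by
  unfold bb
  exact intervalIntegral.integral_same

theorem c3_bb_mono : Monotone bb := by
  refine monotone_of_deriv_nonneg (fun t => (c3_bb_deriv t).differentiableAt) fun t => ?_
  rw [(c3_bb_deriv t).deriv]
  exact c3_db_nonneg t

theorem c3_cont_sqrt : Continuous fun u : ℝ => √(1 / 4 - u ^ 2) := by fun_prop

/-- [RC-C3] `∫_0^{1/2} √(1/4 - u²) du = π/16`.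
PROOF. `∫_{-1}^{1} √(1-x²) dx = π/2` is `integral_sqrt_one_sub_sq`; half of it by evenness
(`intervalIntegral.integral_comp_neg` ...) is `π/4 = ∫_0^1`; scaling `u = x/2` (`intervalIntegral.integral_comp_div` or
`integral_comp_mul_left`): `∫_0^{1/2} √(1/4 - u²) du = (1/4) ∫_0^1 √(1-x²) dx`. -/
theorem c3_quarter : ∫ u in (0 : ℝ)..(1 / 2), √(1 / 4 - u ^ 2) = π / 16 := by
  have h1 : ∫ x in (-1 : ℝ)..1, √(1 - x ^ 2) = π / 2 := integral_sqrt_one_sub_sq
  have hc : Continuous fun x : ℝ => √(1 - x ^ 2) := by fun_prop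
  have h2 : ∫ x in (-1 : ℝ)..0, √(1 - x ^ 2) = ∫ x in (0 : ℝ)..1, √(1 - x ^ 2) := by
    have h3 := intervalIntegral.integral_comp_neg (a := 0) (b := 1) (fun x : ℝ => √(1 - x ^ 2))
    rw [neg_zero] at h3
    rw [← h3]
    refine intervalIntegral.integral_congr fun x _ => ?_
    simp only [neg_sq]
  have h3 : ∫ x in (0 : ℝ)..1, √(1 - x ^ 2) = π / 4 := by
    rw [← intervalIntegral.integral_add_adjacent_intervals (hc.intervalIntegrable (-1) 0)
      (hc.intervalIntegrable 0 1), h2] at h1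
    linarith
  have h4 := intervalIntegral.integral_comp_div (a := 0) (b := 1) (c := 2)
    (fun u : ℝ => √(1 / 4 - u ^ 2)) two_ne_zero
  rw [zero_div, smul_eq_mul] at h4
  have h5 : ∫ x in (0 : ℝ)..1, √(1 / 4 - (x / 2) ^ 2) = 1 / 2 * ∫ x in (0 : ℝ)..1, √(1 - x ^ 2) := by
    rw [← intervalIntegral.integral_const_mul]
    refine intervalIntegral.integral_congr fun x _ => ?_
    have e : 1 / 4 - (x / 2) ^ 2 = (1 / 2) ^ 2 * (1 - x ^ 2) := by ring
    rw [e, Real.sqrt_mul (by norm_num), Real.sqrt_sq (by norm_num)]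
  rw [h5, h3] at h4
  linarith

theorem c3_quarter_neg : ∫ u in (0 : ℝ)..(-(1 / 2)), √(1 / 4 - u ^ 2) = -(π / 16) := by
  rw [← c3_quarter, intervalIntegral.integral_symm]
  congr 1
  have h3 := intervalIntegral.integral_comp_neg (a := 0) (b := 1 / 2) (fun x : ℝ => √(1 / 4 - x ^ 2))
  rw [neg_zero] at h3
  rw [← h3]
  refine intervalIntegral.integral_congr fun x _ => ?_
  simp only [neg_sq]

theorem c3_cot_deriv (t : ℝ) (h : sin t ≠ 0) :
    HasDerivAt (fun t : ℝ => -(cos t / sin t)) (1 / sin t ^ 2) t := by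
  have h1 := ((hasDerivAt_cos t).div (hasDerivAt_sin t) h).neg
  refine h1.congr_deriv ?_
  have h2 := sin_sq_add_cos_sq t
  field_simp
  linear_combination h2

/-- [RC-C3] PROOF. Let `t₀ = arctan 2 ∈ (0, π/2)`, `cot t₀ = 1/2`. On `(0,π)` the function
`R t = π/16 + ∫_0^{-cot t} √(1/4-u²) du` has derivative `√(1/4 - cot² t) / sin² t = db t` (the integrand is continuous in `u`,
chain rule with `(-cot)' = 1/sin²`), as `bb` does. So `bb - R` is constant on `(0,π)`
(`is_const_of_deriv_eq_zero` on an open interval, or `Convex.is_const_of_...`/`constant_of_has_deriv_right_zero`). At `t₀`: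
`bb t₀ = ∫_0^{t₀} db = 0` because `sin² t ≤ sin² t₀ = 4/5` on `[0,t₀]` (`c3_db_zero`), and
`R t₀ = π/16 + ∫_0^{-1/2} √(1/4-u²) = π/16 - π/16 = 0` (`c3_quarter` and evenness). -/
theorem c3_bb_eq (t : ℝ) (ht : t ∈ Ioo 0 π) :
    bb t = π / 16 + ∫ u in (0 : ℝ)..(-(cos t / sin t)), √(1 / 4 - u ^ 2) := by
  have hder : ∀ x ∈ Ioo 0 π, HasDerivAt (fun s : ℝ => bb s - ∫ u in (0 : ℝ)..(-(cos s / sin s)),
      √(1 / 4 - u ^ 2)) 0 x := by
    intro x hx
    have hs : sin x ≠ 0 := (sin_pos_of_mem_Ioo hx).ne'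
    have h1 : HasDerivAt (fun y : ℝ => ∫ u in (0 : ℝ)..y, √(1 / 4 - u ^ 2))
        (√(1 / 4 - (-(cos x / sin x)) ^ 2)) (-(cos x / sin x)) :=
      (c3_cont_sqrt.integral_hasStrictDerivAt 0 _).hasDerivAt
    have h2 := HasDerivAt.comp (h := fun s : ℝ => -(cos s / sin s))
      (h₂ := fun y : ℝ => ∫ u in (0 : ℝ)..y, √(1 / 4 - u ^ 2)) x h1 (c3_cot_deriv x hs)
    have h3 := (c3_bb_deriv x).sub h2
    refine h3.congr_deriv ?_
    unfold db
    rw [neg_sq]
    ring
  have ht0 : 0 < arctan 2 := by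
    rw [← arctan_zero]
    exact arctan_strictMono (by norm_num)
  have ht1 : arctan 2 < π / 2 := arctan_lt_pi_div_two 2
  have hsq : √(1 + (2 : ℝ) ^ 2) ≠ 0 := by positivity
  have hcot : cos (arctan 2) / sin (arctan 2) = 1 / 2 := by
    rw [cos_arctan, sin_arctan]
    field_simp
  have hsin : sin (arctan 2) ^ 2 = 4 / 5 := by
    rw [sin_arctan, div_pow, Real.sq_sqrt (by positivity)]
    norm_num
  have hmem : arctan 2 ∈ Ioo 0 π := ⟨ht0, by linarith [pi_pos]⟩
  have hbb0 : bb (arctan 2) = 0 := by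
    unfold bb
    have h1 : ∫ u in (0 : ℝ)..(arctan 2), db u = ∫ u in (0 : ℝ)..(arctan 2), (0 : ℝ) := by
      refine intervalIntegral.integral_congr fun u hu => ?_
      rw [uIcc_of_le ht0.le] at hu
      apply c3_db_zero
      have h2 : sin u ≤ sin (arctan 2) :=
        sin_le_sin_of_le_of_le_pi_div_two (by linarith [hu.1, pi_pos]) ht1.le hu.2
      have h3 : 0 ≤ sin u := sin_nonneg_of_nonneg_of_le_pi hu.1 (by linarith [hu.2, pi_pos])
      have h4 : sin u ^ 2 ≤ sin (arctan 2) ^ 2 := pow_le_pow_left₀ h3 h2 2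
      rw [hsin] at h4
      linarith
    rw [h1, intervalIntegral.integral_zero]
  have hconst : (fun s : ℝ => bb s - ∫ u in (0 : ℝ)..(-(cos s / sin s)), √(1 / 4 - u ^ 2)) t =
      (fun s : ℝ => bb s - ∫ u in (0 : ℝ)..(-(cos s / sin s)), √(1 / 4 - u ^ 2)) (arctan 2) := by
    refine IsOpen.is_const_of_deriv_eq_zero isOpen_Ioo isPreconnected_Ioo
      (fun x hx => (hder x hx).differentiableAt.differentiableWithinAt) ?_ ht hmem
    intro x hx
    rw [(hder x hx).deriv]
    rfl
  simp only at hconst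
  rw [hbb0, hcot, c3_quarter_neg] at hconst
  linarith

theorem c3_db_periodic : Function.Periodic db π := by
  intro t
  unfold db
  rw [sin_add_pi, cos_add_pi, neg_div_neg_eq, neg_sq]

/-- [RC-C3] PROOF. `db` is `π`-periodic, so `bb (t+π) - bb t = ∫_0^π db = bb π`. For `t ∈ (0,π)` near `π`, `-cot t ≥ 1/2`, so by
`c3_bb_eq` and `c3_quarter` `bb t = π/16 + π/16` (the integrand vanishes for `u ≥ 1/2`); `bb` is continuous, so `bb π = π/8`
(or: `bb π - bb (π - t₀) = ∫ db = 0`). -/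
theorem c3_bb_add_pi (t : ℝ) : bb (t + π) = bb t + π / 8 := by
  have hint : ∀ a b : ℝ, IntervalIntegrable db volume a b := fun a b =>
    c3_db_continuous.intervalIntegrable a b
  have h1 : bb (t + π) = bb t + ∫ u in t..(t + π), db u := by
    unfold bb
    rw [intervalIntegral.integral_add_adjacent_intervals (hint _ _) (hint _ _)]
  have h2 : ∫ u in t..(t + π), db u = bb π := by
    rw [c3_db_periodic.intervalIntegral_add_eq t 0, zero_add]
    rfl
  have ht0 : 0 < arctan 2 := by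
    rw [← arctan_zero]
    exact arctan_strictMono (by norm_num)
  have ht1 : arctan 2 < π / 2 := arctan_lt_pi_div_two 2
  have hsq : √(1 + (2 : ℝ) ^ 2) ≠ 0 := by positivity
  have hcot : cos (π - arctan 2) / sin (π - arctan 2) = -(1 / 2) := by
    rw [cos_pi_sub, sin_pi_sub, cos_arctan, sin_arctan]
    field_simp
  have hsin : sin (arctan 2) ^ 2 = 4 / 5 := by
    rw [sin_arctan, div_pow, Real.sq_sqrt (by positivity)]
    norm_num
  have h3 : bb (π - arctan 2) = π / 8 := by
    rw [c3_bb_eq (π - arctan 2) ⟨by linarith [pi_pos], by linarith⟩, hcot, neg_neg, c3_quarter]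
    ring
  have h4 : bb π = bb (π - arctan 2) + ∫ u in (π - arctan 2)..π, db u := by
    unfold bb
    rw [intervalIntegral.integral_add_adjacent_intervals (hint _ _) (hint _ _)]
  have h5 : ∫ u in (π - arctan 2)..π, db u = ∫ u in (π - arctan 2)..π, (0 : ℝ) := by
    refine intervalIntegral.integral_congr fun u hu => ?_
    rw [uIcc_of_le (by linarith)] at hu
    apply c3_db_zero
    have h6 : sin (π - u) ≤ sin (arctan 2) :=
      sin_le_sin_of_le_of_le_pi_div_two (by linarith [hu.2, pi_pos]) ht1.le (by linarith [hu.1])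
    have h7 : 0 ≤ sin (π - u) :=
      sin_nonneg_of_nonneg_of_le_pi (by linarith [hu.2]) (by linarith [hu.1, pi_pos])
    have h8 : sin (π - u) ^ 2 ≤ sin (arctan 2) ^ 2 := pow_le_pow_left₀ h7 h6 2
    rw [sin_pi_sub, hsin] at h8
    linarith
  rw [h1, h2, h4, h3, h5, intervalIntegral.integral_zero, add_zero]

end Pool.Agent.RC
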