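import Pool.Agent.RC.C3

set_option autoImplicit false

open MeasureTheory Set Real

namespace Pool.Agent.RC

/-- [RC-C4] periodicity, from `c3_bb_add_pi`. -/
theorem c4_D_add_pi (t : ℝ) : Dt (t + π) = Dt t := by
  unfold Dt
  rw [c3_bb_add_pi]
  ring

/-- [RC-C4] `D = 0` at the multiples of `π` (`Real.sin_eq_zero_iff`, periodicity, `Dt 0 = 0`). -/
theorem c4_D_sin (t : ℝ) (h : sin t = 0) : Dt t = 0 := by
  obtain ⟨n, rfl⟩ := Real.sin_eq_zero_iff.1 h
  have hp : Function.Periodic Dt π := c4_D_add_pi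
  rw [hp.int_mul_eq n]
  unfold Dt
  rw [c3_bb_zero]
  ring

/-- the primitive of `√(1/4 - u²)` -/
noncomputable def c4_b (φ : ℝ) : ℝ := ∫ u in (0 : ℝ)..φ, √(1 / 4 - u ^ 2)

/-- `D` as a function of `φ` -/
noncomputable def c4_F (φ : ℝ) : ℝ := c4_b φ - arctan φ / 8

theorem c4_D_F (t : ℝ) (ht : t ∈ Ioo 0 π) : Dt t = c4_F (-(cos t / sin t)) := by
  have h1 : tan (t - π / 2) = -(cos t / sin t) := by
    rw [tan_eq_sin_div_cos, sin_sub_pi_div_two, cos_sub_pi_div_two, neg_div]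
  have h2 : arctan (-(cos t / sin t)) = t - π / 2 := by
    rw [← h1]
    exact arctan_tan (by linarith [ht.1]) (by linarith [ht.2])
  unfold Dt c4_F c4_b
  rw [c3_bb_eq t ht, h2]
  ring

theorem c4_F_eq (φ : ℝ) :
    c4_F φ = ∫ u in (0 : ℝ)..φ, (√(1 / 4 - u ^ 2) - 1 / (8 * (1 + u ^ 2))) := by
  have hne : ∀ u : ℝ, 8 * (1 + u ^ 2) ≠ 0 := fun u => by positivity
  have hc : Continuous fun u : ℝ => 1 / (8 * (1 + u ^ 2)) :=
    Continuous.div continuous_const (by fun_prop) hne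
  rw [intervalIntegral.integral_sub (c3_cont_sqrt.intervalIntegrable _ _)
    (hc.intervalIntegrable _ _)]
  unfold c4_F c4_b
  congr 1
  have h1 : ∫ u in (0 : ℝ)..φ, 1 / (8 * (1 + u ^ 2)) = ∫ u in (0 : ℝ)..φ, 1 / 8 * (1 / (1 + u ^ 2)) := by
    refine intervalIntegral.integral_congr fun u _ => ?_
    have : 1 + u ^ 2 ≠ 0 := by positivity
    field_simp
  rw [h1, intervalIntegral.integral_const_mul, integral_one_div_one_add_sq, arctan_zero]
  ring

/-- [RC-C4] The function `D` in the variable `φ = -cot t`: for `t ∈ (0,π)`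
`D = ∫_0^φ (√(1/4-u²) - 1/(8(1+u²))) du`.
PROOF. `c3_bb_eq`; `t = π/2 + arctan φ` for `t ∈ (0,π)` (`Real.arctan_tan` at `t - π/2 ∈ (-π/2,π/2)`,
`tan (t - π/2) = -cot t`), `arctan φ = ∫_0^φ 1/(1+u²)` (`integral_inv_one_add_sq` or
`integral_one_div_one_add_sq`). -/
theorem c4_D_eq (t : ℝ) (ht : t ∈ Ioo 0 π) :
    Dt t = ∫ u in (0 : ℝ)..(-(cos t / sin t)), (√(1 / 4 - u ^ 2) - 1 / (8 * (1 + u ^ 2))) := by
  rw [c4_D_F t ht, c4_F_eq]

/-- reduction to `(0, π)` -/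
theorem c4_red (t : ℝ) (h : sin t ≠ 0) : ∃ s ∈ Ioo 0 π, Dt s = Dt t ∧
    cos s / sin s = cos t / sin t := by
  have hp : Function.Periodic Dt π := c4_D_add_pi
  set n : ℤ := toIcoDiv pi_pos 0 t with hn
  have h1 := toIcoMod_mem_Ico pi_pos (0 : ℝ) t
  rw [zero_add] at h1
  have h2 : toIcoMod pi_pos 0 t = t - n * π := by
    rw [← self_sub_toIcoDiv_zsmul pi_pos (0 : ℝ) t, zsmul_eq_mul]
  have h3 : t = (t - n * π) + n * π := by ring
  rw [h2] at h1
  have hs : sin t = (-1) ^ n * sin (t - n * π) := by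
    conv_lhs => rw [h3]
    exact sin_add_int_mul_pi _ _
  have hc : cos t = (-1) ^ n * cos (t - n * π) := by
    conv_lhs => rw [h3]
    exact cos_add_int_mul_pi _ _
  have h0 : t - n * π ≠ 0 := by
    intro h0
    apply h
    rw [hs, h0, sin_zero, mul_zero]
  refine ⟨t - n * π, ⟨lt_of_le_of_ne h1.1 (Ne.symm h0), h1.2⟩, ?_, ?_⟩
  · exact hp.sub_int_mul_eq n
  · have h4 : ((-1 : ℝ) ^ n) ≠ 0 := zpow_ne_zero _ (by norm_num)
    rw [hs, hc, mul_div_mul_left _ _ h4]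

theorem c4_b_neg (φ : ℝ) : c4_b (-φ) = -c4_b φ := by
  unfold c4_b
  rw [intervalIntegral.integral_symm]
  congr 1
  have h3 := intervalIntegral.integral_comp_neg (a := 0) (b := φ) (fun x : ℝ => √(1 / 4 - x ^ 2))
  rw [neg_zero] at h3
  rw [← h3]
  refine intervalIntegral.integral_congr fun x _ => ?_
  simp only [neg_sq]

theorem c4_F_neg (φ : ℝ) : c4_F (-φ) = -c4_F φ := by
  unfold c4_F
  rw [c4_b_neg, arctan_neg]
  ring

theorem c4_F_abs (φ : ℝ) : |c4_F φ| = |c4_F (|φ|)| := by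
  rcases abs_choice φ with h | h
  · rw [h]
  · rw [h, c4_F_neg, abs_neg]

theorem c4_b_mono : Monotone c4_b := by
  have hd : ∀ x, HasDerivAt c4_b (√(1 / 4 - x ^ 2)) x := fun x =>
    (c3_cont_sqrt.integral_hasStrictDerivAt 0 x).hasDerivAt
  refine monotone_of_deriv_nonneg (fun x => (hd x).differentiableAt) fun x => ?_
  rw [(hd x).deriv]
  positivity

theorem c4_b_half (φ : ℝ) (h : 1 / 2 ≤ φ) : c4_b φ = π / 16 := by
  unfold c4_b
  rw [← intervalIntegral.integral_add_adjacent_intervals (c3_cont_sqrt.intervalIntegrable 0 (1 / 2))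
    (c3_cont_sqrt.intervalIntegrable (1 / 2) φ), c3_quarter]
  have h1 : ∫ u in (1 / 2 : ℝ)..φ, √(1 / 4 - u ^ 2) = ∫ u in (1 / 2 : ℝ)..φ, (0 : ℝ) := by
    refine intervalIntegral.integral_congr fun u hu => ?_
    rw [uIcc_of_le h] at hu
    refine Real.sqrt_eq_zero_of_nonpos ?_
    nlinarith [hu.1]
  rw [h1, intervalIntegral.integral_zero, add_zero]

theorem c4_b_le (φ : ℝ) : c4_b φ ≤ π / 16 := by
  rw [← c4_b_half (max φ (1 / 2)) (le_max_right _ _)]
  exact c4_b_mono (le_max_left _ _)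

theorem c4_sqrt_le (u : ℝ) : √(1 / 4 - u ^ 2) ≤ 3 / 8 + 1 / (8 * (1 + u ^ 2)) := by
  rw [Real.sqrt_le_iff]
  have h0 : 0 < 8 * (1 + u ^ 2) := by positivity
  refine ⟨by positivity, ?_⟩
  have h1 : 3 / 8 + 1 / (8 * (1 + u ^ 2)) = (4 + 3 * u ^ 2) / (8 * (1 + u ^ 2)) := by
    field_simp
    ring
  rw [h1, div_pow, le_div_iff₀ (by positivity)]
  have h2 : 0 ≤ u ^ 2 := sq_nonneg u
  nlinarith [mul_nonneg h2 h2, mul_nonneg (mul_nonneg h2 h2) h2]

theorem c4_F_cot (φ : ℝ) : |c4_F φ| ≤ 3 / 8 * |φ| := by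
  rw [c4_F_eq]
  have h := intervalIntegral.norm_integral_le_of_norm_le_const (a := 0) (b := φ) (C := 3 / 8)
    (f := fun u : ℝ => √(1 / 4 - u ^ 2) - 1 / (8 * (1 + u ^ 2))) (fun u _ => by
      rw [Real.norm_eq_abs, abs_le]
      have h1 := c4_sqrt_le u
      have h2 : 0 ≤ √(1 / 4 - u ^ 2) := Real.sqrt_nonneg _
      have h3 : 1 / (8 * (1 + u ^ 2)) ≤ 1 / 8 := by
        apply one_div_le_one_div_of_le (by norm_num)
        nlinarith [sq_nonneg u]
      constructor <;> linarith)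
  rw [Real.norm_eq_abs, sub_zero] at h
  exact h

/-- [RC-C4] PROOF. By periodicity (`t ↦ t - kπ`, `toIcoMod` or `Function.Periodic.exists_mem_Ico₀`; `cot` is `π`-periodic) assume
`t ∈ (0,π)`; in `c4_D_eq` the integrand is in `[-1/8, 3/8]`: `0 ≤ √(1/4-u²) ≤ 1/2 - u²` if `|u| ≤ 1/2` and
`1/(8(1+u²)) ≥ (1-u²)/8`, so the difference is `≤ 3/8 - (7/8)u²`; for `|u| > 1/2` the root is `0`. Use
`intervalIntegral.norm_integral_le_of_norm_le_const`. -/
theorem c4_D_cot (t : ℝ) (h : sin t ≠ 0) : |Dt t| ≤ 3 / 8 * |cos t / sin t| := by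
  obtain ⟨s, hs, h1, h2⟩ := c4_red t h
  rw [← h1, ← h2, c4_D_F s hs, ← abs_neg (cos s / sin s)]
  exact c4_F_cot _

theorem c4_arctan_ge : (37 : ℝ) / 100 + 1 / 500 ≤ arctan (9 / 20) := by
  have h1 := integral_one_div_one_add_sq (a := 0) (b := 9 / 20)
  rw [arctan_zero, sub_zero] at h1
  rw [← h1]
  have h2 : ∫ _ in (0 : ℝ)..(9 / 20), (400 / 481 : ℝ) ≤ ∫ x in (0 : ℝ)..(9 / 20), 1 / (1 + x ^ 2) := by
    have hc : Continuous fun u : ℝ => 1 / (1 + u ^ 2) :=
      Continuous.div continuous_const (by fun_prop) fun u => by positivity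
    refine intervalIntegral.integral_mono_on (by norm_num) (continuous_const.intervalIntegrable _ _)
      (hc.intervalIntegrable _ _) fun x hx => ?_
    rw [div_le_div_iff₀ (by norm_num) (by positivity)]
    nlinarith [hx.1, hx.2]
  rw [intervalIntegral.integral_const, smul_eq_mul] at h2
  refine le_trans ?_ h2
  norm_num

theorem c4_arctan_le (φ : ℝ) (h0 : 0 ≤ φ) : arctan φ ≤ φ := by
  have h1 := integral_one_div_one_add_sq (a := 0) (b := φ)
  rw [arctan_zero, sub_zero] at h1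
  rw [← h1]
  have hc : Continuous fun u : ℝ => 1 / (1 + u ^ 2) :=
    Continuous.div continuous_const (by fun_prop) fun u => by positivity
  have h2 : ∫ x in (0 : ℝ)..φ, 1 / (1 + x ^ 2) ≤ ∫ _ in (0 : ℝ)..φ, (1 : ℝ) := by
    refine intervalIntegral.integral_mono_on h0 (hc.intervalIntegrable _ _)
      (continuous_const.intervalIntegrable _ _) fun x _ => ?_
    rw [div_le_one (by positivity)]
    nlinarith [sq_nonneg x]
  rw [intervalIntegral.integral_const, smul_eq_mul, mul_one, sub_zero] at h2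
  exact h2

theorem c4_F_small (φ : ℝ) (h0 : 0 ≤ φ) : |c4_F φ| ≤ 3 / 20 := by
  have hpi := Real.pi_lt_d4
  rw [abs_le]
  rcases le_total φ (9 / 20) with h | h
  · constructor
    · have h1 := c4_F_cot φ
      have h2 : -(φ / 8) ≤ c4_F φ := by
        have h3 : 0 ≤ c4_b φ := by
          have : c4_b 0 = 0 := intervalIntegral.integral_same
          rw [← this]
          exact c4_b_mono h0
        have h4 : arctan φ ≤ φ := c4_arctan_le φ h0
        unfold c4_F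
        linarith
      linarith
    · rw [c4_F_eq]
      have hc1 : Continuous fun u : ℝ => 1 / (8 * (1 + u ^ 2)) :=
        Continuous.div continuous_const (by fun_prop) fun u => by positivity
      have hc2 : Continuous fun u : ℝ => 3 / 8 - 7 / 8 * u ^ 2 := by fun_prop
      have h1 : ∫ u in (0 : ℝ)..φ, (√(1 / 4 - u ^ 2) - 1 / (8 * (1 + u ^ 2))) ≤
          ∫ u in (0 : ℝ)..φ, (3 / 8 - 7 / 8 * u ^ 2) := by
        refine intervalIntegral.integral_mono_on h0 ((c3_cont_sqrt.sub hc1).intervalIntegrable _ _)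
          (hc2.intervalIntegrable _ _) fun x hx => ?_
        have hx2 : x ^ 2 ≤ 81 / 400 := by nlinarith [hx.1, hx.2]
        have h2 : √(1 / 4 - x ^ 2) ≤ 1 / 2 - x ^ 2 := by
          rw [Real.sqrt_le_iff]
          refine ⟨by linarith, ?_⟩
          nlinarith [sq_nonneg (x ^ 2)]
        have h3 : (1 - x ^ 2) / 8 ≤ 1 / (8 * (1 + x ^ 2)) := by
          rw [div_le_div_iff₀ (by norm_num) (by positivity)]
          nlinarith [sq_nonneg (x ^ 2)]
        linarith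
      refine h1.trans ?_
      have h2 : ∫ u in (0 : ℝ)..φ, (3 / 8 - 7 / 8 * u ^ 2) = 3 / 8 * φ - 7 / 24 * φ ^ 3 := by
        rw [intervalIntegral.integral_sub (continuous_const.intervalIntegrable _ _)
          ((by fun_prop : Continuous fun u : ℝ => 7 / 8 * u ^ 2).intervalIntegrable _ _),
          intervalIntegral.integral_const, intervalIntegral.integral_const_mul, integral_pow,
          smul_eq_mul]
        ring
      rw [h2]
      nlinarith [mul_nonneg (sq_nonneg (φ - 9 / 20)) (by linarith : 0 ≤ φ + 9 / 10)]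
  · have h1 : arctan (9 / 20) ≤ arctan φ := arctan_strictMono.monotone h
    have h2 := c4_arctan_ge
    have h3 := c4_b_le φ
    have h4 := arctan_lt_pi_div_two φ
    have h5 : 9 / 100 ≤ c4_b φ := by
      refine le_trans ?_ (c4_b_mono h)
      have h6 : ∫ _ in (0 : ℝ)..(9 / 20), (1 / 5 : ℝ) ≤ c4_b (9 / 20) := by
        refine intervalIntegral.integral_mono_on (by norm_num)
          (continuous_const.intervalIntegrable _ _) (c3_cont_sqrt.intervalIntegrable _ _)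
          fun x hx => ?_
        apply Real.le_sqrt_of_sq_le
        nlinarith [hx.1, hx.2]
      rw [intervalIntegral.integral_const, smul_eq_mul] at h6
      refine le_trans ?_ h6
      norm_num
    unfold c4_F
    constructor <;> linarith

/-- [RC-C4] PROOF. As before `t ∈ (0,π)` or `sin t = 0`. The integral is odd in `φ = -cot t`; let `φ ≥ 0`.
If `φ ≤ 9/20`: `-φ/8 ≤ D ≤ ∫_0^φ (3/8 - (7/8)u²) = (3/8)φ - (7/24)φ³ ≤ 0.1422` (`φ ↦ (3/8)φ - (7/24)φ³` is increasing on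
`[0, 0.65]`). If `φ ≥ 9/20`: `D = β(φ) - arctan φ / 8` with `β(φ) = ∫_0^φ √(1/4-u²) ∈ [β(9/20), π/16]` (`c3_quarter`),
`β(9/20) ≥ ∫_0^{9/20} (1/2 - u) du ≥ 0.12`, `arctan φ ∈ [arctan (9/20), π/2]`, `arctan (9/20) ≥ 0.4` (e.g.
`arctan x ≥ x - x³/3`, or `tan 0.4 ≤ 0.45`, or `arctan x = ∫_0^x 1/(1+u²) ≥ ∫_0^x (1-u²)`): `D ≤ π/16 - 0.05 ≤ 0.1464`,
`D ≥ 0.12 - π/16 ≥ -0.077`. (`π ≤ 3.1416`: `Real.pi_lt_d4`.) -/
theorem c4_D_small (t : ℝ) : |Dt t| ≤ 3 / 20 := by
  by_cases h : sin t = 0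
  · rw [c4_D_sin t h, abs_zero]
    norm_num
  · obtain ⟨s, hs, h1, h2⟩ := c4_red t h
    rw [← h1, c4_D_F s hs, c4_F_abs]
    exact c4_F_small _ (abs_nonneg _)

theorem c4_F_far (φ : ℝ) (h : 1 ≤ φ) : |c4_F φ| ≤ 1 / 8 := by
  have h1 : arctan 1 ≤ arctan φ := arctan_strictMono.monotone h
  rw [arctan_one] at h1
  have h2 := arctan_lt_pi_div_two φ
  have h3 := c4_b_half φ (by linarith)
  have hpi := Real.pi_lt_d4
  unfold c4_F
  rw [h3, abs_le]
  constructor <;> linarith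

/-- [RC-C4] PROOF. Here `sin t = 0` or `|φ| ≥ 1`, `φ = -cot t`; for `φ ≥ 1`, `β(φ) = π/16` and
`D = π/16 - arctan φ / 8 ∈ [0, π/16 - π/32]`, `π/32 ≤ 1/8`; odd in `φ`. -/
theorem c4_D_far (t : ℝ) (h : |sin t| ≤ |cos t|) : |Dt t| ≤ 1 / 8 := by
  by_cases h0 : sin t = 0
  · rw [c4_D_sin t h0, abs_zero]
    norm_num
  · obtain ⟨s, hs, h1, h2⟩ := c4_red t h0
    rw [← h1, c4_D_F s hs, c4_F_abs]
    apply c4_F_far
    rw [abs_neg, h2, abs_div, le_div_iff₀ (abs_pos.2 h0), one_mul]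
    exact h

end Pool.Agent.RC
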