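import Mathlib

set_option autoImplicit false

namespace Pool.Agent.RC

theorem c5_box1 (x Z : ℝ) (h1 : 7 / 10 ≤ x) (h2 : x ≤ (13 / 10)) (h3 : 0 ≤ Z) (h4 : Z ≤ (1 / 2)) :
    0 ≤ (x ^ 2 - 1 / 4) * (2 * x ^ 4 - 3 / 2 * x ^ 3 + x / 8 - (x ^ 2 - 1 / 4) ^ 2 + (x ^ 2 - 1 / 4) / 4) +
      x * (x ^ 2 - 1 / 4) * (Z ^ 2 * (3 + Z) / 4) * (9 / 8 * (x ^ 2 - 1 / 4) + 3 / 16) -
      3 * ((x ^ 2 - 1 / 4) - Z / 2) * (Z * (2 / 5 + Z / 8)) * (x * (x ^ 2 - 1 / 4)) -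
      81 / 128 * Z ^ 2 * x * ((x ^ 2 - 1 / 4) - Z / 2) ^ 2 := by
  obtain ⟨a, ha⟩ : ∃ a, a = x - (7 / 10) := ⟨_, rfl⟩
  obtain ⟨b, hb⟩ : ∃ b, b = (13 / 10) - x := ⟨_, rfl⟩
  obtain ⟨c, hc⟩ : ∃ c, c = Z - 0 := ⟨_, rfl⟩
  obtain ⟨d, hd⟩ : ∃ d, d = (1 / 2) - Z := ⟨_, rfl⟩
  have ha0 : 0 ≤ a := by linarith
  have hb0 : 0 ≤ b := by linarith
  have hc0 : 0 ≤ c := by linarith
  have hd0 : 0 ≤ d := by linarith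
  have key : (x ^ 2 - 1 / 4) * (2 * x ^ 4 - 3 / 2 * x ^ 3 + x / 8 - (x ^ 2 - 1 / 4) ^ 2 + (x ^ 2 - 1 / 4) / 4) +
      x * (x ^ 2 - 1 / 4) * (Z ^ 2 * (3 + Z) / 4) * (9 / 8 * (x ^ 2 - 1 / 4) + 3 / 16) -
      3 * ((x ^ 2 - 1 / 4) - Z / 2) * (Z * (2 / 5 + Z / 8)) * (x * (x ^ 2 - 1 / 4)) -
      81 / 128 * Z ^ 2 * x * ((x ^ 2 - 1 / 4) - Z / 2) ^ 2 =
      (1112 / 243) * b ^ 6 * d ^ 4 +
      (2432 / 243) * b ^ 6 * c * d ^ 3 +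
      (8209 / 648) * b ^ 6 * c ^ 2 * d ^ 2 +
      (316445 / 15552) * b ^ 6 * c ^ 3 * d +
      (2671919 / 248832) * b ^ 6 * c ^ 4 +
      (14668 / 243) * a * b ^ 5 * d ^ 4 +
      (30736 / 243) * a * b ^ 5 * c * d ^ 3 +
      (310805 / 2592) * a * b ^ 5 * c ^ 2 * d ^ 2 +
      (5388107 / 31104) * a * b ^ 5 * c ^ 3 * d +
      (3208901 / 31104) * a * b ^ 5 * c ^ 4 +
      (76580 / 243) * a ^ 2 * b ^ 4 * d ^ 4 +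
      (154040 / 243) * a ^ 2 * b ^ 4 * c * d ^ 3 +
      (2117345 / 5184) * a ^ 2 * b ^ 4 * c ^ 2 * d ^ 2 +
      (7313795 / 15552) * a ^ 2 * b ^ 4 * c ^ 3 * d +
      (83316575 / 248832) * a ^ 2 * b ^ 4 * c ^ 4 +
      (207260 / 243) * a ^ 3 * b ^ 3 * d ^ 4 +
      (411440 / 243) * a ^ 3 * b ^ 3 * c * d ^ 3 +
      (471985 / 648) * a ^ 3 * b ^ 3 * c ^ 2 * d ^ 2 +
      (1582715 / 3888) * a ^ 3 * b ^ 3 * c ^ 3 * d +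
      (14032105 / 31104) * a ^ 3 * b ^ 3 * c ^ 4 +
      (320380 / 243) * a ^ 4 * b ^ 2 * d ^ 4 +
      (670600 / 243) * a ^ 4 * b ^ 2 * c * d ^ 3 +
      (5964235 / 5184) * a ^ 4 * b ^ 2 * c ^ 2 * d ^ 2 +
      (12095 / 7776) * a ^ 4 * b ^ 2 * c ^ 3 * d +
      (58807165 / 248832) * a ^ 4 * b ^ 2 * c ^ 4 +
      (276128 / 243) * a ^ 5 * b * d ^ 4 +
      (650048 / 243) * a ^ 5 * b * c * d ^ 3 +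
      (4170589 / 2592) * a ^ 5 * b * c ^ 2 * d ^ 2 +
      (4904845 / 31104) * a ^ 5 * b * c ^ 3 * d +
      (980081 / 15552) * a ^ 5 * b * c ^ 4 +
      (34624 / 81) * a ^ 6 * d ^ 4 +
      (93568 / 81) * a ^ 6 * c * d ^ 3 +
      (212045 / 216) * a ^ 6 * c ^ 2 * d ^ 2 +
      (803039 / 2592) * a ^ 6 * c ^ 3 * d +
      (4264999 / 82944) * a ^ 6 * c ^ 4 := by
    subst ha hb hc hd
    ring
  rw [key]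
  positivity

theorem c5_box2 (x Z : ℝ) (h1 : 13 / 10 ≤ x) (h2 : x ≤ 19 / 10) (h3 : 0 ≤ Z) (h4 : Z ≤ (1 / 2)) :
    0 ≤ (x ^ 2 - 1 / 4) * (2 * x ^ 4 - 3 / 2 * x ^ 3 + x / 8 - (x ^ 2 - 1 / 4) ^ 2 + (x ^ 2 - 1 / 4) / 4) +
      x * (x ^ 2 - 1 / 4) * (Z ^ 2 * (3 + Z) / 4) * (9 / 8 * (x ^ 2 - 1 / 4) + 3 / 16) -
      3 * ((x ^ 2 - 1 / 4) - Z / 2) * (Z * (2 / 5 + Z / 8)) * (x * (x ^ 2 - 1 / 4)) -
      81 / 128 * Z ^ 2 * x * ((x ^ 2 - 1 / 4) - Z / 2) ^ 2 := by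
  obtain ⟨a, ha⟩ : ∃ a, a = x - (13 / 10) := ⟨_, rfl⟩
  obtain ⟨b, hb⟩ : ∃ b, b = (19 / 10) - x := ⟨_, rfl⟩
  obtain ⟨c, hc⟩ : ∃ c, c = Z - 0 := ⟨_, rfl⟩
  obtain ⟨d, hd⟩ : ∃ d, d = (1 / 2) - Z := ⟨_, rfl⟩
  have ha0 : 0 ≤ a := by linarith
  have hb0 : 0 ≤ b := by linarith
  have hc0 : 0 ≤ c := by linarith
  have hd0 : 0 ≤ d := by linarith
  have key : (x ^ 2 - 1 / 4) * (2 * x ^ 4 - 3 / 2 * x ^ 3 + x / 8 - (x ^ 2 - 1 / 4) ^ 2 + (x ^ 2 - 1 / 4) / 4) +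
      x * (x ^ 2 - 1 / 4) * (Z ^ 2 * (3 + Z) / 4) * (9 / 8 * (x ^ 2 - 1 / 4) + 3 / 16) -
      3 * ((x ^ 2 - 1 / 4) - Z / 2) * (Z * (2 / 5 + Z / 8)) * (x * (x ^ 2 - 1 / 4)) -
      81 / 128 * Z ^ 2 * x * ((x ^ 2 - 1 / 4) - Z / 2) ^ 2 =
      (34624 / 81) * b ^ 6 * d ^ 4 +
      (93568 / 81) * b ^ 6 * c * d ^ 3 +
      (212045 / 216) * b ^ 6 * c ^ 2 * d ^ 2 +
      (803039 / 2592) * b ^ 6 * c ^ 3 * d +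
      (4264999 / 82944) * b ^ 6 * c ^ 4 +
      (970336 / 243) * a * b ^ 5 * d ^ 4 +
      (2718400 / 243) * a * b ^ 5 * c * d ^ 3 +
      (26363891 / 2592) * a * b ^ 5 * c ^ 2 * d ^ 2 +
      (110732771 / 31104) * a * b ^ 5 * c ^ 3 * d +
      (34464667 / 62208) * a * b ^ 5 * c ^ 4 +
      (3791420 / 243) * a ^ 2 * b ^ 4 * d ^ 4 +
      (11012360 / 243) * a ^ 2 * b ^ 4 * c * d ^ 3 +
      (227897255 / 5184) * a ^ 2 * b ^ 4 * c ^ 2 * d ^ 2 +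
      (264594005 / 15552) * a ^ 2 * b ^ 4 * c ^ 3 * d +
      (669694025 / 248832) * a ^ 2 * b ^ 4 * c ^ 4 +
      (7930180 / 243) * a ^ 3 * b ^ 3 * d ^ 4 +
      (23864080 / 243) * a ^ 3 * b ^ 3 * c * d ^ 3 +
      (8195995 / 81) * a ^ 3 * b ^ 3 * c ^ 2 * d ^ 2 +
      (10416925 / 243) * a ^ 3 * b ^ 3 * c ^ 3 * d +
      (27783565 / 3888) * a ^ 3 * b ^ 3 * c ^ 4 +
      (9361180 / 243) * a ^ 4 * b ^ 2 * d ^ 4 +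
      (29144920 / 243) * a ^ 4 * b ^ 2 * c * d ^ 3 +
      (676688665 / 5184) * a ^ 4 * b ^ 2 * c ^ 2 * d ^ 2 +
      (930091555 / 15552) * a ^ 4 * b ^ 2 * c ^ 3 * d +
      (2637443095 / 248832) * a ^ 4 * b ^ 2 * c ^ 4 +
      (5909876 / 243) * a ^ 5 * b * d ^ 4 +
      (18998672 / 243) * a ^ 5 * b * c * d ^ 3 +
      (231600925 / 2592) * a ^ 5 * b * c ^ 2 * d ^ 2 +
      (1360544029 / 31104) * a ^ 5 * b * c ^ 3 * d +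
      (511119509 / 62208) * a ^ 5 * b * c ^ 4 +
      (1557808 / 243) * a ^ 6 * d ^ 4 +
      (5158720 / 243) * a ^ 6 * c * d ^ 3 +
      (16411997 / 648) * a ^ 6 * c ^ 2 * d ^ 2 +
      (101906567 / 7776) * a ^ 6 * c ^ 3 * d +
      (644534059 / 248832) * a ^ 6 * c ^ 4 := by
    subst ha hb hc hd
    ring
  rw [key]
  positivity

theorem c5_box3 (x Z : ℝ) (h1 : 7 / 10 ≤ x) (h2 : x ≤ (13 / 10)) (h3 : (1 / 2) ≤ Z) (h4 : Z ≤ 1) :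
    0 ≤ (x ^ 2 - 1 / 4) * (2 * x ^ 4 - 3 / 2 * x ^ 3 + x / 8 - (x ^ 2 - 1 / 4) ^ 2 + (x ^ 2 - 1 / 4) / 4) +
      x * (x ^ 2 - 1 / 4) * (Z ^ 2 * (3 + Z) / 4) * (9 / 8 * (x ^ 2 - 1 / 4) + 3 / 16) -
      3 * ((x ^ 2 - 1 / 4) - Z / 2) * (Z * (2 / 5 + Z / 8)) * (x * (x ^ 2 - 1 / 4)) -
      81 / 128 * Z ^ 2 * x * ((x ^ 2 - 1 / 4) - Z / 2) ^ 2 := by
  obtain ⟨a, ha⟩ : ∃ a, a = x - (7 / 10) := ⟨_, rfl⟩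
  obtain ⟨b, hb⟩ : ∃ b, b = (13 / 10) - x := ⟨_, rfl⟩
  obtain ⟨c, hc⟩ : ∃ c, c = Z - (1 / 2) := ⟨_, rfl⟩
  obtain ⟨d, hd⟩ : ∃ d, d = 1 - Z := ⟨_, rfl⟩
  have ha0 : 0 ≤ a := by linarith
  have hb0 : 0 ≤ b := by linarith
  have hc0 : 0 ≤ c := by linarith
  have hd0 : 0 ≤ d := by linarith
  have key : (x ^ 2 - 1 / 4) * (2 * x ^ 4 - 3 / 2 * x ^ 3 + x / 8 - (x ^ 2 - 1 / 4) ^ 2 + (x ^ 2 - 1 / 4) / 4) +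
      x * (x ^ 2 - 1 / 4) * (Z ^ 2 * (3 + Z) / 4) * (9 / 8 * (x ^ 2 - 1 / 4) + 3 / 16) -
      3 * ((x ^ 2 - 1 / 4) - Z / 2) * (Z * (2 / 5 + Z / 8)) * (x * (x ^ 2 - 1 / 4)) -
      81 / 128 * Z ^ 2 * x * ((x ^ 2 - 1 / 4) - Z / 2) ^ 2 =
      (2671919 / 248832) * b ^ 6 * d ^ 4 +
      (2039029 / 31104) * b ^ 6 * c * d ^ 3 +
      (1537483 / 10368) * b ^ 6 * c ^ 2 * d ^ 2 +
      (1089457 / 7776) * b ^ 6 * c ^ 3 * d +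
      (688295 / 15552) * b ^ 6 * c ^ 4 +
      (3208901 / 31104) * a * b ^ 5 * d ^ 4 +
      (20283101 / 31104) * a * b ^ 5 * c * d ^ 3 +
      (8069107 / 5184) * a * b ^ 5 * c ^ 2 * d ^ 2 +
      (12252995 / 7776) * a * b ^ 5 * c ^ 3 * d +
      (2145661 / 3888) * a * b ^ 5 * c ^ 4 +
      (83316575 / 248832) * a ^ 2 * b ^ 4 * d ^ 4 +
      (68688985 / 31104) * a ^ 2 * b ^ 4 * c * d ^ 3 +
      (58296085 / 10368) * a ^ 2 * b ^ 4 * c ^ 2 * d ^ 2 +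
      (47208595 / 7776) * a ^ 2 * b ^ 4 * c ^ 3 * d +
      (35398355 / 15552) * a ^ 2 * b ^ 4 * c ^ 4 +
      (14032105 / 31104) * a ^ 3 * b ^ 3 * d ^ 4 +
      (6224695 / 1944) * a ^ 3 * b ^ 3 * c * d ^ 3 +
      (11810645 / 1296) * a ^ 3 * b ^ 3 * c ^ 2 * d ^ 2 +
      (5235055 / 486) * a ^ 3 * b ^ 3 * c ^ 3 * d +
      (8440105 / 1944) * a ^ 3 * b ^ 3 * c ^ 4 +
      (58807165 / 248832) * a ^ 4 * b ^ 2 * d ^ 4 +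
      (58758785 / 31104) * a ^ 4 * b ^ 2 * c * d ^ 3 +
      (70638875 / 10368) * a ^ 4 * b ^ 2 * c ^ 2 * d ^ 2 +
      (72988235 / 7776) * a ^ 4 * b ^ 2 * c ^ 3 * d +
      (64851985 / 15552) * a ^ 4 * b ^ 2 * c ^ 4 +
      (980081 / 15552) * a ^ 5 * b * d ^ 4 +
      (10776451 / 31104) * a ^ 5 * b * c * d ^ 3 +
      (11276981 / 5184) * a ^ 5 * b * c ^ 2 * d ^ 2 +
      (30212293 / 7776) * a ^ 5 * b * c ^ 3 * d +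
      (7655525 / 3888) * a ^ 5 * b * c ^ 4 +
      (4264999 / 82944) * a ^ 6 * d ^ 4 +
      (1052843 / 10368) * a ^ 6 * c * d ^ 3 +
      (1233407 / 3456) * a ^ 6 * c ^ 2 * d ^ 2 +
      (1812515 / 2592) * a ^ 6 * c ^ 3 * d +
      (2011927 / 5184) * a ^ 6 * c ^ 4 := by
    subst ha hb hc hd
    ring
  rw [key]
  positivity

theorem c5_box4 (x Z : ℝ) (h1 : 13 / 10 ≤ x) (h2 : x ≤ 19 / 10) (h3 : (1 / 2) ≤ Z) (h4 : Z ≤ 1) :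
    0 ≤ (x ^ 2 - 1 / 4) * (2 * x ^ 4 - 3 / 2 * x ^ 3 + x / 8 - (x ^ 2 - 1 / 4) ^ 2 + (x ^ 2 - 1 / 4) / 4) +
      x * (x ^ 2 - 1 / 4) * (Z ^ 2 * (3 + Z) / 4) * (9 / 8 * (x ^ 2 - 1 / 4) + 3 / 16) -
      3 * ((x ^ 2 - 1 / 4) - Z / 2) * (Z * (2 / 5 + Z / 8)) * (x * (x ^ 2 - 1 / 4)) -
      81 / 128 * Z ^ 2 * x * ((x ^ 2 - 1 / 4) - Z / 2) ^ 2 := by
  obtain ⟨a, ha⟩ : ∃ a, a = x - (13 / 10) := ⟨_, rfl⟩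
  obtain ⟨b, hb⟩ : ∃ b, b = (19 / 10) - x := ⟨_, rfl⟩
  obtain ⟨c, hc⟩ : ∃ c, c = Z - (1 / 2) := ⟨_, rfl⟩
  obtain ⟨d, hd⟩ : ∃ d, d = 1 - Z := ⟨_, rfl⟩
  have ha0 : 0 ≤ a := by linarith
  have hb0 : 0 ≤ b := by linarith
  have hc0 : 0 ≤ c := by linarith
  have hd0 : 0 ≤ d := by linarith
  have key : (x ^ 2 - 1 / 4) * (2 * x ^ 4 - 3 / 2 * x ^ 3 + x / 8 - (x ^ 2 - 1 / 4) ^ 2 + (x ^ 2 - 1 / 4) / 4) +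
      x * (x ^ 2 - 1 / 4) * (Z ^ 2 * (3 + Z) / 4) * (9 / 8 * (x ^ 2 - 1 / 4) + 3 / 16) -
      3 * ((x ^ 2 - 1 / 4) - Z / 2) * (Z * (2 / 5 + Z / 8)) * (x * (x ^ 2 - 1 / 4)) -
      81 / 128 * Z ^ 2 * x * ((x ^ 2 - 1 / 4) - Z / 2) ^ 2 =
      (4264999 / 82944) * b ^ 6 * d ^ 4 +
      (1052843 / 10368) * b ^ 6 * c * d ^ 3 +
      (1233407 / 3456) * b ^ 6 * c ^ 2 * d ^ 2 +
      (1812515 / 2592) * b ^ 6 * c ^ 3 * d +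
      (2011927 / 5184) * b ^ 6 * c ^ 4 +
      (34464667 / 62208) * a * b ^ 5 * d ^ 4 +
      (27125897 / 31104) * a * b ^ 5 * c * d ^ 3 +
      (10924345 / 5184) * a * b ^ 5 * c ^ 2 * d ^ 2 +
      (35038247 / 7776) * a * b ^ 5 * c ^ 3 * d +
      (5225909 / 1944) * a * b ^ 5 * c ^ 4 +
      (669694025 / 248832) * a ^ 2 * b ^ 4 * d ^ 4 +
      (140506015 / 31104) * a ^ 2 * b ^ 4 * c * d ^ 3 +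
      (67112515 / 10368) * a ^ 2 * b ^ 4 * c ^ 2 * d ^ 2 +
      (97118005 / 7776) * a ^ 2 * b ^ 4 * c ^ 3 * d +
      (120777845 / 15552) * a ^ 2 * b ^ 4 * c ^ 4 +
      (27783565 / 3888) * a ^ 3 * b ^ 3 * d ^ 4 +
      (6949715 / 486) * a ^ 3 * b ^ 3 * c * d ^ 3 +
      (2507855 / 162) * a ^ 3 * b ^ 3 * c ^ 2 * d ^ 2 +
      (5051890 / 243) * a ^ 3 * b ^ 3 * c ^ 3 * d +
      (3002125 / 243) * a ^ 3 * b ^ 3 * c ^ 4 +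
      (2637443095 / 248832) * a ^ 4 * b ^ 2 * d ^ 4 +
      (777259985 / 31104) * a ^ 4 * b ^ 2 * c * d ^ 3 +
      (270454205 / 10368) * a ^ 4 * b ^ 2 * c ^ 2 * d ^ 2 +
      (184388315 / 7776) * a ^ 4 * b ^ 2 * c ^ 3 * d +
      (185540395 / 15552) * a ^ 4 * b ^ 2 * c ^ 4 +
      (511119509 / 62208) * a ^ 5 * b * d ^ 4 +
      (683934007 / 31104) * a ^ 5 * b * c * d ^ 3 +
      (124896839 / 5184) * a ^ 5 * b * c ^ 2 * d ^ 2 +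
      (134099545 / 7776) * a ^ 5 * b * c ^ 3 * d +
      (13390771 / 1944) * a ^ 5 * b * c ^ 4 +
      (644534059 / 248832) * a ^ 6 * d ^ 4 +
      (236907791 / 31104) * a ^ 6 * c * d ^ 3 +
      (91873475 / 10368) * a ^ 6 * c ^ 2 * d ^ 2 +
      (44352071 / 7776) * a ^ 6 * c ^ 3 * d +
      (28964251 / 15552) * a ^ 6 * c ^ 4 := by
    subst ha hb hc hd
    ring
  rw [key]
  positivity

theorem c5_tail (x Z : ℝ) (h1 : 19 / 10 ≤ x) (h3 : 0 ≤ Z) (h4 : Z ≤ 1) :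
    0 ≤ (x ^ 2 - 1 / 4) * (2 * x ^ 4 - 3 / 2 * x ^ 3 + x / 8 - (x ^ 2 - 1 / 4) ^ 2 + (x ^ 2 - 1 / 4) / 4) +
      x * (x ^ 2 - 1 / 4) * (Z ^ 2 * (3 + Z) / 4) * (9 / 8 * (x ^ 2 - 1 / 4) + 3 / 16) -
      3 * ((x ^ 2 - 1 / 4) - Z / 2) * (Z * (2 / 5 + Z / 8)) * (x * (x ^ 2 - 1 / 4)) -
      81 / 128 * Z ^ 2 * x * ((x ^ 2 - 1 / 4) - Z / 2) ^ 2 := by
  obtain ⟨a, ha⟩ : ∃ a, a = x - 19 / 10 := ⟨_, rfl⟩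
  obtain ⟨d, hd⟩ : ∃ d, d = 1 - Z := ⟨_, rfl⟩
  have ha0 : 0 ≤ a := by linarith
  have hd0 : 0 ≤ d := by linarith
  have key : (x ^ 2 - 1 / 4) * (2 * x ^ 4 - 3 / 2 * x ^ 3 + x / 8 - (x ^ 2 - 1 / 4) ^ 2 + (x ^ 2 - 1 / 4) / 4) +
      x * (x ^ 2 - 1 / 4) * (Z ^ 2 * (3 + Z) / 4) * (9 / 8 * (x ^ 2 - 1 / 4) + 3 / 16) -
      3 * ((x ^ 2 - 1 / 4) - Z / 2) * (Z * (2 / 5 + Z / 8)) * (x * (x ^ 2 - 1 / 4)) -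
      81 / 128 * Z ^ 2 * x * ((x ^ 2 - 1 / 4) - Z / 2) ^ 2 =
      (292089 / 15625) * d ^ 4 +
      (766164 / 15625) * Z * d ^ 3 +
      (18075141 / 500000) * Z ^ 2 * d ^ 2 +
      (2308173 / 200000) * Z ^ 3 * d +
      (86892753 / 16000000) * Z ^ 4 +
      (859243 / 12500) * a * d ^ 4 +
      (634963 / 3125) * a * Z * d ^ 3 +
      (78060561 / 400000) * a * Z ^ 2 * d ^ 2 +
      (65353543 / 800000) * a * Z ^ 3 * d +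
      (33329669 / 1600000) * a * Z ^ 4 +
      (26491 / 250) * a ^ 2 * d ^ 4 +
      (43121 / 125) * a ^ 2 * Z * d ^ 3 +
      (2512359 / 6400) * a ^ 2 * Z ^ 2 * d ^ 2 +
      (6319889 / 32000) * a ^ 2 * Z ^ 3 * d +
      (703111 / 16000) * a ^ 2 * Z ^ 4 +
      (8733 / 100) * a ^ 3 * d ^ 4 +
      (1533 / 5) * a ^ 3 * Z * d ^ 3 +
      (9768 / 25) * a ^ 3 * Z ^ 2 * d ^ 2 +
      (709887 / 3200) * a ^ 3 * Z ^ 3 * d +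
      (161247 / 3200) * a ^ 3 * Z ^ 4 +
      (202 / 5) * a ^ 4 * d ^ 4 +
      (751 / 5) * a ^ 4 * Z * d ^ 3 +
      (264501 / 1280) * a ^ 4 * Z ^ 2 * d ^ 2 +
      (81251 / 640) * a ^ 4 * Z ^ 3 * d +
      (7709 / 256) * a ^ 4 * Z ^ 4 +
      (99 / 10) * a ^ 5 * d ^ 4 +
      (192 / 5) * a ^ 5 * Z * d ^ 3 +
      (35607 / 640) * a ^ 5 * Z ^ 2 * d ^ 2 +
      (2301 / 64) * a ^ 5 * Z ^ 3 * d +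
      (5643 / 640) * a ^ 5 * Z ^ 4 +
      1 * a ^ 6 * d ^ 4 +
      4 * a ^ 6 * Z * d ^ 3 +
      6 * a ^ 6 * Z ^ 2 * d ^ 2 +
      4 * a ^ 6 * Z ^ 3 * d +
      1 * a ^ 6 * Z ^ 4 := by
    subst ha hd
    ring
  rw [key]
  positivity

theorem c5_poly (x Z : ℝ) (h1 : 7 / 10 ≤ x) (h3 : 0 ≤ Z) (h4 : Z ≤ 1) :
    0 ≤ (x ^ 2 - 1 / 4) * (2 * x ^ 4 - 3 / 2 * x ^ 3 + x / 8 - (x ^ 2 - 1 / 4) ^ 2 + (x ^ 2 - 1 / 4) / 4) +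
      x * (x ^ 2 - 1 / 4) * (Z ^ 2 * (3 + Z) / 4) * (9 / 8 * (x ^ 2 - 1 / 4) + 3 / 16) -
      3 * ((x ^ 2 - 1 / 4) - Z / 2) * (Z * (2 / 5 + Z / 8)) * (x * (x ^ 2 - 1 / 4)) -
      81 / 128 * Z ^ 2 * x * ((x ^ 2 - 1 / 4) - Z / 2) ^ 2 := by
  rcases le_or_gt x (19 / 10) with h | h
  · rcases le_or_gt x (13 / 10) with h5 | h5
    · rcases le_or_gt Z (1 / 2) with h6 | h6
      · exact c5_box1 x Z h1 h5 h3 h6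
      · exact c5_box3 x Z h1 h5 h6.le h4
    · rcases le_or_gt Z (1 / 2) with h6 | h6
      · exact c5_box2 x Z h5.le h h3 h6
      · exact c5_box4 x Z h5.le h h6.le h4
  · exact c5_tail x Z h.le h3 h4

end Pool.Agent.RC
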