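import Mathlib
import Pool.Agent.RC.C5a

set_option autoImplicit false

open Set Real

namespace Pool.Agent.RC

/-- the power `(x² - 1/2)₊^{3/2}`: it vanishes for `x² ≤ 1/2`. -/
theorem c5_p_zero (x : ℝ) (h : x ^ 2 ≤ 1 / 2) : (max 0 (x ^ 2 - 1 / 2)) ^ (3 / 2 : ℝ) = 0 := by
  rw [max_eq_left (by linarith)]
  exact Real.zero_rpow (by norm_num)

/-- for `x² ≥ 1/2`: `x (x² - 1/2)^{3/2} ≤ (x² - 1/2)(x² - 1/4)`. -/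
theorem c5_p_le (x : ℝ) (hx : 0 ≤ x) (h : 1 / 2 ≤ x ^ 2) :
    x * (max 0 (x ^ 2 - 1 / 2)) ^ (3 / 2 : ℝ) ≤ (x ^ 2 - 1 / 2) * (x ^ 2 - 1 / 4) := by
  have hu : 0 ≤ x ^ 2 - 1 / 2 := by linarith
  rw [max_eq_right hu]
  have h1 : (x ^ 2 - 1 / 2) ^ (3 / 2 : ℝ) = (x ^ 2 - 1 / 2) * √(x ^ 2 - 1 / 2) := by
    rw [show (3 / 2 : ℝ) = 1 + 1 / 2 by norm_num, Real.rpow_add' hu (by norm_num), Real.rpow_one,
      Real.sqrt_eq_rpow]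
  rw [h1]
  have h2 : x * √(x ^ 2 - 1 / 2) ≤ x ^ 2 - 1 / 4 := by
    have h3 : x * √(x ^ 2 - 1 / 2) = √(x ^ 2 * (x ^ 2 - 1 / 2)) := by
      rw [Real.sqrt_mul (sq_nonneg x), Real.sqrt_sq hx]
    rw [h3]
    refine Real.sqrt_le_iff.2 ⟨by linarith, ?_⟩
    nlinarith
  calc x * ((x ^ 2 - 1 / 2) * √(x ^ 2 - 1 / 2)) = (x ^ 2 - 1 / 2) * (x * √(x ^ 2 - 1 / 2)) := by ring
    _ ≤ (x ^ 2 - 1 / 2) * (x ^ 2 - 1 / 4) := mul_le_mul_of_nonneg_left h2 hu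

theorem c5_p_nonneg (x : ℝ) : 0 ≤ (max 0 (x ^ 2 - 1 / 2)) ^ (3 / 2 : ℝ) :=
  Real.rpow_nonneg (le_max_left _ _) _

/-- base inequality: `(3/2) x² - 1/8 ≤ 2x³ - p` for `x ≥ 1/2`. -/
theorem c5_base (x : ℝ) (hx : 1 / 2 ≤ x) :
    3 / 2 * x ^ 2 - 1 / 8 ≤ 2 * x ^ 3 - (max 0 (x ^ 2 - 1 / 2)) ^ (3 / 2 : ℝ) := by
  rcases le_or_gt (x ^ 2) (1 / 2) with h | h
  · rw [c5_p_zero x h]
    nlinarith [mul_nonneg (sq_nonneg (x - 1 / 2)) (by linarith : (0 : ℝ) ≤ 2 * x + 1 / 2)]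
  · have h1 := c5_p_le x (by linarith) h.le
    have hx0 : 0 < x := by linarith
    have h2 : 0 ≤ (x - 1 / 2) * (x * (x - 1 / 2) ^ 2 + 1 / 4) := by
      have : 0 ≤ x - 1 / 2 := by linarith
      positivity
    have h3 : x * (3 / 2 * x ^ 2 - 1 / 8) ≤
        x * (2 * x ^ 3 - (max 0 (x ^ 2 - 1 / 2)) ^ (3 / 2 : ℝ)) := by
      nlinarith
    exact le_of_mul_le_mul_left h3 hx0

/-- [RC-C5] (helper87) -/
theorem c5_zero (x : ℝ) (hx : 0 ≤ x) :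
    0 ≤ 2 * x ^ 3 - (max 0 (x ^ 2 - 1 / 2)) ^ (3 / 2 : ℝ) := by
  rcases le_or_gt x (1 / 2) with h | h
  · rw [c5_p_zero x (by nlinarith)]
    have : 0 ≤ x ^ 3 := by positivity
    linarith
  · have := c5_base x h.le
    nlinarith

/-- `y (3x² - y²) ≤ 2x³ - p` for `0 ≤ y ≤ 1/2`. -/
theorem c5_y (x y : ℝ) (hx : 0 ≤ x) (hy : 0 ≤ y) (hy2 : y ≤ 1 / 2) :
    y * (3 * x ^ 2 - y ^ 2) ≤ 2 * x ^ 3 - (max 0 (x ^ 2 - 1 / 2)) ^ (3 / 2 : ℝ) := by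
  rcases le_or_gt x (1 / 2) with h | h
  · rw [c5_p_zero x (by nlinarith)]
    nlinarith [mul_nonneg (sq_nonneg (x - y)) (by linarith : (0 : ℝ) ≤ 2 * x + y)]
  · have h1 := c5_base x h.le
    have h2 : y * (3 * x ^ 2 - y ^ 2) ≤ 3 / 2 * x ^ 2 - 1 / 8 := by
      have h3 : 0 ≤ (1 / 2 - y) * (3 * x ^ 2 - (1 / 4 + y / 2 + y ^ 2)) := by
        refine mul_nonneg (by linarith) ?_
        nlinarith
      nlinarith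
    linarith

/-- the square of `y = √(1/4 - φ²)`: either `φ² ≤ 1/4` and `y² = 1/4 - φ²` or `y = 0`. -/
theorem c5_y_cases (φ y : ℝ) (hy : y = √(1 / 4 - φ ^ 2)) :
    0 ≤ y ∧ y ≤ 1 / 2 ∧ ((φ ^ 2 ≤ 1 / 4 ∧ y ^ 2 = 1 / 4 - φ ^ 2) ∨ (1 / 4 < φ ^ 2 ∧ y = 0)) := by
  have h0 : 0 ≤ y := by
    rw [hy]
    exact Real.sqrt_nonneg _
  have h1 : y ≤ 1 / 2 := by
    rw [hy]
    refine Real.sqrt_le_iff.2 ⟨by norm_num, ?_⟩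
    nlinarith [sq_nonneg φ]
  refine ⟨h0, h1, ?_⟩
  rcases le_or_gt (φ ^ 2) (1 / 4) with h | h
  · left
    refine ⟨h, ?_⟩
    rw [hy]
    exact Real.sq_sqrt (by linarith)
  · right
    refine ⟨h, ?_⟩
    rw [hy]
    exact Real.sqrt_eq_zero_of_nonpos (by linarith)

/-- [RC-C5] (helper87) The case `Z = 0`. -/
theorem c5_hj_zero (x φ y : ℝ) (hx : 0 ≤ x) (hy : y = √(1 / 4 - φ ^ 2)) :
    y * (φ ^ 2 - 1 / 4 + 3 * x ^ 2) ≤ 2 * x ^ 3 - (max 0 (x ^ 2 - 1 / 2)) ^ (3 / 2 : ℝ) := by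
  obtain ⟨h0, h1, h | h⟩ := c5_y_cases φ y hy
  · have h2 : y * (φ ^ 2 - 1 / 4 + 3 * x ^ 2) = y * (3 * x ^ 2 - y ^ 2) := by
      rw [h.2]
      ring
    rw [h2]
    exact c5_y x y hx h0 h1
  · rw [h.2, zero_mul]
    exact c5_zero x hx

/-- facts on `Z`, `g`, `θ` when `Z > 0` -/
theorem c5_Zfacts (θ Z g : ℝ) (hZ : Z = max 0 (1 - 2 / 3 * θ ^ 2)) (hZ0 : 0 < Z)
    (hg : g = Z ^ 2 * (3 + Z) / 4) :
    Z ≤ 1 ∧ θ ^ 2 = 3 / 2 * (1 - Z) ∧ 0 ≤ g ∧ g ≤ Z ^ 2 ∧ g ≤ 1 ∧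
      (|θ| * (2 + Z)) ^ 2 = 6 * (1 - g) ∧ 3 / 4 * Z ^ 2 ≤ g := by
  have h1 : Z = 1 - 2 / 3 * θ ^ 2 := by
    rcases le_or_gt (1 - 2 / 3 * θ ^ 2) 0 with h | h
    · rw [max_eq_left h] at hZ
      exact absurd hZ hZ0.ne'
    · rw [hZ, max_eq_right h.le]
  have h2 : Z ≤ 1 := by nlinarith [sq_nonneg θ]
  have h3 : θ ^ 2 = 3 / 2 * (1 - Z) := by linarith
  have h4 : g ≤ Z ^ 2 := by
    rw [hg]
    nlinarith [sq_nonneg Z]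
  refine ⟨h2, h3, ?_, h4, ?_, ?_, ?_⟩
  · rw [hg]
    positivity
  · nlinarith
  · rw [mul_pow, sq_abs, h3, hg]
    ring
  · rw [hg]
    nlinarith [sq_nonneg Z, pow_pos hZ0 3]

/-- the term with `θ`: `θ Z (2+Z) D ≤ Z |θ| (2+Z) |D|` and the lower bound. -/
theorem c5_cross (θ Z D : ℝ) (hZ0 : 0 ≤ Z) :
    |θ * Z * (2 + Z) * D| = Z * (|θ| * (2 + Z)) * |D| := by
  rw [abs_mul, abs_mul, abs_mul, abs_of_nonneg hZ0, abs_of_nonneg (by linarith : (0 : ℝ) ≤ 2 + Z)]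
  ring

theorem c5_small1 (δ Z g : ℝ) (hδ : 0 ≤ δ) (hδ1 : δ ≤ 73 / 500) (hZ0 : 0 ≤ Z) (hZ1 : Z ≤ 1 / 3)
    (hr : 0 ≤ δ + δ ^ 2 - Z / 2) (hr1 : δ + δ ^ 2 - Z / 2 ≤ 1 / 6) (hg : 3 / 4 * Z ^ 2 ≤ g) :
    3 * (δ + δ ^ 2 - Z / 2) * (Z * (2 / 5 + Z / 8)) +
      81 / 128 * Z ^ 2 * (δ + δ ^ 2 - Z / 2) ≤
      δ ^ 2 * (3 / 2 + 2 * δ) + g * (3 / 2 * (δ + δ ^ 2) + 1 / 8) := by
  have h1 : 3 * (δ + δ ^ 2 - Z / 2) * (Z * (2 / 5 + Z / 8)) ≤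
      3 * (δ + δ ^ 2 - Z / 2) * (Z * (53 / 120)) := by
    refine mul_le_mul_of_nonneg_left ?_ (by linarith)
    exact mul_le_mul_of_nonneg_left (by linarith) hZ0
  have h2 : 81 / 128 * Z ^ 2 * (δ + δ ^ 2 - Z / 2) ≤ 81 / 128 * Z ^ 2 * (1 / 6) :=
    mul_le_mul_of_nonneg_left hr1 (by positivity)
  have h3 : 3 / 32 * Z ^ 2 ≤ g * (3 / 2 * (δ + δ ^ 2) + 1 / 8) := by
    have h4 : 0 ≤ g := le_trans (by positivity) hg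
    have h5 : 0 ≤ g * (3 / 2 * (δ + δ ^ 2)) := by positivity
    nlinarith
  have h6 : Z * δ ^ 2 ≤ 73 / 500 * (Z * δ) := by
    have := mul_le_mul_of_nonneg_left hδ1 (mul_nonneg hZ0 hδ)
    nlinarith
  have h7 : 0 ≤ δ ^ 3 := by positivity
  nlinarith [sq_nonneg (δ - 1 / 2 * Z), mul_nonneg hZ0 hδ, sq_nonneg Z]

theorem c5_small2 (δ Z g : ℝ) (hδ : 29 / 200 ≤ δ) (hδ1 : δ ≤ 26 / 125) (hZ0 : 0 ≤ Z)
    (hZ1 : Z ≤ 1 / 2) (hr : 0 ≤ δ + δ ^ 2 - Z / 2) (hr1 : δ + δ ^ 2 - Z / 2 ≤ 1 / 4)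
    (hw : 1 / 6 ≤ δ + δ ^ 2) (hg : 3 / 4 * Z ^ 2 ≤ g) :
    3 * (δ + δ ^ 2 - Z / 2) * (Z * (2 / 5 + Z / 8)) +
      81 / 128 * Z ^ 2 * (δ + δ ^ 2 - Z / 2) ≤
      δ ^ 2 * (3 / 2 + 2 * δ) + g * (9 / 8 * (δ + δ ^ 2) + 3 / 16) := by
  have hδ0 : 0 ≤ δ := by linarith
  have h1 : 3 * (δ + δ ^ 2 - Z / 2) * (Z * (2 / 5 + Z / 8)) ≤
      3 * (δ + δ ^ 2 - Z / 2) * (Z * (37 / 80)) := by
    refine mul_le_mul_of_nonneg_left ?_ (by linarith)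
    exact mul_le_mul_of_nonneg_left (by linarith) hZ0
  have h2 : 81 / 128 * Z ^ 2 * (δ + δ ^ 2 - Z / 2) ≤ 81 / 128 * Z ^ 2 * (1 / 4) :=
    mul_le_mul_of_nonneg_left hr1 (by positivity)
  have h3 : 9 / 32 * Z ^ 2 ≤ g * (9 / 8 * (δ + δ ^ 2) + 3 / 16) := by
    have h4 : 0 ≤ g := le_trans (by positivity) hg
    have h5 : g * (3 / 8) ≤ g * (9 / 8 * (δ + δ ^ 2) + 3 / 16) :=
      mul_le_mul_of_nonneg_left (by linarith) h4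
    nlinarith
  have h6 : Z * δ ^ 2 ≤ 26 / 125 * (Z * δ) := by
    have := mul_le_mul_of_nonneg_left hδ1 (mul_nonneg hZ0 hδ0)
    nlinarith
  have h7 : 29 / 200 * δ ^ 2 ≤ δ ^ 3 := by
    have := mul_le_mul_of_nonneg_right hδ (sq_nonneg δ)
    nlinarith
  nlinarith [sq_nonneg (δ - 1 / 2 * Z), mul_nonneg hZ0 hδ0, sq_nonneg Z]


/-- final polynomial inequality in the region `x ≥ 1/2`, `3x² ≥ 3/4 + (3/2) Z`; `T` is an upper bound of the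
`σ`-term. -/
theorem c5_N (x Z g T p : ℝ) (hx : 1 / 2 ≤ x) (hp : p = (max 0 (x ^ 2 - 1 / 2)) ^ (3 / 2 : ℝ))
    (hZ0 : 0 < Z) (hZ1 : Z ≤ 1) (hg : g = Z ^ 2 * (3 + Z) / 4) (hr : Z / 2 ≤ x ^ 2 - 1 / 4)
    (hT : T ≤ max (3 * x ^ 2 - 1 / 4) 1) :
    3 * (x ^ 2 - 1 / 4 - Z / 2) * (Z * (2 / 5 + Z / 8)) +
      81 / 128 * Z ^ 2 * (x ^ 2 - 1 / 4 - Z / 2) ^ 2 / (x ^ 2 - 1 / 4) +
      (1 - g) * (3 / 2 * x ^ 2 - 1 / 8) + g / 8 * T ≤ 2 * x ^ 3 - p := by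
  have hw : 0 < x ^ 2 - 1 / 4 := by linarith
  have hg0 : 0 ≤ g := by
    rw [hg]
    positivity
  have hgZ : 3 / 4 * Z ^ 2 ≤ g := by
    rw [hg]
    nlinarith [pow_pos hZ0 3]
  -- `r² / w ≤ r`
  have hr0 : 0 ≤ x ^ 2 - 1 / 4 - Z / 2 := by linarith
  have hrw : (x ^ 2 - 1 / 4 - Z / 2) ^ 2 / (x ^ 2 - 1 / 4) ≤ x ^ 2 - 1 / 4 - Z / 2 := by
    rw [div_le_iff₀ hw]
    nlinarith
  have hT' : g / 8 * T ≤ g / 8 * max (3 * x ^ 2 - 1 / 4) 1 :=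
    mul_le_mul_of_nonneg_left hT (by linarith)
  rcases le_or_gt (x ^ 2) (1 / 2) with h | h
  · -- no power
    have hp0 : p = 0 := by rw [hp, c5_p_zero x h]
    rw [hp0, sub_zero]
    have h81 : 81 / 128 * Z ^ 2 * (x ^ 2 - 1 / 4 - Z / 2) ^ 2 / (x ^ 2 - 1 / 4) ≤
        81 / 128 * Z ^ 2 * (x ^ 2 - 1 / 4 - Z / 2) := by
      rw [mul_div_assoc]
      exact mul_le_mul_of_nonneg_left hrw (by positivity)
    obtain ⟨δ, hδ⟩ : ∃ δ, δ = x - 1 / 2 := ⟨_, rfl⟩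
    have hxδ : x = δ + 1 / 2 := by linarith
    have hwδ : x ^ 2 - 1 / 4 = δ + δ ^ 2 := by
      rw [hxδ]
      ring
    have hδ0 : 0 ≤ δ := by linarith
    have hm : 2 * x ^ 3 = δ ^ 2 * (3 / 2 + 2 * δ) + (3 / 2 * x ^ 2 - 1 / 8) := by
      rw [hxδ]
      ring
    rcases le_or_gt (x ^ 2) (5 / 12) with h5 | h5
    · rw [max_eq_right (by linarith), mul_one] at hT'
      have hs := c5_small1 δ Z g hδ0 (by nlinarith) hZ0.le (by linarith) (by linarith)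
        (by linarith) hgZ
      rw [hwδ] at h81 hr0
      rw [hwδ]
      have e1 : 3 / 2 * (δ + δ ^ 2) + 1 / 8 = (3 / 2 * x ^ 2 - 1 / 8) - 1 / 8 := by
        rw [← hwδ]
        ring
      rw [e1] at hs
      linarith
    · rw [max_eq_left (by linarith)] at hT'
      have hs := c5_small2 δ Z g (by nlinarith) (by nlinarith) hZ0.le (by linarith) (by linarith)
        (by linarith) (by linarith) hgZ
      rw [hwδ] at h81 hr0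
      rw [hwδ]
      have e1 : 9 / 8 * (δ + δ ^ 2) + 3 / 16 =
          (3 / 2 * x ^ 2 - 1 / 8) - (3 * x ^ 2 - 1 / 4) / 8 := by
        rw [← hwδ]
        ring
      rw [e1] at hs
      linarith
  · -- with the power
    rw [max_eq_left (by linarith)] at hT'
    have hx0 : 0 < x := by linarith
    have hx7 : 7 / 10 ≤ x := by nlinarith
    have hpx : x * p ≤ (x ^ 2 - 1 / 2) * (x ^ 2 - 1 / 4) := by
      rw [hp]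
      exact c5_p_le x hx0.le h.le
    have hP := c5_poly x Z hx7 hZ0.le hZ1
    rw [← hg] at hP
    have hxw : 0 < x * (x ^ 2 - 1 / 4) := mul_pos hx0 hw
    have e2 : x * (x ^ 2 - 1 / 4) *
        (81 / 128 * Z ^ 2 * (x ^ 2 - 1 / 4 - Z / 2) ^ 2 / (x ^ 2 - 1 / 4)) =
        81 / 128 * Z ^ 2 * x * (x ^ 2 - 1 / 4 - Z / 2) ^ 2 := by
      rw [mul_assoc x, mul_div_cancel₀ _ hw.ne']
      ring
    have hwp : (x ^ 2 - 1 / 4) * (x * p) ≤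
        (x ^ 2 - 1 / 4) * ((x ^ 2 - 1 / 2) * (x ^ 2 - 1 / 4)) :=
      mul_le_mul_of_nonneg_left hpx hw.le
    have hgT := mul_le_mul_of_nonneg_left hT' hxw.le
    refine le_of_mul_le_mul_left ?_ hxw
    have e3 : x * (x ^ 2 - 1 / 4) * (3 * (x ^ 2 - 1 / 4 - Z / 2) * (Z * (2 / 5 + Z / 8)) +
        81 / 128 * Z ^ 2 * (x ^ 2 - 1 / 4 - Z / 2) ^ 2 / (x ^ 2 - 1 / 4) +
        (1 - g) * (3 / 2 * x ^ 2 - 1 / 8) + g / 8 * T) =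
        x * (x ^ 2 - 1 / 4) * (3 * (x ^ 2 - 1 / 4 - Z / 2) * (Z * (2 / 5 + Z / 8))) +
        81 / 128 * Z ^ 2 * x * (x ^ 2 - 1 / 4 - Z / 2) ^ 2 +
        x * (x ^ 2 - 1 / 4) * ((1 - g) * (3 / 2 * x ^ 2 - 1 / 8)) +
        x * (x ^ 2 - 1 / 4) * (g / 8 * T) := by
      rw [mul_add, mul_add, mul_add, e2]
    rw [e3]
    linarith

/-- leaf: `|φ| ≥ 1`, `x < 1/2` -/
theorem c5_leaf1 (x Z g A S Y : ℝ) (hx : 0 ≤ x) (hx14 : x ^ 2 ≤ 1 / 4) (hZ0 : 0 ≤ Z)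
    (hg0 : 0 ≤ g) (hgZ : g ≤ Z ^ 2)
    (ha : A * (3 * (x ^ 2 - 1 / 4 - Z / 2)) ≤ Z * (3 / 32) * (3 * (x ^ 2 - 1 / 4 - Z / 2)))
    (hY : (1 - g) * Y ≤ (1 - g) * (2 * x ^ 3)) (hS : g / 8 * S ≤ g / 8 * 1) :
    A * (3 * (x ^ 2 - 1 / 4 - Z / 2)) + (1 - g) * Y + g / 8 * S ≤ 2 * x ^ 3 := by
  have h1 : 0 ≤ Z * (1 / 4 - x ^ 2) := mul_nonneg hZ0 (by linarith)
  have h2 : 0 ≤ g * x ^ 3 := by positivity
  have e1 : Z * (3 / 32) * (3 * (x ^ 2 - 1 / 4 - Z / 2)) =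
      -(9 / 32) * (Z * (1 / 4 - x ^ 2)) - 9 / 64 * Z ^ 2 := by ring
  have e2 : (1 - g) * (2 * x ^ 3) = 2 * x ^ 3 - 2 * (g * x ^ 3) := by ring
  linarith

/-- leaf: `|φ| ≤ 1/2`, `x < 1/2` -/
theorem c5_leaf2 (x Z g A S Y : ℝ) (hx : 0 ≤ x) (hx14 : x ^ 2 ≤ 1 / 4)
    (hg0 : 0 ≤ g) (hgZ : g ≤ Z ^ 2)
    (ha : A * (3 * (x ^ 2 - 1 / 4 - Z / 2)) ≤ Z ^ 2 * (13 / 400) * (3 * (x ^ 2 - 1 / 4) - 3 / 2))
    (hY : (1 - g) * Y ≤ (1 - g) * (2 * x ^ 3)) (hS : g / 8 * S ≤ g / 8 * (12 / 5 * x ^ 2)) :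
    A * (3 * (x ^ 2 - 1 / 4 - Z / 2)) + (1 - g) * Y + g / 8 * S ≤ 2 * x ^ 3 := by
  have h1 : 0 ≤ Z ^ 2 * (1 / 4 - x ^ 2) := mul_nonneg (sq_nonneg Z) (by linarith)
  have h2 : 0 ≤ g * ((x - 1 / 10) ^ 2 * (2 * x + 1 / 10)) := by positivity
  have e1 : Z ^ 2 * (13 / 400) * (3 * (x ^ 2 - 1 / 4) - 3 / 2) =
      -(39 / 400) * (Z ^ 2 * (1 / 4 - x ^ 2)) - 39 / 800 * Z ^ 2 := by ring
  have e2 : g / 8 * (12 / 5 * x ^ 2) + (1 - g) * (2 * x ^ 3) =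
      2 * x ^ 3 - g * ((x - 1 / 10) ^ 2 * (2 * x + 1 / 10)) + g * (1 / 1000) := by ring
  linarith

/-- leaf: `1/2 < |φ| < 1`, `x < 1/2` -/
theorem c5_leaf3 (x Z g A S Y : ℝ) (hx : 0 ≤ x) (hx14 : x ^ 2 ≤ 1 / 4)
    (hg0 : 0 ≤ g) (hgZ : g ≤ Z ^ 2)
    (ha : A * (3 * (x ^ 2 - 1 / 4 - Z / 2)) ≤ Z ^ 2 * (13 / 400) * (3 * (x ^ 2 - 1 / 4) - 3 / 2))
    (hY : (1 - g) * Y ≤ (1 - g) * (2 * x ^ 3)) (hS : g / 8 * S ≤ g / 8 * (3 / 8 + 3 / 2 * x ^ 2)) :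
    A * (3 * (x ^ 2 - 1 / 4 - Z / 2)) + (1 - g) * Y + g / 8 * S ≤ 2 * x ^ 3 := by
  have e2 : g / 8 * (3 / 8 + 3 / 2 * x ^ 2) + (1 - g) * (2 * x ^ 3) =
      2 * x ^ 3 + g * (3 / 64 + 3 / 16 * x ^ 2 - 2 * x ^ 3) := by ring
  have e1 : Z ^ 2 * (13 / 400) * (3 * (x ^ 2 - 1 / 4) - 3 / 2) =
      -(Z ^ 2 * (39 / 400 * (1 / 4 - x ^ 2) + 39 / 800)) := by ring
  rcases le_or_gt (3 / 64 + 3 / 16 * x ^ 2 - 2 * x ^ 3) 0 with h | h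
  · have h1 : g * (3 / 64 + 3 / 16 * x ^ 2 - 2 * x ^ 3) ≤ 0 :=
      mul_nonpos_of_nonneg_of_nonpos hg0 h
    have h2 : 0 ≤ Z ^ 2 * (39 / 400 * (1 / 4 - x ^ 2) + 39 / 800) :=
      mul_nonneg (sq_nonneg Z) (by linarith)
    linarith
  · have h1 := mul_le_mul_of_nonneg_right hgZ h.le
    have h3 : 3 / 64 + 3 / 16 * x ^ 2 - 2 * x ^ 3 ≤ 39 / 400 * (1 / 4 - x ^ 2) + 39 / 800 := by
      have h4 : 0 ≤ (x - 19 / 200) ^ 2 * (2 * x + 19 / 100) := by positivity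
      nlinarith
    have h5 := mul_le_mul_of_nonneg_left h3 (sq_nonneg Z)
    linarith

/-- leaf: `x ≥ 1/2`, `3x² ≤ Q` -/
theorem c5_leaf4 (x Z g A S Y P M : ℝ)
    (ha : A * (3 * (x ^ 2 - 1 / 4 - Z / 2)) ≤ 0) (hb : M ≤ P) (hY : (1 - g) * Y ≤ (1 - g) * M)
    (hS : g / 8 * S ≤ g / 8 * (8 * M)) :
    A * (3 * (x ^ 2 - 1 / 4 - Z / 2)) + (1 - g) * Y + g / 8 * S ≤ P := by
  have e1 : g / 8 * (8 * M) = g * M := by ring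
  have e2 : (1 - g) * M = M - g * M := by ring
  linarith

/-- leaf: main region -/
theorem c5_leaf5 (r w Z g k ψ A Y S m α : ℝ)
    (ha : A * (3 * r) ≤ (Z * α + Z * k * (3 / 8 * ψ)) * (3 * r))
    (hsq : 9 / 8 * r * Z * (k * ψ) - w / 2 * (k * ψ) ^ 2 ≤ 81 / 128 * Z ^ 2 * r ^ 2 / w)
    (hT : (1 - g) * Y ≤ (1 - g) * m - w / 2 * (k * ψ) ^ 2) :
    A * (3 * r) + (1 - g) * Y + g / 8 * S ≤
      3 * r * (Z * α) + 81 / 128 * Z ^ 2 * r ^ 2 / w + (1 - g) * m + g / 8 * S := by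
  have e1 : (Z * α + Z * k * (3 / 8 * ψ)) * (3 * r) = 3 * r * (Z * α) + 9 / 8 * r * Z * (k * ψ) := by
    ring
  linarith

theorem c5_sq (r w Z K : ℝ) (hw : 0 < w) :
    9 / 8 * r * Z * K - w / 2 * K ^ 2 ≤ 81 / 128 * Z ^ 2 * r ^ 2 / w := by
  rw [le_div_iff₀ hw]
  have h := sq_nonneg (w * K - 9 / 8 * (r * Z))
  have e : 81 / 128 * Z ^ 2 * r ^ 2 - (9 / 8 * r * Z * K - w / 2 * K ^ 2) * w =
      1 / 2 * (w * K - 9 / 8 * (r * Z)) ^ 2 := by ring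
  linarith

/-- bound of the `y`-term for `φ² ≤ 1/4` -/
theorem c5_yb (x φ y : ℝ) (hx : 1 / 4 ≤ x ^ 2) (h : φ ^ 2 ≤ 1 / 4) (hy : y ^ 2 = 1 / 4 - φ ^ 2)
    (hy0 : 0 ≤ y) :
    y * (3 * x ^ 2 - y ^ 2) ≤ 3 / 2 * x ^ 2 - 1 / 8 - 3 * (x ^ 2 - 1 / 4) * φ ^ 2 := by
  obtain ⟨s, hs⟩ : ∃ s, s = φ ^ 2 := ⟨_, rfl⟩
  rw [← hs] at h hy ⊢
  have hs0 : 0 ≤ s := by
    rw [hs]
    positivity
  have hy3 : y ≤ 1 / 2 - s := by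
    have : y ^ 2 ≤ (1 / 2 - s) ^ 2 := by
      rw [hy]
      nlinarith
    exact (pow_le_pow_iff_left₀ hy0 (by linarith) two_ne_zero).1 this
  -- `y (3x² - y²) ≤ (1/2 - s) (3x² - (1/2-s)²)`
  have h6 : (1 / 2 - s) ^ 2 ≤ 1 / 4 := by nlinarith
  have h7 : (1 / 2 - s) * y ≤ 1 / 4 := by nlinarith
  have h8 : y ^ 2 ≤ 1 / 4 := by linarith
  have h5 : 0 ≤ (1 / 2 - s - y) * (3 * x ^ 2 - ((1 / 2 - s) ^ 2 + (1 / 2 - s) * y + y ^ 2)) :=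
    mul_nonneg (by linarith) (by linarith)
  have h9 : 0 ≤ s ^ 2 * (3 / 2 - s) := mul_nonneg (by positivity) (by linarith)
  have e : 3 / 2 * x ^ 2 - 1 / 8 - 3 * (x ^ 2 - 1 / 4) * s - y * (3 * x ^ 2 - y ^ 2) =
      (1 / 2 - s - y) * (3 * x ^ 2 - ((1 / 2 - s) ^ 2 + (1 / 2 - s) * y + y ^ 2)) +
      s ^ 2 * (3 / 2 - s) := by ring
  linarith

/-- `y (3x² - y²) ≤ (3/2)x² - 1/8` -/
theorem c5_yb0 (x y : ℝ) (hx : 1 / 4 ≤ x ^ 2) (hy0 : 0 ≤ y) (hy1 : y ≤ 1 / 2) :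
    y * (3 * x ^ 2 - y ^ 2) ≤ 3 / 2 * x ^ 2 - 1 / 8 := by
  have h3 : 0 ≤ (1 / 2 - y) * (3 * x ^ 2 - (1 / 4 + y / 2 + y ^ 2)) := by
    refine mul_nonneg (by linarith) ?_
    nlinarith
  have e : 3 / 2 * x ^ 2 - 1 / 8 - y * (3 * x ^ 2 - y ^ 2) =
      (1 / 2 - y) * (3 * x ^ 2 - (1 / 4 + y / 2 + y ^ 2)) := by ring
  linarith

theorem c5_2x3 (x y : ℝ) (hx : 0 ≤ x) (hy : 0 ≤ y) : y * (3 * x ^ 2 - y ^ 2) ≤ 2 * x ^ 3 := by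
  have h : 0 ≤ (x - y) ^ 2 * (2 * x + y) := by positivity
  have e : 2 * x ^ 3 - y * (3 * x ^ 2 - y ^ 2) = (x - y) ^ 2 * (2 * x + y) := by ring
  linarith

theorem c5_ha2 (x Z : ℝ) (hZ0 : 0 ≤ Z) (hZ1 : Z ≤ 1) (hx14 : x ^ 2 ≤ 1 / 4) :
    Z * (13 / 400) * (3 * (x ^ 2 - 1 / 4 - Z / 2)) ≤
      Z ^ 2 * (13 / 400) * (3 * (x ^ 2 - 1 / 4) - 3 / 2) := by
  have h : 0 ≤ Z * (1 - Z) * (1 / 4 - x ^ 2) :=
    mul_nonneg (mul_nonneg hZ0 (by linarith)) (by linarith)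
  have e : Z ^ 2 * (13 / 400) * (3 * (x ^ 2 - 1 / 4) - 3 / 2) -
      Z * (13 / 400) * (3 * (x ^ 2 - 1 / 4 - Z / 2)) =
      39 / 400 * (Z * (1 - Z) * (1 / 4 - x ^ 2)) := by ring
  linarith

theorem c5_sig1 (x φ : ℝ) (hx14 : x ^ 2 ≤ 1 / 4) :
    (φ ^ 2 - 1 / 4 + 3 * x ^ 2) / (1 + φ ^ 2) ≤ 1 := by
  have hφ2 : 0 < 1 + φ ^ 2 := by positivity
  rw [div_le_iff₀ hφ2]
  linarith

theorem c5_sig2 (x φ : ℝ) (hx14 : x ^ 2 ≤ 1 / 4) (h : φ ^ 2 ≤ 1 / 4) :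
    (φ ^ 2 - 1 / 4 + 3 * x ^ 2) / (1 + φ ^ 2) ≤ 12 / 5 * x ^ 2 := by
  have hφ2 : 0 < 1 + φ ^ 2 := by positivity
  rw [div_le_iff₀ hφ2]
  have h1 : 0 ≤ (1 / 4 - φ ^ 2) * (1 - 12 / 5 * x ^ 2) := mul_nonneg (by linarith) (by linarith)
  have e : 12 / 5 * x ^ 2 * (1 + φ ^ 2) - (φ ^ 2 - 1 / 4 + 3 * x ^ 2) =
      (1 / 4 - φ ^ 2) * (1 - 12 / 5 * x ^ 2) := by ring
  linarith

theorem c5_sig3 (x φ : ℝ) (hx14 : x ^ 2 ≤ 1 / 4) (h : φ ^ 2 ≤ 1) :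
    (φ ^ 2 - 1 / 4 + 3 * x ^ 2) / (1 + φ ^ 2) ≤ 3 / 8 + 3 / 2 * x ^ 2 := by
  have hφ2 : 0 < 1 + φ ^ 2 := by positivity
  rw [div_le_iff₀ hφ2]
  have h1 : 0 ≤ (1 - φ ^ 2) * (5 / 8 - 3 / 2 * x ^ 2) := mul_nonneg (by linarith) (by linarith)
  have e : (3 / 8 + 3 / 2 * x ^ 2) * (1 + φ ^ 2) - (φ ^ 2 - 1 / 4 + 3 * x ^ 2) =
      (1 - φ ^ 2) * (5 / 8 - 3 / 2 * x ^ 2) := by ring
  linarith

theorem c5_sig4 (x φ : ℝ) :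
    (φ ^ 2 - 1 / 4 + 3 * x ^ 2) / (1 + φ ^ 2) ≤ max (3 * x ^ 2 - 1 / 4) 1 := by
  have hφ2 : 0 < 1 + φ ^ 2 := by positivity
  rw [div_le_iff₀ hφ2]
  have hm1 := le_max_left (3 * x ^ 2 - 1 / 4) 1
  have hm2 := le_max_right (3 * x ^ 2 - 1 / 4) 1
  have := mul_le_mul_of_nonneg_right hm2 (sq_nonneg φ)
  linarith


/-- [RC-C5] (helper87) The Hamilton-Jacobi inequality in real variables; `W = 3x²`. -/
theorem c5_hj (x θ φ D : ℝ) (hx : 0 ≤ x) (h1 : |D| ≤ 3 / 8 * |φ|) (h2 : |D| ≤ 3 / 20)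
    (h3 : 1 ≤ |φ| → |D| ≤ 1 / 8) (Z g y A : ℝ) (hZ : Z = max 0 (1 - 2 / 3 * θ ^ 2))
    (hg : g = Z ^ 2 * (3 + Z) / 4) (hy : y = √(1 / 4 - φ ^ 2))
    (hA : A = Z * (2 / 5 + Z / 8) + θ * Z * (2 + Z) * D) :
    A * (θ ^ 2 - 9 / 4 + 3 * x ^ 2) + (1 - g) * y * (φ ^ 2 - 1 / 4 + 3 * x ^ 2) +
      g / 8 * ((φ ^ 2 - 1 / 4 + 3 * x ^ 2) / (1 + φ ^ 2)) ≤
      2 * x ^ 3 - (max 0 (x ^ 2 - 1 / 2)) ^ (3 / 2 : ℝ) := by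
  have hZn : 0 ≤ Z := by
    rw [hZ]
    exact le_max_left _ _
  rcases hZn.eq_or_lt with hZ0 | hZ0
  · -- `Z = 0`
    rw [← hZ0] at hg hA
    have hg0 : g = 0 := by rw [hg]; ring
    have hA0 : A = 0 := by rw [hA]; ring
    rw [hg0, hA0]
    have := c5_hj_zero x φ y hx hy
    calc 0 * (θ ^ 2 - 9 / 4 + 3 * x ^ 2) + (1 - 0) * y * (φ ^ 2 - 1 / 4 + 3 * x ^ 2) +
        0 / 8 * ((φ ^ 2 - 1 / 4 + 3 * x ^ 2) / (1 + φ ^ 2)) = y * (φ ^ 2 - 1 / 4 + 3 * x ^ 2) := by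
          ring
      _ ≤ _ := this
  obtain ⟨hZ1, hθ, hg0, hgZ, hg1, hθ2, -⟩ := c5_Zfacts θ Z g hZ hZ0 hg
  obtain ⟨hy0, hy1, hyc⟩ := c5_y_cases φ y hy
  have hQ : θ ^ 2 - 9 / 4 + 3 * x ^ 2 = 3 * (x ^ 2 - 1 / 4 - Z / 2) := by
    rw [hθ]
    ring
  rw [hQ]
  -- `k = |θ| (2 + Z)`, `k² = 6 (1 - g) ≤ 6`
  obtain ⟨k, hk⟩ : ∃ k, k = |θ| * (2 + Z) := ⟨_, rfl⟩
  have hk0 : 0 ≤ k := by
    rw [hk]
    positivity
  rw [← hk] at hθ2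
  have hk6 : k ≤ 49 / 20 := by
    have : k ^ 2 ≤ (49 / 20) ^ 2 := by
      rw [hθ2]
      linarith
    exact (pow_le_pow_iff_left₀ hk0 (by norm_num) two_ne_zero).1 this
  have hcr := c5_cross θ Z D hZ0.le
  rw [← hk] at hcr
  have hAu : A ≤ Z * (2 / 5 + Z / 8) + Z * k * |D| := by
    rw [hA]
    have := le_abs_self (θ * Z * (2 + Z) * D)
    linarith
  have hD0 : 0 ≤ |D| := abs_nonneg D
  have hkD : k * |D| ≤ 49 / 20 * |D| := mul_le_mul_of_nonneg_right hk6 hD0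
  have hAl : Z * (2 / 5 - k * |D|) ≤ A := by
    rw [hA]
    have h4 := neg_abs_le (θ * Z * (2 + Z) * D)
    have h5 : 0 ≤ Z ^ 2 := sq_nonneg Z
    have e : Z * (2 / 5 - k * |D|) = Z * (2 / 5 + Z / 8) - Z ^ 2 / 8 - Z * k * |D| := by ring
    linarith
  have hAl1 : Z * (13 / 400) ≤ A := by
    refine le_trans (mul_le_mul_of_nonneg_left ?_ hZ0.le) hAl
    linarith
  -- the term with `y`
  have hY : (1 - g) * y * (φ ^ 2 - 1 / 4 + 3 * x ^ 2) = (1 - g) * (y * (3 * x ^ 2 - y ^ 2)) := by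
    rcases hyc with h | h
    · rw [h.2]
      ring
    · rw [h.2]
      ring
  rw [hY]
  rcases le_or_gt (1 / 2) x with hx2 | hx2
  · -- `x ≥ 1/2`
    have hx14 : 1 / 4 ≤ x ^ 2 := by nlinarith
    have hσ := c5_sig4 x φ
    rcases le_or_gt (x ^ 2 - 1 / 4 - Z / 2) 0 with hr | hr
    · -- `A (3x² - Q) ≤ 0`
      have ha : A * (3 * (x ^ 2 - 1 / 4 - Z / 2)) ≤ 0 :=
        mul_nonpos_of_nonneg_of_nonpos (le_trans (by positivity) hAl1) (by linarith)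
      have hT2' := mul_le_mul_of_nonneg_left (c5_yb0 x y hx14 hy0 hy1) (by linarith : 0 ≤ 1 - g)
      have hmx : max (3 * x ^ 2 - 1 / 4) 1 ≤ 8 * (3 / 2 * x ^ 2 - 1 / 8) :=
        max_le (by linarith) (by linarith)
      have hT3 := mul_le_mul_of_nonneg_left (hσ.trans hmx) (by linarith : 0 ≤ g / 8)
      exact c5_leaf4 x Z g A _ _ _ _ ha (c5_base x hx2) hT2' hT3
    · -- main region
      have hN := c5_N x Z g ((φ ^ 2 - 1 / 4 + 3 * x ^ 2) / (1 + φ ^ 2)) _ hx2 rfl hZ0 hZ1 hg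
        (by linarith) hσ
      refine le_trans ?_ hN
      -- `ψ = min |φ| (1/2)`
      obtain ⟨ψ, hψ⟩ : ∃ ψ, ψ = min |φ| (1 / 2) := ⟨_, rfl⟩
      have hψ0 : 0 ≤ ψ := by
        rw [hψ]
        exact le_min (abs_nonneg φ) (by norm_num)
      have hDψ : |D| ≤ 3 / 8 * ψ := by
        rw [hψ]
        rcases le_or_gt |φ| (1 / 2) with h | h
        · rw [min_eq_left h]
          exact h1
        · rw [min_eq_right h.le]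
          linarith
      have hw : 0 < x ^ 2 - 1 / 4 := by linarith
      have hT2 : y * (3 * x ^ 2 - y ^ 2) ≤ 3 / 2 * x ^ 2 - 1 / 8 - 3 * (x ^ 2 - 1 / 4) * ψ ^ 2 := by
        rcases hyc with h | h
        · have hφa : |φ| ≤ 1 / 2 := by
            refine (pow_le_pow_iff_left₀ (abs_nonneg φ) (by norm_num) two_ne_zero).1 ?_
            rw [sq_abs]
            linarith [h.1]
          rw [hψ, min_eq_left hφa, sq_abs]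
          exact c5_yb x φ y hx14 h.1 h.2 hy0
        · have hφa : 1 / 2 < |φ| := by
            refine (pow_lt_pow_iff_left₀ (by norm_num) (abs_nonneg φ) two_ne_zero).1 ?_
            rw [sq_abs]
            linarith [h.1]
          rw [hψ, min_eq_right hφa.le, h.2]
          linarith
      have hT2' := mul_le_mul_of_nonneg_left hT2 (by linarith : 0 ≤ 1 - g)
      have ha : A * (3 * (x ^ 2 - 1 / 4 - Z / 2)) ≤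
          (Z * (2 / 5 + Z / 8) + Z * k * (3 / 8 * ψ)) * (3 * (x ^ 2 - 1 / 4 - Z / 2)) := by
        refine mul_le_mul_of_nonneg_right (hAu.trans ?_) (by linarith)
        have := mul_le_mul_of_nonneg_left hDψ (mul_nonneg hZ0.le hk0)
        linarith
      -- completing the square
      have hk2 : (1 - g) * (3 * (x ^ 2 - 1 / 4) * ψ ^ 2) =
          (x ^ 2 - 1 / 4) / 2 * (k * ψ) ^ 2 := by
        rw [mul_pow, hθ2]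
        ring
      have hT2'' : (1 - g) * (y * (3 * x ^ 2 - y ^ 2)) ≤
          (1 - g) * (3 / 2 * x ^ 2 - 1 / 8) - (x ^ 2 - 1 / 4) / 2 * (k * ψ) ^ 2 := by
        rw [← hk2]
        linarith
      exact c5_leaf5 _ _ Z g k ψ A _ _ _ _ ha (c5_sq _ _ Z _ hw) hT2''
  · -- `x < 1/2`
    have hx14 : x ^ 2 ≤ 1 / 4 := by nlinarith
    have hp0 : (max 0 (x ^ 2 - 1 / 2)) ^ (3 / 2 : ℝ) = 0 := c5_p_zero x (by linarith)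
    rw [hp0, sub_zero]
    have hT2' := mul_le_mul_of_nonneg_left (c5_2x3 x y hx hy0) (by linarith : 0 ≤ 1 - g)
    -- bound for the `A` term
    have ha : A * (3 * (x ^ 2 - 1 / 4 - Z / 2)) ≤
        Z ^ 2 * (13 / 400) * (3 * (x ^ 2 - 1 / 4) - 3 / 2) :=
      (mul_le_mul_of_nonpos_right hAl1 (by linarith)).trans (c5_ha2 x Z hZ0.le hZ1 hx14)
    rcases le_or_gt 1 |φ| with hφ | hφ
    · -- `|φ| ≥ 1`
      have hD := h3 hφ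
      have hAl2 : Z * (3 / 32) ≤ A := by
        refine le_trans (mul_le_mul_of_nonneg_left ?_ hZ0.le) hAl
        linarith
      have ha3 : A * (3 * (x ^ 2 - 1 / 4 - Z / 2)) ≤
          Z * (3 / 32) * (3 * (x ^ 2 - 1 / 4 - Z / 2)) :=
        mul_le_mul_of_nonpos_right hAl2 (by linarith)
      have hσ' := mul_le_mul_of_nonneg_left (c5_sig1 x φ hx14) (by linarith : 0 ≤ g / 8)
      exact c5_leaf1 x Z g A _ _ hx hx14 hZ0.le hg0 hgZ ha3 hT2' hσ'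
    · rcases hyc with h | h
      · -- `|φ| ≤ 1/2`
        have hσ' := mul_le_mul_of_nonneg_left (c5_sig2 x φ hx14 h.1) (by linarith : 0 ≤ g / 8)
        exact c5_leaf2 x Z g A _ _ hx hx14 hg0 hgZ ha hT2' hσ'
      · -- `1/2 < |φ| < 1`
        have hφ1 : φ ^ 2 ≤ 1 := by
          rw [← sq_abs]
          have := pow_le_pow_left₀ (abs_nonneg φ) hφ.le 2
          linarith
        have hσ' := mul_le_mul_of_nonneg_left (c5_sig3 x φ hx14 hφ1) (by linarith : 0 ≤ g / 8)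
        exact c5_leaf3 x Z g A _ _ hx hx14 hg0 hgZ ha hT2' hσ'

/-- [RC-C5] (helper87) The same for `φ = ∞` (`sin t = 0`, `D = 0`). -/
theorem c5_hj_inf (x θ : ℝ) (hx : 0 ≤ x) (Z g A : ℝ) (hZ : Z = max 0 (1 - 2 / 3 * θ ^ 2))
    (hg : g = Z ^ 2 * (3 + Z) / 4) (hA : A = Z * (2 / 5 + Z / 8)) :
    A * (θ ^ 2 - 9 / 4 + 3 * x ^ 2) + g / 8 ≤
      2 * x ^ 3 - (max 0 (x ^ 2 - 1 / 2)) ^ (3 / 2 : ℝ) := by
  have hZn : 0 ≤ Z := by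
    rw [hZ]
    exact le_max_left _ _
  rcases hZn.eq_or_lt with hZ0 | hZ0
  · rw [← hZ0] at hg hA
    have hg0 : g = 0 := by rw [hg]; ring
    have hA0 : A = 0 := by rw [hA]; ring
    rw [hg0, hA0]
    have := c5_zero x hx
    linarith
  obtain ⟨hZ1, hθ, hg0, hgZ, hg1, hθ2, -⟩ := c5_Zfacts θ Z g hZ hZ0 hg
  have hQ : θ ^ 2 - 9 / 4 + 3 * x ^ 2 = 3 * (x ^ 2 - 1 / 4 - Z / 2) := by
    rw [hθ]
    ring
  rw [hQ]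
  have hA0 : 0 ≤ A := by
    rw [hA]
    positivity
  rcases le_or_gt (1 / 2) x with hx2 | hx2
  · have hx14 : 1 / 4 ≤ x ^ 2 := by nlinarith
    rcases le_or_gt (x ^ 2 - 1 / 4 - Z / 2) 0 with hr | hr
    · have ha : A * (3 * (x ^ 2 - 1 / 4 - Z / 2)) ≤ 0 :=
        mul_nonpos_of_nonneg_of_nonpos hA0 (by linarith)
      have hT2' : (1 - g) * 0 ≤ (1 - g) * (3 / 2 * x ^ 2 - 1 / 8) :=
        mul_le_mul_of_nonneg_left (by linarith) (by linarith : 0 ≤ 1 - g)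
      have hT3 : g / 8 * 1 ≤ g / 8 * (8 * (3 / 2 * x ^ 2 - 1 / 8)) :=
        mul_le_mul_of_nonneg_left (by linarith) (by linarith : 0 ≤ g / 8)
      have := c5_leaf4 x Z g A 1 0 _ _ ha (c5_base x hx2) hT2' hT3
      linarith
    · have hN := c5_N x Z g 1 _ hx2 rfl hZ0 hZ1 hg (by linarith) (le_max_right _ _)
      have hw : 0 < x ^ 2 - 1 / 4 := by linarith
      have h4 : 0 ≤ 81 / 128 * Z ^ 2 * (x ^ 2 - 1 / 4 - Z / 2) ^ 2 / (x ^ 2 - 1 / 4) := by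
        positivity
      have h5 : 0 ≤ (1 - g) * (3 / 2 * x ^ 2 - 1 / 8) :=
        mul_nonneg (by linarith) (by linarith)
      have e : A * (3 * (x ^ 2 - 1 / 4 - Z / 2)) =
          3 * (x ^ 2 - 1 / 4 - Z / 2) * (Z * (2 / 5 + Z / 8)) := by
        rw [hA]
        ring
      rw [e]
      linarith
  · have hx14 : x ^ 2 ≤ 1 / 4 := by nlinarith
    rw [c5_p_zero x (by linarith), sub_zero]
    have hx3 : 0 ≤ 2 * x ^ 3 := by positivity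
    have hA2 : Z * (3 / 32) ≤ A := by
      rw [hA]
      exact mul_le_mul_of_nonneg_left (by linarith) hZ0.le
    have ha3 : A * (3 * (x ^ 2 - 1 / 4 - Z / 2)) ≤
        Z * (3 / 32) * (3 * (x ^ 2 - 1 / 4 - Z / 2)) :=
      mul_le_mul_of_nonpos_right hA2 (by linarith)
    have hT2' : (1 - g) * 0 ≤ (1 - g) * (2 * x ^ 3) :=
      mul_le_mul_of_nonneg_left hx3 (by linarith : 0 ≤ 1 - g)
    have := c5_leaf1 x Z g A 1 0 hx hx14 hZ0.le hg0 hgZ ha3 hT2' le_rfl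
    linarith

end Pool.Agent.RC
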