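import Pool.Agent.RC.C1
import Pool.Agent.RC.C4
import Pool.Agent.RC.C5

set_option autoImplicit false

open MeasureTheory Set Real

namespace Pool.Agent.RC

theorem c6_three (y : ℝ) (hy : 0 ≤ y) : (3 * y) ^ (3 / 2 : ℝ) = 3 * √3 * y ^ (3 / 2 : ℝ) := by
  rw [Real.mul_rpow (by norm_num) hy]
  congr 1
  rw [show (3 / 2 : ℝ) = 1 + 1 / 2 by norm_num, Real.rpow_add (by norm_num), Real.rpow_one,
    Real.sqrt_eq_rpow]

theorem c6_cube (x : ℝ) (hx : 0 ≤ x) : (x ^ 2) ^ (3 / 2 : ℝ) = x ^ 3 := by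
  rw [← Real.rpow_natCast x 2, ← Real.rpow_mul hx, ← Real.rpow_natCast x 3]
  norm_num

theorem c6_rhs (x : ℝ) (hx : 0 ≤ x) :
    2 / (3 * √3) * ((3 * x ^ 2) ^ (3 / 2 : ℝ) - 1 / 2 * (max 0 (3 * x ^ 2 - 3 / 2)) ^ (3 / 2 : ℝ)) =
      2 * x ^ 3 - (max 0 (x ^ 2 - 1 / 2)) ^ (3 / 2 : ℝ) := by
  have h1 : max 0 (3 * x ^ 2 - 3 / 2) = 3 * max 0 (x ^ 2 - 1 / 2) := by
    rw [mul_max_of_nonneg _ _ (by norm_num : (0 : ℝ) ≤ 3), mul_zero]
    congr 1
    ring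
  rw [h1, c6_three _ (le_max_left _ _), c6_three _ (sq_nonneg x), c6_cube x hx]
  have h2 : √3 ≠ 0 := by positivity
  field_simp

theorem c6_ratio (t w c : ℝ) (h : sin t ≠ 0) :
    cos t ^ 2 + (w - c) * sin t ^ 2 = sin t ^ 2 * ((-(cos t / sin t)) ^ 2 - c + w) := by
  field_simp
  ring

theorem c6_sin (t : ℝ) (h : sin t ≠ 0) : sin t ^ 2 * (1 + (-(cos t / sin t)) ^ 2) = 1 := by
  have h2 := sin_sq_add_cos_sq t
  field_simp
  linear_combination h2

theorem c6_db (t : ℝ) (h : sin t ≠ 0) : db t * sin t ^ 2 = √(1 / 4 - (-(cos t / sin t)) ^ 2) := by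
  unfold db
  rw [neg_sq, div_mul_cancel₀]
  positivity

/-- [RC-C6] The Hamilton-Jacobi inequality in the angles.
PROOF. Put `x = √(w/3)`, so `w = 3x²`, `w^{3/2} = 3√3 x³`, `max 0 (w - 3/2) = 3 max 0 (x² - 1/2)` and
`(2/(3√3)) (w^{3/2} - (1/2)(max 0 (w-3/2))^{3/2}) = 2x³ - (max 0 (x²-1/2))^{3/2}` (`Real.mul_rpow`, `3^{3/2} = 3√3`).
Cases.
(1) `sin s ≠ 0`, `sin t ≠ 0`: `θ = -cos s/sin s`, `φ = -cos t/sin t`, `D = Dt t`, `Z = Zs s`, `g = gs s`, `y = √(1/4-φ²)`. Then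
`cos² s + (w - 9/4) sin² s = sin² s (θ² - 9/4 + w)`, `da s - dg s * D = A / sin² s` with the `A` of `c5_hj`
(`dg s = -θ Z (2+Z)/sin² s`), `1/(1+φ²) = sin² t`, `db t = y / sin² t`, so the left side is exactly the left side of
`c5_hj` (hypotheses: `c4_D_cot`, `c4_D_small`, `c4_D_far`; `1 ≤ |φ|` iff `|sin t| ≤ |cos t|`).
(2) `sin s ≠ 0`, `sin t = 0`: `Dt t = 0` (`c4_D_sin`), `db t = 0` (division by `0`), `cos² t = 1`: `c5_hj_inf`.
(3) `sin s = 0`: `Zs s = 0`, `gs s = 0`, `da s = dg s = 0`; if `sin t ≠ 0` use `c5_hj_zero` (`db t (cos² t + (w-1/4) sin² t) =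
y (φ² - 1/4 + w)`), if `sin t = 0` use `c5_zero`. -/
theorem c6_hj (s t w : ℝ) (hw : 0 ≤ w) :
    (da s - dg s * Dt t) * (cos s ^ 2 + (w - 9 / 4) * sin s ^ 2) +
      ((1 - gs s) * db t + gs s / 8) * (cos t ^ 2 + (w - 1 / 4) * sin t ^ 2) ≤
      2 / (3 * √3) * (w ^ (3 / 2 : ℝ) - 1 / 2 * (max 0 (w - 3 / 2)) ^ (3 / 2 : ℝ)) := by
  obtain ⟨x, hx, rfl⟩ : ∃ x : ℝ, 0 ≤ x ∧ w = 3 * x ^ 2 := by
    refine ⟨√(w / 3), Real.sqrt_nonneg _, ?_⟩
    rw [Real.sq_sqrt (by positivity)]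
    ring
  rw [c6_rhs x hx]
  by_cases hs : sin s = 0
  · have hZ : Zs s = 0 := by
      unfold Zs
      rw [hs]
      norm_num
    have hg : gs s = 0 := by
      unfold gs
      rw [hZ]
      norm_num
    have hda : da s = 0 := by
      unfold da
      rw [hZ]
      norm_num
    have hdg : dg s = 0 := by
      unfold dg
      rw [hZ]
      norm_num
    rw [hg, hda, hdg]
    by_cases ht : sin t = 0
    · have hdb : db t = 0 := by
        unfold db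
        rw [ht]
        simp
      rw [hdb]
      have h := c5_zero x hx
      linarith
    · have h := c5_hj_zero x (-(cos t / sin t)) _ hx rfl
      have e : (0 - 0 * Dt t) * (cos s ^ 2 + (3 * x ^ 2 - 9 / 4) * sin s ^ 2) +
          ((1 - 0) * db t + 0 / 8) * (cos t ^ 2 + (3 * x ^ 2 - 1 / 4) * sin t ^ 2) =
          (db t * sin t ^ 2) * ((-(cos t / sin t)) ^ 2 - 1 / 4 + 3 * x ^ 2) := by
        rw [c6_ratio t (3 * x ^ 2) (1 / 4) ht]
        ring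
      rw [e, c6_db t ht]
      exact h
  · have hs2 : sin s ^ 2 ≠ 0 := pow_ne_zero 2 hs
    have hZ : Zs s = max 0 (1 - 2 / 3 * (-(cos s / sin s)) ^ 2) := by
      rw [c1_Zs_eq s hs, neg_sq]
    have hA : (da s - dg s * Dt t) * sin s ^ 2 =
        Zs s * (2 / 5 + Zs s / 8) + (-(cos s / sin s)) * Zs s * (2 + Zs s) * Dt t := by
      unfold da dg
      rw [sub_mul, div_mul_cancel₀ _ hs2]
      have e : Zs s * (2 + Zs s) * (cos s / sin s) / sin s ^ 2 * Dt t * sin s ^ 2 =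
          Zs s * (2 + Zs s) * (cos s / sin s) * Dt t * (sin s ^ 2 / sin s ^ 2) := by ring
      rw [e, div_self hs2]
      ring
    by_cases ht : sin t = 0
    · have hD : Dt t = 0 := c4_D_sin t ht
      have hdb : db t = 0 := by
        unfold db
        rw [ht]
        simp
      have hc : cos t ^ 2 = 1 := by
        have h2 := sin_sq_add_cos_sq t
        rw [ht] at h2
        linarith
      have h := c5_hj_inf x (-(cos s / sin s)) hx (Zs s) (gs s) (Zs s * (2 / 5 + Zs s / 8)) hZ rfl rfl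
      have e : (da s - dg s * Dt t) * (cos s ^ 2 + (3 * x ^ 2 - 9 / 4) * sin s ^ 2) +
          ((1 - gs s) * db t + gs s / 8) * (cos t ^ 2 + (3 * x ^ 2 - 1 / 4) * sin t ^ 2) =
          ((da s - dg s * Dt t) * sin s ^ 2) * ((-(cos s / sin s)) ^ 2 - 9 / 4 + 3 * x ^ 2) +
            gs s / 8 := by
        rw [c6_ratio s (3 * x ^ 2) (9 / 4) hs, hdb, hc, ht]
        ring
      rw [e, hA, hD, mul_zero, add_zero]
      exact h
    · have h1 : |Dt t| ≤ 3 / 8 * |-(cos t / sin t)| := by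
        rw [abs_neg]
        exact c4_D_cot t ht
      have h3 : 1 ≤ |-(cos t / sin t)| → |Dt t| ≤ 1 / 8 := by
        intro h
        rw [abs_neg, abs_div, le_div_iff₀ (abs_pos.2 ht), one_mul] at h
        exact c4_D_far t h
      have h := c5_hj x (-(cos s / sin s)) (-(cos t / sin t)) (Dt t) hx h1 (c4_D_small t) h3
        (Zs s) (gs s) _ _ hZ rfl rfl rfl
      have hsin : ((-(cos t / sin t)) ^ 2 - 1 / 4 + 3 * x ^ 2) / (1 + (-(cos t / sin t)) ^ 2) =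
          sin t ^ 2 * ((-(cos t / sin t)) ^ 2 - 1 / 4 + 3 * x ^ 2) := by
        have h5 := c6_sin t ht
        have h6 : 1 + (-(cos t / sin t)) ^ 2 ≠ 0 := by positivity
        rw [div_eq_iff h6]
        linear_combination (-((-(cos t / sin t)) ^ 2 - 1 / 4 + 3 * x ^ 2)) * h5
      have e : (da s - dg s * Dt t) * (cos s ^ 2 + (3 * x ^ 2 - 9 / 4) * sin s ^ 2) +
          ((1 - gs s) * db t + gs s / 8) * (cos t ^ 2 + (3 * x ^ 2 - 1 / 4) * sin t ^ 2) =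
          ((da s - dg s * Dt t) * sin s ^ 2) * ((-(cos s / sin s)) ^ 2 - 9 / 4 + 3 * x ^ 2) +
            (1 - gs s) * (db t * sin t ^ 2) * ((-(cos t / sin t)) ^ 2 - 1 / 4 + 3 * x ^ 2) +
            gs s / 8 * (sin t ^ 2 * ((-(cos t / sin t)) ^ 2 - 1 / 4 + 3 * x ^ 2)) := by
        rw [c6_ratio s (3 * x ^ 2) (9 / 4) hs, c6_ratio t (3 * x ^ 2) (1 / 4) ht]
        ring
      rw [e, hA, c6_db t ht, ← hsin]
      exact h

end Pool.Agent.RC
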