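import Pool.Agent.RC.B1
import Pool.Agent.RC.B4
import Pool.Agent.RC.C2
import Pool.Agent.RC.C6

set_option autoImplicit false

open MeasureTheory Set Real

namespace Pool.Agent.RC

theorem c7_aa_nat (n : ℕ) : aa ((n : ℝ) * π) = n * (√6 / 3) := by
  induction n with
  | zero => rw [Nat.cast_zero, zero_mul, zero_mul, c2_aa_zero]
  | succ n ih =>
    have h1 : ((n + 1 : ℕ) : ℝ) * π = (n : ℝ) * π + π := by push_cast; ring
    rw [h1, c2_aa_add_pi, ih]
    push_cast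
    ring

theorem c7_bb_nat (n : ℕ) : bb ((n : ℝ) * π) = n * (π / 8) := by
  induction n with
  | zero => rw [Nat.cast_zero, zero_mul, zero_mul, c3_bb_zero]
  | succ n ih =>
    have h1 : ((n + 1 : ℕ) : ℝ) * π = (n : ℝ) * π + π := by push_cast; ring
    rw [h1, c3_bb_add_pi, ih]
    push_cast
    ring

/-- [RC-C7] The verification function at the end point.
PROOF. `0 ≤ gs s ≤ 1`, `aa s ≥ aa (n₁π) = n₁ √6/3`, `bb t ≥ bb (n₀π) = n₀π/8`, `t/8 ≥ n₀π/8`; convex combination. (Induction for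
`aa (nπ)`, `bb (nπ)`.) -/
theorem c7_end (s t : ℝ) (n₀ n₁ : ℕ) (hs : (n₁ : ℝ) * π ≤ s) (ht : (n₀ : ℝ) * π ≤ t) :
    (n₀ : ℝ) * (π / 8) + n₁ * (√6 / 3) ≤ VV s t := by
  have h1 := c2_aa_mono hs
  have h2 := c3_bb_mono ht
  rw [c7_aa_nat] at h1
  rw [c7_bb_nat] at h2
  obtain ⟨g0, g1⟩ := c1_gs_mem s
  have h3 : (n₀ : ℝ) * (π / 8) ≤ t / 8 := by linarith
  have h4 : (1 - gs s) * ((n₀ : ℝ) * (π / 8)) ≤ (1 - gs s) * bb t :=
    mul_le_mul_of_nonneg_left h2 (by linarith)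
  have h5 : gs s * ((n₀ : ℝ) * (π / 8)) ≤ gs s * (t / 8) := mul_le_mul_of_nonneg_left h3 g0
  unfold VV
  linarith

theorem c7_supp {n : ℕ} (v : Fin n → ℝ → ℝ) (hv : ∀ i, HasCompactSupport (v i)) :
    ∃ R : ℝ, 0 ≤ R ∧ ∀ i, ∀ x, R < |x| → v i x = 0 := by
  have h1 : ∀ i, ∃ R : ℝ, 0 ≤ R ∧ ∀ x, R < |x| → v i x = 0 := by
    intro i
    obtain ⟨R, hR⟩ := (hv i).isCompact.isBounded.subset_closedBall 0
    refine ⟨|R|, abs_nonneg R, fun x hx => ?_⟩
    by_contra h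
    have h2 := hR (subset_tsupport (v i) (Function.mem_support.2 h))
    rw [mem_closedBall_zero_iff, Real.norm_eq_abs] at h2
    have h3 := le_abs_self R
    linarith
  choose R hR0 hR using h1
  refine ⟨∑ i, R i, Finset.sum_nonneg fun i _ => hR0 i, fun i x hx => hR i x ?_⟩
  exact lt_of_le_of_lt (Finset.single_le_sum (fun j _ => hR0 j) (Finset.mem_univ i)) hx

/-- the right side -/
noncomputable def c7_psi (w : ℝ → ℝ) (x : ℝ) : ℝ :=
  2 / (3 * √3) * (w x ^ (3 / 2 : ℝ) - 1 / 2 * (max 0 (w x - 3 / 2)) ^ (3 / 2 : ℝ))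

theorem c7_psi_nonneg {w : ℝ → ℝ} (hw : ∀ x, 0 ≤ w x) (x : ℝ) : 0 ≤ c7_psi w x := by
  unfold c7_psi
  have h1 : (max 0 (w x - 3 / 2)) ^ (3 / 2 : ℝ) ≤ w x ^ (3 / 2 : ℝ) := by
    refine Real.rpow_le_rpow (le_max_left _ _) ?_ (by norm_num)
    refine max_le (hw x) ?_
    linarith
  have h2 : 0 ≤ w x ^ (3 / 2 : ℝ) := Real.rpow_nonneg (hw x) _
  have h3 : 0 ≤ 2 / (3 * √3) := by positivity
  refine mul_nonneg h3 ?_
  linarith

theorem c7_psi_continuous {w : ℝ → ℝ} (hw : Continuous w) : Continuous (c7_psi w) := by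
  unfold c7_psi
  have h1 : Continuous fun x => w x ^ (3 / 2 : ℝ) := hw.rpow_const fun x => Or.inr (by norm_num)
  have h2 : Continuous fun x => (max 0 (w x - 3 / 2)) ^ (3 / 2 : ℝ) :=
    (continuous_const.max (hw.sub continuous_const)).rpow_const fun x => Or.inr (by norm_num)
  exact continuous_const.mul (h1.sub (continuous_const.mul h2))

theorem c7_psi_compact {w : ℝ → ℝ} (hw : HasCompactSupport w) : HasCompactSupport (c7_psi w) := by
  refine hw.mono ?_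
  intro x hx
  rw [Function.mem_support] at hx ⊢
  intro h0
  apply hx
  unfold c7_psi
  rw [h0, max_eq_left (by norm_num), Real.zero_rpow (by norm_num)]
  ring

theorem c7_psi_integrable {w : ℝ → ℝ} (hw : CPot w) : Integrable (c7_psi w) :=
  (c7_psi_continuous hw.1).integrable_of_hasCompactSupport (c7_psi_compact hw.2.2)

/-- [RC-C7] The levels `1/4` and `9/4`.
PROOF. Choose `a ≤ b` such that all `v0 i`, `v1 i` vanish outside `Ioo a b` (finitely many compact supports: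
`IsCompact` subsets of `ℝ` are bounded). Let `s`, `t` be the Prüfer angles of `b1_prufer` on `[a,b]` for `q = 9/4` and `q = 1/4`. By
`b4_count`, `n₁π ≤ s b`, `n₀π ≤ t b`. The function `F x = VV (s x) (t x)` has at `x ∈ [a,b]` the derivative
`(da s - dg s · Dt t) · pf w (9/4) x s + ((1 - gs s) db t + gs s/8) · pf w (1/4) x t` (product and chain rule from
`c1_gs_deriv`, `c2_aa_deriv`, `c3_bb_deriv`; `Dt t = bb t - t/8`), which is `≤ ψ x` by `c6_hj`, with
`ψ x = 2/(3√3) (w^{3/2} - (1/2)(max 0 (w-3/2))^{3/2})` continuous, `≥ 0` and compactly supported. `F a = VV 0 0 = 0`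
(`gs 0 = 0`). Hence `F b ≤ ∫_a^b ψ ≤ ∫ ψ` (e.g. `x ↦ F x - ∫_a^x ψ` is antitone on `[a,b]`:
`antitoneOn_of_deriv_nonpos`; or `image_le_of_deriv_right_le_deriv_boundary`), and `c7_end`. -/
theorem c7_low (w : ℝ → ℝ) (hw : CPot w) (n₀ n₁ : ℕ) (v0 : Fin n₀ → ℝ → ℝ) (v1 : Fin n₁ → ℝ → ℝ)
    (h0 : Neg w (1 / 4) v0) (h1 : Neg w (9 / 4) v1) :
    (n₀ : ℝ) * (π / 8) + n₁ * (√6 / 3) ≤
      2 / (3 * √3) * ∫ x, (w x ^ (3 / 2 : ℝ) - 1 / 2 * (max 0 (w x - 3 / 2)) ^ (3 / 2 : ℝ)) := by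
  obtain ⟨R0, hR0, hv0⟩ := c7_supp v0 fun i => (h0.1 i).2
  obtain ⟨R1, hR1, hv1⟩ := c7_supp v1 fun i => (h1.1 i).2
  obtain ⟨b, hb⟩ : ∃ b : ℝ, b = R0 + R1 + 1 := ⟨_, rfl⟩
  have hab : -b ≤ b := by linarith
  have hout : ∀ x : ℝ, x ∉ Ioo (-b) b → b ≤ |x| := by
    intro x hx
    rw [mem_Ioo, not_and_or, not_lt, not_lt] at hx
    rcases hx with hx | hx
    · exact le_trans (by linarith) (neg_le_abs x)
    · exact le_trans hx (le_abs_self x)
  obtain ⟨s, hsa, hs⟩ := b1_prufer w hw.1 (9 / 4) (-b) b hab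
  obtain ⟨t, hta, ht⟩ := b1_prufer w hw.1 (1 / 4) (-b) b hab
  have hsb := b4_count w hw.1 (9 / 4) (-b) b hab s hsa hs n₁ v1 h1
    (fun i x hx => hv1 i x (by linarith [hout x hx]))
  have htb := b4_count w hw.1 (1 / 4) (-b) b hab t hta ht n₀ v0 h0
    (fun i x hx => hv0 i x (by linarith [hout x hx]))
  have hend := c7_end (s b) (t b) n₀ n₁ hsb htb
  have hF : ∀ x ∈ Icc (-b) b, HasDerivAt (fun x => VV (s x) (t x))
      ((da (s x) - dg (s x) * Dt (t x)) * pf w (9 / 4) x (s x) +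
        ((1 - gs (s x)) * db (t x) + gs (s x) / 8) * pf w (1 / 4) x (t x)) x := by
    intro x hx
    have d1 : HasDerivAt (fun x => aa (s x)) (da (s x) * pf w (9 / 4) x (s x)) x :=
      HasDerivAt.comp (h₂ := aa) x (c2_aa_deriv (s x)) (hs x hx)
    have d2 : HasDerivAt (fun x => gs (s x)) (dg (s x) * pf w (9 / 4) x (s x)) x :=
      HasDerivAt.comp (h₂ := gs) x (c1_gs_deriv (s x)) (hs x hx)
    have d3 : HasDerivAt (fun x => bb (t x)) (db (t x) * pf w (1 / 4) x (t x)) x :=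
      HasDerivAt.comp (h₂ := bb) x (c3_bb_deriv (t x)) (ht x hx)
    have d4 : HasDerivAt (fun x => t x / 8) (pf w (1 / 4) x (t x) / 8) x := (ht x hx).div_const 8
    have d5 : HasDerivAt (fun x => 1 - gs (s x)) (-(dg (s x) * pf w (9 / 4) x (s x))) x :=
      d2.const_sub 1
    have d6 := (d1.add (d5.mul d3)).add (d2.mul d4)
    have e : (da (s x) - dg (s x) * Dt (t x)) * pf w (9 / 4) x (s x) +
        ((1 - gs (s x)) * db (t x) + gs (s x) / 8) * pf w (1 / 4) x (t x) =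
        da (s x) * pf w (9 / 4) x (s x) +
          (-(dg (s x) * pf w (9 / 4) x (s x)) * bb (t x) +
            (1 - gs (s x)) * (db (t x) * pf w (1 / 4) x (t x))) +
          (dg (s x) * pf w (9 / 4) x (s x) * (t x / 8) + gs (s x) * (pf w (1 / 4) x (t x) / 8)) := by
      unfold Dt
      ring
    rw [e]
    exact d6
  have hle : ∀ x ∈ Icc (-b) b, (da (s x) - dg (s x) * Dt (t x)) * pf w (9 / 4) x (s x) +
        ((1 - gs (s x)) * db (t x) + gs (s x) / 8) * pf w (1 / 4) x (t x) ≤ c7_psi w x := by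
    intro x _
    exact c6_hj (s x) (t x) (w x) (hw.2.1 x)
  have hint := c7_psi_integrable hw
  have h2 : VV (s b) (t b) - VV (s (-b)) (t (-b)) ≤ ∫ x in (-b)..b, c7_psi w x :=
    intervalIntegral.sub_le_integral_of_hasDeriv_right_of_le (g := fun x => VV (s x) (t x)) hab
      (fun x hx => (hF x hx).continuousAt.continuousWithinAt)
      (fun x hx => (hF x (Ioo_subset_Icc_self hx)).hasDerivWithinAt)
      hint.integrableOn
      (fun x hx => hle x (Ioo_subset_Icc_self hx))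
  have h3 : VV (s (-b)) (t (-b)) = 0 := by
    rw [hsa, hta]
    unfold VV
    have hg : gs 0 = 0 := by
      have hz : Zs 0 = 0 := c1_Zs_zero 0 (by simp)
      unfold gs
      rw [hz]
      ring
    rw [c2_aa_zero, c3_bb_zero, hg]
    ring
  have h4 : ∫ x in (-b)..b, c7_psi w x ≤ ∫ x, c7_psi w x := by
    rw [intervalIntegral.integral_of_le hab]
    exact setIntegral_le_integral hint (Filter.Eventually.of_forall fun x => c7_psi_nonneg hw.2.1 x)
  have h5 : ∫ x, c7_psi w x =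
      2 / (3 * √3) * ∫ x, (w x ^ (3 / 2 : ℝ) - 1 / 2 * (max 0 (w x - 3 / 2)) ^ (3 / 2 : ℝ)) := by
    rw [← integral_const_mul]
    rfl
  rw [← h5]
  linarith

end Pool.Agent.RC
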