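import Pool.Agent.RC.A5
import Pool.Agent.RC.C7

set_option autoImplicit false

open MeasureTheory Set Real

namespace Pool.Agent.RC

/-- [RC-D1] `8√6/3 + 3 ≥ 3π` (`√6 ≥ 2.449`, `π < 3.1416`). -/
theorem d1_numeric : 3 * π ≤ 8 * (√6 / 3) + 3 := by
  have h1 : (2.449 : ℝ) ≤ √6 := Real.le_sqrt_of_sq_le (by norm_num)
  have h2 := Real.pi_lt_d4
  linarith

theorem d1_int {w : ℝ → ℝ} (hw : CPot w) : Integrable (fun x => w x ^ (3 / 2 : ℝ)) := by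
  refine (hw.1.rpow_const fun x => Or.inr (by norm_num)).integrable_of_hasCompactSupport ?_
  exact hw.2.2.comp_left (g := fun t : ℝ => t ^ (3 / 2 : ℝ)) (Real.zero_rpow (by norm_num))

theorem d1_int2 {w : ℝ → ℝ} (hw : CPot w) :
    Integrable (fun x => (max 0 (w x - 3 / 2)) ^ (3 / 2 : ℝ)) := by
  refine ((continuous_const.max (hw.1.sub continuous_const)).rpow_const
    fun _ => Or.inr (by norm_num)).integrable_of_hasCompactSupport ?_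
  refine hw.2.2.comp_left (g := fun t : ℝ => (max 0 (t - 3 / 2)) ^ (3 / 2 : ℝ)) ?_
  have h1 : max 0 ((0 : ℝ) - 3 / 2) = 0 := max_eq_left (by norm_num)
  simp only [h1]
  exact Real.zero_rpow (by norm_num)

theorem d1_split {w : ℝ → ℝ} (hw : CPot w) :
    ∫ x, (w x ^ (3 / 2 : ℝ) - 1 / 2 * (max 0 (w x - 3 / 2)) ^ (3 / 2 : ℝ)) =
      (∫ x, w x ^ (3 / 2 : ℝ)) - 1 / 2 * ∫ x, (max 0 (w x - 3 / 2)) ^ (3 / 2 : ℝ) := by
  rw [integral_sub (d1_int hw) ((d1_int2 hw).const_mul _), integral_const_mul]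

theorem d1_nonneg2 (w : ℝ → ℝ) : 0 ≤ ∫ x, (max 0 (w x - 3 / 2)) ^ (3 / 2 : ℝ) :=
  integral_nonneg fun _ => Real.rpow_nonneg (le_max_left _ _) _

/-- the constants -/
theorem d1_const (A X : ℝ) (h : X ≤ 2 / (3 * √3) * A) : 8 / π * X ≤ 16 / (3 * √3 * π) * A := by
  have h1 : 16 / (3 * √3 * π) * A = 8 / π * (2 / (3 * √3) * A) := by
    have h2 := Real.pi_pos.ne'
    have h3 : √3 ≠ 0 := by positivity
    field_simp
    ring
  rw [h1]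
  exact mul_le_mul_of_nonneg_left h (by positivity)

theorem d1_sq (m : ℕ) (hm : 1 ≤ m) :
    ((m : ℝ) + 1 / 2) ^ 2 - 3 / 2 = 3 / 4 + ∑ ℓ ∈ Finset.Ico 2 (m + 1), 2 * (ℓ : ℝ) := by
  induction m, hm using Nat.le_induction with
  | base => norm_num
  | succ m hm ih =>
    rw [Finset.sum_Ico_succ_top (by omega), ← add_assoc, ← ih]
    push_cast
    ring

/-- the combinatorial part -/
theorem d1_comb (L : ℕ) (hL : 2 ≤ L) (n : ℕ → ℕ) (hn : ∀ i j, i ≤ j → j < L → n j ≤ n i) :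
    ∃ l : Fin (n 1) → ℕ, (∀ k, l k < L) ∧ (∀ k : Fin (n 1), (k : ℕ) + 1 ≤ n (l k)) ∧
      3 / 4 * (n 1 : ℝ) + ∑ ℓ ∈ Finset.Ico 2 L, 2 * (ℓ : ℝ) * n ℓ ≤
        ∑ k : Fin (n 1), (((l k : ℝ) + 1 / 2) ^ 2 - 3 / 2) := by
  have hP : ∀ k : Fin (n 1), (k : ℕ) + 1 ≤ n 1 := fun k => k.2
  refine ⟨fun k => Nat.findGreatest (fun ℓ => (k : ℕ) + 1 ≤ n ℓ) (L - 1), fun k => ?_, fun k => ?_,
    ?_⟩
  · have := Nat.findGreatest_le (P := fun ℓ => (k : ℕ) + 1 ≤ n ℓ) (L - 1)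
    show Nat.findGreatest (fun ℓ => (k : ℕ) + 1 ≤ n ℓ) (L - 1) < L
    omega
  · exact Nat.findGreatest_spec (P := fun ℓ => (k : ℕ) + 1 ≤ n ℓ) (m := 1) (by omega) (hP k)
  · have h1 : ∀ k : Fin (n 1), 1 ≤ Nat.findGreatest (fun ℓ => (k : ℕ) + 1 ≤ n ℓ) (L - 1) :=
      fun k => Nat.le_findGreatest (by omega) (hP k)
    have h2 : ∀ k : Fin (n 1), 3 / 4 + ∑ ℓ ∈ Finset.Ico 2 L, (if (k : ℕ) < n ℓ then 2 * (ℓ : ℝ) else 0)
        ≤ ((Nat.findGreatest (fun ℓ => (k : ℕ) + 1 ≤ n ℓ) (L - 1) : ℕ) + 1 / 2 : ℝ) ^ 2 - 3 / 2 := by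
      intro k
      rw [d1_sq _ (h1 k)]
      refine add_le_add le_rfl ?_
      rw [← Finset.sum_filter]
      refine Finset.sum_le_sum_of_subset_of_nonneg ?_ fun i _ _ => by positivity
      intro ℓ hℓ
      rw [Finset.mem_filter, Finset.mem_Ico] at hℓ
      rw [Finset.mem_Ico]
      refine ⟨hℓ.1.1, Nat.lt_succ_of_le (Nat.le_findGreatest (by omega) ?_)⟩
      exact hℓ.2
    calc 3 / 4 * (n 1 : ℝ) + ∑ ℓ ∈ Finset.Ico 2 L, 2 * (ℓ : ℝ) * n ℓ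
        = ∑ k : Fin (n 1), (3 / 4 + ∑ ℓ ∈ Finset.Ico 2 L,
            (if (k : ℕ) < n ℓ then 2 * (ℓ : ℝ) else 0)) := by
          rw [Finset.sum_add_distrib, Finset.sum_comm]
          congr 1
          · simp [mul_comm]
          · refine Finset.sum_congr rfl fun ℓ hℓ => ?_
            rw [Finset.mem_Ico] at hℓ
            have h3 : n ℓ ≤ n 1 := hn 1 ℓ (by omega) hℓ.2
            rw [← Finset.sum_filter, Finset.sum_const, nsmul_eq_mul, mul_comm]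
            congr 1
            have h4 : (Finset.univ.filter fun k : Fin (n 1) => (k : ℕ) < n ℓ).card = n ℓ := by
              rw [Fin.card_filter_val_lt]
              exact min_eq_right h3
            rw [h4]
      _ ≤ _ := Finset.sum_le_sum fun k _ => h2 k

/-- [RC-D1] Partial waves, antitone numbers.
PROOF. (`L = 0`, `L = 1`: from `c7_low` with `n₁ = 0`, dropping a nonnegative integral.) Let `L ≥ 2`,
`I = ∫ w^{3/2}`, `κ = 2/(3√3)`, `c = 16/(3√3π) = 8κ/π`. Write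
`κ I = κ ∫ (w^{3/2} - (1/2)(max 0 (w-3/2))^{3/2}) + (1/2) κ ∫ (max 0 (w-3/2))^{3/2}` (all functions continuous with
compact support). First term: `c7_low` with `v 0`, `v 1` (levels `(0+1/2)² = 1/4`, `(1+1/2)² = 9/4`) gives
`≥ n₀ π/8 + n₁ √6/3`. Second term: `a5_high` with `μ = 3/2`, `N = n 1`; for `k < N` let `ℓ(k)` be the largest `ℓ` with
`1 ≤ ℓ < L` and `k + 1 ≤ n ℓ` (exists: `ℓ = 1`), `q k = (ℓ(k) + 1/2)²`, `m k = n (ℓ(k))`, `v k = v (ℓ(k))`. Then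
`q k - 3/2 = 3/4 + ∑_{2 ≤ ℓ ≤ ℓ(k)} 2ℓ` (as `(ℓ+1/2)² - (ℓ-1/2)² = 2ℓ`), and
`∑_k (q k - 3/2) ≥ (3/4) n₁ + ∑_{2 ≤ ℓ < L} 2ℓ · #{k < n₁ : ℓ ≤ ℓ(k)} ≥ (3/4) n₁ + ∑_{2≤ℓ<L} 2ℓ n_ℓ` since
`k < n ℓ ≤ n 1` implies `ℓ ≤ ℓ(k)`. Multiply by `8/π`:
`c I ≥ n₀ + (8/π)(√6/3 + 3/8) n₁ + ∑_{2≤ℓ<L} (8/π) ℓ n_ℓ ≥ n₀ + 3 n₁ + ∑_{2≤ℓ<L} (2ℓ+1) n_ℓ`
by `d1_numeric` and `8ℓ ≥ π (2ℓ+1)` for `ℓ ≥ 2` (`π ≤ 3.2`). -/
theorem d1_antitone (w : ℝ → ℝ) (hw : CPot w) (L : ℕ) (n : ℕ → ℕ)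
    (hn : ∀ i j, i ≤ j → j < L → n j ≤ n i) (v : ∀ ℓ : ℕ, Fin (n ℓ) → ℝ → ℝ)
    (hv : ∀ ℓ < L, Neg w (((ℓ : ℝ) + 1 / 2) ^ 2) (v ℓ)) :
    ∑ ℓ ∈ Finset.range L, (2 * (ℓ : ℝ) + 1) * n ℓ ≤
      16 / (3 * √3 * π) * ∫ x, w x ^ (3 / 2 : ℝ) := by
  have hpi := Real.pi_pos
  have hpi2 : π ≤ 3.2 := by
    have := Real.pi_lt_d4
    linarith
  have hA : 0 ≤ ∫ x, w x ^ (3 / 2 : ℝ) := integral_nonneg fun x => Real.rpow_nonneg (hw.2.1 x) _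
  have hB := d1_nonneg2 w
  have hk : (0 : ℝ) ≤ 2 / (3 * √3) := by positivity
  rcases Nat.lt_or_ge L 2 with hL | hL
  · rcases Nat.eq_zero_or_pos L with rfl | hL0
    · rw [Finset.range_zero, Finset.sum_empty]
      positivity
    · obtain rfl : L = 1 := by omega
      have h0 := hv 0 one_pos
      have e0 : ((0 : ℕ) : ℝ) + 1 / 2 = 1 / 2 := by norm_num
      rw [e0] at h0
      have e1 : ((1 : ℝ) / 2) ^ 2 = 1 / 4 := by norm_num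
      rw [e1] at h0
      have h1 : Neg w (9 / 4) (fun (i : Fin 0) (_ : ℝ) => (0 : ℝ)) :=
        ⟨fun i => i.elim0, fun c hc => absurd (Subsingleton.elim c 0) hc⟩
      have h2 := c7_low w hw (n 0) 0 (v 0) _ h0 h1
      rw [d1_split hw] at h2
      have h3 : (n 0 : ℝ) * (π / 8) ≤ 2 / (3 * √3) * ∫ x, w x ^ (3 / 2 : ℝ) := by
        refine le_trans ?_ (h2.trans (mul_le_mul_of_nonneg_left ?_ hk))
        · simp
        · linarith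
      have h4 := d1_const _ _ h3
      refine le_trans (le_of_eq ?_) h4
      rw [Finset.sum_range_one]
      field_simp
      simp
  · obtain ⟨l, hl1, hl2, hl3⟩ := d1_comb L hL n hn
    have h0 := hv 0 (by omega)
    have e0 : ((0 : ℕ) : ℝ) + 1 / 2 = 1 / 2 := by norm_num
    rw [e0] at h0
    have e1 : ((1 : ℝ) / 2) ^ 2 = 1 / 4 := by norm_num
    rw [e1] at h0
    have h1 := hv 1 (by omega)
    have e2 : (((1 : ℕ) : ℝ) + 1 / 2) ^ 2 = 9 / 4 := by norm_num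
    rw [e2] at h1
    have h2 := c7_low w hw (n 0) (n 1) (v 0) (v 1) h0 h1
    rw [d1_split hw] at h2
    have h3 := a5_high w hw (3 / 2) (by norm_num) (n 1) (fun k => ((l k : ℝ) + 1 / 2) ^ 2)
      (fun k => n (l k)) (fun k => v (l k)) (fun k => hv (l k) (hl1 k)) hl2
    have h4 := hl3.trans h3
    have h5 : (n 0 : ℝ) * (π / 8) + n 1 * (√6 / 3 + 3 / 8) + ∑ ℓ ∈ Finset.Ico 2 L, (ℓ : ℝ) * n ℓ ≤
        2 / (3 * √3) * ∫ x, w x ^ (3 / 2 : ℝ) := by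
      have e3 : ∑ ℓ ∈ Finset.Ico 2 L, 2 * (ℓ : ℝ) * n ℓ =
          2 * ∑ ℓ ∈ Finset.Ico 2 L, (ℓ : ℝ) * n ℓ := by
        rw [Finset.mul_sum]
        exact Finset.sum_congr rfl fun ℓ _ => by ring
      rw [e3] at h4
      rw [mul_sub] at h2
      linarith
    refine le_trans ?_ (d1_const _ _ h5)
    have e4 : ∑ ℓ ∈ Finset.range L, (2 * (ℓ : ℝ) + 1) * n ℓ =
        n 0 + 3 * n 1 + ∑ ℓ ∈ Finset.Ico 2 L, (2 * (ℓ : ℝ) + 1) * n ℓ := by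
      rw [Finset.range_eq_Ico, ← Finset.sum_Ico_consecutive _ (Nat.zero_le 2) hL]
      congr 1
      rw [← Finset.range_eq_Ico, Finset.sum_range_succ, Finset.sum_range_one]
      norm_num
    have e5 : 8 / π * ((n 0 : ℝ) * (π / 8) + n 1 * (√6 / 3 + 3 / 8) +
        ∑ ℓ ∈ Finset.Ico 2 L, (ℓ : ℝ) * n ℓ) =
        n 0 + (8 * (√6 / 3) + 3) / π * n 1 + ∑ ℓ ∈ Finset.Ico 2 L, 8 / π * ((ℓ : ℝ) * n ℓ) := by
      rw [← Finset.mul_sum]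
      field_simp
    rw [e4, e5]
    refine add_le_add (add_le_add le_rfl ?_) (Finset.sum_le_sum fun ℓ hℓ => ?_)
    · refine mul_le_mul_of_nonneg_right ?_ (Nat.cast_nonneg _)
      rw [le_div_iff₀ hpi]
      exact d1_numeric
    · rw [Finset.mem_Ico] at hℓ
      have hℓ2 : (2 : ℝ) ≤ ℓ := by exact_mod_cast hℓ.1
      have h6 : 2 * (ℓ : ℝ) + 1 ≤ 8 / π * ℓ := by
        rw [div_mul_eq_mul_div, le_div_iff₀ hpi]
        nlinarith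
      calc (2 * (ℓ : ℝ) + 1) * n ℓ ≤ 8 / π * ℓ * n ℓ :=
            mul_le_mul_of_nonneg_right h6 (Nat.cast_nonneg _)
        _ = 8 / π * ((ℓ : ℝ) * n ℓ) := by ring

end Pool.Agent.RC
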