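import Pool.Agent.RC.D1

set_option autoImplicit false

open MeasureTheory Set Real

namespace Pool.Agent.RC

/-- [RC-D2] All numbers.
PROOF. For `ℓ < L` let `j(ℓ) ∈ [ℓ, L)` with `n (j(ℓ))` maximal (`Finset.exists_max_image`), `n' ℓ = n (j(ℓ)) ≥ n ℓ`,
`v' ℓ = v (j(ℓ))`, a negative family at the level `(j(ℓ)+1/2)² ≥ (ℓ+1/2)²`, hence at the level of `ℓ` (`Neg.mono`,
`CPot.pot`). `n'` is antitone on `[0,L)` (maxima over smaller sets). For `ℓ ≥ L` put `j(ℓ) = ℓ`. Apply `d1_antitone` to `n'`. -/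
theorem d2_all (w : ℝ → ℝ) (hw : CPot w) (L : ℕ) (n : ℕ → ℕ) (v : ∀ ℓ : ℕ, Fin (n ℓ) → ℝ → ℝ)
    (hv : ∀ ℓ < L, Neg w (((ℓ : ℝ) + 1 / 2) ^ 2) (v ℓ)) :
    ∑ ℓ ∈ Finset.range L, (2 * (ℓ : ℝ) + 1) * n ℓ ≤
      16 / (3 * √3 * π) * ∫ x, w x ^ (3 / 2 : ℝ) := by
  have hj : ∀ ℓ : ℕ, ∃ j : ℕ, ℓ < L → ℓ ≤ j ∧ j < L ∧ ∀ i, ℓ ≤ i → i < L → n i ≤ n j := by
    intro ℓ
    by_cases h : ℓ < L
    · obtain ⟨j, hj, hmax⟩ := Finset.exists_max_image (Finset.Ico ℓ L) n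
        ⟨ℓ, Finset.mem_Ico.2 ⟨le_rfl, h⟩⟩
      rw [Finset.mem_Ico] at hj
      exact ⟨j, fun _ => ⟨hj.1, hj.2, fun i h1 h2 => hmax i (Finset.mem_Ico.2 ⟨h1, h2⟩)⟩⟩
    · exact ⟨ℓ, fun h' => absurd h' h⟩
  choose j hj using hj
  have h1 := d1_antitone w hw L (fun ℓ => n (j ℓ)) (fun a b hab hb => by
    obtain ⟨h1, h2, -⟩ := hj b hb
    exact (hj a (lt_of_le_of_lt hab hb)).2.2 (j b) (hab.trans h1) h2) (fun ℓ => v (j ℓ))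
    (fun ℓ hℓ => by
      obtain ⟨h1, h2, -⟩ := hj ℓ hℓ
      refine Neg.mono hw.pot ?_ (hv (j ℓ) h2)
      have h3 : (ℓ : ℝ) ≤ j ℓ := by exact_mod_cast h1
      have h4 : (0 : ℝ) ≤ ℓ := Nat.cast_nonneg ℓ
      nlinarith)
  refine le_trans (Finset.sum_le_sum fun ℓ hℓ => ?_) h1
  rw [Finset.mem_range] at hℓ
  have h2 : (n ℓ : ℝ) ≤ n (j ℓ) := by exact_mod_cast (hj ℓ hℓ).2.2 ℓ le_rfl hℓ
  exact mul_le_mul_of_nonneg_left h2 (by positivity)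

end Pool.Agent.RC
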