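import Mathlib

set_option autoImplicit false

open Set

namespace Pool.Agent.RC

/-- [RC-E1] Negative definiteness is stable.
PROOF. `n = 0`: trivial (`c ≠ 0` impossible), `ε = 1`. The continuous function `c ↦ ∑ c_i c_j M_ij` on the compact set
`{c : ∑ c_i² = 1}` (nonempty for `n ≥ 1`) has a maximum `-δ < 0`. By homogeneity `∑ c_i c_j M_ij ≤ -δ ∑ c_i²` for all `c`.
If `|M'_ij - M_ij| ≤ ε` then the difference of the forms is at most `ε (∑ |c_i|)² ≤ ε n ∑ c_i²`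
(`inner_mul_le_norm_mul_norm`/`Finset.sum_mul_sq_le_sq_mul_sq` or `sq_sum_le_card_mul_sum_sq`). Take `ε = δ/(2n)`. -/
theorem e1_stable {n : ℕ} (M : Fin n → Fin n → ℝ)
    (hM : ∀ c : Fin n → ℝ, c ≠ 0 → ∑ i, ∑ j, c i * c j * M i j < 0) :
    ∃ ε > 0, ∀ M' : Fin n → Fin n → ℝ, (∀ i j, |M' i j - M i j| ≤ ε) →
      ∀ c : Fin n → ℝ, c ≠ 0 → ∑ i, ∑ j, c i * c j * M' i j < 0 := by
  rcases Nat.eq_zero_or_pos n with rfl | hn
  · exact ⟨1, one_pos, fun M' _ c hc => absurd (Subsingleton.elim c 0) hc⟩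
  have hcont : Continuous fun c : Fin n → ℝ => ∑ i, ∑ j, c i * c j * M i j := by fun_prop
  have hK : IsCompact {c : Fin n → ℝ | ∑ i, c i ^ 2 = 1} := by
    refine Metric.isCompact_of_isClosed_isBounded ?_ ?_
    · exact isClosed_eq (by fun_prop) continuous_const
    · rw [isBounded_iff_forall_norm_le]
      refine ⟨1, fun c hc => ?_⟩
      rw [pi_norm_le_iff_of_nonneg zero_le_one]
      intro i
      have hc' : ∑ i, c i ^ 2 = 1 := hc
      have h1 : c i ^ 2 ≤ ∑ i, c i ^ 2 :=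
        Finset.single_le_sum (f := fun i => c i ^ 2) (fun j _ => sq_nonneg (c j)) (Finset.mem_univ i)
      rw [hc'] at h1
      rw [Real.norm_eq_abs]
      exact abs_le_one_iff_mul_self_le_one.2 (by nlinarith)
  have hne : {c : Fin n → ℝ | ∑ i, c i ^ 2 = 1}.Nonempty := by
    refine ⟨Pi.single ⟨0, hn⟩ 1, ?_⟩
    show ∑ i, (Pi.single (⟨0, hn⟩ : Fin n) (1 : ℝ) : Fin n → ℝ) i ^ 2 = 1
    rw [Finset.sum_eq_single ⟨0, hn⟩]
    · simp
    · intro b _ hb
      rw [Pi.single_eq_of_ne hb]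
      norm_num
    · intro h
      exact absurd (Finset.mem_univ _) h
  obtain ⟨c0, hc0, hmax⟩ := hK.exists_isMaxOn hne hcont.continuousOn
  have hc0' : ∑ i, c0 i ^ 2 = 1 := hc0
  have hc0ne : c0 ≠ 0 := by
    rintro rfl
    simp at hc0'
  set δ : ℝ := -∑ i, ∑ j, c0 i * c0 j * M i j with hδ
  have hδ0 : 0 < δ := by
    have := hM c0 hc0ne
    rw [hδ]
    linarith
  have hn0 : (0 : ℝ) < n := by exact_mod_cast hn
  have key : ∀ c : Fin n → ℝ, c ≠ 0 → 0 < ∑ i, c i ^ 2 ∧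
      ∑ i, ∑ j, c i * c j * M i j ≤ -δ * ∑ i, c i ^ 2 := by
    intro c hc
    have hs : 0 < ∑ i, c i ^ 2 := by
      obtain ⟨i, hi⟩ := Function.ne_iff.1 hc
      have h1 : 0 < c i ^ 2 := by
        have : c i ≠ 0 := hi
        positivity
      exact lt_of_lt_of_le h1
        (Finset.single_le_sum (f := fun i => c i ^ 2) (fun j _ => sq_nonneg (c j)) (Finset.mem_univ i))
    refine ⟨hs, ?_⟩
    set s : ℝ := ∑ i, c i ^ 2 with hsdef
    have hmem : (fun i => (√s)⁻¹ * c i) ∈ {c : Fin n → ℝ | ∑ i, c i ^ 2 = 1} := by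
      show ∑ i, ((√s)⁻¹ * c i) ^ 2 = 1
      have e : ∀ i, ((√s)⁻¹ * c i) ^ 2 = s⁻¹ * c i ^ 2 := by
        intro i
        rw [mul_pow, inv_pow, Real.sq_sqrt hs.le]
      rw [Finset.sum_congr rfl fun i _ => e i, ← Finset.mul_sum, ← hsdef]
      exact inv_mul_cancel₀ hs.ne'
    have h1 := hmax hmem
    have h2 : ∑ i, ∑ j, ((√s)⁻¹ * c i) * ((√s)⁻¹ * c j) * M i j ≤ -δ := by
      rw [hδ, neg_neg]
      exact h1
    have e2 : ∑ i, ∑ j, ((√s)⁻¹ * c i) * ((√s)⁻¹ * c j) * M i j =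
        s⁻¹ * ∑ i, ∑ j, c i * c j * M i j := by
      rw [Finset.mul_sum]
      refine Finset.sum_congr rfl fun i _ => ?_
      rw [Finset.mul_sum]
      refine Finset.sum_congr rfl fun j _ => ?_
      have e3 : (√s)⁻¹ * (√s)⁻¹ = s⁻¹ := by
        rw [← mul_inv, Real.mul_self_sqrt hs.le]
      calc (√s)⁻¹ * c i * ((√s)⁻¹ * c j) * M i j = ((√s)⁻¹ * (√s)⁻¹) * (c i * c j * M i j) := by ring
        _ = _ := by rw [e3]
    rw [e2] at h2
    have h3 := mul_le_mul_of_nonneg_left h2 hs.le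
    rw [← mul_assoc, mul_inv_cancel₀ hs.ne', one_mul] at h3
    linarith
  refine ⟨δ / (2 * n), by positivity, fun M' hM' c hc => ?_⟩
  obtain ⟨hs, h1⟩ := key c hc
  have h2 : ∑ i, ∑ j, c i * c j * M' i j ≤
      ∑ i, ∑ j, c i * c j * M i j + δ / (2 * n) * (∑ i, |c i|) ^ 2 := by
    rw [sq, Finset.sum_mul_sum, Finset.mul_sum, ← Finset.sum_add_distrib]
    refine Finset.sum_le_sum fun i _ => ?_
    rw [Finset.mul_sum, ← Finset.sum_add_distrib]
    refine Finset.sum_le_sum fun j _ => ?_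
    have h3 : c i * c j * (M' i j - M i j) ≤ |c i| * |c j| * |M' i j - M i j| := by
      rw [← abs_mul, ← abs_mul]
      exact le_abs_self _
    have h4 : |c i| * |c j| * |M' i j - M i j| ≤ |c i| * |c j| * (δ / (2 * n)) :=
      mul_le_mul_of_nonneg_left (hM' i j) (by positivity)
    nlinarith
  have h5 : (∑ i, |c i|) ^ 2 ≤ n * ∑ i, c i ^ 2 := by
    have h6 := sq_sum_le_card_mul_sum_sq (s := (Finset.univ : Finset (Fin n))) (f := fun i => |c i|)
    rw [Finset.card_univ, Fintype.card_fin] at h6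
    simpa [sq_abs] using h6
  have h7 : δ / (2 * n) * (∑ i, |c i|) ^ 2 ≤ δ / (2 * n) * (n * ∑ i, c i ^ 2) :=
    mul_le_mul_of_nonneg_left h5 (by positivity)
  have h8 : δ / (2 * n) * (n * ∑ i, c i ^ 2) = δ / 2 * ∑ i, c i ^ 2 := by
    field_simp
  rw [h8] at h7
  nlinarith [mul_pos hδ0 hs]

end Pool.Agent.RC
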