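import Pool.Agent.RC.D2
import Pool.Agent.RC.E1

set_option autoImplicit false

open MeasureTheory Set Real

namespace Pool.Agent.RC

theorem d3_deriv_lc {n : ℕ} (v : Fin n → ℝ → ℝ) (hv : ∀ i, Tst (v i)) (c : Fin n → ℝ) (x : ℝ) :
    deriv (lc v c) x = ∑ i, c i * deriv (v i) x := by
  have h1 : HasDerivAt (lc v c) (∑ i, c i * deriv (v i) x) x := by
    unfold lc
    apply HasDerivAt.fun_sum
    intro i _
    exact ((hv i).differentiable x).hasDerivAt.const_mul (c i)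
  exact h1.deriv

/-- [RC-D3] `hf` of a linear combination is the quadratic form of the matrix `hB (v i) (v j)`.
PROOF. `deriv (lc v c) x = ∑ c_i deriv (v i) x`; expand the squares and exchange finite sums with the integral
(`integral_finset_sum`, integrability from `Tst.int_form`). -/
theorem d3_hf_lc (w : ℝ → ℝ) (hw : Pot w) (q : ℝ) {n : ℕ} (v : Fin n → ℝ → ℝ) (hv : ∀ i, Tst (v i))
    (c : Fin n → ℝ) : hf w q (lc v c) = ∑ i, ∑ j, c i * c j * hB w q (v i) (v j) := by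
  unfold hf hB
  have h1 : ∀ x, deriv (lc v c) x ^ 2 + (q - w x) * lc v c x ^ 2 = ∑ i, ∑ j, c i * c j *
      (deriv (v i) x * deriv (v j) x + (q - w x) * (v i x * v j x)) := by
    intro x
    rw [d3_deriv_lc v hv c x]
    unfold lc
    rw [pow_two, pow_two, Finset.sum_mul_sum, Finset.sum_mul_sum, Finset.mul_sum,
      ← Finset.sum_add_distrib]
    apply Finset.sum_congr rfl
    intro i _
    rw [Finset.mul_sum, ← Finset.sum_add_distrib]
    apply Finset.sum_congr rfl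
    intro j _
    ring
  simp only [h1]
  rw [integral_finsetSum]
  · apply Finset.sum_congr rfl
    intro i _
    rw [integral_finsetSum]
    · apply Finset.sum_congr rfl
      intro j _
      rw [integral_const_mul]
    · intro j _
      exact ((hv i).int_form (hv j) hw q).const_mul _
  · intro i _
    apply integrable_finsetSum
    intro j _
    exact ((hv i).int_form (hv j) hw q).const_mul _

theorem d3_int (w : ℝ → ℝ) (hw : Pot w) : Integrable w := by
  obtain ⟨K, hK⟩ := hw.2.2.1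
  rw [← integrableOn_iff_integrable_of_support_subset (subset_tsupport w)]
  apply Measure.integrableOn_of_bounded (M := K)
  · exact hw.2.2.2.isCompact.measure_lt_top.ne
  · exact hw.1.aestronglyMeasurable
  · refine Filter.Eventually.of_forall fun x => ?_
    rw [Real.norm_eq_abs, abs_of_nonneg (hw.2.1 x)]
    exact hK x

theorem d3_rpow {a : ℝ} (ha : 0 ≤ a) : a ^ (3 / 2 : ℝ) = √a ^ 3 := by
  rw [Real.sqrt_eq_rpow, ← Real.rpow_natCast, ← Real.rpow_mul ha]
  norm_num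

theorem d3_int_pow (w : ℝ → ℝ) (hw : Pot w) : Integrable (fun x => w x ^ (3 / 2 : ℝ)) := by
  obtain ⟨K, hK⟩ := hw.2.2.1
  refine Integrable.mono' ((d3_int w hw).const_mul (√K)) (hw.1.pow_const _).aestronglyMeasurable ?_
  refine Filter.Eventually.of_forall fun x => ?_
  have h0 := hw.2.1 x
  rw [Real.norm_eq_abs, abs_of_nonneg (Real.rpow_nonneg h0 _), d3_rpow h0]
  have h1 : √(w x) ≤ √K := Real.sqrt_le_sqrt (hK x)
  have h2 : √(w x) ^ 2 = w x := Real.sq_sqrt h0
  calc √(w x) ^ 3 = √(w x) * √(w x) ^ 2 := by ring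
    _ = √(w x) * w x := by rw [h2]
    _ ≤ √K * w x := mul_le_mul_of_nonneg_right h1 h0

theorem d3_clamp {K g u : ℝ} (hu : 0 ≤ u) (huK : u ≤ K) :
    |u - min (max g 0) K| ≤ |u - g| := by
  rcases le_total g 0 with h1 | h1
  · rw [max_eq_right h1, min_eq_left (hu.trans huK), sub_zero, abs_of_nonneg hu,
      abs_of_nonneg (by linarith)]
    linarith
  · rw [max_eq_left h1]
    rcases le_total g K with h2 | h2
    · rw [min_eq_left h2]
    · rw [min_eq_right h2, abs_sub_comm, abs_of_nonneg (by linarith), abs_sub_comm u g,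
        abs_of_nonneg (by linarith)]
      linarith

/-- [RC-D3] Approximation of bounded measurable potentials.
PROOF. `w` is integrable (bounded, compact support). By `Integrable.exists_hasCompactSupport_integral_sub_le` there is a
continuous compactly supported `g` with `∫ |w - g| ≤ ε`; put `w' = min (max g 0) K` with `K ≥ 0` an upper bound of `w`; then `w'` is
`CPot`, `0 ≤ w' ≤ K`, and `|w - w'| ≤ |w - g|` pointwise. -/
theorem d3_approx (w : ℝ → ℝ) (hw : Pot w) : ∃ K, 0 ≤ K ∧ (∀ x, w x ≤ K) ∧ ∀ ε > 0, ∃ w', CPot w' ∧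
    (∀ x, w' x ≤ K) ∧ ∫ x, |w x - w' x| ≤ ε := by
  obtain ⟨K₀, hK₀⟩ := hw.2.2.1
  have hwi := d3_int w hw
  refine ⟨max K₀ 0, le_max_right _ _, fun x => (hK₀ x).trans (le_max_left _ _), ?_⟩
  intro ε hε
  obtain ⟨g, hg1, hg2, hg3, hg4⟩ := hwi.exists_hasCompactSupport_integral_sub_le hε
  have hK0 : 0 ≤ max K₀ 0 := le_max_right _ _
  have hc : CPot (fun x => min (max (g x) 0) (max K₀ 0)) := by
    refine ⟨(hg3.max continuous_const).min continuous_const, fun x =>
      le_min (le_max_right _ _) hK0, ?_⟩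
    exact hg1.comp_left (g := fun y => min (max y 0) (max K₀ 0)) (by simp)
  refine ⟨_, hc, fun x => min_le_right _ _, ?_⟩
  refine le_trans (integral_mono ?_ (hwi.sub hg4).norm ?_) hg2
  · exact (hwi.sub (d3_int _ hc.pot)).abs
  · intro x
    exact d3_clamp (hw.2.1 x) ((hK₀ x).trans (le_max_left _ _))

theorem d3_bdd {n : ℕ} (v : Fin n → ℝ → ℝ) (hv : ∀ i, Tst (v i)) :
    ∃ B > 0, ∀ i j x, |v i x * v j x| ≤ B := by
  have h1 : ∀ i, ∃ C, ∀ x, |v i x| ≤ C := fun i =>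
    (hv i).continuous.bounded_above_of_compact_support (hv i).2
  choose C hC using h1
  have hC0 : ∀ i, 0 ≤ C i := fun i => (abs_nonneg _).trans (hC i 0)
  refine ⟨(∑ i, C i) * (∑ i, C i) + 1, ?_, ?_⟩
  · have : 0 ≤ ∑ i, C i := Finset.sum_nonneg fun i _ => hC0 i
    positivity
  · intro i j x
    rw [abs_mul]
    have hle : ∀ i, |v i x| ≤ ∑ i, C i := fun i =>
      (hC i x).trans (Finset.single_le_sum (f := C) (fun k _ => hC0 k) (Finset.mem_univ i))
    have h0 : 0 ≤ ∑ i, C i := Finset.sum_nonneg fun i _ => hC0 i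
    have := mul_le_mul (hle i) (hle j) (abs_nonneg _) h0
    linarith

theorem d3_stab (w : ℝ → ℝ) (hw : Pot w) (q : ℝ) {n : ℕ} (v : Fin n → ℝ → ℝ) (hv : Neg w q v) :
    ∃ η > 0, ∀ w', Pot w' → ∫ x, |w x - w' x| ≤ η → Neg w' q v := by
  obtain ⟨ε, hε, hst⟩ := e1_stable (fun i j => hB w q (v i) (v j)) (fun c hc => by
    have := hv.2 c hc
    rwa [d3_hf_lc w hw q v hv.1 c] at this)
  obtain ⟨B, hB0, hBd⟩ := d3_bdd v hv.1
  refine ⟨ε / B, div_pos hε hB0, fun w' hw' hle => ⟨hv.1, fun c hc => ?_⟩⟩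
  rw [d3_hf_lc w' hw' q v hv.1 c]
  refine hst _ (fun i j => ?_) c hc
  have hi1 := (hv.1 i).int_form (hv.1 j) hw' q
  have hi2 := (hv.1 i).int_form (hv.1 j) hw q
  have habs : Integrable (fun x => |w x - w' x|) := ((d3_int w hw).sub (d3_int w' hw')).abs
  calc |hB w' q (v i) (v j) - hB w q (v i) (v j)|
      = |∫ x, ((deriv (v i) x * deriv (v j) x + (q - w' x) * (v i x * v j x)) -
          (deriv (v i) x * deriv (v j) x + (q - w x) * (v i x * v j x)))| := by
        unfold hB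
        rw [integral_sub hi1 hi2]
    _ ≤ ∫ x, |(deriv (v i) x * deriv (v j) x + (q - w' x) * (v i x * v j x)) -
          (deriv (v i) x * deriv (v j) x + (q - w x) * (v i x * v j x))| :=
        abs_integral_le_integral_abs
    _ ≤ ∫ x, B * |w x - w' x| := by
        refine integral_mono (hi1.sub hi2).abs (habs.const_mul B) fun x => ?_
        simp only
        have h1 : (deriv (v i) x * deriv (v j) x + (q - w' x) * (v i x * v j x)) -
          (deriv (v i) x * deriv (v j) x + (q - w x) * (v i x * v j x)) =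
          (w x - w' x) * (v i x * v j x) := by ring
        rw [h1, abs_mul, mul_comm]
        exact mul_le_mul_of_nonneg_right (hBd i j x) (abs_nonneg _)
    _ = B * ∫ x, |w x - w' x| := integral_const_mul _ _
    _ ≤ B * (ε / B) := mul_le_mul_of_nonneg_left hle hB0.le
    _ = ε := by field_simp

theorem d3_unif (P : ℕ → ℝ → Prop) (hm : ∀ l a b, a ≤ b → P l b → P l a) (L : ℕ)
    (h : ∀ l < L, ∃ η > 0, P l η) : ∃ η > 0, ∀ l < L, P l η := by
  induction L with
  | zero => exact ⟨1, one_pos, fun l hl => absurd hl (Nat.not_lt_zero l)⟩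
  | succ L ih =>
    obtain ⟨η, hη, h1⟩ := ih fun l hl => h l (Nat.lt_succ_of_lt hl)
    obtain ⟨η', hη', h2⟩ := h L (Nat.lt_succ_self L)
    refine ⟨min η η', lt_min hη hη', fun l hl => ?_⟩
    rcases Nat.lt_succ_iff_lt_or_eq.1 hl with hl | rfl
    · exact hm l _ _ (min_le_left _ _) (h1 l hl)
    · exact hm l _ _ (min_le_right _ _) h2

theorem d3_pt {K a b : ℝ} (ha : 0 ≤ a) (hb : 0 ≤ b) (haK : a ≤ K) :
    a ^ (3 / 2 : ℝ) ≤ b ^ (3 / 2 : ℝ) + 3 / 2 * √K * |b - a| := by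
  rcases le_total a b with hab | hab
  · have h1 : a ^ (3 / 2 : ℝ) ≤ b ^ (3 / 2 : ℝ) := Real.rpow_le_rpow ha hab (by norm_num)
    have h2 : 0 ≤ 3 / 2 * √K * |b - a| := by positivity
    linarith
  · rw [d3_rpow ha, d3_rpow hb, abs_sub_comm, abs_of_nonneg (sub_nonneg.2 hab)]
    have e1 : √a ^ 2 = a := Real.sq_sqrt ha
    have e2 : √b ^ 2 = b := Real.sq_sqrt hb
    have h1 : √b ≤ √a := Real.sqrt_le_sqrt hab
    have h2 : √a ≤ √K := Real.sqrt_le_sqrt haK
    have h3 : 0 ≤ √b := Real.sqrt_nonneg _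
    have h4 : 0 ≤ √a := Real.sqrt_nonneg _
    generalize √a = s at *
    generalize √b = t at *
    generalize √K = k at *
    rw [← e1, ← e2]
    have h5 : s ^ 2 + s * t + t ^ 2 ≤ 3 / 2 * k * (s + t) := by
      nlinarith [mul_nonneg h4 h3, mul_le_mul_of_nonneg_right h2 (add_nonneg h4 h3),
        mul_le_mul h1 h1 h3 h4, mul_le_mul_of_nonneg_left h1 h3]
    nlinarith [mul_le_mul_of_nonneg_left h5 (sub_nonneg.2 h1)]

/-- [RC-D3] The partial wave inequality for bounded measurable potentials.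
PROOF. Let `ε > 0`. For each `ℓ < L` the matrix `hB w q (v i) (v j)` is negative definite (`d3_hf_lc`), take `ε_ℓ` from `e1_stable`. The test
functions are bounded, `|v i x * v j x| ≤ B` for all `ℓ < L`, `i`, `j`, so with `w'` from `d3_approx`
`|hB w' q (v i) (v j) - hB w q (v i) (v j)| = |∫ (w - w') v_i v_j| ≤ B ∫ |w - w'|`, which is `≤ ε_ℓ` for all `ℓ < L` if
`∫ |w - w'|` is small; then `v ℓ` is a negative family for `w'` too. `d2_all` for `w'`. Finally
`|w'^{3/2} - w^{3/2}| ≤ (3/2) √K |w' - w|` for values in `[0,K]` (mean value theorem for `r^{3/2}`, or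
`a³ - b³ = (a-b)(a²+ab+b²)` with `a = √w'`, `b = √w`, `(a - b)(a² + ab + b²) ≤ (3/2) √K (a² - b²)` for
`0 ≤ b ≤ a ≤ √K`), both have bounded support, so `∫ w'^{3/2} ≤ ∫ w^{3/2} + (3/2) √K ∫ |w - w'|`. Let `∫ |w-w'| → 0`. -/
theorem d3_pot (w : ℝ → ℝ) (hw : Pot w) (L : ℕ) (n : ℕ → ℕ) (v : ∀ ℓ : ℕ, Fin (n ℓ) → ℝ → ℝ)
    (hv : ∀ ℓ < L, Neg w (((ℓ : ℝ) + 1 / 2) ^ 2) (v ℓ)) :
    ∑ ℓ ∈ Finset.range L, (2 * (ℓ : ℝ) + 1) * n ℓ ≤
      16 / (3 * √3 * π) * ∫ x, w x ^ (3 / 2 : ℝ) := by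
  obtain ⟨K, hK0, hKw, happ⟩ := d3_approx w hw
  obtain ⟨η, hη, hall⟩ := d3_unif
    (fun l e => ∀ w', Pot w' → ∫ x, |w x - w' x| ≤ e → Neg w' (((l : ℝ) + 1 / 2) ^ 2) (v l))
    (fun l a b hab h w' hw' hle => h w' hw' (hle.trans hab)) L
    (fun l hl => d3_stab w hw _ (v l) (hv l hl))
  have hC : 0 ≤ 16 / (3 * √3 * π) := by positivity
  have hmain : ∀ w', CPot w' → ∫ x, |w x - w' x| ≤ η →
      ∑ ℓ ∈ Finset.range L, (2 * (ℓ : ℝ) + 1) * n ℓ ≤
        16 / (3 * √3 * π) * ∫ x, w' x ^ (3 / 2 : ℝ) := by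
    intro w' hw' hle
    exact d2_all w' hw' L n v fun l hl => hall l hl w' hw'.pot hle
  generalize ∑ ℓ ∈ Finset.range L, (2 * (ℓ : ℝ) + 1) * n ℓ = S at *
  generalize 16 / (3 * √3 * π) = C at *
  refine le_of_forall_pos_le_add fun δ hδ => ?_
  have hs : 0 ≤ √K := Real.sqrt_nonneg _
  have hD : 0 < C * (3 / 2 * √K) + 1 := by positivity
  obtain ⟨w', hw', hw'K, hle⟩ := happ (min η (δ / (C * (3 / 2 * √K) + 1)))
    (lt_min hη (div_pos hδ hD))
  have h1 := hmain w' hw' (hle.trans (min_le_left _ _))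
  have h2 : ∫ x, |w x - w' x| ≤ δ / (C * (3 / 2 * √K) + 1) := hle.trans (min_le_right _ _)
  have i1 := d3_int_pow w hw
  have i2 := d3_int_pow w' hw'.pot
  have i3 : Integrable (fun x => |w x - w' x|) := ((d3_int w hw).sub (d3_int w' hw'.pot)).abs
  have h3 : ∫ x, w' x ^ (3 / 2 : ℝ) ≤
      ∫ x, w x ^ (3 / 2 : ℝ) + 3 / 2 * √K * |w x - w' x| := by
    refine integral_mono i2 (i1.add (i3.const_mul _)) fun x => ?_
    exact d3_pt (hw'.2.1 x) (hw.2.1 x) (hw'K x)
  rw [integral_add i1 (i3.const_mul _), integral_const_mul] at h3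
  have h4 : 3 / 2 * √K * ∫ x, |w x - w' x| ≤
      3 / 2 * √K * (δ / (C * (3 / 2 * √K) + 1)) := mul_le_mul_of_nonneg_left h2 (by positivity)
  have h5 : C * (3 / 2 * √K * (δ / (C * (3 / 2 * √K) + 1))) ≤ δ := by
    have h6 : C * (3 / 2 * √K * (δ / (C * (3 / 2 * √K) + 1))) =
        δ * ((C * (3 / 2 * √K)) / (C * (3 / 2 * √K) + 1)) := by
      field_simp
    rw [h6]
    have h7 : (C * (3 / 2 * √K)) / (C * (3 / 2 * √K) + 1) ≤ 1 := by
      rw [div_le_one hD]
      linarith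
    calc δ * ((C * (3 / 2 * √K)) / (C * (3 / 2 * √K) + 1)) ≤ δ * 1 :=
          mul_le_mul_of_nonneg_left h7 hδ.le
      _ = δ := mul_one δ
  calc S ≤ C * ∫ x, w' x ^ (3 / 2 : ℝ) := h1
    _ ≤ C * ((∫ x, w x ^ (3 / 2 : ℝ)) + 3 / 2 * √K * (δ / (C * (3 / 2 * √K) + 1))) := by
        apply mul_le_mul_of_nonneg_left _ hC
        linarith
    _ = C * (∫ x, w x ^ (3 / 2 : ℝ)) + C * (3 / 2 * √K * (δ / (C * (3 / 2 * √K) + 1))) := by
        ring
    _ ≤ C * (∫ x, w x ^ (3 / 2 : ℝ)) + δ := by linarith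

end Pool.Agent.RC
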