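import Pool.Agent.RC.Sph

/-!
# [RC] polynomials in `L²(S²)`
-/

set_option autoImplicit false

open MeasureTheory Set Real MvPolynomial

namespace Pool.Agent.RC

/-- restriction to the sphere -/
noncomputable def rs (F : E3 → ℝ) (hF : Continuous F) : C(S2, ℝ) :=
  ⟨fun ω => F ω, hF.comp continuous_subtype_val⟩

/-- polynomials as continuous functions on the sphere -/
noncomputable def evC : MP →ₗ[ℝ] C(S2, ℝ) where
  toFun p := rs (ev p) (continuous_ev p)
  map_add' p q := by
    ext ω
    simp [rs, ev]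
  map_smul' c p := by
    ext ω
    simp [rs, ev]

/-- a continuous function as an element of `L²(S²)` -/
noncomputable def l2 (F : E3 → ℝ) (hF : Continuous F) : Lp ℝ 2 sg :=
  ContinuousMap.toLp (E := ℝ) 2 sg ℝ (rs F hF)

/-- polynomials as elements of `L²(S²)` -/
noncomputable def io : MP →ₗ[ℝ] Lp ℝ 2 sg :=
  (ContinuousMap.toLp (E := ℝ) 2 sg ℝ).toLinearMap.comp evC

theorem io_eq (p : MP) : io p = l2 (ev p) (continuous_ev p) := rfl

theorem inner_l2 (F G : E3 → ℝ) (hF : Continuous F) (hG : Continuous G) :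
    inner ℝ (l2 F hF) (l2 G hG) = ip F G := by
  unfold l2
  rw [ContinuousMap.inner_toLp]
  unfold ip
  refine integral_congr_ae (Filter.Eventually.of_forall fun x => ?_)
  simp [rs, mul_comm]

/-- polynomials of degree `< j` in `L²(S²)` -/
noncomputable def WW (j : ℕ) : Submodule ℝ (Lp ℝ 2 sg) := (Pd j).map io

/-- the spherical harmonics of degree `j` -/
noncomputable def HH (j : ℕ) : Submodule ℝ (Lp ℝ 2 sg) := WW (j + 1) ⊓ (WW j)ᗮ

theorem finite_deg (j : ℕ) : {m : Fin 3 →₀ ℕ | m.degree < j}.Finite := by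
  have h1 : {m : Fin 3 →₀ ℕ | m.degree < j} ⊆
      ((Finset.univ : Finset (Fin 3)).finsupp fun _ => Finset.range j : Finset (Fin 3 →₀ ℕ)) := by
    intro m hm
    rw [Finset.mem_coe, Finset.mem_finsupp_iff]
    refine ⟨Finset.subset_univ _, fun i _ => ?_⟩
    rw [Finset.mem_range]
    exact lt_of_le_of_lt (Finsupp.le_degree i m) hm
  exact (Finset.finite_toSet _).subset h1

instance (j : ℕ) : FiniteDimensional ℝ (Pd j) := by
  unfold Pd
  exact FiniteDimensional.span_of_finite ℝ ((finite_deg j).image _)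

instance (j : ℕ) : FiniteDimensional ℝ (WW j) := by
  unfold WW
  infer_instance

instance (j : ℕ) : FiniteDimensional ℝ (HH j) := by
  unfold HH
  exact Submodule.finiteDimensional_of_le inf_le_left

end Pool.Agent.RC
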