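import Pool.Agent.RC.S2

set_option autoImplicit false

open MeasureTheory Set Real MvPolynomial

namespace Pool.Agent.RC

theorem p1_ev_C (a : ℝ) : ev (C a) = fun _ => a := by
  funext x
  simp [ev]

theorem p1_ev_add (p q : MP) : ev (p + q) = fun x => ev p x + ev q x := by
  funext x
  simp [ev]

theorem p1_ev_mul_X (p : MP) (i : Fin 3) : ev (p * X i) = fun x => ev p x * x i := by
  funext x
  simp [ev]

/-- the coordinate -/
noncomputable def p1_pr (i : Fin 3) : E3 →L[ℝ] ℝ := EuclideanSpace.proj i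

theorem p1_coord (i : Fin 3) : ContDiff ℝ (⊤ : ℕ∞) (fun x : E3 => x i) :=
  (p1_pr i).contDiff

theorem p1_coord_fderiv (i : Fin 3) (x : E3) :
    HasFDerivAt (fun x : E3 => x i) (p1_pr i) x :=
  (p1_pr i).hasFDerivAt

/-- [RC-P1] polynomial functions are smooth (induction on polynomials, `MvPolynomial.induction_on`; coordinates are
continuous linear maps). -/
theorem p1_contDiff (p : MP) : ContDiff ℝ (⊤ : ℕ∞) (ev p) := by
  induction p using MvPolynomial.induction_on with
  | C a =>
    rw [p1_ev_C]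
    exact contDiff_const
  | add p q hp hq =>
    rw [p1_ev_add]
    exact hp.add hq
  | mul_X p i hp =>
    rw [p1_ev_mul_X]
    exact hp.mul (p1_coord i)

/-- [RC-P1] the derivative of a polynomial function: induction on the polynomial (`C`, sum, product with `X i`). -/
theorem p1_fderiv (p : MP) (x y : E3) :
    fderiv ℝ (ev p) x y = ∑ i : Fin 3, ev (pderiv i p) x * y i := by
  have hd : ∀ q : MP, DifferentiableAt ℝ (ev q) x := fun q =>
    ((p1_contDiff q).differentiable (by simp)) x
  induction p using MvPolynomial.induction_on with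
  | C a =>
    rw [p1_ev_C]
    simp [ev]
  | add p q hp hq =>
    rw [p1_ev_add]
    have h : fderiv ℝ (fun x => ev p x + ev q x) x = fderiv ℝ (ev p) x + fderiv ℝ (ev q) x :=
      fderiv_add (hd p) (hd q)
    rw [h, add_apply, hp, hq, ← Finset.sum_add_distrib]
    refine Finset.sum_congr rfl fun i _ => ?_
    rw [map_add, p1_ev_add]
    ring
  | mul_X p j hp =>
    rw [p1_ev_mul_X]
    have h : fderiv ℝ (fun x => ev p x * x j) x =
        ev p x • p1_pr j +
          (x j) • fderiv ℝ (ev p) x :=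
      ((hd p).hasFDerivAt.mul (p1_coord_fderiv j x)).fderiv
    have h2 : ∀ i : Fin 3, ev (pderiv i (p * X j)) x =
        ev p x * (if i = j then 1 else 0) + x j * ev (pderiv i p) x := by
      intro i
      unfold ev
      rw [Derivation.leibniz]
      by_cases hij : i = j
      · subst hij
        simp [pderiv_X_self]
      · rw [pderiv_X_of_ne (fun h => hij h.symm)]
        simp [hij]
    rw [h, add_apply, smul_apply,
      smul_apply, hp]
    simp only [h2, smul_eq_mul]
    have h3 : p1_pr j y = y j := rfl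
    rw [h3, Finset.mul_sum]
    have h4 : ev p x * y j = ∑ i : Fin 3, ev p x * (if i = j then 1 else 0) * y i := by
      simp [Finset.sum_ite_eq']
    rw [h4, ← Finset.sum_add_distrib]
    refine Finset.sum_congr rfl fun i _ => ?_
    ring

/-- [RC-P1] PROOF. `p1_fderiv` with `y = Rv k x` (`fin_cases k`, sums over `Fin 3`). -/
theorem p1_Lk (k : Fin 3) (p : MP) : Lk k (ev p) = ev (Rp k p) := by
  funext x
  unfold Lk
  rw [p1_fderiv]
  have h : ev (Rp k p) x = x (k + 1) * ev (pderiv (k + 2) p) x - x (k + 2) * ev (pderiv (k + 1) p) x := by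
    unfold Rp ev
    simp
  rw [h, Fin.sum_univ_three]
  fin_cases k <;> simp [Rv] <;> ring

/-- [RC-P1] PROOF. `ip F (ev (Lam p)) = -∑ ip F (ev (Rp k (Rp k p))) = -∑ ip F (Lk k (ev (Rp k p))) =
∑ ip (Lk k F) (ev (Rp k p))` by `p1_Lk` and `s2_ibp`. -/
theorem p1_Lam (F : E3 → ℝ) (hF : ContDiff ℝ 1 F) (p : MP) :
    ip F (ev (Lam p)) = ∑ k : Fin 3, ip (Lk k F) (Lk k (ev p)) := by
  have hF' : Continuous F := hF.continuous
  have h1 : ∀ k : Fin 3, ip F (ev (Rp k (Rp k p))) = -ip (Lk k F) (Lk k (ev p)) := by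
    intro k
    have hq : ContDiff ℝ 1 (ev (Rp k p)) := (p1_contDiff _).of_le (by exact_mod_cast le_top)
    rw [← p1_Lk k (Rp k p), p1_Lk k p, s2_ibp k F _ hF hq, neg_neg]
  have h2 : ev (Lam p) = fun x => (-1) * ∑ k ∈ (Finset.univ : Finset (Fin 3)), ev (Rp k (Rp k p)) x := by
    funext x
    unfold Lam ev
    simp
  rw [ip_comm, h2, ip_smul, ip_sum _ _ (fun k _ => continuous_ev _) hF', neg_one_mul,
    ← Finset.sum_neg_distrib]
  refine Finset.sum_congr rfl fun k _ => ?_
  rw [ip_comm, h1, neg_neg]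

/-- [RC-P1] symmetry, from `p1_Lam` twice. -/
theorem p1_symm (p q : MP) : ip (ev (Lam p)) (ev q) = ip (ev p) (ev (Lam q)) := by
  have hp : ContDiff ℝ 1 (ev p) := (p1_contDiff p).of_le (by exact_mod_cast le_top)
  have hq : ContDiff ℝ 1 (ev q) := (p1_contDiff q).of_le (by exact_mod_cast le_top)
  rw [ip_comm, p1_Lam _ hq, p1_Lam _ hp]
  refine Finset.sum_congr rfl fun k _ => ?_
  exact ip_comm _ _

end Pool.Agent.RC
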