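import Pool.Agent.RC.Sph

set_option autoImplicit false

open MeasureTheory Set Real MvPolynomial

namespace Pool.Agent.RC

theorem p2_comm (i j : Fin 3) (p : MP) : pderiv i (pderiv j p) = pderiv j (pderiv i p) := by
  have h : ⁅(pderiv i : Derivation ℝ MP MP), (pderiv j : Derivation ℝ MP MP)⁆ = 0 := by
    apply MvPolynomial.derivation_ext
    intro k
    rw [Derivation.commutator_apply, pderiv_X, pderiv_X]
    simp only [Pi.single_apply]
    split_ifs <;> simp
  have h2 := congrArg (fun D : Derivation ℝ MP MP => D p) h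
  simp only [Derivation.commutator_apply, Derivation.zero_apply] at h2
  exact sub_eq_zero.1 h2

/-- [RC-P2] The formula `-∑ R_k² = E² + E - |x|² Δ`, `E = ∑ X_i ∂_i` the Euler field.
PROOF. Expand: `R_k R_k p` with the Leibniz rule (`Derivation.leibniz`, `pderiv_X`), `pderiv` commute
(`MvPolynomial.pderiv_pderiv_comm`-type lemma; if missing: both sides are derivations commutator, prove by
`MvPolynomial.derivation_ext`/induction). With `x, y, z` the variables and `p_x` etc.: the coefficient of `p_xx` in `∑ R_k²` is `y² + z²`,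
of `p_xy` is `-2xy`, of `p_x` is `-2x`; and `E² p + E p = ∑ x² p_xx + 2 ∑ xy p_xy + 2 ∑ x p_x`. Sum over `Fin 3` with
`Fin.sum_univ_three`. -/
theorem p2_formula (p : MP) :
    Lam p = (∑ i : Fin 3, X i * pderiv i (∑ j : Fin 3, X j * pderiv j p)) +
      (∑ i : Fin 3, X i * pderiv i p) - (∑ i : Fin 3, X i ^ 2) * lap p := by
  have e1 : (0 : Fin 3) + 1 = 1 := rfl
  have e2 : (0 : Fin 3) + 2 = 2 := rfl
  have e3 : (1 : Fin 3) + 1 = 2 := rfl
  have e4 : (1 : Fin 3) + 2 = 0 := rfl
  have e5 : (2 : Fin 3) + 1 = 0 := rfl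
  have e6 : (2 : Fin 3) + 2 = 1 := rfl
  have x01 : pderiv (0 : Fin 3) (X 1 : MP) = 0 := pderiv_X_of_ne (by decide)
  have x02 : pderiv (0 : Fin 3) (X 2 : MP) = 0 := pderiv_X_of_ne (by decide)
  have x10 : pderiv (1 : Fin 3) (X 0 : MP) = 0 := pderiv_X_of_ne (by decide)
  have x12 : pderiv (1 : Fin 3) (X 2 : MP) = 0 := pderiv_X_of_ne (by decide)
  have x20 : pderiv (2 : Fin 3) (X 0 : MP) = 0 := pderiv_X_of_ne (by decide)
  have x21 : pderiv (2 : Fin 3) (X 1 : MP) = 0 := pderiv_X_of_ne (by decide)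
  have c10 := p2_comm 1 0 p
  have c20 := p2_comm 2 0 p
  have c21 := p2_comm 2 1 p
  unfold Lam lap Rp
  simp only [Fin.sum_univ_three, e1, e2, e3, e4, e5, e6, map_add, map_sub, pderiv_mul,
    pderiv_X_self, x01, x02, x10, x12, x20, x21, c10, c20, c21]
  ring

/-- [RC-P2] For homogeneous `p` of degree `j`: `Lam p = j(j+1) p - |x|² Δ p`.
PROOF. Euler's identity `MvPolynomial.IsHomogeneous.sum_X_mul_pderiv` twice in `p2_formula`. -/
theorem p2_lam_hom (p : MP) (j : ℕ) (hp : p.IsHomogeneous j) :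
    Lam p = C ((j : ℝ) * (j + 1)) * p - (∑ i : Fin 3, X i ^ 2) * lap p := by
  rw [p2_formula]
  have h1 := hp.sum_X_mul_pderiv
  rw [h1]
  have h2 : ∑ i : Fin 3, X i * pderiv i (j • p) = j • (j • p) := by
    simp only [map_nsmul, mul_smul_comm, ← Finset.smul_sum, h1]
  rw [h2]
  congr 1
  simp only [nsmul_eq_mul, map_mul, map_add, map_one, map_natCast]
  ring

end Pool.Agent.RC
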