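import Pool.Agent.RC.P2

set_option autoImplicit false

open MeasureTheory Set Real MvPolynomial

namespace Pool.Agent.RC

/-- [RC-P3] on the sphere `∑ x_i² = 1` -/
theorem p3_sq (x : E3) (hx : ‖x‖ = 1) : ev (∑ i : Fin 3, X i ^ 2) x = 1 := by
  have h := EuclideanSpace.norm_sq_eq x
  rw [hx] at h
  simp only [ev, map_sum, map_pow, eval_X]
  rw [one_pow] at h
  rw [h]
  refine Finset.sum_congr rfl fun i _ => ?_
  rw [Real.norm_eq_abs, sq_abs]

theorem p3_Rp_add (k : Fin 3) (p q : MP) : Rp k (p + q) = Rp k p + Rp k q := by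
  unfold Rp
  rw [map_add, map_add]
  ring

theorem p3_Rp_smul (k : Fin 3) (c : ℝ) (p : MP) : Rp k (c • p) = c • Rp k p := by
  unfold Rp
  rw [Derivation.map_smul, Derivation.map_smul, mul_smul_comm, mul_smul_comm, smul_sub]

theorem p3_ev_add (p q : MP) (x : E3) : ev (p + q) x = ev p x + ev q x := by
  simp [ev]

theorem p3_ev_sub (p q : MP) (x : E3) : ev (p - q) x = ev p x - ev q x := by
  simp [ev]

theorem p3_ev_mul (p q : MP) (x : E3) : ev (p * q) x = ev p x * ev q x := by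
  simp [ev]

theorem p3_ev_C (c : ℝ) (x : E3) : ev (C c) x = c := by
  simp [ev]

theorem p3_ev_smul (c : ℝ) (p : MP) (x : E3) : ev (c • p) x = c * ev p x := by
  simp [ev]

theorem p3_ev_zero (x : E3) : ev 0 x = 0 := by
  simp [ev]

/-- [RC-P3] `Lam` is linear. -/
theorem p3_Lam_add (p q : MP) : Lam (p + q) = Lam p + Lam q := by
  unfold Lam
  simp only [p3_Rp_add, Finset.sum_add_distrib, neg_add]

theorem p3_Lam_smul (c : ℝ) (p : MP) : Lam (c • p) = c • Lam p := by
  unfold Lam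
  simp only [p3_Rp_smul, ← Finset.smul_sum, smul_neg]

/-- [RC-P3] `Pd` is increasing. -/
theorem p3_Pd_mono {i j : ℕ} (h : i ≤ j) : Pd i ≤ Pd j := by
  unfold Pd
  refine Submodule.span_mono (Set.image_mono ?_)
  intro m hm
  exact lt_of_lt_of_le hm h

/-- [RC-P3] PROOF. `Δ` of the monomial `x^m` of degree `d` is a sum of monomials of degree `d - 2`
(`pderiv_monomial` twice: `pderiv i (monomial m a) = monomial (m - single i 1) (a * m i)`; zero if `m i ≤ 1`), so in `Pd (d-1)`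
(for `d = 0, 1` it is `0`). -/
theorem p3_lap_monomial (m : Fin 3 →₀ ℕ) : lap (monomial m (1 : ℝ)) ∈ Pd (m.degree - 1) := by
  unfold lap
  refine Submodule.sum_mem _ fun i _ => ?_
  rw [pderiv_monomial, pderiv_monomial]
  by_cases h : 2 ≤ m i
  · have h1 : (monomial (m - Finsupp.single i 1 - Finsupp.single i 1)
        (1 * (m i : ℝ) * (((m - Finsupp.single i 1 : Fin 3 →₀ ℕ) i : ℕ) : ℝ)) : MP) =
        (1 * (m i : ℝ) * (((m - Finsupp.single i 1 : Fin 3 →₀ ℕ) i : ℕ) : ℝ)) •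
          monomial (m - Finsupp.single i 1 - Finsupp.single i 1) (1 : ℝ) := by
      rw [smul_monomial, smul_eq_mul, mul_one]
    rw [h1]
    refine Submodule.smul_mem _ _ (Submodule.subset_span ⟨_, ?_, rfl⟩)
    have h2 : m - Finsupp.single i 1 - Finsupp.single i 1 + Finsupp.single i 2 = m := by
      ext j
      by_cases hj : j = i
      · subst hj
        simp
        omega
      · simp [Finsupp.single_apply, Ne.symm hj]
    have h3 : (m - Finsupp.single i 1 - Finsupp.single i 1).degree + 2 = m.degree := by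
      conv_rhs => rw [← h2]
      rw [map_add, Finsupp.degree_single]
    show (m - Finsupp.single i 1 - Finsupp.single i 1).degree < m.degree - 1
    omega
  · have h1 : (1 * (m i : ℝ) * (((m - Finsupp.single i 1 : Fin 3 →₀ ℕ) i : ℕ) : ℝ)) = 0 := by
      rw [Finsupp.tsub_apply, Finsupp.single_eq_same]
      have h2 : m i = 0 ∨ m i - 1 = 0 := by omega
      rcases h2 with h2 | h2
      · rw [h2]
        simp
      · rw [h2]
        simp
    rw [h1, map_zero]
    exact Submodule.zero_mem _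

/-- [RC-P3] `Lam` on polynomials of degree `≤ j`, restricted to the sphere.
PROOF. Both sides are linear in `p`: `Submodule.span_induction`. For a monomial `p = x^m` of degree `d ≤ j`
(homogeneous: `isHomogeneous_monomial`), `p2_lam_hom` and `p3_sq` give on the sphere
`Lam p = d(d+1) p - Δ p`. If `d = j` take `r = -Δ p ∈ Pd (j-1) ≤ Pd j`. If `d < j` take
`r = (d(d+1) - j(j+1)) p - Δ p ∈ Pd j`. -/
theorem p3_lam_mem (j : ℕ) (p : MP) (hp : p ∈ Pd (j + 1)) :
    ∃ r ∈ Pd j, ∀ x : E3, ‖x‖ = 1 → ev (Lam p) x = ((j : ℝ) * (j + 1)) * ev p x + ev r x := by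
  refine Submodule.span_induction (p := fun p _ => ∃ r ∈ Pd j, ∀ x : E3, ‖x‖ = 1 →
    ev (Lam p) x = ((j : ℝ) * (j + 1)) * ev p x + ev r x) ?_ ?_ ?_ ?_ hp
  · rintro _ ⟨m, hm, rfl⟩
    have hm' : m.degree < j + 1 := hm
    refine ⟨((m.degree : ℝ) * (m.degree + 1) - (j : ℝ) * (j + 1)) • monomial m (1 : ℝ) -
      lap (monomial m (1 : ℝ)), ?_, ?_⟩
    · refine Submodule.sub_mem _ ?_ (p3_Pd_mono (by omega) (p3_lap_monomial m))
      rcases Nat.lt_or_ge m.degree j with h | h
      · exact Submodule.smul_mem _ _ (Submodule.subset_span ⟨m, h, rfl⟩)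
      · have h1 : m.degree = j := by omega
        rw [h1, sub_self, zero_smul]
        exact Submodule.zero_mem _
    · intro x hx
      have h1 := p2_lam_hom (monomial m (1 : ℝ)) m.degree (isHomogeneous_monomial _ rfl)
      rw [h1, p3_ev_sub, p3_ev_mul, p3_ev_C, p3_ev_mul, p3_sq x hx, p3_ev_sub, p3_ev_smul]
      ring
  · refine ⟨0, Submodule.zero_mem _, fun x _ => ?_⟩
    have h0 : Lam 0 = 0 := by
      have := p3_Lam_smul 0 0
      rwa [zero_smul, zero_smul] at this
    rw [h0, p3_ev_zero]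
    ring
  · rintro a b _ _ ⟨r, hr, h⟩ ⟨r', hr', h'⟩
    refine ⟨r + r', Submodule.add_mem _ hr hr', fun x hx => ?_⟩
    rw [p3_Lam_add, p3_ev_add, h x hx, h' x hx, p3_ev_add, p3_ev_add]
    ring
  · rintro c a _ ⟨r, hr, h⟩
    refine ⟨c • r, Submodule.smul_mem _ _ hr, fun x hx => ?_⟩
    rw [p3_Lam_smul, p3_ev_smul, h x hx, p3_ev_smul, p3_ev_smul]
    ring

/-- [RC-P3] PROOF. `j = 0`: `Pd 0 = ⊥` so `p = 0`. `j ≥ 1`: `p3_lam_mem (j-1)`. -/
theorem p3_lam_mem' (j : ℕ) (p : MP) (hp : p ∈ Pd j) :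
    ∃ r ∈ Pd j, ∀ x : E3, ‖x‖ = 1 → ev (Lam p) x = ev r x := by
  cases j with
  | zero =>
    have h0 : Pd 0 = ⊥ := by
      unfold Pd
      simp
    rw [h0, Submodule.mem_bot] at hp
    refine ⟨0, Submodule.zero_mem _, fun x _ => ?_⟩
    have h1 : Lam 0 = 0 := by
      have := p3_Lam_smul 0 0
      rwa [zero_smul, zero_smul] at this
    rw [hp, h1]
  | succ i =>
    obtain ⟨r, hr, h⟩ := p3_lam_mem i p hp
    refine ⟨((i : ℝ) * (i + 1)) • p + r, Submodule.add_mem _ (Submodule.smul_mem _ _ hp)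
      (p3_Pd_mono (Nat.le_succ i) hr), fun x hx => ?_⟩
    rw [h x hx, p3_ev_add, p3_ev_smul]

end Pool.Agent.RC
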