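import Pool.Agent.RC.Sph

set_option autoImplicit false

open MeasureTheory Set Real
open scoped Pointwise

namespace Pool.Agent.RC

/-- the rotation of the sphere -/
noncomputable def s1_e (A : E3 ≃ₗᵢ[ℝ] E3) : S2 ≃ᵐ S2 where
  toFun ω := ⟨A ω, by
    have h := ω.2
    rw [mem_sphere_zero_iff_norm] at h ⊢
    rw [A.norm_map, h]⟩
  invFun ω := ⟨A.symm ω, by
    have h := ω.2
    rw [mem_sphere_zero_iff_norm] at h ⊢
    rw [A.symm.norm_map, h]⟩
  left_inv ω := Subtype.ext (A.symm_apply_apply _)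
  right_inv ω := Subtype.ext (A.apply_symm_apply _)
  measurable_toFun := by
    apply Continuous.measurable
    exact (A.continuous.comp continuous_subtype_val).subtype_mk _
  measurable_invFun := by
    apply Continuous.measurable
    exact (A.symm.continuous.comp continuous_subtype_val).subtype_mk _

theorem s1_coe (A : E3 ≃ₗᵢ[ℝ] E3) (ω : S2) : ((s1_e A ω : S2) : E3) = A (ω : E3) := rfl

theorem s1_image (A : E3 ≃ₗᵢ[ℝ] E3) (s : Set S2) :
    (Ioo (0 : ℝ) 1 • ((↑) '' (s1_e A ⁻¹' s) : Set E3)) = A ⁻¹' (Ioo (0 : ℝ) 1 • ((↑) '' s : Set E3)) := by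
  ext x
  constructor
  · rintro ⟨t, ht, _, ⟨ω, hω, rfl⟩, rfl⟩
    refine ⟨t, ht, _, ⟨s1_e A ω, hω, rfl⟩, ?_⟩
    show t • ((s1_e A ω : S2) : E3) = A (t • (ω : E3))
    rw [s1_coe, map_smul]
  · rintro ⟨t, ht, _, ⟨ω, hω, rfl⟩, h⟩
    have h' : t • (ω : E3) = A x := h
    refine ⟨t, ht, _, ⟨(s1_e A).symm ω, ?_, rfl⟩, ?_⟩
    · show s1_e A ((s1_e A).symm ω) ∈ s
      rw [MeasurableEquiv.apply_symm_apply]
      exact hω
    · show t • (A.symm (ω : E3)) = x
      rw [← map_smul, h', A.symm_apply_apply]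

theorem s1_mp (A : E3 ≃ₗᵢ[ℝ] E3) : MeasurePreserving (s1_e A) sg sg := by
  refine ⟨(s1_e A).measurable, ?_⟩
  ext s hs
  rw [Measure.map_apply (s1_e A).measurable hs]
  unfold sg
  rw [Measure.toSphere_apply' _ ((s1_e A).measurable hs), Measure.toSphere_apply' _ hs, s1_image,
    A.measurePreserving.measure_preimage_emb A.toHomeomorph.measurableEmbedding]

/-- [RC-S1] Rotation invariance of the surface measure.
PROOF. `A` restricts to a homeomorphism (measurable equivalence) `e` of `S2` (inverse: `A.symm`), and `e` preserves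
`sg = volume.toSphere`: by `Measure.toSphere_apply'`, `sg s = dim • volume (Ioo 0 1 • ((↑) '' s))`, and
`A '' (Ioo 0 1 • ((↑) '' s)) = Ioo 0 1 • ((↑) '' (e '' s))` by linearity, and `A` preserves `volume`
(`LinearIsometryEquiv.measurePreserving`). Then `MeasurePreserving.integral_comp'` (or `integral_map_equiv`). -/
theorem s1_invariant (A : E3 ≃ₗᵢ[ℝ] E3) (F : E3 → ℝ) :
    ∫ ω : S2, F (A (ω : E3)) ∂sg = ∫ ω : S2, F (ω : E3) ∂sg := by
  exact (s1_mp A).integral_comp (s1_e A).measurableEmbedding (fun ω : S2 => F (ω : E3))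

end Pool.Agent.RC
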