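import Pool.Agent.RC.S1

set_option autoImplicit false

open MeasureTheory Set Real

namespace Pool.Agent.RC

/-- the rotation around the axis `k` -/
noncomputable def s2_lin (k : Fin 3) (t : ℝ) : E3 →ₗ[ℝ] E3 where
  toFun x := x k • EuclideanSpace.single k (1 : ℝ) +
    (cos t * x (k + 1) - sin t * x (k + 2)) • EuclideanSpace.single (k + 1) (1 : ℝ) +
    (sin t * x (k + 1) + cos t * x (k + 2)) • EuclideanSpace.single (k + 2) (1 : ℝ)
  map_add' x y := by
    simp only [PiLp.add_apply]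
    module
  map_smul' c x := by
    simp only [PiLp.smul_apply, smul_eq_mul, RingHom.id_apply]
    module

theorem s2_lin_apply (k : Fin 3) (t : ℝ) (x : E3) : s2_lin k t x =
    x k • EuclideanSpace.single k (1 : ℝ) +
    (cos t * x (k + 1) - sin t * x (k + 2)) • EuclideanSpace.single (k + 1) (1 : ℝ) +
    (sin t * x (k + 1) + cos t * x (k + 2)) • EuclideanSpace.single (k + 2) (1 : ℝ) := rfl

theorem s2_coord (k : Fin 3) (t : ℝ) (x : E3) : s2_lin k t x k = x k ∧
    s2_lin k t x (k + 1) = cos t * x (k + 1) - sin t * x (k + 2) ∧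
    s2_lin k t x (k + 2) = sin t * x (k + 1) + cos t * x (k + 2) := by
  rw [s2_lin_apply]
  fin_cases k <;> simp [PiLp.add_apply, PiLp.smul_apply]

theorem s2_ext (k : Fin 3) {x y : E3} (h0 : x k = y k) (h1 : x (k + 1) = y (k + 1))
    (h2 : x (k + 2) = y (k + 2)) : x = y := by
  ext i
  fin_cases k <;> fin_cases i <;> simp_all

theorem s2_sum (k : Fin 3) (f : Fin 3 → ℝ) : ∑ i, f i = f k + f (k + 1) + f (k + 2) := by
  rw [Fin.sum_univ_three]
  fin_cases k
  · rfl
  · show f 0 + f 1 + f 2 = f 1 + f 2 + f 0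
    ring
  · show f 0 + f 1 + f 2 = f 2 + f 0 + f 1
    ring

theorem s2_norm (k : Fin 3) (t : ℝ) (x : E3) : ‖s2_lin k t x‖ = ‖x‖ := by
  rw [EuclideanSpace.norm_eq, EuclideanSpace.norm_eq, s2_sum k, s2_sum k]
  obtain ⟨h0, h1, h2⟩ := s2_coord k t x
  rw [h0, h1, h2]
  simp only [Real.norm_eq_abs, sq_abs]
  congr 1
  linear_combination (x (k + 1) ^ 2 + x (k + 2) ^ 2) * Real.sin_sq_add_cos_sq t

theorem s2_inv (k : Fin 3) (t : ℝ) (x : E3) : s2_lin k (-t) (s2_lin k t x) = x := by
  obtain ⟨h0, h1, h2⟩ := s2_coord k (-t) (s2_lin k t x)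
  obtain ⟨k0, k1, k2⟩ := s2_coord k t x
  refine s2_ext k ?_ ?_ ?_
  · rw [h0, k0]
  · rw [h1, k1, k2, cos_neg, sin_neg]
    linear_combination x (k + 1) * Real.sin_sq_add_cos_sq t
  · rw [h2, k1, k2, cos_neg, sin_neg]
    linear_combination x (k + 2) * Real.sin_sq_add_cos_sq t

/-- the rotation as an isometry -/
noncomputable def s2_iso (k : Fin 3) (t : ℝ) : E3 ≃ₗᵢ[ℝ] E3 where
  toLinearEquiv := LinearEquiv.ofLinearMap (s2_lin k t) (s2_lin k (-t))
    (LinearMap.ext fun x => by
      have h := s2_inv k (-t) x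
      rwa [neg_neg] at h)
    (LinearMap.ext fun x => s2_inv k t x)
  norm_map' x := s2_norm k t x

theorem s2_iso_apply (k : Fin 3) (t : ℝ) (x : E3) : s2_iso k t x = s2_lin k t x := rfl

/-- [RC-S2] The rotations around the axis `k`: `A_t` is a linear isometry with `d/dt A_t x = R_k (A_t x)`.
PROOF. `A_t x = x_k e_k + (cos t x_{k+1} - sin t x_{k+2}) e_{k+1} + (sin t x_{k+1} + cos t x_{k+2}) e_{k+2}`; linear,
norm preserving (`EuclideanSpace.norm_eq`, sum over `Fin 3`; `fin_cases k`), inverse `A_{-t}`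
(or `LinearIsometry.toLinearIsometryEquiv` by `rfl`-dimension). -/
theorem s2_rot (k : Fin 3) : ∃ A : ℝ → (E3 ≃ₗᵢ[ℝ] E3), (∀ x, A 0 x = x) ∧
    ∀ (x : E3) (t : ℝ), HasDerivAt (fun r => (A r x : E3)) (Rv k (A t x)) t := by
  refine ⟨s2_iso k, fun x => ?_, fun x t => ?_⟩
  · rw [s2_iso_apply]
    obtain ⟨h0, h1, h2⟩ := s2_coord k 0 x
    rw [cos_zero, sin_zero] at h1 h2
    refine s2_ext k h0 ?_ ?_
    · rw [h1]
      ring
    · rw [h2]
      ring
  · simp only [s2_iso_apply]
    obtain ⟨h0, h1, h2⟩ := s2_coord k t x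
    have e1 : HasDerivAt (fun r => cos r * x (k + 1) - sin r * x (k + 2))
        (-sin t * x (k + 1) - cos t * x (k + 2)) t :=
      ((hasDerivAt_cos t).mul_const _).sub ((hasDerivAt_sin t).mul_const _)
    have e2 : HasDerivAt (fun r => sin r * x (k + 1) + cos r * x (k + 2))
        (cos t * x (k + 1) + -sin t * x (k + 2)) t :=
      ((hasDerivAt_sin t).mul_const _).add ((hasDerivAt_cos t).mul_const _)
    have e3 := ((hasDerivAt_const t (x k • EuclideanSpace.single k (1 : ℝ))).add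
      (e1.smul_const (EuclideanSpace.single (k + 1) (1 : ℝ)))).add
      (e2.smul_const (EuclideanSpace.single (k + 2) (1 : ℝ)))
    have e4 : Rv k (s2_lin k t x) = 0 + (-sin t * x (k + 1) - cos t * x (k + 2)) •
        EuclideanSpace.single (k + 1) (1 : ℝ) + (cos t * x (k + 1) + -sin t * x (k + 2)) •
        EuclideanSpace.single (k + 2) (1 : ℝ) := by
      unfold Rv
      rw [h1, h2]
      module
    rw [e4]
    exact e3

theorem s2_Rv_continuous (k : Fin 3) : Continuous (Rv k) := by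
  unfold Rv
  fun_prop

/-- [RC-S2] `x ↦ Lk k F x` is continuous for `F ∈ C¹`. -/
theorem s2_Lk_continuous (k : Fin 3) (F : E3 → ℝ) (hF : ContDiff ℝ 1 F) : Continuous (Lk k F) := by
  unfold Lk
  exact (hF.continuous_fderiv (by norm_num)).clm_apply (s2_Rv_continuous k)

/-- [RC-S2] Rotation derivatives have mean zero on the sphere.
PROOF. With `A_t` from `s2_rot`, `t ↦ ∫ F (A_t ω) dω` is constant (`s1_invariant`). Its derivative at `0` is
`∫ fderiv F ω (R_k ω) = ∫ Lk k F ω` by differentiation under the integral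
(`hasDerivAt_integral_of_dominated_loc_of_deriv_le`): `d/dt F (A_t ω) = fderiv F (A_t ω) (R_k (A_t ω))`, bounded by the
maximum of the continuous function `‖fderiv F x‖ ‖R_k x‖` on the compact unit sphere (`A_t ω` is on the sphere). -/
theorem s2_int_rot (k : Fin 3) (F : E3 → ℝ) (hF : ContDiff ℝ 1 F) :
    ∫ ω : S2, Lk k F (ω : E3) ∂sg = 0 := by
  obtain ⟨A, hA0, hA⟩ := s2_rot k
  have hFc : Continuous F := hF.continuous
  have hL := s2_Lk_continuous k F hF
  obtain ⟨C, hC⟩ : ∃ C : ℝ, ∀ x ∈ Metric.sphere (0 : E3) 1, ‖Lk k F x‖ ≤ C :=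
    (isCompact_sphere (0 : E3) 1).exists_bound_of_continuousOn hL.continuousOn
  have hmem : ∀ (t : ℝ) (ω : S2), A t (ω : E3) ∈ Metric.sphere (0 : E3) 1 := by
    intro t ω
    rw [mem_sphere_zero_iff_norm, LinearIsometryEquiv.norm_map]
    exact mem_sphere_zero_iff_norm.1 ω.2
  have hderiv := (hasDerivAt_integral_of_dominated_loc_of_deriv_le (μ := sg)
    (F := fun (t : ℝ) (ω : S2) => F (A t (ω : E3)))
    (F' := fun (t : ℝ) (ω : S2) => Lk k F (A t (ω : E3))) (x₀ := 0) (s := Set.univ)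
    (bound := fun _ => C) Filter.univ_mem
    (Filter.Eventually.of_forall fun t =>
      (hFc.comp ((A t).continuous.comp continuous_subtype_val)).aestronglyMeasurable)
    (int_sg (hFc.comp (A 0).continuous))
    (hL.comp ((A 0).continuous.comp continuous_subtype_val)).aestronglyMeasurable
    (Filter.Eventually.of_forall fun ω t _ => hC _ (hmem t ω)) (integrable_const C)
    (Filter.Eventually.of_forall fun ω t _ => by
      have h1 : HasFDerivAt F (fderiv ℝ F (A t (ω : E3))) (A t (ω : E3)) :=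
        (hF.differentiable (by norm_num) _).hasFDerivAt
      exact h1.comp_hasDerivAt t (hA ω t))).2
  have hconst : (fun t : ℝ => ∫ ω : S2, F (A t (ω : E3)) ∂sg) =
      fun _ => ∫ ω : S2, F (ω : E3) ∂sg := by
    funext t
    exact s1_invariant (A t) F
  rw [hconst] at hderiv
  have h2 := hderiv.unique (hasDerivAt_const (0 : ℝ) (∫ ω : S2, F (ω : E3) ∂sg))
  simp only [hA0] at h2
  exact h2

/-- [RC-S2] Integration by parts. PROOF. `Lk k (F G) = Lk k F · G + F · Lk k G` (`fderiv_mul`), integrate with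
`s2_int_rot` applied to `F * G`. -/
theorem s2_ibp (k : Fin 3) (F G : E3 → ℝ) (hF : ContDiff ℝ 1 F) (hG : ContDiff ℝ 1 G) :
    ip (Lk k F) G = -ip F (Lk k G) := by
  have h1 := s2_int_rot k (fun x => F x * G x) (hF.mul hG)
  have h2 : ∀ x, Lk k (fun x => F x * G x) x = Lk k F x * G x + F x * Lk k G x := by
    intro x
    unfold Lk
    rw [fderiv_fun_mul (hF.differentiable (by norm_num) x) (hG.differentiable (by norm_num) x)]
    simp only [_root_.add_apply, _root_.smul_apply, smul_eq_mul]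
    ring
  simp only [h2] at h1
  rw [integral_add (int_ip (s2_Lk_continuous k F hF) hG.continuous)
    (int_ip hF.continuous (s2_Lk_continuous k G hG))] at h1
  unfold ip
  linarith

end Pool.Agent.RC
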