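import Pool.Agent.RC.Hil
import Pool.Agent.RC.P3

set_option autoImplicit false

open MeasureTheory Set Real MvPolynomial

namespace Pool.Agent.RC

/-- [RC-S4] the restriction of `|x|² q` equals that of `q`. -/
theorem s4_io_sq (q : MP) : io ((∑ i : Fin 3, X i ^ 2) * q) = io q := by
  have h : evC ((∑ i : Fin 3, X i ^ 2) * q) = evC q := by
    ext ω
    show ev ((∑ i : Fin 3, X i ^ 2) * q) ω = ev q ω
    have h1 : ev ((∑ i : Fin 3, X i ^ 2) * q) (ω : E3) =
        ev (∑ i : Fin 3, X i ^ 2) (ω : E3) * ev q (ω : E3) := by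
      unfold ev
      rw [map_mul]
    rw [h1, p3_sq _ (mem_sphere_zero_iff_norm.1 ω.2), one_mul]
  show (ContinuousMap.toLp (E := ℝ) 2 sg ℝ) (evC ((∑ i : Fin 3, X i ^ 2) * q)) =
    (ContinuousMap.toLp (E := ℝ) 2 sg ℝ) (evC q)
  rw [h]

/-- the function `x_0^a x_1^b x_2^c` on the sphere -/
noncomputable def s4_q (a b c : ℕ) : Lp ℝ 2 sg := io (X 0 ^ a * X 1 ^ b * X 2 ^ c)

theorem s4_monomial (m : Fin 3 →₀ ℕ) : (monomial m (1 : ℝ) : MP) =
    X 0 ^ m 0 * X 1 ^ m 1 * X 2 ^ m 2 := by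
  rw [monomial_eq, C_1, one_mul, Finsupp.prod_fintype _ _ (fun i => pow_zero _), Fin.prod_univ_three]

theorem s4_degree (m : Fin 3 →₀ ℕ) : m.degree = m 0 + m 1 + m 2 := by
  rw [Finsupp.degree_eq_sum, Fin.sum_univ_three]

/-- the exponent with the given entries -/
noncomputable def s4_m (a b c : ℕ) : Fin 3 →₀ ℕ := Finsupp.equivFunOnFinite.symm ![a, b, c]

theorem s4_mem_WW {a b c j : ℕ} (h : a + b + c < j) : s4_q a b c ∈ WW j := by
  refine Submodule.mem_map_of_mem (Submodule.subset_span ⟨s4_m a b c, ?_, ?_⟩)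
  · show (s4_m a b c).degree < j
    rw [s4_degree]
    exact h
  · show (monomial (s4_m a b c) (1 : ℝ) : MP) = _
    rw [s4_monomial]
    rfl

theorem s4_rec (a b c : ℕ) : s4_q a b (c + 2) = s4_q a b c - s4_q (a + 2) b c - s4_q a (b + 2) c := by
  unfold s4_q
  rw [← s4_io_sq (X 0 ^ a * X 1 ^ b * X 2 ^ c), ← map_sub, ← map_sub]
  congr 1
  rw [Fin.sum_univ_three]
  ring

/-- the generators -/
noncomputable def s4_g (j : ℕ) : Fin (j + 1) ⊕ Fin j → Lp ℝ 2 sg
  | Sum.inl a => s4_q a (j - a) 0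
  | Sum.inr a => s4_q a (j - 1 - a) 1

theorem s4_claim (j : ℕ) : ∀ c a b : ℕ, a + b + c ≤ j →
    s4_q a b c ∈ WW j ⊔ Submodule.span ℝ (Set.range (s4_g j)) := by
  intro c
  induction c using Nat.strong_induction_on with
  | _ c ih =>
    intro a b h
    rcases lt_or_eq_of_le h with h1 | h1
    · exact Submodule.mem_sup_left (s4_mem_WW h1)
    · match c, ih, h1 with
      | 0, _, h1 =>
        refine Submodule.mem_sup_right (Submodule.subset_span ⟨Sum.inl ⟨a, by omega⟩, ?_⟩)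
        show s4_q a (j - a) 0 = _
        have : j - a = b := by omega
        rw [this]
      | 1, _, h1 =>
        refine Submodule.mem_sup_right (Submodule.subset_span ⟨Sum.inr ⟨a, by omega⟩, ?_⟩)
        show s4_q a (j - 1 - a) 1 = _
        have : j - 1 - a = b := by omega
        rw [this]
      | c + 2, ih, h1 =>
        rw [s4_rec]
        refine Submodule.sub_mem _ (Submodule.sub_mem _ ?_ ?_) ?_
        · exact Submodule.mem_sup_left (s4_mem_WW (by omega))
        · exact ih c (by omega) _ _ (by omega)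
        · exact ih c (by omega) _ _ (by omega)

/-- [RC-S4] PROOF. Let `G_j` be the span of the `2j+1` vectors `io (x_0^a x_1^b x_2^c)`, `a + b + c = j`, `c ≤ 1`
(`(a, c) ∈ {0..j} × {0}` or `{0..j-1} × {1}`). Claim: `io (x^m) ∈ WW j ⊔ G_j` for `m.degree ≤ j`: clear if the degree is
`< j` or `m 2 ≤ 1`; otherwise, by strong induction on `m 2`, with `m = m' + 2 e_2`:
`x_2² = |x|² - x_0² - x_1²`, so `io (x^m) = io (x^{m'}) - io (x^{m'+2e_0}) - io (x^{m'+2e_1})` (`s4_io_sq`), the first is in `WW j`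
(degree `j - 2 < j`), the others have degree `j` and smaller exponent of `x_2`. So `WW (j+1) ≤ WW j ⊔ G_j`. -/
theorem s4_span (j : ℕ) : ∃ G : Submodule ℝ (Lp ℝ 2 sg), FiniteDimensional ℝ G ∧
    Module.finrank ℝ G ≤ 2 * j + 1 ∧ WW (j + 1) ≤ WW j ⊔ G := by
  refine ⟨Submodule.span ℝ (Set.range (s4_g j)), FiniteDimensional.span_of_finite ℝ
    (Set.finite_range _), ?_, ?_⟩
  · refine (finrank_range_le_card (R := ℝ) (s4_g j)).trans (le_of_eq ?_)
    rw [Fintype.card_sum, Fintype.card_fin, Fintype.card_fin]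
    ring
  · unfold WW Pd
    rw [Submodule.map_span, Submodule.span_le]
    rintro _ ⟨_, ⟨m, hm, rfl⟩, rfl⟩
    have hm' : m.degree < j + 1 := hm
    rw [s4_degree] at hm'
    show io (monomial m (1 : ℝ)) ∈ _
    rw [s4_monomial]
    exact s4_claim j (m 2) (m 0) (m 1) (by omega)

/-- [RC-S4] The space of spherical harmonics of degree `j` has dimension at most `2j+1`.
PROOF. With `G` from `s4_span`: every `h ∈ HH j ≤ WW (j+1)` is `h = u + g`, `u ∈ WW j`, `g ∈ G`, and since `h ⟂ WW j`,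
`h = P g`, `P` the orthogonal projection onto `(WW j)ᗮ` (`P u = 0`). So `HH j ≤ P(G)` and
`finrank (HH j) ≤ finrank (G.map P) ≤ finrank G`. -/
theorem s4_dim (j : ℕ) : Module.finrank ℝ (HH j) ≤ 2 * j + 1 := by
  obtain ⟨G, hfin, hG, hle⟩ := s4_span j
  let P : Lp ℝ 2 sg →ₗ[ℝ] Lp ℝ 2 sg := LinearMap.id - (WW j).starProjection.toLinearMap
  have hP1 : ∀ u ∈ WW j, P u = 0 := by
    intro u hu
    show u - (WW j).starProjection u = 0
    rw [Submodule.starProjection_eq_self_iff.2 hu, sub_self]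
  have hP2 : ∀ u ∈ (WW j)ᗮ, P u = u := by
    intro u hu
    show u - (WW j).starProjection u = u
    rw [(Submodule.starProjection_apply_eq_zero_iff (WW j)).2 hu, sub_zero]
  have hle2 : HH j ≤ G.map P := by
    intro h hh
    obtain ⟨u, hu, g, hg, hug⟩ := Submodule.mem_sup.1 (hle hh.1)
    refine ⟨g, hg, ?_⟩
    have h1 := hP2 h hh.2
    rw [← hug, map_add, hP1 u hu, zero_add] at h1
    rw [h1, hug]
  calc Module.finrank ℝ (HH j) ≤ Module.finrank ℝ (G.map P) := Submodule.finrank_mono hle2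
    _ ≤ Module.finrank ℝ G := Submodule.finrank_map_le P G
    _ ≤ 2 * j + 1 := hG

end Pool.Agent.RC
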