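import Pool.Agent.RC.Hil
import Pool.Agent.RC.P1
import Pool.Agent.RC.P3

set_option autoImplicit false

open MeasureTheory Set Real MvPolynomial

namespace Pool.Agent.RC

theorem s5_lin {G : E3 → ℝ} (hG : Continuous G) {a b c : MP} {l : ℝ}
    (h : ∀ x : E3, ‖x‖ = 1 → ev a x = l * ev b x + ev c x) :
    ip G (ev a) = l * ip G (ev b) + ip G (ev c) := by
  have h1 : ip G (ev a) = ip G (fun x => l * ev b x + ev c x) := by
    unfold ip
    refine integral_congr_ae (Filter.Eventually.of_forall fun ω => ?_)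
    have h2 : ‖(ω : E3)‖ = 1 := by
      have := ω.2
      rwa [mem_sphere_zero_iff_norm] at this
    simp only [h _ h2]
  rw [h1, ip_comm, ip_add (F := fun x => l * ev b x) (continuous_const.mul (continuous_ev b))
    (continuous_ev c) hG, ip_smul, ip_comm (ev b), ip_comm (ev c)]

/-- [RC-S5] The elements of `HH j` are eigenfunctions.
PROOF. `p3_lam_mem` gives `r ∈ Pd j` with `Lam p = j(j+1) p + r` on the sphere. For every `q ∈ Pd j`:
`ip (ev r) (ev q) = ip (ev (Lam p)) (ev q) - j(j+1) ip (ev p) (ev q) = ip (ev p) (ev (Lam q)) - 0` (`p1_symm`,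
orthogonality), and `Lam q` is on the sphere an element of `Pd j` (`p3_lam_mem'`), so this is `0` again
(`ip` only depends on the values on the sphere). With `q = r`: `ip (ev r) (ev r) = 0`, so `ip F (ev r) = 0` for all
continuous `F` (Cauchy-Schwarz; in `L²`: `‖l2 (ev r)‖ = 0`). -/
theorem s5_eig (j : ℕ) (p : MP) (hp : p ∈ Pd (j + 1)) (ho : ∀ q ∈ Pd j, ip (ev p) (ev q) = 0)
    (F : E3 → ℝ) (hF : Continuous F) :
    ip F (ev (Lam p)) = ((j : ℝ) * (j + 1)) * ip F (ev p) := by
  obtain ⟨r, hr, h⟩ := p3_lam_mem j p hp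
  have hq : ∀ q ∈ Pd j, ip (ev r) (ev q) = 0 := by
    intro q hq
    obtain ⟨s, hs, h'⟩ := p3_lam_mem' j q hq
    have h1 := s5_lin (continuous_ev q) h
    have h2 : ip (ev p) (ev (Lam q)) = 0 := by
      have h3 := s5_lin (G := ev p) (a := Lam q) (b := 0) (c := s) (l := 0) (continuous_ev p)
        (fun x hx => by rw [h' x hx]; ring)
      rw [h3, ho s hs]
      ring
    rw [ip_comm (ev q) (ev (Lam p)), p1_symm, h2, ip_comm (ev q) (ev p), ho q hq] at h1
    rw [ip_comm]
    linarith
  have hr0 := hq r hr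
  have hF0 : ip F (ev r) = 0 := by
    rw [← inner_l2 F (ev r) hF (continuous_ev r)]
    have h1 : inner ℝ (l2 (ev r) (continuous_ev r)) (l2 (ev r) (continuous_ev r)) = 0 := by
      rw [inner_l2]
      exact hr0
    rw [inner_self_eq_zero] at h1
    rw [h1, inner_zero_right]
  have h1 := s5_lin hF h
  rw [h1, hF0, add_zero]

end Pool.Agent.RC
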