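import Pool.Agent.RC.Hil

set_option autoImplicit false

open MeasureTheory Set Real MvPolynomial

namespace Pool.Agent.RC

/-- polynomials as an algebra homomorphism to the continuous functions on the sphere -/
noncomputable def s6_alg : MP →ₐ[ℝ] C(S2, ℝ) :=
  AlgHom.ofLinearMap evC (by ext ω; simp [evC, rs, ev]) (by intro p q; ext ω; simp [evC, rs, ev])

theorem s6_alg_apply (p : MP) (ω : S2) : s6_alg p ω = ev p ω := rfl

theorem s6_sep : (s6_alg.range).SeparatesPoints := by
  intro x y hxy
  by_contra h
  push Not at h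
  apply hxy
  apply Subtype.ext
  ext i
  have h1 := h (fun ω => s6_alg (X i) ω) ⟨s6_alg (X i), ⟨X i, rfl⟩, rfl⟩
  simp only [s6_alg_apply, ev, eval_X] at h1
  exact h1

theorem s6_mem_Pd (p : MP) : p ∈ Pd (p.totalDegree + 1) := by
  rw [p.as_sum]
  unfold Pd
  refine Submodule.sum_mem _ fun m hm => ?_
  have h1 : (monomial m (coeff m p) : MP) = coeff m p • (monomial m (1 : ℝ) : MP) := by
    rw [smul_monomial, smul_eq_mul, mul_one]
  rw [h1]
  refine Submodule.smul_mem _ _ (Submodule.subset_span ⟨m, ?_, rfl⟩)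
  have h2 := MvPolynomial.le_totalDegree hm
  have h3 : m.degree = m.sum fun _ e => e := rfl
  show m.degree < _
  rw [← p.as_sum]
  omega

/-- [RC-S6] Density of the polynomials.
PROOF. Stone-Weierstrass (`ContinuousMap.subalgebra_topologicalClosure_eq_top_of_separatesPoints`, `S2` is compact) for
the subalgebra of `C(S2, ℝ)` of the restrictions of polynomials (range of an algebra homomorphism, or the set of
`evC p`; closed under products: `ev (p*q) = ev p * ev q`); coordinates separate points. So for `δ > 0` there is a polynomial `p` with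
`|F ω - ev p ω| ≤ δ` on the sphere, so the integral is `≤ δ² · (sg univ).toReal`. Every polynomial is in `Pd M` for
large `M` (`p = ∑ over the support of monomials`; `M = p.totalDegree + 1`, `MvPolynomial.le_totalDegree`). -/
theorem s6_dense (F : E3 → ℝ) (hF : Continuous F) (ε : ℝ) (hε : 0 < ε) : ∃ M : ℕ, ∃ p ∈ Pd M,
    ip (fun x => F x - ev p x) (fun x => F x - ev p x) ≤ ε := by
  set m : ℝ := sg.real univ with hm
  have hm0 : 0 ≤ m := measureReal_nonneg
  set δ : ℝ := Real.sqrt (ε / (m + 1)) with hδ
  have hpos : 0 < ε / (m + 1) := by positivity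
  have hδ0 : 0 < δ := Real.sqrt_pos.2 hpos
  have hδ2 : δ * δ = ε / (m + 1) := Real.mul_self_sqrt hpos.le
  obtain ⟨⟨g, p, hp⟩, hg⟩ :=
    ContinuousMap.exists_mem_subalgebra_near_continuousMap_of_separatesPoints (s6_alg.range) s6_sep
      (rs F hF) δ hδ0
  have hp' : s6_alg p = g := hp
  subst hp'
  refine ⟨p.totalDegree + 1, p, s6_mem_Pd p, ?_⟩
  have hcont : Continuous (fun x => F x - ev p x) := hF.sub (continuous_ev p)
  have hb : ∀ ω : S2, |F ω - ev p ω| ≤ δ := by
    intro ω
    have h1 := ContinuousMap.norm_coe_le_norm (s6_alg p - rs F hF) ω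
    have h2 : (s6_alg p - rs F hF) ω = ev p ω - F ω := rfl
    rw [h2, Real.norm_eq_abs, abs_sub_comm] at h1
    exact h1.trans hg.le
  have h3 : ip (fun x => F x - ev p x) (fun x => F x - ev p x) ≤ ∫ _ω : S2, δ * δ ∂sg := by
    unfold ip
    refine integral_mono (int_ip hcont hcont) (integrable_const _) fun ω => ?_
    have h4 := abs_le.1 (hb ω)
    simp only
    nlinarith [h4.1, h4.2]
  refine h3.trans ?_
  rw [integral_const, smul_eq_mul, hδ2, ← hm]
  rw [mul_div_assoc', div_le_iff₀ (by positivity)]
  nlinarith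
end Pool.Agent.RC
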