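import Pool.Agent.RC.S4
import Pool.Agent.RC.S5
import Pool.Agent.RC.S6

set_option autoImplicit false

open MeasureTheory Set Real MvPolynomial

namespace Pool.Agent.RC

theorem s7_mono {i j : ℕ} (h : i ≤ j) : WW i ≤ WW j := by
  unfold WW
  refine Submodule.map_mono ?_
  unfold Pd
  refine Submodule.span_mono (Set.image_mono ?_)
  intro m hm
  exact lt_of_lt_of_le hm h

theorem s7_Pd_mono {i j : ℕ} (h : i ≤ j) : Pd i ≤ Pd j := by
  unfold Pd
  refine Submodule.span_mono (Set.image_mono ?_)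
  intro m hm
  exact lt_of_lt_of_le hm h

/-- [RC-S7] `WW (j+1) = WW j ⊔ HH j` (orthogonal decomposition of the finite dimensional `WW (j+1) ≥ WW j`;
`Submodule.sup_orthogonal_inf_of_hasOrthogonalProjection` or by hand). -/
theorem s7_decomp (j : ℕ) : WW (j + 1) = WW j ⊔ HH j := by
  have h := Submodule.sup_orthogonal_inf_of_hasOrthogonalProjection (s7_mono (Nat.le_succ j))
  unfold HH
  rw [inf_comm]
  exact h.symm

theorem s7_inner (p q : MP) : inner ℝ (io p) (io q) = ip (ev p) (ev q) := by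
  rw [io_eq, io_eq, inner_l2]

section step

variable {E : Type*} [NormedAddCommGroup E] [InnerProductSpace ℝ E] (H W : Submodule ℝ E) {n : ℕ}
  (b : OrthonormalBasis (Fin n) ℝ H) (hHW : ∀ u ∈ H, ∀ w ∈ W, inner ℝ u w = (0 : ℝ))

/-- the component of `f` in `H` -/
noncomputable def s7_h (f : E) : E := ∑ m, (inner ℝ (b m : E) f : ℝ) • (b m : E)

theorem s7_h_mem (f : E) : s7_h H b f ∈ H := by
  unfold s7_h
  exact Submodule.sum_mem _ fun m _ => Submodule.smul_mem _ _ (b m).2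

theorem s7_on : Orthonormal ℝ (fun m => (b m : E)) :=
  b.orthonormal.comp_linearIsometry H.subtypeₗᵢ

theorem s7_inner_b (f : E) (m : Fin n) : inner ℝ (b m : E) (s7_h H b f) = (inner ℝ (b m : E) f : ℝ) := by
  unfold s7_h
  exact (s7_on H b).inner_right_fintype (fun m => (inner ℝ (b m : E) f : ℝ)) m

theorem s7_perp (f : E) {u : E} (hu : u ∈ H) : inner ℝ u (f - s7_h H b f) = (0 : ℝ) := by
  have h1 : u = ∑ m, (inner ℝ (b m) (⟨u, hu⟩ : H) : ℝ) • (b m : E) := by
    have h2 := congrArg (fun x : H => (x : E)) (b.sum_repr' (⟨u, hu⟩ : H))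
    simp only [Submodule.coe_sum, Submodule.coe_smul] at h2
    exact h2.symm
  rw [h1, sum_inner]
  refine Finset.sum_eq_zero fun m _ => ?_
  rw [inner_smul_left, inner_sub_right, s7_inner_b, sub_self, mul_zero]

theorem s7_norm (f : E) : ‖f‖ ^ 2 = ∑ m, (inner ℝ (b m : E) f : ℝ) ^ 2 + ‖f - s7_h H b f‖ ^ 2 := by
  have h1 : ‖s7_h H b f‖ ^ 2 = ∑ m, (inner ℝ (b m : E) f : ℝ) ^ 2 := by
    have h0 : inner ℝ (∑ m, (inner ℝ (b m : E) f : ℝ) • (b m : E)) (s7_h H b f) =
        ∑ m, (inner ℝ (b m : E) f : ℝ) ^ 2 := by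
      rw [sum_inner]
      refine Finset.sum_congr rfl fun m _ => ?_
      rw [inner_smul_left, s7_inner_b]
      simp [sq]
    rw [← real_inner_self_eq_norm_sq]
    exact h0
  have h2 : ‖s7_h H b f + (f - s7_h H b f)‖ ^ 2 =
      ‖s7_h H b f‖ ^ 2 + 2 * inner ℝ (s7_h H b f) (f - s7_h H b f) + ‖f - s7_h H b f‖ ^ 2 :=
    norm_add_sq_real _ _
  rw [s7_perp H b f (s7_h_mem H b f), add_sub_cancel, h1] at h2
  rw [h2]
  ring

include hHW in
theorem s7_W (f : E) {y : E} (hy : y ∈ W) :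
    inner ℝ y (f - s7_h H b f) = (inner ℝ y f : ℝ) := by
  have h1 : inner ℝ y (s7_h H b f) = (0 : ℝ) := by
    rw [real_inner_comm]
    exact hHW _ (s7_h_mem H b f) _ hy
  rw [inner_sub_right, h1, sub_zero]

include hHW in
theorem s7_le (f : E) {g1 g2 : E} (h1 : g1 ∈ W) (h2 : g2 ∈ H) :
    ‖f - s7_h H b f - g1‖ ^ 2 ≤ ‖f - (g1 + g2)‖ ^ 2 := by
  have h3 : f - (g1 + g2) = (s7_h H b f - g2) + (f - s7_h H b f - g1) := by abel
  have h4 : inner ℝ (s7_h H b f - g2) (f - s7_h H b f - g1) = (0 : ℝ) := by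
    have hm : s7_h H b f - g2 ∈ H := sub_mem (s7_h_mem H b f) h2
    rw [inner_sub_right, s7_perp H b f hm, hHW _ hm _ h1, sub_zero]
  rw [h3, norm_add_sq_real, h4]
  nlinarith [sq_nonneg ‖s7_h H b f - g2‖]

end step

/-- [RC-S7] Existence of a complete orthonormal system of spherical harmonics.
PROOF. `d j = finrank (HH j)` (`s4_dim`), `b_j = stdOrthonormalBasis ℝ (HH j)`, and choose `Y j m ∈ Pd (j+1)` with
`io (Y j m) = b_j m` (it is in `WW (j+1) = (Pd (j+1)).map io`). `on1`, `on2` by `inner_l2` (`HH j ≤ WW (j+1) ≤ WW j'` and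
`HH j' ≤ (WW j')ᗮ` for `j < j'`). `eig`: `s5_eig` (orthogonality to `Pd j` because `io (Y j m) ∈ (WW j)ᗮ`).
`cpl`: the vectors `y_{jm} = io (Y j m)`, `j < M`, span `WW M` (induction with `s7_decomp`, `WW 0 = ⊥`). Given `F`, `ε`, take
`M0`, `p ∈ Pd M0` from `s6_dense`. For `M ≥ M0`, `io p ∈ WW M`, `io p = ∑ c_{jm} y_{jm}`, and with `f = l2 F`:
`ε ≥ ‖f - io p‖² = ‖f‖² - 2 ∑ c ⟨y,f⟩ + ∑ c² ≥ ‖f‖² - ∑ ⟨y,f⟩²`. -/
theorem s7_har : Nonempty Har := by
  classical
  let b : ∀ j, OrthonormalBasis (Fin (Module.finrank ℝ (HH j))) ℝ (HH j) :=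
    fun j => stdOrthonormalBasis ℝ (HH j)
  have hex : ∀ j (m : Fin (Module.finrank ℝ (HH j))), ∃ p ∈ Pd (j + 1), io p = (b j m : Lp ℝ 2 sg) := by
    intro j m
    have h1 : (b j m : Lp ℝ 2 sg) ∈ WW (j + 1) := (b j m).2.1
    exact h1
  choose Y hY hYb using hex
  have hperp : ∀ j, ∀ u ∈ HH j, ∀ w ∈ WW j, inner ℝ u w = (0 : ℝ) := by
    intro j u hu w hw
    exact Submodule.inner_left_of_mem_orthogonal hw hu.2
  have hW0 : WW 0 = ⊥ := by
    unfold WW Pd
    have : {m : Fin 3 →₀ ℕ | m.degree < 0} = ∅ := by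
      ext m
      simp
    rw [this]
    simp
  have hclaim : ∀ M : ℕ, ∀ f g : Lp ℝ 2 sg, g ∈ WW M →
      ‖f‖ ^ 2 ≤ ∑ j ∈ Finset.range M, ∑ m, (inner ℝ (b j m : Lp ℝ 2 sg) f : ℝ) ^ 2 + ‖f - g‖ ^ 2 := by
    intro M
    induction M with
    | zero =>
      intro f g hg
      rw [hW0, Submodule.mem_bot] at hg
      simp [hg]
    | succ M ih =>
      intro f g hg
      rw [s7_decomp, Submodule.mem_sup] at hg
      obtain ⟨g1, h1, g2, h2, rfl⟩ := hg
      have e1 := s7_norm (HH M) (b M) f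
      have e2 := s7_le (HH M) (WW M) (b M) (hperp M) f h1 h2
      have e3 := ih (f - s7_h (HH M) (b M) f) g1 h1
      have e4 : ∀ j ∈ Finset.range M, ∑ m, (inner ℝ (b j m : Lp ℝ 2 sg) (f - s7_h (HH M) (b M) f) : ℝ) ^ 2
          = ∑ m, (inner ℝ (b j m : Lp ℝ 2 sg) f : ℝ) ^ 2 := by
        intro j hj
        refine Finset.sum_congr rfl fun m _ => ?_
        have hm : (b j m : Lp ℝ 2 sg) ∈ WW M :=
          s7_mono (Nat.succ_le_of_lt (Finset.mem_range.1 hj)) (b j m).2.1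
        rw [s7_W (HH M) (WW M) (b M) (hperp M) f hm]
      rw [Finset.sum_congr rfl e4] at e3
      rw [Finset.sum_range_succ]
      linarith
  refine ⟨{ d := fun j => Module.finrank ℝ (HH j), Y := Y, hd := s4_dim, on1 := ?_, on2 := ?_,
            eig := ?_, cpl := ?_ }⟩
  · intro j m m'
    rw [← s7_inner, hYb, hYb]
    have h1 := orthonormal_iff_ite.1 (s7_on (HH j) (b j)) m m'
    exact h1
  · have hlt : ∀ (j j' : ℕ) (m : Fin (Module.finrank ℝ (HH j))) (m' : Fin (Module.finrank ℝ (HH j'))),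
        j < j' → ip (ev (Y j m)) (ev (Y j' m')) = 0 := by
      intro j j' m m' h
      rw [← s7_inner, hYb, hYb, real_inner_comm]
      exact hperp j' _ (b j' m').2 _ (s7_mono (Nat.succ_le_of_lt h) (b j m).2.1)
    intro j j' m m' h
    rcases lt_or_gt_of_ne h with h | h
    · exact hlt j j' m m' h
    · rw [ip_comm]
      exact hlt j' j m' m h
  · intro j m F hF
    refine s5_eig j (Y j m) (hY j m) ?_ F hF
    intro q hq
    rw [← s7_inner, hYb]
    exact hperp j _ (b j m).2 _ (Submodule.mem_map_of_mem hq)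
  · intro F hF ε hε
    obtain ⟨M0, p, hp, hle⟩ := s6_dense F hF ε hε
    refine ⟨M0, fun M hM => ?_⟩
    have hpM : io p ∈ WW M := Submodule.mem_map_of_mem (s7_Pd_mono hM hp)
    have h1 := hclaim M (l2 F hF) (io p) hpM
    have h2 : ‖l2 F hF‖ ^ 2 = ip F F := by
      rw [← real_inner_self_eq_norm_sq, inner_l2]
    have hc : Continuous fun x => F x - ev p x := hF.sub (continuous_ev p)
    have h3 : l2 F hF - io p = l2 (fun x => F x - ev p x) hc := by
      have h4 : rs (fun x => F x - ev p x) hc = rs F hF - evC p := by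
        ext ω
        rfl
      unfold l2
      rw [h4, map_sub]
      rfl
    have h5 : ‖l2 F hF - io p‖ ^ 2 = ip (fun x => F x - ev p x) (fun x => F x - ev p x) := by
      rw [h3, ← real_inner_self_eq_norm_sq, inner_l2]
    have h6 : ∀ j ∈ Finset.range M, ∑ m, (inner ℝ (b j m : Lp ℝ 2 sg) (l2 F hF) : ℝ) ^ 2
        = ∑ m, ip F (ev (Y j m)) ^ 2 := by
      intro j _
      refine Finset.sum_congr rfl fun m _ => ?_
      rw [← hYb, io_eq, inner_l2, ip_comm]
    rw [Finset.sum_congr rfl h6, h2, h5] at h1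
    linarith

end Pool.Agent.RC
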