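import Pool.Agent.RC.P1

set_option autoImplicit false

open MeasureTheory Set Real MvPolynomial

namespace Pool.Agent.RC

theorem s8_ip_lin (H : Har) (c : ∀ j, Fin (H.d j) → ℝ) (M : ℕ) {G : E3 → ℝ} (hG : Continuous G) :
    ip (fun x => ∑ j ∈ Finset.range M, ∑ m : Fin (H.d j), c j m * ev (H.Y j m) x) G =
      ∑ j ∈ Finset.range M, ∑ m : Fin (H.d j), c j m * ip (ev (H.Y j m)) G := by
  rw [ip_sum (Finset.range M) (fun j x => ∑ m : Fin (H.d j), c j m * ev (H.Y j m) x) ?_ hG]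
  · refine Finset.sum_congr rfl fun j _ => ?_
    rw [ip_sum Finset.univ (fun (m : Fin (H.d j)) x => c j m * ev (H.Y j m) x) ?_ hG]
    · refine Finset.sum_congr rfl fun m _ => ?_
      exact ip_smul _ _ _
    · intro m _
      exact continuous_const.mul (continuous_ev _)
  · intro j _
    exact continuous_finsetSum _ fun m _ => continuous_const.mul (continuous_ev _)

theorem s8_cont (H : Har) (c : ∀ j, Fin (H.d j) → ℝ) (M : ℕ) :
    Continuous (fun x => ∑ j ∈ Finset.range M, ∑ m : Fin (H.d j), c j m * ev (H.Y j m) x) :=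
  continuous_finsetSum _ fun _ _ => continuous_finsetSum _ fun _ _ =>
    continuous_const.mul (continuous_ev _)

theorem s8_ip_Y (H : Har) (c : ∀ j, Fin (H.d j) → ℝ) (M : ℕ) (j : ℕ) (hj : j ∈ Finset.range M)
    (m : Fin (H.d j)) :
    ip (fun x => ∑ j ∈ Finset.range M, ∑ m : Fin (H.d j), c j m * ev (H.Y j m) x)
      (ev (H.Y j m)) = c j m := by
  rw [s8_ip_lin H c M (continuous_ev _)]
  rw [Finset.sum_eq_single_of_mem j hj]
  · rw [Finset.sum_eq_single_of_mem m (Finset.mem_univ _)]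
    · rw [H.on1, if_pos rfl, mul_one]
    · intro m' _ hm'
      rw [H.on1, if_neg hm', mul_zero]
  · intro j' _ hj'
    refine Finset.sum_eq_zero fun m' _ => ?_
    rw [H.on2 j' j m' m hj', mul_zero]

theorem s8_sq {F P : E3 → ℝ} (hF : Continuous F) (hP : Continuous P) :
    ip (fun x => F x - P x) (fun x => F x - P x) = ip F F - 2 * ip F P + ip P P := by
  have h1 : ip (fun x => F x - P x) (fun x => F x - P x) =
      (ip F F + -2 * ip F P) + ip P P := by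
    unfold ip
    have i1 := int_ip hF hF
    have i2 := (int_ip hF hP).const_mul (-2)
    have i3 := int_ip hP hP
    rw [← integral_const_mul, ← integral_add i1 i2,
      ← integral_add (f := fun ω : S2 => F ω * F ω + -2 * (F ω * P ω)) (i1.add i2) i3]
    refine integral_congr_ae (Filter.Eventually.of_forall fun x => ?_)
    simp only
    ring
  rw [h1]
  ring

/-- the rotation field as a linear map -/
noncomputable def s8R (k : Fin 3) : MP →ₗ[ℝ] MP :=
  (LinearMap.mulLeft ℝ (X (k + 1) : MP)) ∘ₗ (pderiv (R := ℝ) (k + 2)).toLinearMap -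
    (LinearMap.mulLeft ℝ (X (k + 2) : MP)) ∘ₗ (pderiv (R := ℝ) (k + 1)).toLinearMap

/-- `Lam` as a linear map -/
noncomputable def s8L : MP →ₗ[ℝ] MP := -∑ k : Fin 3, s8R k ∘ₗ s8R k

theorem s8R_apply (k : Fin 3) (p : MP) : s8R k p = Rp k p := rfl

theorem s8L_apply (p : MP) : s8L p = Lam p := by
  unfold s8L Lam
  rw [LinearMap.neg_apply, LinearMap.sum_apply]
  rfl

theorem s8_ev_sum {ι : Type*} (s : Finset ι) (q : ι → MP) (x : E3) :
    ev (∑ i ∈ s, q i) x = ∑ i ∈ s, ev (q i) x := by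
  unfold ev
  exact map_sum _ _ _

theorem s8_ev_smul (c : ℝ) (q : MP) (x : E3) : ev (c • q) x = c * ev q x := by
  unfold ev
  rw [MvPolynomial.smul_eval]

/-- the polynomial with the coefficients `c` -/
noncomputable def s8p (H : Har) (c : ∀ j, Fin (H.d j) → ℝ) (M : ℕ) : MP :=
  ∑ j ∈ Finset.range M, ∑ m : Fin (H.d j), c j m • H.Y j m

theorem s8p_ev (H : Har) (c : ∀ j, Fin (H.d j) → ℝ) (M : ℕ) :
    ev (s8p H c M) = fun x => ∑ j ∈ Finset.range M, ∑ m : Fin (H.d j), c j m * ev (H.Y j m) x := by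
  funext x
  unfold s8p
  rw [s8_ev_sum]
  refine Finset.sum_congr rfl fun j _ => ?_
  rw [s8_ev_sum]
  refine Finset.sum_congr rfl fun m _ => ?_
  exact s8_ev_smul _ _ _

theorem s8p_Lam (H : Har) (c : ∀ j, Fin (H.d j) → ℝ) (M : ℕ) (F : E3 → ℝ) (hF : Continuous F) :
    ip F (ev (Lam (s8p H c M))) =
      ∑ j ∈ Finset.range M, ∑ m : Fin (H.d j),
        c j m * (((j : ℝ) * (j + 1)) * ip F (ev (H.Y j m))) := by
  have h1 : ev (Lam (s8p H c M)) =
      fun x => ∑ j ∈ Finset.range M, ∑ m : Fin (H.d j), c j m * ev (Lam (H.Y j m)) x := by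
    funext x
    rw [← s8L_apply]
    unfold s8p
    rw [map_sum, s8_ev_sum]
    refine Finset.sum_congr rfl fun j _ => ?_
    rw [map_sum, s8_ev_sum]
    refine Finset.sum_congr rfl fun m _ => ?_
    rw [map_smul, s8_ev_smul, s8L_apply]
  rw [h1, ip_comm]
  rw [ip_sum (Finset.range M) (fun j x => ∑ m : Fin (H.d j), c j m * ev (Lam (H.Y j m)) x) ?_ hF]
  · refine Finset.sum_congr rfl fun j _ => ?_
    rw [ip_sum Finset.univ (fun (m : Fin (H.d j)) x => c j m * ev (Lam (H.Y j m)) x) ?_ hF]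
    · refine Finset.sum_congr rfl fun m _ => ?_
      rw [ip_smul, ip_comm, H.eig j m F hF]
    · intro m _
      exact continuous_const.mul (continuous_ev _)
  · intro j _
    exact continuous_finsetSum _ fun m _ => continuous_const.mul (continuous_ev _)

theorem s8_Lk_cont (k : Fin 3) {F : E3 → ℝ} (hF : ContDiff ℝ 1 F) : Continuous (Lk k F) := by
  have h1 : Continuous (fderiv ℝ F) := hF.continuous_fderiv one_ne_zero
  have h2 : Continuous (Rv k) := by
    unfold Rv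
    fun_prop
  unfold Lk
  exact h1.clm_apply h2


/-- [RC-S8] Bessel's inequality. PROOF. Expand
`0 ≤ ip (F - ∑ c Y) (F - ∑ c Y)` with `c = ip F Y`, using `on1`, `on2`. -/
theorem s8_bessel (H : Har) (F : E3 → ℝ) (hF : Continuous F) (L : ℕ) :
    ∑ j ∈ Finset.range L, ∑ m : Fin (H.d j), ip F (ev (H.Y j m)) ^ 2 ≤ ip F F := by
  have hc := s8_cont H (fun j m => ip F (ev (H.Y j m))) L
  have h0 := ip_self_nonneg (fun x => F x -
    ∑ j ∈ Finset.range L, ∑ m : Fin (H.d j), ip F (ev (H.Y j m)) * ev (H.Y j m) x)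
  rw [s8_sq hF hc] at h0
  have h1 : ip F (fun x => ∑ j ∈ Finset.range L, ∑ m : Fin (H.d j),
      ip F (ev (H.Y j m)) * ev (H.Y j m) x) =
      ∑ j ∈ Finset.range L, ∑ m : Fin (H.d j), ip F (ev (H.Y j m)) ^ 2 := by
    rw [ip_comm, s8_ip_lin H (fun j m => ip F (ev (H.Y j m))) L hF]
    refine Finset.sum_congr rfl fun j _ => Finset.sum_congr rfl fun m _ => ?_
    rw [ip_comm (ev (H.Y j m)) F, pow_two]
  have h2 : ip (fun x => ∑ j ∈ Finset.range L, ∑ m : Fin (H.d j),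
      ip F (ev (H.Y j m)) * ev (H.Y j m) x) (fun x => ∑ j ∈ Finset.range L, ∑ m : Fin (H.d j),
      ip F (ev (H.Y j m)) * ev (H.Y j m) x) =
      ∑ j ∈ Finset.range L, ∑ m : Fin (H.d j), ip F (ev (H.Y j m)) ^ 2 := by
    rw [s8_ip_lin H (fun j m => ip F (ev (H.Y j m))) L hc]
    refine Finset.sum_congr rfl fun j hj => Finset.sum_congr rfl fun m _ => ?_
    rw [ip_comm (ev (H.Y j m)), s8_ip_Y H (fun j m => ip F (ev (H.Y j m))) L j hj m, pow_two]
  rw [h1, h2] at h0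
  linarith

/-- [RC-S8] PROOF. Let `c_{jm} = ip F (ev (Y j m))`, `p = ∑_{j<M,m} c_{jm} Y_{jm}` (a polynomial). Then
`0 ≤ ∑_k ip (Lk k (F - ev p)) (Lk k (F - ev p)) = ∑_k ip (Lk k F)(Lk k F) - 2 ip F (ev (Lam p)) + ip (ev p) (ev (Lam p))`
(`p1_Lam`), and by `eig` (linearity of `Lam`) `ip F (ev (Lam p)) = ∑ j(j+1) c_{jm}²`,
`ip (ev p) (ev (Lam p)) = ∑ c_{jm} j(j+1) ip (ev p) (ev Y_{jm}) = ∑ j(j+1) c_{jm}²` (`on1`, `on2`). -/
theorem s8_partial (H : Har) (F : E3 → ℝ) (hF : ContDiff ℝ 1 F) (M : ℕ) :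
    ∑ j ∈ Finset.range M, ∑ m : Fin (H.d j), ((j : ℝ) * (j + 1)) * ip F (ev (H.Y j m)) ^ 2 ≤
      ∑ k : Fin 3, ip (Lk k F) (Lk k F) := by
  have hP : ContDiff ℝ 1 (ev (s8p H (fun j m => ip F (ev (H.Y j m))) M)) :=
    (p1_contDiff _).of_le (by exact_mod_cast le_top)
  have h0 : 0 ≤ ∑ k : Fin 3, ip (fun x => Lk k F x - Lk k (ev (s8p H (fun j m => ip F (ev (H.Y j m))) M)) x)
      (fun x => Lk k F x - Lk k (ev (s8p H (fun j m => ip F (ev (H.Y j m))) M)) x) :=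
    Finset.sum_nonneg fun k _ => ip_self_nonneg _
  have h1 : ∀ k : Fin 3, ip (fun x => Lk k F x - Lk k (ev (s8p H (fun j m => ip F (ev (H.Y j m))) M)) x)
      (fun x => Lk k F x - Lk k (ev (s8p H (fun j m => ip F (ev (H.Y j m))) M)) x) =
      ip (Lk k F) (Lk k F) -
        2 * ip (Lk k F) (Lk k (ev (s8p H (fun j m => ip F (ev (H.Y j m))) M))) +
        ip (Lk k (ev (s8p H (fun j m => ip F (ev (H.Y j m))) M)))
          (Lk k (ev (s8p H (fun j m => ip F (ev (H.Y j m))) M))) := fun k =>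
    s8_sq (s8_Lk_cont k hF) (s8_Lk_cont k hP)
  rw [Finset.sum_congr rfl fun k _ => h1 k, Finset.sum_add_distrib, Finset.sum_sub_distrib,
    ← Finset.mul_sum, ← p1_Lam F hF, ← p1_Lam _ hP,
    s8p_Lam H _ M F hF.continuous, s8p_Lam H _ M _ (continuous_ev _)] at h0
  have h2 : ∑ j ∈ Finset.range M, ∑ m : Fin (H.d j), ip F (ev (H.Y j m)) *
      (((j : ℝ) * (j + 1)) * ip (ev (s8p H (fun j m => ip F (ev (H.Y j m))) M)) (ev (H.Y j m))) =
      ∑ j ∈ Finset.range M, ∑ m : Fin (H.d j), ((j : ℝ) * (j + 1)) * ip F (ev (H.Y j m)) ^ 2 := by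
    refine Finset.sum_congr rfl fun j hj => Finset.sum_congr rfl fun m _ => ?_
    rw [s8p_ev, s8_ip_Y H (fun j m => ip F (ev (H.Y j m))) M j hj m]
    ring
  have h3 : ∑ j ∈ Finset.range M, ∑ m : Fin (H.d j), ip F (ev (H.Y j m)) *
      (((j : ℝ) * (j + 1)) * ip F (ev (H.Y j m))) =
      ∑ j ∈ Finset.range M, ∑ m : Fin (H.d j), ((j : ℝ) * (j + 1)) * ip F (ev (H.Y j m)) ^ 2 := by
    refine Finset.sum_congr rfl fun j hj => Finset.sum_congr rfl fun m _ => ?_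
    ring
  rw [h2, h3] at h0
  linarith

/-- [RC-S8] The spectral inequality on the sphere.
PROOF. By `s8_partial` for `M ≥ L`, `∑ ip (Lk k F)² ≥ ∑_{j<L} j(j+1) c² + L(L+1) ∑_{L≤j<M} c²`
(`j(j+1) ≥ L(L+1)`), and `∑_{j<M} c² ≥ ip F F - ε` for large `M` (`cpl`). Let `ε → 0`. -/
theorem s8_spec (H : Har) (F : E3 → ℝ) (hF : ContDiff ℝ 1 F) (L : ℕ) :
    ∑ j ∈ Finset.range L, ∑ m : Fin (H.d j), ((j : ℝ) * (j + 1)) * ip F (ev (H.Y j m)) ^ 2 +
      ((L : ℝ) * (L + 1)) *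
        (ip F F - ∑ j ∈ Finset.range L, ∑ m : Fin (H.d j), ip F (ev (H.Y j m)) ^ 2) ≤
      ∑ k : Fin 3, ip (Lk k F) (Lk k F) := by
  refine le_of_forall_pos_le_add fun ε hε => ?_
  have hL : (0 : ℝ) ≤ (L : ℝ) * (L + 1) := by positivity
  obtain ⟨M0, hM0⟩ := H.cpl F hF.continuous (ε / ((L : ℝ) * (L + 1) + 1)) (by positivity)
  have hML : L ≤ max L M0 := le_max_left _ _
  have h1 := hM0 (max L M0) (le_max_right _ _)
  have h2 := s8_partial H F hF (max L M0)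
  have h3 : ((L : ℝ) * (L + 1)) * (ε / ((L : ℝ) * (L + 1) + 1)) ≤ ε := by
    rw [mul_div_assoc', div_le_iff₀ (by positivity)]
    nlinarith
  rw [Finset.range_eq_Ico] at h1 h2
  rw [← Finset.sum_Ico_consecutive _ (Nat.zero_le L) hML] at h1 h2
  rw [← Finset.range_eq_Ico] at h1 h2
  have h4 : ((L : ℝ) * (L + 1)) *
      ∑ j ∈ Finset.Ico L (max L M0), ∑ m : Fin (H.d j), ip F (ev (H.Y j m)) ^ 2 ≤
      ∑ j ∈ Finset.Ico L (max L M0), ∑ m : Fin (H.d j),
        ((j : ℝ) * (j + 1)) * ip F (ev (H.Y j m)) ^ 2 := by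
    rw [Finset.mul_sum]
    refine Finset.sum_le_sum fun j hj => ?_
    rw [Finset.mul_sum]
    refine Finset.sum_le_sum fun m _ => ?_
    have hj' : (L : ℝ) ≤ j := by exact_mod_cast (Finset.mem_Ico.1 hj).1
    have hj0 : (0 : ℝ) ≤ L := Nat.cast_nonneg _
    refine mul_le_mul_of_nonneg_right ?_ (sq_nonneg _)
    nlinarith
  have h5 : ((L : ℝ) * (L + 1)) * (ip F F -
      ∑ j ∈ Finset.range L, ∑ m : Fin (H.d j), ip F (ev (H.Y j m)) ^ 2) ≤
      ((L : ℝ) * (L + 1)) *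
      (∑ j ∈ Finset.Ico L (max L M0), ∑ m : Fin (H.d j), ip F (ev (H.Y j m)) ^ 2 +
        ε / ((L : ℝ) * (L + 1) + 1)) :=
    mul_le_mul_of_nonneg_left (by linarith) hL
  linarith

end Pool.Agent.RC
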