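import Pool.Agent.RC.Basic

/-!
# [RC] the sphere: definitions
-/

set_option autoImplicit false

open MeasureTheory Set Real MvPolynomial

namespace Pool.Agent.RC

/-- Euclidean three space -/
abbrev E3 : Type := EuclideanSpace ℝ (Fin 3)

/-- the unit sphere -/
abbrev S2 : Type := Metric.sphere (0 : E3) 1

/-- the surface measure of the unit sphere (total mass `4π`) -/
noncomputable def sg : Measure S2 := (volume : Measure E3).toSphere

instance : IsFiniteMeasure sg := by
  unfold sg
  infer_instance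

/-- inner product of `L²(S²)` for functions on `E3` -/
noncomputable def ip (F G : E3 → ℝ) : ℝ := ∫ ω : S2, F ω * G ω ∂sg

/-- rotation vector field number `k` at `x` (indices modulo `3`):
`(R_k x)_{k+2} = x_{k+1}`, `(R_k x)_{k+1} = -x_{k+2}`, `(R_k x)_k = 0` -/
noncomputable def Rv (k : Fin 3) (x : E3) : E3 :=
  x (k + 1) • EuclideanSpace.single (k + 2) (1 : ℝ) - x (k + 2) • EuclideanSpace.single (k + 1) (1 : ℝ)

/-- derivative along the rotation field `R_k` -/
noncomputable def Lk (k : Fin 3) (F : E3 → ℝ) (x : E3) : ℝ := fderiv ℝ F x (Rv k x)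

/-- polynomials in three variables -/
abbrev MP : Type := MvPolynomial (Fin 3) ℝ

/-- the polynomial function on `E3` -/
noncomputable def ev (p : MP) : E3 → ℝ := fun x => MvPolynomial.eval (fun i => x i) p

/-- rotation field `R_k` on polynomials -/
noncomputable def Rp (k : Fin 3) (p : MP) : MP :=
  X (k + 1) * pderiv (k + 2) p - X (k + 2) * pderiv (k + 1) p

/-- the (nonnegative) Laplacian of the sphere on polynomials -/
noncomputable def Lam (p : MP) : MP := -∑ k : Fin 3, Rp k (Rp k p)

/-- the flat Laplacian on polynomials -/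
noncomputable def lap (p : MP) : MP := ∑ i : Fin 3, pderiv i (pderiv i p)

/-- polynomials of degree `< j` -/
noncomputable def Pd (j : ℕ) : Submodule ℝ MP :=
  Submodule.span ℝ ((fun m : Fin 3 →₀ ℕ => (monomial m (1 : ℝ) : MP)) '' {m | m.degree < j})

/-- An orthonormal system of spherical harmonics: `Y j m`, `m < d j ≤ 2j+1`, polynomials whose
restrictions to the sphere are orthonormal and complete, eigenfunctions of `Lam` in the weak sense. -/
structure Har where
  /-- number of harmonics of degree `j` -/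
  d : ℕ → ℕ
  /-- the harmonics -/
  Y : ∀ j : ℕ, Fin (d j) → MP
  hd : ∀ j, d j ≤ 2 * j + 1
  on1 : ∀ (j : ℕ) (m m' : Fin (d j)), ip (ev (Y j m)) (ev (Y j m')) = if m = m' then 1 else 0
  on2 : ∀ (j j' : ℕ) (m : Fin (d j)) (m' : Fin (d j')), j ≠ j' → ip (ev (Y j m)) (ev (Y j' m')) = 0
  eig : ∀ (j : ℕ) (m : Fin (d j)) (F : E3 → ℝ), Continuous F →
    ip F (ev (Lam (Y j m))) = (j * (j + 1) : ℝ) * ip F (ev (Y j m))
  cpl : ∀ F : E3 → ℝ, Continuous F → ∀ ε > 0, ∃ M0 : ℕ, ∀ M ≥ M0,
    ip F F ≤ ∑ j ∈ Finset.range M, ∑ m : Fin (d j), ip F (ev (Y j m)) ^ 2 + ε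

/-! ### polar coordinates `x = e^s ω` -/

/-- smooth functions with compact support in `E3 \ {0}` -/
def Ann (u : E3 → ℝ) : Prop :=
  ContDiff ℝ (⊤ : ℕ∞) u ∧ HasCompactSupport u ∧ ∃ ε > 0, ∀ x : E3, ‖x‖ < ε → u x = 0

/-- `v(s, x) = e^{s/2} u(e^s x)` -/
noncomputable def vv (u : E3 → ℝ) (s : ℝ) : E3 → ℝ := fun x => exp (s / 2) * u (exp s • x)

/-- `∂_s v(s, x)` -/
noncomputable def vd (u : E3 → ℝ) (s : ℝ) : E3 → ℝ := fun x =>
  exp (s / 2) * (u (exp s • x) / 2 + fderiv ℝ u (exp s • x) (exp s • x))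

/-- the coefficient function `s ↦ ∫ v(s, ω) Y(ω) dω` -/
noncomputable def cf (u Y : E3 → ℝ) (s : ℝ) : ℝ := ip (vv u s) Y

/-- the one-dimensional potential `w(s) = e^{2s} U(e^s)` of `W(x) = U(|x|)` -/
noncomputable def wU (U : ℝ → ℝ) (s : ℝ) : ℝ := exp (2 * s) * U (exp s)

/-! ### elementary facts -/

theorem continuous_ev (p : MP) : Continuous (ev p) := by
  unfold ev
  exact (MvPolynomial.continuous_eval p).comp (by fun_prop)

theorem int_sg {F : E3 → ℝ} (hF : Continuous F) : Integrable (fun ω : S2 => F ω) sg := by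
  have h1 : Continuous (fun ω : S2 => F ω) := hF.comp continuous_subtype_val
  exact h1.integrable_of_hasCompactSupport (HasCompactSupport.of_compactSpace _)

theorem int_ip {F G : E3 → ℝ} (hF : Continuous F) (hG : Continuous G) :
    Integrable (fun ω : S2 => F ω * G ω) sg := int_sg (hF.mul hG)

theorem ip_comm (F G : E3 → ℝ) : ip F G = ip G F := by
  unfold ip
  refine integral_congr_ae (Filter.Eventually.of_forall fun x => ?_)
  simp only
  ring

theorem ip_add {F F' G : E3 → ℝ} (hF : Continuous F) (hF' : Continuous F') (hG : Continuous G) :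
    ip (fun x => F x + F' x) G = ip F G + ip F' G := by
  unfold ip
  rw [← integral_add (int_ip hF hG) (int_ip hF' hG)]
  refine integral_congr_ae (Filter.Eventually.of_forall fun x => ?_)
  simp only
  ring

theorem ip_smul (c : ℝ) (F G : E3 → ℝ) : ip (fun x => c * F x) G = c * ip F G := by
  unfold ip
  rw [← integral_const_mul]
  refine integral_congr_ae (Filter.Eventually.of_forall fun x => ?_)
  simp only
  ring

theorem ip_sum {ι : Type*} (s : Finset ι) (F : ι → E3 → ℝ) (hF : ∀ i ∈ s, Continuous (F i))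
    {G : E3 → ℝ} (hG : Continuous G) :
    ip (fun x => ∑ i ∈ s, F i x) G = ∑ i ∈ s, ip (F i) G := by
  unfold ip
  rw [← integral_finsetSum s fun i hi => int_ip (hF i hi) hG]
  refine integral_congr_ae (Filter.Eventually.of_forall fun x => ?_)
  simp only [Finset.sum_mul]

theorem ip_self_nonneg (F : E3 → ℝ) : 0 ≤ ip F F :=
  integral_nonneg fun _ => mul_self_nonneg _

end Pool.Agent.RC
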