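import Pool.Agent.RC.Sph

set_option autoImplicit false

open MeasureTheory Set Real

namespace Pool.Agent.RC

theorem t1_prod (f : E3 → ℝ) (hf : Integrable f) :
    Integrable (fun r : Ioi (0 : ℝ) => ∫ ω : S2, f (r.1 • (ω : E3)) ∂sg)
      (Measure.volumeIoiPow 2) ∧
    ∫ x, f x = ∫ r : Ioi (0 : ℝ), (∫ ω : S2, f (r.1 • (ω : E3)) ∂sg)
      ∂(Measure.volumeIoiPow 2) := by
  have hd : Module.finrank ℝ E3 - 1 = 2 := by simp
  have hmp := (volume : Measure E3).measurePreserving_homeomorphUnitSphereProd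
  rw [hd] at hmp
  have hemb := (homeomorphUnitSphereProd E3).measurableEmbedding
  have hcomp : (fun x : ({0}ᶜ : Set E3) => f x.1) =
      (fun p : S2 × Ioi (0 : ℝ) => f (p.2.1 • (p.1 : E3))) ∘ (homeomorphUnitSphereProd E3) := by
    ext x
    have h1 := (homeomorphUnitSphereProd E3).symm_apply_apply x
    have h2 := congrArg Subtype.val h1
    simp only [Function.comp]
    rw [homeomorphUnitSphereProd_symm_apply_coe] at h2
    rw [h2]
  have h0 : Integrable (fun x : ({0}ᶜ : Set E3) => f x.1) ((volume : Measure E3).comap (↑)) := by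
    have h1 : IntegrableOn f ({0}ᶜ : Set E3) := hf.integrableOn
    rwa [integrableOn_iff_comap_subtypeVal (measurableSet_singleton _).compl] at h1
  have h3 : Integrable (fun p : S2 × Ioi (0 : ℝ) => f (p.2.1 • (p.1 : E3)))
      (sg.prod (Measure.volumeIoiPow 2)) := by
    rw [hcomp] at h0
    exact (hmp.integrable_comp_emb hemb).1 h0
  refine ⟨h3.integral_prod_right, ?_⟩
  have h4 : ∫ x, f x = ∫ x : ({0}ᶜ : Set E3), f x.1 ∂((volume : Measure E3).comap (↑)) := by
    rw [integral_subtype_comap (measurableSet_singleton _).compl f, restrict_compl_singleton]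
  rw [h4, hcomp]
  have h5 := hmp.integral_comp hemb
    (fun p : S2 × Ioi (0 : ℝ) => f (p.2.1 • (p.1 : E3)))
  have h6 := integral_prod_symm (fun p : S2 × Ioi (0 : ℝ) => f (p.2.1 • (p.1 : E3))) h3
  exact h5.trans h6

theorem t1_Ioi (h : ℝ → ℝ) (hh : Integrable (fun r : Ioi (0 : ℝ) => h r.1)
      (Measure.volumeIoiPow 2)) :
    IntegrableOn (fun r : ℝ => r ^ 2 * h r) (Ioi 0) ∧
    ∫ r : Ioi (0 : ℝ), h r.1 ∂(Measure.volumeIoiPow 2) = ∫ r in Ioi (0 : ℝ), r ^ 2 * h r := by
  constructor
  · rw [integrableOn_iff_comap_subtypeVal measurableSet_Ioi]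
    unfold Measure.volumeIoiPow at hh
    rw [integrable_withDensity_iff_integrable_smul'] at hh
    · refine hh.congr (Filter.Eventually.of_forall ?_)
      rintro ⟨x, hx⟩
      have hx' : 0 ≤ x ^ 2 := by positivity
      simp [ENNReal.toReal_ofReal hx']
    · fun_prop
    · simp
  · simp only [Measure.volumeIoiPow, ENNReal.ofReal]
    rw [integral_withDensity_eq_integral_smul,
      integral_subtype_comap measurableSet_Ioi fun a ↦ Real.toNNReal (a ^ 2) • h a]
    · refine setIntegral_congr_fun measurableSet_Ioi fun x hx => ?_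
      rw [NNReal.smul_def, Real.coe_toNNReal _ (pow_nonneg (le_of_lt hx) _)]
      rfl
    · exact (measurable_subtype_coe.pow_const _).real_toNNReal

theorem t1_exp (h : ℝ → ℝ) (hh : IntegrableOn (fun r : ℝ => r ^ 2 * h r) (Ioi 0)) :
    Integrable (fun s : ℝ => exp (3 * s) * h (exp s)) ∧
    ∫ r in Ioi (0 : ℝ), r ^ 2 * h r = ∫ s : ℝ, exp (3 * s) * h (exp s) := by
  have hd : ∀ x ∈ (univ : Set ℝ), HasDerivWithinAt exp (exp x) univ x := fun x _ =>
    (Real.hasDerivAt_exp x).hasDerivWithinAt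
  have hi : InjOn exp (univ : Set ℝ) := Real.exp_injective.injOn
  have himg : exp '' (univ : Set ℝ) = Ioi 0 := by
    rw [image_univ, Real.range_exp]
  have hfun : ∀ s : ℝ, |exp s| • (exp s ^ 2 * h (exp s)) = exp (3 * s) * h (exp s) := by
    intro s
    have h1 : exp (3 * s) = exp s * exp s ^ 2 := by
      have h2 : 3 * s = s + (s + s) := by ring
      rw [h2, Real.exp_add, Real.exp_add]
      ring
    rw [abs_of_pos (Real.exp_pos s), smul_eq_mul, h1]
    ring
  constructor
  · rw [← himg] at hh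
    have h2 := (integrableOn_image_iff_integrableOn_abs_deriv_smul MeasurableSet.univ hd hi
      (fun r : ℝ => r ^ 2 * h r)).1 hh
    rw [integrableOn_univ] at h2
    exact h2.congr (Filter.Eventually.of_forall hfun)
  · rw [← himg, integral_image_eq_integral_abs_deriv_smul MeasurableSet.univ hd hi
      (fun r : ℝ => r ^ 2 * h r), Measure.restrict_univ]
    exact integral_congr_ae (Filter.Eventually.of_forall hfun)

/-- [RC-T1] Polar coordinates `x = e^s ω`, with integrability.
PROOF. `Measure.measurePreserving_homeomorphUnitSphereProd` (`dim - 1 = 2`) gives, as in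
`integral_fun_norm_addHaar`, `∫ f = ∫ over S2 × Ioi 0 of f (r ω)` with the measure `sg × r² dr` (remove the origin, a null set;
`volumeIoiPow`, `integral_withDensity_eq_integral_smul`). Fubini (`integral_prod`, `integral_prod_symm`):
`= ∫_{r>0} r² ∫_ω f (r ω)`. Substitution `r = e^s` (`integral_comp_smul_deriv`-type:
`MeasureTheory.integral_image_eq_integral_abs_deriv_smul` with `exp` from `univ` onto `Ioi 0`, or
`integrableOn_image_iff_integrableOn_abs_deriv_smul`): `= ∫_s e^s e^{2s} ∫_ω f (e^s ω)`. -/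
theorem t1_polar (f : E3 → ℝ) (hf : Integrable f) :
    Integrable (fun s : ℝ => exp (3 * s) * ∫ ω : S2, f (exp s • (ω : E3)) ∂sg) ∧
    ∫ x, f x = ∫ s : ℝ, exp (3 * s) * ∫ ω : S2, f (exp s • (ω : E3)) ∂sg := by
  obtain ⟨h1, h2⟩ := t1_prod f hf
  obtain ⟨h3, h4⟩ := t1_Ioi (fun r => ∫ ω : S2, f (r • (ω : E3)) ∂sg) h1
  obtain ⟨h5, h6⟩ := t1_exp (fun r => ∫ ω : S2, f (r • (ω : E3)) ∂sg) h3
  exact ⟨h5, h2.trans (h4.trans h6)⟩

/-- [RC-T1] the total mass: `Measure.toSphere_apply_univ`, `dim = 3`, `volume_ball_fin_three`. -/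
theorem t1_mass : (sg univ).toReal = 4 * π := by
  unfold sg
  rw [Measure.toSphere_apply_univ, ENNReal.toReal_mul]
  have h1 : Module.finrank ℝ E3 = 3 := by simp
  rw [h1, EuclideanSpace.volume_ball_fin_three]
  rw [ENNReal.toReal_mul]
  simp
  have h2 : (0 : ℝ) ≤ π * 4 / 3 := by positivity
  rw [ENNReal.toReal_ofReal h2]
  ring

/-- [RC-T1] PROOF. `f x = U (‖x‖)` in `t1_polar`: `‖e^s ω‖ = e^s`, inner integral `= U(e^s) · 4π`. -/
theorem t1_radial (U : ℝ → ℝ) (hf : Integrable (fun x : E3 => U ‖x‖)) :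
    Integrable (fun s : ℝ => exp (3 * s) * U (exp s)) ∧
    ∫ x : E3, U ‖x‖ = 4 * π * ∫ s : ℝ, exp (3 * s) * U (exp s) := by
  obtain ⟨h1, h2⟩ := t1_polar (fun x : E3 => U ‖x‖) hf
  have h3 : ∀ s : ℝ, (∫ ω : S2, (fun x : E3 => U ‖x‖) (exp s • (ω : E3)) ∂sg) =
      4 * π * U (exp s) := by
    intro s
    have h4 : ∀ ω : S2, (fun x : E3 => U ‖x‖) (exp s • (ω : E3)) = U (exp s) := by
      intro ω
      simp only
      rw [norm_smul, norm_eq_of_mem_sphere ω, mul_one, Real.norm_eq_abs,
        abs_of_pos (Real.exp_pos s)]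
    rw [integral_congr_ae (Filter.Eventually.of_forall h4), integral_const, smul_eq_mul]
    have h5 : sg.real univ = 4 * π := t1_mass
    rw [h5]
  have hpi : (4 * π : ℝ) ≠ 0 := by positivity
  simp only [h3] at h1 h2
  constructor
  · have h6 := h1.const_mul (4 * π)⁻¹
    refine h6.congr (Filter.Eventually.of_forall fun s => ?_)
    simp only
    field_simp
  · rw [h2, ← integral_const_mul]
    refine integral_congr_ae (Filter.Eventually.of_forall fun s => ?_)
    simp only
    ring

end Pool.Agent.RC
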