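import Pool.Agent.RC.T8

set_option autoImplicit false

open MeasureTheory Set Real Filter Topology

namespace Pool.Agent.RC

/-- truncated profile -/
noncomputable def Uk (U : ℝ → ℝ) (k : ℕ) (r : ℝ) : ℝ :=
  if 1 / ((k : ℝ) + 1) ≤ r ∧ r ≤ k + 1 then min (U r) k else 0

/-- [RC-T9] properties of the truncation. The last: `wU (Uk U k) s = e^{2s} min (U(e^s)) k` for
`e^s ∈ [1/(k+1), k+1]`, else `0`: measurable, between `0` and `(k+1)² k`, compact support. -/
theorem t9_Uk (U : ℝ → ℝ) (hU : Measurable U) (h0 : ∀ r, 0 ≤ U r) (k : ℕ) :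
    Measurable (Uk U k) ∧ (∀ r, 0 ≤ Uk U k r) ∧ (∀ r, Uk U k r ≤ k) ∧ (∀ r, Uk U k r ≤ U r) ∧
      Pot (wU (Uk U k)) := by
  have hk : (0 : ℝ) ≤ k := Nat.cast_nonneg k
  have hk1 : (0 : ℝ) < (k : ℝ) + 1 := by positivity
  have hm : Measurable (Uk U k) := by
    unfold Uk
    refine Measurable.ite ?_ (hU.min measurable_const) measurable_const
    exact (measurableSet_Ici (a := 1 / ((k : ℝ) + 1))).inter (measurableSet_Iic (a := (k : ℝ) + 1))
  have hn : ∀ r, 0 ≤ Uk U k r := by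
    intro r
    unfold Uk
    split_ifs
    · exact le_min (h0 r) hk
    · exact le_rfl
  have hle : ∀ r, Uk U k r ≤ k := by
    intro r
    unfold Uk
    split_ifs
    · exact min_le_right _ _
    · exact hk
  have hleU : ∀ r, Uk U k r ≤ U r := by
    intro r
    unfold Uk
    split_ifs
    · exact min_le_left _ _
    · exact h0 r
  refine ⟨hm, hn, hle, hleU, ?_, ?_, ⟨((k : ℝ) + 1) ^ 2 * k, ?_⟩, ?_⟩
  · unfold wU
    exact (measurable_exp.comp (measurable_id.const_mul 2)).mul (hm.comp measurable_exp)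
  · intro s
    exact mul_nonneg (exp_pos _).le (hn _)
  · intro s
    unfold wU
    by_cases h : 1 / ((k : ℝ) + 1) ≤ exp s ∧ exp s ≤ k + 1
    · have e : exp (2 * s) = exp s ^ 2 := by rw [← exp_nat_mul]; norm_num
      rw [e]
      exact mul_le_mul (pow_le_pow_left₀ (exp_pos s).le h.2 2) (hle _) (hn _) (by positivity)
    · have : Uk U k (exp s) = 0 := by unfold Uk; rw [if_neg h]
      rw [this, mul_zero]
      positivity
  · refine HasCompactSupport.intro (isCompact_Icc (a := -Real.log ((k : ℝ) + 1))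
      (b := Real.log ((k : ℝ) + 1))) fun s hs => ?_
    have hU0 : Uk U k (exp s) = 0 := by
      unfold Uk
      rw [if_neg]
      rintro ⟨h1, h2⟩
      apply hs
      refine ⟨?_, ?_⟩
      · have h3 := Real.log_le_log (by positivity) h1
        rw [Real.log_exp, one_div, Real.log_inv] at h3
        exact h3
      · rw [Real.le_log_iff_exp_le hk1]
        exact h2
    unfold wU
    rw [hU0, mul_zero]

/-- [RC-T9] PROOF. `W = U ‖x‖`, `W ≤ 1 + W^{3/2}`, `f g` bounded with compact support. -/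
theorem t9_int (U : ℝ → ℝ) (hU : Measurable U) (h0 : ∀ r, 0 ≤ U r)
    (hi : Integrable (fun x : E3 => U ‖x‖ ^ (3 / 2 : ℝ))) (f g : E3 → ℝ) (hf : Continuous f)
    (hfc : HasCompactSupport f) (hg : Continuous g) :
    Integrable (fun x : E3 => U ‖x‖ * (f x * g x)) := by
  have hc : Continuous fun x => f x * g x := hf.mul hg
  have hcc : HasCompactSupport fun x => f x * g x := hfc.mul_right
  obtain ⟨C, hC⟩ := hcc.exists_bound_of_continuous hc
  have hi1 : Integrable fun x => f x * g x := hc.integrable_of_hasCompactSupport hcc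
  have hW : ∀ t : ℝ, 0 ≤ t → t ≤ 1 + t ^ (3 / 2 : ℝ) := by
    intro t ht
    rcases le_total t 1 with h | h
    · have : 0 ≤ t ^ (3 / 2 : ℝ) := rpow_nonneg ht _
      linarith
    · have h2 : t ^ (1 : ℝ) ≤ t ^ (3 / 2 : ℝ) := rpow_le_rpow_of_exponent_le h (by norm_num)
      rw [rpow_one] at h2
      linarith
  refine Integrable.mono' (hi1.norm.add (hi.const_mul C)) ?_ (Eventually.of_forall fun x => ?_)
  · exact ((hU.comp measurable_norm).mul hc.measurable).aestronglyMeasurable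
  · show ‖U ‖x‖ * (f x * g x)‖ ≤ ‖f x * g x‖ + C * U ‖x‖ ^ (3 / 2 : ℝ)
    rw [norm_mul, Real.norm_of_nonneg (h0 _)]
    have h1 := hW (U ‖x‖) (h0 _)
    have h2 := hC x
    have h3 : 0 ≤ U ‖x‖ ^ (3 / 2 : ℝ) := rpow_nonneg (h0 _) _
    calc U ‖x‖ * ‖f x * g x‖ ≤ (1 + U ‖x‖ ^ (3 / 2 : ℝ)) * ‖f x * g x‖ :=
          mul_le_mul_of_nonneg_right h1 (norm_nonneg _)
      _ = ‖f x * g x‖ + U ‖x‖ ^ (3 / 2 : ℝ) * ‖f x * g x‖ := by ring
      _ ≤ ‖f x * g x‖ + U ‖x‖ ^ (3 / 2 : ℝ) * C := by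
          have := mul_le_mul_of_nonneg_left h2 h3
          linarith
      _ = _ := by ring

/-- [RC-T9] PROOF. Dominated convergence with the bound `U ‖x‖ |f g|` (`t9_int`): for `x ≠ 0`, `Uk U k ‖x‖ → U ‖x‖` (it is
eventually constant) and `χ k x = 1` eventually; `{0}` is a null set. -/
theorem t9_conv (U : ℝ → ℝ) (hU : Measurable U) (h0 : ∀ r, 0 ≤ U r)
    (hi : Integrable (fun x : E3 => U ‖x‖ ^ (3 / 2 : ℝ))) (χ : ℕ → E3 → ℝ) (hχ : Cut χ)
    (f g : E3 → ℝ) (hf : Continuous f) (hfc : HasCompactSupport f) (hg : Continuous g) :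
    Tendsto (fun k => ∫ x : E3, Uk U k ‖x‖ * ((χ k x * f x) * (χ k x * g x))) atTop
      (𝓝 (∫ x : E3, U ‖x‖ * (f x * g x))) := by
  obtain ⟨hχ1, hχ2, -, hχ4, -⟩ := hχ
  have hint := t9_int U hU h0 hi f g hf hfc hg
  refine tendsto_integral_of_dominated_convergence (fun x => ‖U ‖x‖ * (f x * g x)‖) ?_ hint.norm ?_ ?_
  · intro k
    have hk := (t9_Uk U hU h0 k).1
    have hc := (hχ1 k).continuous
    exact ((hk.comp measurable_norm).mul ((hc.mul hf).mul (hc.mul hg)).measurable).aestronglyMeasurable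
  · intro k
    obtain ⟨-, k2, -, k4, -⟩ := t9_Uk U hU h0 k
    refine Eventually.of_forall fun x => ?_
    show ‖Uk U k ‖x‖ * ((χ k x * f x) * (χ k x * g x))‖ ≤ ‖U ‖x‖ * (f x * g x)‖
    obtain ⟨c0, c1⟩ := hχ2 k x
    have e : (χ k x * f x) * (χ k x * g x) = (χ k x * χ k x) * (f x * g x) := by ring
    rw [e, norm_mul, norm_mul, norm_mul (U ‖x‖), Real.norm_of_nonneg (k2 _),
      Real.norm_of_nonneg (h0 _), Real.norm_of_nonneg (mul_nonneg c0 c0)]
    have h1 : χ k x * χ k x ≤ 1 := mul_le_one₀ c1 c0 c1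
    have h2 : χ k x * χ k x * ‖f x * g x‖ ≤ ‖f x * g x‖ := by
      have := mul_le_mul_of_nonneg_right h1 (norm_nonneg (f x * g x))
      rwa [one_mul] at this
    exact mul_le_mul (k4 _) h2 (mul_nonneg (mul_nonneg c0 c0) (norm_nonneg _)) (h0 _)
  · have hne : ∀ᵐ x : E3, x ≠ 0 := by
      rw [ae_iff]
      have : {a : E3 | ¬ a ≠ 0} = {0} := by
        ext a
        simp
      rw [this]
      exact measure_singleton _
    filter_upwards [hne] with x hx
    have hx0 : 0 < ‖x‖ := norm_pos_iff.2 hx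
    obtain ⟨N1, hN1⟩ := exists_nat_ge ‖x‖
    obtain ⟨N2, hN2⟩ := exists_nat_ge (U ‖x‖)
    obtain ⟨N3, hN3⟩ := exists_nat_ge (2 / ‖x‖)
    refine Tendsto.congr' ?_ tendsto_const_nhds
    filter_upwards [eventually_ge_atTop N1, eventually_ge_atTop N2, eventually_ge_atTop N3]
      with k k1 k2 k3
    have c1 : (N1 : ℝ) ≤ k := Nat.cast_le.2 k1
    have c2 : (N2 : ℝ) ≤ k := Nat.cast_le.2 k2
    have c3 : (N3 : ℝ) ≤ k := Nat.cast_le.2 k3
    have hk1 : (0 : ℝ) < (k : ℝ) + 1 := by positivity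
    have h2 : 2 / ((k : ℝ) + 1) ≤ ‖x‖ := by
      rw [div_le_iff₀ hk1]
      have h5 : 2 / ‖x‖ ≤ (k : ℝ) + 1 := by linarith
      rw [div_le_iff₀ hx0] at h5
      linarith
    have h1 : 1 / ((k : ℝ) + 1) ≤ ‖x‖ := by
      refine le_trans ?_ h2
      gcongr
      norm_num
    have h3 : ‖x‖ ≤ (k : ℝ) + 1 := by linarith
    have e1 : Uk U k ‖x‖ = U ‖x‖ := by
      unfold Uk
      rw [if_pos ⟨h1, h3⟩, min_eq_left (by linarith)]
    rw [e1, hχ4 k x h2, one_mul, one_mul]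

end Pool.Agent.RC
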