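import Pool.Agent.RC.T7
import Pool.Agent.RC.T9

set_option autoImplicit false

open MeasureTheory Set Real Filter Topology

namespace Pool.Agent.RC

/-- [RC-T10] `(3π)^{-3/2} Γ(3)/Γ(3/2) = 4/(3√3π²)` (`Γ 3 = 2`, `Γ (3/2) = √π/2`: `Real.Gamma_nat_eq_factorial`,
`Real.Gamma_one_half_eq`, `Real.Gamma_add_one`). -/
theorem t10_const : (3 * π) ^ (-(3 / 2 : ℝ)) * Real.Gamma 3 / Real.Gamma (3 / 2) =
    4 / (3 * √3 * π ^ 2) := by
  have hpi := Real.pi_pos
  have h1 : Real.Gamma 3 = 2 := by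
    rw [show (3 : ℝ) = ((2 : ℕ) : ℝ) + 1 by norm_num, Real.Gamma_nat_eq_factorial]
    norm_num
  have h2 : Real.Gamma (3 / 2) = √π / 2 := by
    have h := Real.Gamma_add_one (s := 1 / 2) (by norm_num)
    rw [Real.Gamma_one_half_eq] at h
    have e : (1 / 2 + 1 : ℝ) = 3 / 2 := by norm_num
    rw [e] at h
    rw [h]
    ring
  have h3 : (3 * π) ^ (-(3 / 2 : ℝ)) = (3 * π * (√3 * √π))⁻¹ := by
    rw [Real.rpow_neg (by positivity)]
    congr 1
    have e : (3 / 2 : ℝ) = 1 + 1 / 2 := by norm_num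
    rw [e, Real.rpow_add (by positivity), Real.rpow_one, ← Real.sqrt_eq_rpow,
      Real.sqrt_mul (by norm_num)]
  rw [h1, h2, h3]
  have hs : √π * √π = π := Real.mul_self_sqrt hpi.le
  have h3p : (0 : ℝ) < √3 := Real.sqrt_pos.2 (by norm_num)
  have hsp : (0 : ℝ) < √π := Real.sqrt_pos.2 hpi
  field_simp
  nlinarith [hs]

/-- The quadratic form of a family. -/
theorem t10_form (V : ℝ → ℝ) (hV : Measurable V) (h0 : ∀ r, 0 ≤ V r)
    (hi : Integrable (fun x : E3 => V ‖x‖ ^ (3 / 2 : ℝ))) {n : ℕ} (u : Fin n → E3 → ℝ)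
    (hu : ∀ i, ContDiff ℝ (⊤ : ℕ∞) (u i) ∧ HasCompactSupport (u i)) (c : Fin n → ℝ) :
    ∫ x : E3, (‖fderiv ℝ (fun y => ∑ i, c i * u i y) x‖ ^ 2 -
        V ‖x‖ * (∑ i, c i * u i x) ^ 2) =
      ∑ i, ∑ j, c i * c j * (kin (u i) (u j) - ∫ x : E3, V ‖x‖ * (u i x * u j x)) := by
  obtain ⟨hq1, hq2⟩ := t8_quad u hu c
  have hint : ∀ i j, Integrable (fun x : E3 => V ‖x‖ * (u i x * u j x)) := fun i j =>
    t9_int V hV h0 hi (u i) (u j) (hu i).1.continuous (hu i).2 (hu j).1.continuous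
  have hexp : (fun x : E3 => V ‖x‖ * (∑ i, c i * u i x) ^ 2) =
      fun x : E3 => ∑ i, ∑ j, (c i * c j) * (V ‖x‖ * (u i x * u j x)) := by
    funext x
    rw [pow_two, Finset.sum_mul_sum, Finset.mul_sum]
    refine Finset.sum_congr rfl fun i _ => ?_
    rw [Finset.mul_sum]
    refine Finset.sum_congr rfl fun j _ => ?_
    ring
  have hint2 : Integrable (fun x : E3 => V ‖x‖ * (∑ i, c i * u i x) ^ 2) := by
    rw [hexp]
    exact integrable_finsetSum _ fun i _ => integrable_finsetSum _ fun j _ =>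
      (hint i j).const_mul _
  have hval : ∫ x : E3, V ‖x‖ * (∑ i, c i * u i x) ^ 2 =
      ∑ i, ∑ j, (c i * c j) * ∫ x : E3, V ‖x‖ * (u i x * u j x) := by
    rw [hexp, integral_finsetSum _ fun i _ => integrable_finsetSum _ fun j _ =>
      (hint i j).const_mul _]
    refine Finset.sum_congr rfl fun i _ => ?_
    rw [integral_finsetSum _ fun j _ => (hint i j).const_mul _]
    refine Finset.sum_congr rfl fun j _ => ?_
    rw [integral_const_mul]
  rw [integral_sub hq1 hint2, hq2, hval, ← Finset.sum_sub_distrib]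
  refine Finset.sum_congr rfl fun i _ => ?_
  rw [← Finset.sum_sub_distrib]
  refine Finset.sum_congr rfl fun j _ => ?_
  ring

/-- [RC-T10] The sharp bound for radial potentials.
PROOF. Let `U r = W (r • single 0 1)` (measurable, `W x = U ‖x‖`). `M i j = kin (u i) (u j) - ∫ W u_i u_j`; the form at `c` is
`∑ c_i c_j M i j` (`t8_quad`, `t9_int`), so `M` is negative definite; take `ε` from `e1_stable` and `χ` from `t8_cut`. By `t8_kin`
and `t9_conv` there is `k` such that `M' i j = kin (χ_k u_i) (χ_k u_j) - ∫ Uk U k ‖x‖ (χ_k u_i)(χ_k u_j)` satisfies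
`|M' - M| ≤ ε` for all `i, j`. The functions `χ_k u_i` are in `Ann`, so `t7_ann` for `Uk U k` (`t9_Uk`) gives
`n ≤ 16/(3√3π) ∫ (wU (Uk U k))^{3/2} ds`, and `(wU U' s)^{3/2} = e^{3s} U'(e^s)^{3/2}`, so by `t1_radial`
`∫ (wU (Uk U k))^{3/2} ds = (1/4π) ∫ (Uk U k ‖x‖)^{3/2} dx ≤ (1/4π) ∫ W^{3/2}`. Constants: `t10_const`. -/
theorem t10_main : ∀ W : EuclideanSpace ℝ (Fin 3) → ℝ, Measurable W → (∀ x, 0 ≤ W x) →
    (∀ x y, ‖x‖ = ‖y‖ → W x = W y) →
    Integrable (fun x => W x ^ (3 / 2 : ℝ)) →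
    ∀ (n : ℕ) (u : Fin n → EuclideanSpace ℝ (Fin 3) → ℝ),
      (∀ i, ContDiff ℝ (⊤ : ℕ∞) (u i) ∧ HasCompactSupport (u i)) →
      (∀ c : Fin n → ℝ, c ≠ 0 →
        ∫ x, (‖fderiv ℝ (fun y => ∑ i, c i * u i y) x‖ ^ 2
              - W x * (∑ i, c i * u i x) ^ 2) < 0) →
      (n : ℝ) ≤ ((3 * π) ^ (-(3 / 2 : ℝ)) * Real.Gamma 3 / Real.Gamma (3 / 2)) *
        ∫ x, W x ^ (3 / 2 : ℝ) := by
  intro W hWm hW0 hWr hWi n u hu hneg
  -- the profile
  obtain ⟨U, hUdef⟩ : ∃ U : ℝ → ℝ, U = fun r => W (r • (EuclideanSpace.single 0 1 : E3)) := ⟨_, rfl⟩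
  have hUm : Measurable U := by
    rw [hUdef]
    exact hWm.comp (measurable_id.smul_const _)
  have hU0 : ∀ r, 0 ≤ U r := fun r => by rw [hUdef]; exact hW0 _
  have hWU : ∀ x : E3, W x = U ‖x‖ := by
    intro x
    rw [hUdef]
    refine hWr _ _ ?_
    rw [norm_smul, norm_norm]
    simp
  have hWU' : W = fun x : E3 => U ‖x‖ := funext hWU
  subst hWU'
  -- truncations
  have hiUk : ∀ k, Integrable (fun x : E3 => Uk U k ‖x‖ ^ (3 / 2 : ℝ)) := by
    intro k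
    obtain ⟨m1, m2, m3, m4, m5⟩ := t9_Uk U hUm hU0 k
    refine Integrable.mono hWi ?_ ?_
    · exact ((m1.comp measurable_norm).pow_const _).aestronglyMeasurable
    · refine Eventually.of_forall fun x => ?_
      rw [Real.norm_of_nonneg (Real.rpow_nonneg (m2 _) _),
        Real.norm_of_nonneg (Real.rpow_nonneg (hU0 _) _)]
      exact Real.rpow_le_rpow (m2 _) (m4 _) (by norm_num)
  -- stability
  obtain ⟨ε, hε, hst⟩ := e1_stable
    (fun i j => kin (u i) (u j) - ∫ x : E3, U ‖x‖ * (u i x * u j x)) (by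
      intro c hc
      rw [← t10_form U hUm hU0 hWi u hu c]
      exact hneg c hc)
  obtain ⟨χ, hχ⟩ := t8_cut
  have htend : ∀ i j, Tendsto (fun k => kin (fun x => χ k x * u i x) (fun x => χ k x * u j x) -
      ∫ x : E3, Uk U k ‖x‖ * ((χ k x * u i x) * (χ k x * u j x))) atTop
      (𝓝 (kin (u i) (u j) - ∫ x : E3, U ‖x‖ * (u i x * u j x))) := fun i j =>
    (t8_kin χ hχ (u i) (u j) (hu i).1 (hu i).2 (hu j).1 (hu j).2).sub
      (t9_conv U hUm hU0 hWi χ hχ (u i) (u j) (hu i).1.continuous (hu i).2 (hu j).1.continuous)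
  have hev : ∀ᶠ k in atTop, ∀ i j,
      |(kin (fun x => χ k x * u i x) (fun x => χ k x * u j x) -
        ∫ x : E3, Uk U k ‖x‖ * ((χ k x * u i x) * (χ k x * u j x))) -
        (kin (u i) (u j) - ∫ x : E3, U ‖x‖ * (u i x * u j x))| ≤ ε := by
    rw [eventually_all]
    intro i
    rw [eventually_all]
    intro j
    have h1 := (Metric.tendsto_atTop.1 (htend i j)) ε hε
    obtain ⟨N, hN⟩ := h1
    filter_upwards [eventually_ge_atTop N] with k hk
    have := hN k hk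
    rw [Real.dist_eq] at this
    exact this.le
  obtain ⟨k, hk⟩ := hev.exists
  obtain ⟨m1, m2, m3, m4, m5⟩ := t9_Uk U hUm hU0 k
  have hann : ∀ i, Ann (fun x => χ k x * u i x) := by
    intro i
    refine ⟨(hχ.1 k).mul (hu i).1, (hu i).2.mul_left, ?_⟩
    obtain ⟨e, he, hz⟩ := hχ.2.2.1 k
    exact ⟨e, he, fun x hx => by
      change χ k x * u i x = 0
      rw [hz x hx, zero_mul]⟩
  have hmain := t7_ann (Uk U k) m1 m2 k m3 m5 n (fun i x => χ k x * u i x) hann (by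
    intro c hc
    rw [t10_form (Uk U k) m1 m2 (hiUk k) (fun i x => χ k x * u i x)
      (fun i => ⟨(hann i).1, (hann i).2.1⟩) c]
    exact hst _ hk c hc)
  -- the integral
  have hpow : ∀ s, wU (Uk U k) s ^ (3 / 2 : ℝ) = exp (3 * s) * (Uk U k (exp s)) ^ (3 / 2 : ℝ) := by
    intro s
    unfold wU
    rw [Real.mul_rpow (exp_pos _).le (m2 _), ← Real.exp_mul]
    congr 2
    ring
  have hrad := t1_radial (fun r => Uk U k r ^ (3 / 2 : ℝ)) (hiUk k)
  have hle : ∫ x : E3, Uk U k ‖x‖ ^ (3 / 2 : ℝ) ≤ ∫ x : E3, U ‖x‖ ^ (3 / 2 : ℝ) :=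
    integral_mono (hiUk k) hWi fun x => Real.rpow_le_rpow (m2 _) (m4 _) (by norm_num)
  have hint : ∫ s, wU (Uk U k) s ^ (3 / 2 : ℝ) =
      (4 * π)⁻¹ * ∫ x : E3, Uk U k ‖x‖ ^ (3 / 2 : ℝ) := by
    rw [hrad.2]
    simp_rw [hpow]
    have : (4 * π : ℝ) ≠ 0 := by positivity
    field_simp
  rw [hint] at hmain
  rw [t10_const]
  have hs3 : (0 : ℝ) < √3 := Real.sqrt_pos.2 (by norm_num)
  calc (n : ℝ) ≤ 16 / (3 * √3 * π) * ((4 * π)⁻¹ * ∫ x : E3, Uk U k ‖x‖ ^ (3 / 2 : ℝ)) := hmain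
    _ = 4 / (3 * √3 * π ^ 2) * ∫ x : E3, Uk U k ‖x‖ ^ (3 / 2 : ℝ) := by
        have := Real.pi_pos
        field_simp
        ring
    _ ≤ 4 / (3 * √3 * π ^ 2) * ∫ x : E3, U ‖x‖ ^ (3 / 2 : ℝ) := by
        refine mul_le_mul_of_nonneg_left hle ?_
        positivity

end Pool.Agent.RC
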