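import Pool.Agent.RC.Sph

set_option autoImplicit false

open MeasureTheory Set Real

namespace Pool.Agent.RC

theorem t2_Rv_apply (L : E3 →L[ℝ] ℝ) (k : Fin 3) (x : E3) :
    L (Rv k x) = x (k + 1) * L (EuclideanSpace.single (k + 2) (1 : ℝ)) -
      x (k + 2) * L (EuclideanSpace.single (k + 1) (1 : ℝ)) := by
  unfold Rv
  rw [map_sub, map_smul, map_smul, smul_eq_mul, smul_eq_mul]

/-- [RC-T2] Lagrange's identity for the gradient.
PROOF. Let `g_i = fderiv ℝ u x (single i 1)`. Then `fderiv ℝ u x y = ∑ g_i y_i`, `‖fderiv ℝ u x‖² = ∑ g_i²` (operator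
norm of a functional on Euclidean space: `InnerProductSpace.toDual`, or both inequalities by Cauchy-Schwarz and evaluating
at the vector `g`), `‖x‖² = ∑ x_i²`, and
`(∑ x_i²)(∑ g_i²) = (∑ x_i g_i)² + ∑_k (x_{k+1} g_{k+2} - x_{k+2} g_{k+1})²`. -/
theorem t2_grad (u : E3 → ℝ) (x : E3) :
    ‖x‖ ^ 2 * ‖fderiv ℝ u x‖ ^ 2 = fderiv ℝ u x x ^ 2 + ∑ k : Fin 3, Lk k u x ^ 2 := by
  simp only [Lk, t2_Rv_apply]
  generalize fderiv ℝ u x = L
  obtain ⟨g, rfl⟩ := (InnerProductSpace.toDual ℝ E3).surjective L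
  have h1 : ‖(InnerProductSpace.toDual ℝ E3) g‖ = ‖g‖ := LinearIsometryEquiv.norm_map _ g
  have h2 : ∀ y : E3, (InnerProductSpace.toDual ℝ E3) g y = ∑ i, y i * g i := by
    intro y
    rw [InnerProductSpace.toDual_apply_apply, PiLp.inner_apply]
    rfl
  have h3 : ∀ i : Fin 3, (InnerProductSpace.toDual ℝ E3) g (EuclideanSpace.single i (1 : ℝ)) = g i := by
    intro i
    rw [InnerProductSpace.toDual_apply_apply, EuclideanSpace.inner_single_right]
    simp
  simp only [h3, h2]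
  rw [h1, EuclideanSpace.norm_sq_eq, EuclideanSpace.norm_sq_eq]
  simp only [Real.norm_eq_abs, sq_abs, Fin.sum_univ_three]
  have e1 : (0 : Fin 3) + 1 = 1 := rfl
  have e2 : (0 : Fin 3) + 2 = 2 := rfl
  have e3 : (1 : Fin 3) + 1 = 2 := rfl
  have e4 : (1 : Fin 3) + 2 = 0 := rfl
  have e5 : (2 : Fin 3) + 1 = 0 := rfl
  have e6 : (2 : Fin 3) + 2 = 1 := rfl
  rw [e1, e2, e3, e4, e5, e6]
  ring

theorem t2_fderiv_vv (u : E3 → ℝ) (hu : Differentiable ℝ u) (s : ℝ) (x y : E3) :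
    fderiv ℝ (vv u s) x y = exp (s / 2) * fderiv ℝ u (exp s • x) (exp s • y) := by
  have h1 : HasFDerivAt (fun x : E3 => exp s • x) (exp s • ContinuousLinearMap.id ℝ E3) x :=
    (hasFDerivAt_id x).const_smul (exp s)
  have h2 := ((hu (exp s • x)).hasFDerivAt.comp x h1).const_mul (exp (s / 2))
  have h3 : HasFDerivAt (vv u s) (exp (s / 2) • ((fderiv ℝ u (exp s • x)).comp
      (exp s • ContinuousLinearMap.id ℝ E3))) x := h2
  rw [h3.fderiv]
  simp

/-- [RC-T2] rotation derivatives commute with dilations: `Lk k (vv u s) x = e^{s/2} (Lk k u) (e^s x)`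
(chain rule for `x ↦ e^s • x`, `Rv k (c • x) = c • Rv k x`). -/
theorem t2_Lk_vv (u : E3 → ℝ) (hu : Differentiable ℝ u) (k : Fin 3) (s : ℝ) (x : E3) :
    Lk k (vv u s) x = exp (s / 2) * Lk k u (exp s • x) := by
  unfold Lk
  rw [t2_fderiv_vv u hu]
  have h : exp s • Rv k x = Rv k (exp s • x) := by
    unfold Rv
    simp only [PiLp.smul_apply, smul_eq_mul, smul_sub, smul_smul]
  rw [h]

/-- [RC-T2] the functions `vv u s`, `vd u s` are smooth on `E3`. -/
theorem t2_contDiff (u : E3 → ℝ) (hu : ContDiff ℝ (⊤ : ℕ∞) u) (s : ℝ) :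
    ContDiff ℝ (⊤ : ℕ∞) (vv u s) ∧ ContDiff ℝ (⊤ : ℕ∞) (vd u s) := by
  have h0 : ContDiff ℝ (⊤ : ℕ∞) (fun x : E3 => exp s • x) := contDiff_id.const_smul (exp s)
  have h1 : ContDiff ℝ (⊤ : ℕ∞) (fun x : E3 => u (exp s • x)) := hu.comp h0
  refine ⟨contDiff_const.mul h1, ?_⟩
  have h2 : ContDiff ℝ (⊤ : ℕ∞) (fderiv ℝ u) := hu.fderiv_right (by simp)
  have h3 : ContDiff ℝ (⊤ : ℕ∞) (fun x : E3 => fderiv ℝ u (exp s • x) (exp s • x)) :=
    (h2.comp h0).clm_apply h0
  exact contDiff_const.mul ((h1.div_const 2).add h3)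

/-- [RC-T2] the derivative in `s`. -/
theorem t2_vv_deriv (u : E3 → ℝ) (hu : Differentiable ℝ u) (x : E3) (s : ℝ) :
    HasDerivAt (fun r => vv u r x) (vd u s x) s := by
  have h1 : HasDerivAt (fun r : ℝ => exp r • x) (exp s • x) s := (Real.hasDerivAt_exp s).smul_const x
  have h2 : HasDerivAt (fun r : ℝ => u (exp r • x)) (fderiv ℝ u (exp s • x) (exp s • x)) s :=
    (hu (exp s • x)).hasFDerivAt.comp_hasDerivAt s h1
  have h3 : HasDerivAt (fun r : ℝ => exp (r / 2)) (exp (s / 2) * (1 / 2)) s :=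
    ((hasDerivAt_id s).div_const 2).exp
  have h4 := h3.mul h2
  refine h4.congr_deriv ?_
  unfold vd
  ring

/-- [RC-T2] support in `s`: there is `R` with `vv u s ω = 0` and `vd u s ω = 0` for all `ω` in the unit sphere and
`|s| ≥ R` (`u` and `fderiv ℝ u` vanish near `0` and outside a ball). -/
theorem t2_supp (u : E3 → ℝ) (hu : Ann u) : ∃ R > 0, ∀ s : ℝ, R ≤ |s| → ∀ ω : E3, ‖ω‖ = 1 →
    vv u s ω = 0 ∧ vd u s ω = 0 ∧ ∀ k, Lk k (vv u s) ω = 0 := by
  obtain ⟨hu1, hu2, ε, hε, hu3⟩ := hu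
  have hdiff : Differentiable ℝ u := hu1.differentiable (by simp)
  obtain ⟨B, hB⟩ := hu2.isCompact.isBounded.exists_norm_le
  have hu4 : ∀ x : E3, B < ‖x‖ → u x = 0 := by
    intro x hx
    by_contra h
    exact absurd (hB x (subset_tsupport u h)) (not_le.2 hx)
  -- both vanish at the points with extreme norms
  have key : ∀ y : E3, (‖y‖ < ε ∨ B < ‖y‖) → u y = 0 ∧ fderiv ℝ u y = 0 := by
    intro y hy
    have hev : u =ᶠ[nhds y] fun _ => (0 : ℝ) := by
      rcases hy with hy | hy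
      · have ho : IsOpen {z : E3 | ‖z‖ < ε} := isOpen_lt continuous_norm continuous_const
        exact Filter.mem_of_superset (ho.mem_nhds hy) fun z hz => hu3 z hz
      · have ho : IsOpen {z : E3 | B < ‖z‖} := isOpen_lt continuous_const continuous_norm
        exact Filter.mem_of_superset (ho.mem_nhds hy) fun z hz => hu4 z hz
    refine ⟨hev.self_of_nhds, ?_⟩
    rw [hev.fderiv_eq]
    simp
  refine ⟨|B| + |Real.log ε| + 1, by positivity, fun s hs ω hω => ?_⟩
  have hn : ‖exp s • ω‖ = exp s := by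
    rw [norm_smul, hω, mul_one, Real.norm_of_nonneg (exp_pos s).le]
  have hy : ‖exp s • ω‖ < ε ∨ B < ‖exp s • ω‖ := by
    rw [hn]
    rcases le_or_gt 0 s with h | h
    · right
      rw [abs_of_nonneg h] at hs
      have h1 := Real.add_one_le_exp s
      have h2 := le_abs_self B
      have h3 := abs_nonneg (Real.log ε)
      linarith
    · left
      rw [abs_of_neg h] at hs
      have h1 := neg_abs_le (Real.log ε)
      have h3 := abs_nonneg B
      rw [← Real.exp_log hε]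
      exact Real.exp_lt_exp.2 (by linarith)
  obtain ⟨k1, k2⟩ := key _ hy
  refine ⟨?_, ?_, fun k => ?_⟩
  · unfold vv
    rw [k1, mul_zero]
  · unfold vd
    rw [k1, k2]
    simp
  · rw [t2_Lk_vv u hdiff]
    unfold Lk
    rw [k2]
    simp

end Pool.Agent.RC
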