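import Pool.Agent.RC.T2

set_option autoImplicit false

open MeasureTheory Set Real

namespace Pool.Agent.RC

/-- [RC-T3] Continuity in the parameter of integrals over the sphere.
PROOF. `continuous_of_dominated`-type argument, or `Continuous` of `s ↦ ∫ ω, F (s, ω)` for jointly continuous `F` on
`ℝ × S2`, `S2` compact (`continuous_parametric_integral_of_continuous`, `ContinuousOn.integral...`). -/
theorem t3_cont (F : ℝ → E3 → ℝ) (hF : Continuous (fun p : ℝ × E3 => F p.1 p.2)) :
    Continuous (fun s => ∫ ω : S2, F s (ω : E3) ∂sg) := by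
  have h1 : Continuous (fun p : ℝ × S2 => F p.1 (p.2 : E3)) :=
    hF.comp (continuous_fst.prodMk (continuous_subtype_val.comp continuous_snd))
  have h2 := continuous_parametric_integral_of_continuous (μ := sg) (f := fun (s : ℝ) (ω : S2) => F s (ω : E3)) h1 isCompact_univ
  simpa using h2

/-- joint continuity -/
theorem t3_vv (u : E3 → ℝ) (hu : Ann u) :
    Continuous (fun p : ℝ × E3 => vv u p.1 p.2) ∧ Continuous (fun p : ℝ × E3 => vd u p.1 p.2) := by
  have hc : Continuous u := hu.1.continuous
  have hd : Continuous (fderiv ℝ u) := hu.1.continuous_fderiv (by simp)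
  constructor
  · unfold vv
    fun_prop
  · unfold vd
    have h1 : Continuous (fun p : ℝ × E3 => exp p.1 • p.2) := by fun_prop
    have h2 : Continuous (fun p : ℝ × E3 => fderiv ℝ u (exp p.1 • p.2) (exp p.1 • p.2)) :=
      (hd.comp h1).clm_apply h1
    have h3 : Continuous (fun p : ℝ × E3 => u (exp p.1 • p.2)) := hc.comp h1
    fun_prop

/-- differentiation under the integral over the sphere -/
theorem t3_deriv (F F' : ℝ → E3 → ℝ) (hF : Continuous (fun p : ℝ × E3 => F p.1 p.2))
    (hF' : Continuous (fun p : ℝ × E3 => F' p.1 p.2))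
    (hd : ∀ x s, HasDerivAt (fun r => F r x) (F' s x) s) (s : ℝ) :
    HasDerivAt (fun r => ∫ ω : S2, F r (ω : E3) ∂sg) (∫ ω : S2, F' s (ω : E3) ∂sg) s := by
  have hcont : Continuous (fun p : ℝ × S2 => F' p.1 (p.2 : E3)) :=
    hF'.comp (continuous_fst.prodMk (continuous_subtype_val.comp continuous_snd))
  have hK : IsCompact (Metric.closedBall s 1 ×ˢ (univ : Set S2)) :=
    (isCompact_closedBall s 1).prod isCompact_univ
  obtain ⟨C, hC⟩ := (hK.image hcont).isBounded.exists_norm_le
  have hb : ∀ r ∈ Metric.ball s 1, ∀ ω : S2, ‖F' r (ω : E3)‖ ≤ C := by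
    intro r hr ω
    exact hC _ ⟨(r, ω), ⟨Metric.ball_subset_closedBall hr, mem_univ _⟩, rfl⟩
  have hcF : ∀ r, Continuous (fun x : E3 => F r x) := fun r =>
    hF.comp (continuous_const.prodMk continuous_id)
  have hcF' : ∀ r, Continuous (fun x : E3 => F' r x) := fun r =>
    hF'.comp (continuous_const.prodMk continuous_id)
  refine (hasDerivAt_integral_of_dominated_loc_of_deriv_le (μ := sg)
    (F := fun (r : ℝ) (ω : S2) => F r (ω : E3)) (F' := fun (r : ℝ) (ω : S2) => F' r (ω : E3))
    (x₀ := s) (s := Metric.ball s 1) (bound := fun _ => C) (Metric.ball_mem_nhds s one_pos)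
    ?_ ?_ ?_ ?_ ?_ ?_).2
  · exact Filter.Eventually.of_forall fun r => (int_sg (hcF r)).aestronglyMeasurable
  · exact int_sg (hcF s)
  · exact (int_sg (hcF' s)).aestronglyMeasurable
  · exact Filter.Eventually.of_forall fun ω r hr => hb r hr ω
  · exact integrable_const C
  · exact Filter.Eventually.of_forall fun ω r _ => hd ω r

theorem t3_compact {f : ℝ → ℝ} {R : ℝ} (h : ∀ s, R ≤ |s| → f s = 0) : HasCompactSupport f := by
  refine HasCompactSupport.intro (isCompact_closedBall (0 : ℝ) R) fun x hx => ?_
  refine h x ?_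
  rw [Metric.mem_closedBall, dist_zero_right, Real.norm_eq_abs, not_le] at hx
  exact hx.le

/-- [RC-T3] The coefficient functions are test functions.
PROOF. Differentiation under the integral (`hasDerivAt_integral_of_dominated_loc_of_deriv_le`): the integrand
`vv u s ω * Y ω` has `s`-derivative `vd u s ω * Y ω` (`t2_vv_deriv`), jointly continuous in `(s, ω)`, hence bounded on
compact sets. The derivative `s ↦ ip (vd u s) Y` is continuous (`t3_cont`), so `cf u Y` is `C¹`
(`contDiff_one_iff_deriv`); compact support by `t2_supp`. -/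
theorem t3_tst (u Y : E3 → ℝ) (hu : Ann u) (hY : Continuous Y) :
    Tst (cf u Y) ∧ ∀ s, HasDerivAt (cf u Y) (ip (vd u s) Y) s := by
  obtain ⟨hvv, hvd⟩ := t3_vv u hu
  have hYc : Continuous (fun p : ℝ × E3 => Y p.2) := hY.comp continuous_snd
  have hD : ∀ s, HasDerivAt (cf u Y) (ip (vd u s) Y) s := by
    intro s
    refine t3_deriv (fun s x => vv u s x * Y x) (fun s x => vd u s x * Y x)
      (hvv.mul hYc) (hvd.mul hYc) ?_ s
    intro x s
    exact (t2_vv_deriv u (hu.1.differentiable (by simp)) x s).mul_const (Y x)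
  refine ⟨⟨?_, ?_⟩, hD⟩
  · rw [contDiff_one_iff_deriv]
    refine ⟨fun s => (hD s).differentiableAt, ?_⟩
    have h1 : deriv (cf u Y) = fun s => ip (vd u s) Y := funext fun s => (hD s).deriv
    rw [h1]
    exact t3_cont (fun s x => vd u s x * Y x) (hvd.mul hYc)
  · obtain ⟨R, hR, h⟩ := t2_supp u hu
    refine t3_compact (R := R) fun s hs => ?_
    unfold cf ip
    have h2 : ∀ ω : S2, vv u s (ω : E3) * Y ω = 0 := fun ω => by
      rw [(h s hs ω (norm_eq_of_mem_sphere ω)).1, zero_mul]
    simp [h2]

/-- [RC-T3] PROOF. `s ↦ ip (vv u s) (vv u s)` has derivative `2 ip (vv u s) (vd u s)` (differentiation under the integral as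
before) and compact support; the integral of the derivative of a `C¹` function with compact support is `0`. -/
theorem t3_zero (u : E3 → ℝ) (hu : Ann u) : ∫ s, ip (vv u s) (vd u s) = 0 := by
  obtain ⟨hvv, hvd⟩ := t3_vv u hu
  obtain ⟨R, hR, h⟩ := t2_supp u hu
  have hD : ∀ s, HasDerivAt (fun s => ip (vv u s) (vv u s)) (2 * ip (vv u s) (vd u s)) s := by
    intro s
    have h1 := t3_deriv (fun s x => vv u s x * vv u s x) (fun s x => 2 * (vv u s x * vd u s x))
      (hvv.mul hvv) ((hvv.mul hvd).const_mul 2) (fun x s => by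
        have h2 := t2_vv_deriv u (hu.1.differentiable (by simp)) x s
        refine (h2.mul h2).congr_deriv ?_
        ring) s
    refine h1.congr_deriv ?_
    rw [integral_const_mul]
    rfl
  have hcont : Continuous (fun s => 2 * ip (vv u s) (vd u s)) :=
    (t3_cont (fun s x => vv u s x * vd u s x) (hvv.mul hvd)).const_mul 2
  have hz : ∀ s, R ≤ |s| → ip (vv u s) (vd u s) = 0 := by
    intro s hs
    unfold ip
    have h2 : ∀ ω : S2, vv u s (ω : E3) * vd u s (ω : E3) = 0 := fun ω => by
      rw [(h s hs ω (norm_eq_of_mem_sphere ω)).1, zero_mul]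
    simp [h2]
  have hz' : ∀ s, R ≤ |s| → ip (vv u s) (vv u s) = 0 := by
    intro s hs
    unfold ip
    have h2 : ∀ ω : S2, vv u s (ω : E3) * vv u s (ω : E3) = 0 := fun ω => by
      rw [(h s hs ω (norm_eq_of_mem_sphere ω)).1, zero_mul]
    simp [h2]
  have hcs : HasCompactSupport (fun s => 2 * ip (vv u s) (vd u s)) :=
    t3_compact (R := R) fun s hs => by rw [hz s hs, mul_zero]
  have hcs' : HasCompactSupport (fun s => ip (vv u s) (vv u s)) := t3_compact (R := R) hz'
  have hint : Integrable (fun s => 2 * ip (vv u s) (vd u s)) :=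
    hcont.integrable_of_hasCompactSupport hcs
  have htop : Filter.Tendsto (fun s => ip (vv u s) (vv u s)) Filter.atTop (nhds 0) := by
    refine tendsto_const_nhds.congr' ?_
    filter_upwards [Filter.eventually_ge_atTop R] with s hs
    exact (hz' s (hs.trans (le_abs_self s))).symm
  have hbot : Filter.Tendsto (fun s => ip (vv u s) (vv u s)) Filter.atBot (nhds 0) := by
    refine tendsto_const_nhds.congr' ?_
    filter_upwards [Filter.eventually_le_atBot (-R)] with s hs
    exact (hz' s ((le_neg_of_le_neg hs).trans (neg_le_abs s))).symm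
  have h5 := integral_of_hasDerivAt_of_tendsto hD hint hbot htop
  rw [sub_zero, integral_const_mul] at h5
  linarith

end Pool.Agent.RC
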