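import Pool.Agent.RC.T1
import Pool.Agent.RC.T3

set_option autoImplicit false

open MeasureTheory Set Real

namespace Pool.Agent.RC

theorem t4_cont_Rv (k : Fin 3) : Continuous (Rv k) := by
  unfold Rv
  fun_prop

theorem t4_cont_Lk (k : Fin 3) {F : E3 → ℝ} (hF : ContDiff ℝ (⊤ : ℕ∞) F) : Continuous (Lk k F) := by
  unfold Lk
  have h1 : Continuous (fderiv ℝ F) := hF.continuous_fderiv (by simp)
  exact h1.clm_apply (t4_cont_Rv k)

theorem t4_cont_vv (u : E3 → ℝ) (hu : Continuous u) :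
    Continuous (fun p : ℝ × E3 => vv u p.1 p.2) := by
  unfold vv
  have h1 : Continuous (fun p : ℝ × E3 => exp p.1 • p.2) := by fun_prop
  exact (by fun_prop : Continuous (fun p : ℝ × E3 => exp (p.1 / 2))).mul (hu.comp h1)

theorem t4_cont_vd (u : E3 → ℝ) (hu : ContDiff ℝ (⊤ : ℕ∞) u) :
    Continuous (fun p : ℝ × E3 => vd u p.1 p.2) := by
  unfold vd
  have h1 : Continuous (fun p : ℝ × E3 => exp p.1 • p.2) := by fun_prop
  have h2 : Continuous (fderiv ℝ u) := hu.continuous_fderiv (by simp)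
  have h3 : Continuous (fun p : ℝ × E3 => fderiv ℝ u (exp p.1 • p.2) (exp p.1 • p.2)) :=
    (h2.comp h1).clm_apply h1
  exact (by fun_prop : Continuous (fun p : ℝ × E3 => exp (p.1 / 2))).mul
    (((hu.continuous.comp h1).div_const 2).add h3)

theorem t4_cont_LkV (u : E3 → ℝ) (hu : ContDiff ℝ (⊤ : ℕ∞) u) (k : Fin 3) :
    Continuous (fun p : ℝ × E3 => Lk k (vv u p.1) p.2) := by
  have h1 : Continuous (fun p : ℝ × E3 => exp p.1 • p.2) := by fun_prop
  have h2 : (fun p : ℝ × E3 => Lk k (vv u p.1) p.2) =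
      fun p : ℝ × E3 => exp (p.1 / 2) * Lk k u (exp p.1 • p.2) := by
    ext p
    exact t2_Lk_vv u (hu.differentiable (by simp)) k p.1 p.2
  rw [h2]
  exact (by fun_prop : Continuous (fun p : ℝ × E3 => exp (p.1 / 2))).mul
    ((t4_cont_Lk k hu).comp h1)

/-- a function of `s` of the form `ip (F s) (G s)` -/
theorem t4_int (F G : ℝ → E3 → ℝ) (hF : Continuous (fun p : ℝ × E3 => F p.1 p.2))
    (hG : Continuous (fun p : ℝ × E3 => G p.1 p.2)) (R : ℝ)
    (h0 : ∀ s : ℝ, R ≤ |s| → ∀ ω : E3, ‖ω‖ = 1 → F s ω = 0) :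
    Continuous (fun s => ip (F s) (G s)) ∧ HasCompactSupport (fun s => ip (F s) (G s)) ∧
    Integrable (fun s => ip (F s) (G s)) := by
  have h1 : Continuous (fun s => ip (F s) (G s)) := by
    unfold ip
    exact t3_cont (fun s x => F s x * G s x) (hF.mul hG)
  have h2 : HasCompactSupport (fun s => ip (F s) (G s)) := by
    refine HasCompactSupport.intro (isCompact_Icc (a := -R) (b := R)) ?_
    intro s hs
    have h3 : R ≤ |s| := by
      by_contra hc
      apply hs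
      push Not at hc
      exact ⟨(abs_lt.1 hc).1.le, (abs_lt.1 hc).2.le⟩
    unfold ip
    rw [← integral_zero S2 ℝ (μ := sg)]
    refine integral_congr_ae (Filter.Eventually.of_forall fun ω => ?_)
    simp only
    rw [h0 s h3 ω (by simp)]
    simp
  exact ⟨h1, h2, h1.integrable_of_hasCompactSupport h2⟩

/-- pointwise identity -/
theorem t4_pt (u : E3 → ℝ) (hu : ContDiff ℝ (⊤ : ℕ∞) u) (s : ℝ) (ω : E3) (hω : ‖ω‖ = 1) :
    exp (3 * s) * ‖fderiv ℝ u (exp s • ω)‖ ^ 2 =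
      (vd u s ω * vd u s ω - vv u s ω * vd u s ω) + 1 / 4 * (vv u s ω * vv u s ω) +
      ∑ k : Fin 3, Lk k (vv u s) ω * Lk k (vv u s) ω := by
  have h1 := t2_grad u (exp s • ω)
  have h2 : ‖exp s • ω‖ = exp s := by
    rw [norm_smul, hω, mul_one, Real.norm_eq_abs, abs_of_pos (exp_pos s)]
  have h3 : ∀ k : Fin 3, Lk k (vv u s) ω = exp (s / 2) * Lk k u (exp s • ω) := fun k =>
    t2_Lk_vv u (hu.differentiable (by simp)) k s ω
  have h4 : exp s = exp (s / 2) ^ 2 := by
    rw [← exp_nat_mul]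
    congr 1
    push_cast
    ring
  have h5 : exp (3 * s) = exp s * exp s ^ 2 := by
    rw [← exp_nat_mul, ← exp_add]
    congr 1
    push_cast
    ring
  rw [h2] at h1
  have h6 : exp (3 * s) * ‖fderiv ℝ u (exp s • ω)‖ ^ 2 =
      exp s * (fderiv ℝ u (exp s • ω) (exp s • ω) ^ 2 + ∑ k : Fin 3, Lk k u (exp s • ω) ^ 2) := by
    rw [← h1, h5]
    ring
  rw [h6, mul_add, Finset.mul_sum]
  have h7 : ∑ k : Fin 3, Lk k (vv u s) ω * Lk k (vv u s) ω =
      ∑ k : Fin 3, exp s * Lk k u (exp s • ω) ^ 2 := by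
    refine Finset.sum_congr rfl fun k _ => ?_
    rw [h3 k, h4]
    ring
  rw [h7]
  congr 1
  have h8 : exp s * (fderiv ℝ u (exp s • ω) (exp s • ω)) ^ 2 =
      exp (s / 2) ^ 2 * (fderiv ℝ u (exp s • ω) (exp s • ω)) ^ 2 := by
    rw [← h4]
  rw [h8]
  unfold vd vv
  ring

/-- [RC-T4] The kinetic energy in the coordinates `(s, ω)`.
PROOF. `t1_polar` for `f x = ‖fderiv ℝ u x‖²` (continuous, compact support). For `x = e^s ω`, `‖ω‖ = 1`: `‖x‖² = e^{2s}`, so by
`t2_grad` `e^{3s} ‖fderiv u x‖² = e^s (fderiv u x x)² + ∑_k e^s (Lk k u x)² = (vd - vv/2)² + ∑_k (Lk k (vv u s) ω)²`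
(`t2_Lk_vv`, `e^{s/2}² = e^s`, `vd - vv/2 = e^{s/2} fderiv u x x`) and `(vd - vv/2)² = vd² - vd vv + vv²/4`. Integrate over `ω`
(all functions continuous on the compact sphere), then over `s`; `t3_zero` removes the middle term (all functions of `s` are
continuous (`t3_cont`) with compact support (`t2_supp`)). -/
theorem t4_kin (u : E3 → ℝ) (hu : Ann u) :
    Integrable (fun s : ℝ => ip (vd u s) (vd u s) + 1 / 4 * ip (vv u s) (vv u s) +
      ∑ k : Fin 3, ip (Lk k (vv u s)) (Lk k (vv u s))) ∧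
    ∫ x, ‖fderiv ℝ u x‖ ^ 2 = ∫ s : ℝ, (ip (vd u s) (vd u s) + 1 / 4 * ip (vv u s) (vv u s) +
      ∑ k : Fin 3, ip (Lk k (vv u s)) (Lk k (vv u s))) := by
  obtain ⟨R, hR, hsupp⟩ := t2_supp u hu
  have cvv := t4_cont_vv u hu.1.continuous
  have cvd := t4_cont_vd u hu.1
  have cL := t4_cont_LkV u hu.1
  have i1 := (t4_int (vd u) (vd u) cvd cvd R fun s hs ω hω => (hsupp s hs ω hω).2.1).2.2
  have i2 := (t4_int (vv u) (vv u) cvv cvv R fun s hs ω hω => (hsupp s hs ω hω).1).2.2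
  have i3 := (t4_int (vv u) (vd u) cvv cvd R fun s hs ω hω => (hsupp s hs ω hω).1).2.2
  have i4 : ∀ k : Fin 3, Integrable (fun s => ip (Lk k (vv u s)) (Lk k (vv u s))) := fun k =>
    (t4_int (fun s => Lk k (vv u s)) (fun s => Lk k (vv u s)) (cL k) (cL k) R
      fun s hs ω hω => (hsupp s hs ω hω).2.2 k).2.2
  have hI : Integrable (fun s : ℝ => ip (vd u s) (vd u s) + 1 / 4 * ip (vv u s) (vv u s) +
      ∑ k : Fin 3, ip (Lk k (vv u s)) (Lk k (vv u s))) :=
    (i1.add (i2.const_mul _)).add (integrable_finsetSum _ fun k _ => i4 k)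
  refine ⟨hI, ?_⟩
  have hfc : Continuous (fun x => ‖fderiv ℝ u x‖ ^ 2) :=
    (hu.1.continuous_fderiv (by simp)).norm.pow 2
  have hfs : HasCompactSupport (fun x => ‖fderiv ℝ u x‖ ^ 2) := by
    have h1 := hu.2.1.fderiv (𝕜 := ℝ)
    refine h1.comp_left (g := fun y => ‖y‖ ^ 2) (by simp)
  have hfi : Integrable (fun x => ‖fderiv ℝ u x‖ ^ 2) := hfc.integrable_of_hasCompactSupport hfs
  obtain ⟨_, hp⟩ := t1_polar _ hfi
  rw [hp]
  have key : ∀ s : ℝ, exp (3 * s) * ∫ ω : S2, ‖fderiv ℝ u (exp s • (ω : E3))‖ ^ 2 ∂sg =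
      (ip (vd u s) (vd u s) + 1 / 4 * ip (vv u s) (vv u s) +
      ∑ k : Fin 3, ip (Lk k (vv u s)) (Lk k (vv u s))) - ip (vv u s) (vd u s) := by
    intro s
    have sv : Continuous (vv u s) := (t2_contDiff u hu.1 s).1.continuous
    have sd : Continuous (vd u s) := (t2_contDiff u hu.1 s).2.continuous
    have sl : ∀ k, Continuous (Lk k (vv u s)) := fun k => t4_cont_Lk k (t2_contDiff u hu.1 s).1
    rw [← integral_const_mul]
    have e1 : ∫ ω : S2, exp (3 * s) * ‖fderiv ℝ u (exp s • (ω : E3))‖ ^ 2 ∂sg =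
        ∫ ω : S2, ((vd u s ω * vd u s ω - vv u s ω * vd u s ω) + 1 / 4 * (vv u s ω * vv u s ω) +
        ∑ k : Fin 3, Lk k (vv u s) ω * Lk k (vv u s) ω) ∂sg := by
      refine integral_congr_ae (Filter.Eventually.of_forall fun ω => ?_)
      exact t4_pt u hu.1 s ω (by simp)
    rw [e1, integral_add, integral_add, integral_sub, integral_const_mul, integral_finsetSum]
    · unfold ip
      ring
    · intro k _
      exact int_ip (sl k) (sl k)
    · exact int_ip sd sd
    · exact int_ip sv sd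
    · exact (int_ip sd sd).sub (int_ip sv sd)
    · exact (int_ip sv sv).const_mul _
    · exact ((int_ip sd sd).sub (int_ip sv sd)).add ((int_ip sv sv).const_mul _)
    · exact integrable_finsetSum _ fun k _ => int_ip (sl k) (sl k)
  have e2 : ∫ s : ℝ, exp (3 * s) * ∫ ω : S2, ‖fderiv ℝ u (exp s • (ω : E3))‖ ^ 2 ∂sg =
      ∫ s : ℝ, ((ip (vd u s) (vd u s) + 1 / 4 * ip (vv u s) (vv u s) +
      ∑ k : Fin 3, ip (Lk k (vv u s)) (Lk k (vv u s))) - ip (vv u s) (vd u s)) :=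
    integral_congr_ae (Filter.Eventually.of_forall fun s => key s)
  rw [e2, integral_sub hI i3, t3_zero u hu, sub_zero]

/-- [RC-T4] The potential energy.
PROOF. `t1_polar` for `f x = U ‖x‖ * u x ^ 2` (bounded measurable times continuous with compact support), `‖e^s ω‖ = e^s`:
`e^{3s} ∫_ω U(e^s) u(e^s ω)² = e^{2s} U(e^s) ∫_ω (e^{s/2} u(e^s ω))²`. -/
theorem t4_pot (u : E3 → ℝ) (hu : Ann u) (U : ℝ → ℝ) (hU : Measurable U) (K : ℝ)
    (hK : ∀ r, |U r| ≤ K) :
    Integrable (fun s : ℝ => wU U s * ip (vv u s) (vv u s)) ∧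
    Integrable (fun x : E3 => U ‖x‖ * u x ^ 2) ∧
    ∫ x : E3, U ‖x‖ * u x ^ 2 = ∫ s : ℝ, wU U s * ip (vv u s) (vv u s) := by
  have hfi : Integrable (fun x : E3 => U ‖x‖ * u x ^ 2) := by
    have hc : Continuous (fun x : E3 => u x ^ 2) := hu.1.continuous.pow 2
    have hs : HasCompactSupport (fun x : E3 => u x ^ 2) :=
      hu.2.1.comp_left (g := fun y : ℝ => y ^ 2) (by simp)
    have h1 : Integrable (fun x : E3 => u x ^ 2) := hc.integrable_of_hasCompactSupport hs
    refine h1.bdd_mul (c := K) (hU.comp measurable_norm).aestronglyMeasurable ?_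
    exact Filter.Eventually.of_forall fun x => by
      rw [Real.norm_eq_abs]
      exact hK ‖x‖
  obtain ⟨h1, h2⟩ := t1_polar _ hfi
  have key : ∀ s : ℝ, exp (3 * s) * ∫ ω : S2, U ‖exp s • (ω : E3)‖ * u (exp s • (ω : E3)) ^ 2 ∂sg =
      wU U s * ip (vv u s) (vv u s) := by
    intro s
    unfold wU ip
    rw [← integral_const_mul, ← integral_const_mul]
    refine integral_congr_ae (Filter.Eventually.of_forall fun ω => ?_)
    simp only
    have h3 : ‖exp s • (ω : E3)‖ = exp s := by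
      have h4 : ‖(ω : E3)‖ = 1 := by simp
      rw [norm_smul, h4, mul_one, Real.norm_eq_abs, abs_of_pos (exp_pos s)]
    have h5 : exp (3 * s) = exp (2 * s) * (exp (s / 2) * exp (s / 2)) := by
      rw [← exp_add, ← exp_add]
      congr 1
      ring
    rw [h3, h5]
    unfold vv
    ring
  refine ⟨?_, hfi, ?_⟩
  · exact h1.congr (Filter.Eventually.of_forall fun s => key s)
  · rw [h2]
    exact integral_congr_ae (Filter.Eventually.of_forall fun s => key s)

end Pool.Agent.RC
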