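import Pool.Agent.RC.T4
import Pool.Agent.RC.S8

set_option autoImplicit false

open MeasureTheory Set Real

namespace Pool.Agent.RC

theorem t5_int {w : ℝ → ℝ} (hw : Pot w) {f : ℝ → ℝ} (hf1 : Tst f) (q : ℝ) :
    Integrable (fun x => deriv f x ^ 2 + (q - w x) * f x ^ 2) := by
  refine (hf1.int_form hf1 hw q).congr (Filter.Eventually.of_forall fun x => ?_)
  simp only
  ring

/-- the pointwise inequality -/
theorem t5_point (H : Har) (u : E3 → ℝ) (hu : Ann u) (w : ℝ) (L : ℕ)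
    (hL : w ≤ 1 / 4 + (L : ℝ) * (L + 1)) (s : ℝ) :
    ∑ j ∈ Finset.range L, ∑ m : Fin (H.d j),
      (deriv (cf u (ev (H.Y j m))) s ^ 2 + (((j : ℝ) + 1 / 2) ^ 2 - w) *
        cf u (ev (H.Y j m)) s ^ 2) ≤
      ip (vd u s) (vd u s) + 1 / 4 * ip (vv u s) (vv u s) +
        ∑ k : Fin 3, ip (Lk k (vv u s)) (Lk k (vv u s)) - w * ip (vv u s) (vv u s) := by
  have hcd := t2_contDiff u hu.1 s
  have hvv1 : ContDiff ℝ 1 (vv u s) := hcd.1.of_le (by exact_mod_cast le_top)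
  have h1 := s8_bessel H (vd u s) hcd.2.continuous L
  have h2 := s8_spec H (vv u s) hvv1 L
  have h3 := s8_bessel H (vv u s) hcd.1.continuous L
  have hder : ∀ j : ℕ, ∀ m : Fin (H.d j),
      deriv (cf u (ev (H.Y j m))) s = ip (vd u s) (ev (H.Y j m)) := fun j m =>
    ((t3_tst u (ev (H.Y j m)) hu (continuous_ev _)).2 s).deriv
  have hcf : ∀ j : ℕ, ∀ m : Fin (H.d j),
      cf u (ev (H.Y j m)) s = ip (vv u s) (ev (H.Y j m)) := fun j m => rfl
  have hsplit : ∑ j ∈ Finset.range L, ∑ m : Fin (H.d j),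
      (deriv (cf u (ev (H.Y j m))) s ^ 2 + (((j : ℝ) + 1 / 2) ^ 2 - w) *
        cf u (ev (H.Y j m)) s ^ 2) =
      ∑ j ∈ Finset.range L, ∑ m : Fin (H.d j), ip (vd u s) (ev (H.Y j m)) ^ 2 +
      ∑ j ∈ Finset.range L, ∑ m : Fin (H.d j),
        ((j : ℝ) * (j + 1)) * ip (vv u s) (ev (H.Y j m)) ^ 2 +
      (1 / 4 - w) * ∑ j ∈ Finset.range L, ∑ m : Fin (H.d j),
        ip (vv u s) (ev (H.Y j m)) ^ 2 := by
    rw [Finset.mul_sum, ← Finset.sum_add_distrib, ← Finset.sum_add_distrib]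
    refine Finset.sum_congr rfl fun j _ => ?_
    rw [Finset.mul_sum, ← Finset.sum_add_distrib, ← Finset.sum_add_distrib]
    refine Finset.sum_congr rfl fun m _ => ?_
    rw [hder, hcf]
    ring
  rw [hsplit]
  have h4 := mul_nonneg (sub_nonneg.2 hL) (sub_nonneg.2 h3)
  linarith

/-- [RC-T5] The form on `E3` is bounded below by the forms of the partial waves.
PROOF. Put `w = wU U`. By `t4_kin`, `t4_pot` the right side is
`∫ (ip vd vd + (1/4 - w) ip vv vv + ∑_k ip (Lk k vv)(Lk k vv)) ds`. For fixed `s` let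
`c_{jm} = ip (vv u s) Y_{jm} = cf u Y_{jm} s`; `deriv (cf u Y_{jm}) s = ip (vd u s) Y_{jm}` (`t3_tst`).
`s8_bessel` for `vd u s`: `ip vd vd ≥ ∑ (deriv (cf u Y_{jm}) s)²`; `s8_spec` for `vv u s` (smooth, `t2_contDiff`):
`∑_k ip (Lk k vv)(Lk k vv) ≥ ∑ j(j+1) c² + L(L+1) (ip vv vv - ∑ c²)`. Since `1/4 + L(L+1) - w ≥ 0` and
`ip vv vv - ∑ c² ≥ 0` (`s8_bessel`), the integrand is `≥ ∑_{j<L,m} ((deriv cf)² + ((j+1/2)² - w) cf²)`
(`(j+1/2)² = j(j+1) + 1/4`). Integrate (`integral_mono`, each `hf` integrand is integrable: `Tst.int_form`). -/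
theorem t5_lower (H : Har) (u : E3 → ℝ) (hu : Ann u) (U : ℝ → ℝ) (hU : Measurable U)
    (h0 : ∀ r, 0 ≤ U r) (K : ℝ) (hK : ∀ r, U r ≤ K) (hw : Pot (wU U)) (L : ℕ)
    (hL : ∀ s, wU U s ≤ 1 / 4 + (L : ℝ) * (L + 1)) :
    ∑ j ∈ Finset.range L, ∑ m : Fin (H.d j),
        hf (wU U) (((j : ℝ) + 1 / 2) ^ 2) (cf u (ev (H.Y j m))) ≤
      ∫ x : E3, (‖fderiv ℝ u x‖ ^ 2 - U ‖x‖ * u x ^ 2) := by
  have hK' : ∀ r, |U r| ≤ K := fun r => by
    rw [abs_of_nonneg (h0 r)]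
    exact hK r
  obtain ⟨hk1, hk2⟩ := t4_kin u hu
  obtain ⟨hp1, hp2, hp3⟩ := t4_pot u hu U hU K hK'
  have hT : ∀ j : ℕ, ∀ m : Fin (H.d j), Tst (cf u (ev (H.Y j m))) := fun j m =>
    (t3_tst u (ev (H.Y j m)) hu (continuous_ev _)).1
  have hgrad : Integrable (fun x : E3 => ‖fderiv ℝ u x‖ ^ 2) := by
    have hd : Continuous (fderiv ℝ u) := hu.1.continuous_fderiv (by simp)
    refine (hd.norm.pow 2).integrable_of_hasCompactSupport ?_
    have h1 : HasCompactSupport (fderiv ℝ u) := hu.2.1.fderiv ℝ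
    refine h1.comp_left (g := fun T : E3 →L[ℝ] ℝ => ‖T‖ ^ 2) ?_
    simp
  rw [integral_sub hgrad hp2, hk2, hp3, ← integral_sub hk1 hp1]
  have hlhs : ∑ j ∈ Finset.range L, ∑ m : Fin (H.d j),
      hf (wU U) (((j : ℝ) + 1 / 2) ^ 2) (cf u (ev (H.Y j m))) =
      ∫ s, ∑ j ∈ Finset.range L, ∑ m : Fin (H.d j),
        (deriv (cf u (ev (H.Y j m))) s ^ 2 + (((j : ℝ) + 1 / 2) ^ 2 - wU U s) *
          cf u (ev (H.Y j m)) s ^ 2) := by
    rw [integral_finsetSum]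
    · refine Finset.sum_congr rfl fun j _ => ?_
      rw [integral_finsetSum]
      · rfl
      · exact fun m _ => t5_int hw (hT j m) _
    · exact fun j _ => integrable_finsetSum _ fun m _ => t5_int hw (hT j m) _
  rw [hlhs]
  refine integral_mono ?_ (hk1.sub hp1) fun s => ?_
  · exact integrable_finsetSum _ fun j _ => integrable_finsetSum _ fun m _ =>
      t5_int hw (hT j m) _
  · exact t5_point H u hu (wU U s) L (hL s) s

end Pool.Agent.RC
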