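import Pool.Agent.RC.Basic

set_option autoImplicit false

open MeasureTheory Set

namespace Pool.Agent.RC

theorem t6_hB_add_left (w : ℝ → ℝ) (hw : Pot w) (q : ℝ) {f g h : ℝ → ℝ} (hf1 : Tst f) (hg : Tst g)
    (hh : Tst h) : hB w q (fun x => f x + g x) h = hB w q f h + hB w q g h := by
  unfold hB
  rw [← integral_add (hf1.int_form hh hw q) (hg.int_form hh hw q)]
  refine integral_congr_ae (Filter.Eventually.of_forall fun x => ?_)
  simp only
  have h1 : deriv (fun x => f x + g x) x = deriv f x + deriv g x :=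
    deriv_fun_add (hf1.differentiable x) (hg.differentiable x)
  rw [h1]
  ring

theorem t6_hB_mul_left (w : ℝ → ℝ) (q : ℝ) {f h : ℝ → ℝ} (c : ℝ) :
    hB w q (fun x => c * f x) h = c * hB w q f h := by
  unfold hB
  rw [← integral_const_mul]
  refine integral_congr_ae (Filter.Eventually.of_forall fun x => ?_)
  simp only
  have h1 : deriv (fun x => c * f x) x = c * deriv f x := deriv_const_mul_field c
  rw [h1]
  ring

theorem t6_hB_sum_left (w : ℝ → ℝ) (hw : Pot w) (q : ℝ) {ι : Type*} (s : Finset ι)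
    (c : ι → ℝ) (v : ι → ℝ → ℝ) (hv : ∀ i, Tst (v i)) {f : ℝ → ℝ} (hf1 : Tst f) :
    hB w q (fun x => ∑ i ∈ s, c i * v i x) f = ∑ i ∈ s, c i * hB w q (v i) f := by
  classical
  induction s using Finset.induction_on with
  | empty =>
    simp only [Finset.sum_empty]
    unfold hB
    simp
  | insert a s ha ih =>
    rw [Finset.sum_insert ha, ← ih, ← t6_hB_mul_left, ← t6_hB_add_left w hw q ((hv a).const_mul (c a))
      (Tst.sum s fun i _ => (hv i).const_mul (c i)) hf1]
    congr 1
    ext x
    rw [Finset.sum_insert ha]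

/-- [RC-T6] expansion of the form of `c₀ f + lc v c`. -/
theorem t6_expand (w : ℝ → ℝ) (hw : Pot w) (q : ℝ) {n : ℕ} (v : Fin n → ℝ → ℝ)
    (hv : ∀ i, Tst (v i)) (f : ℝ → ℝ) (hf1 : Tst f) (c₀ : ℝ) (c : Fin n → ℝ) :
    hf w q (fun x => c₀ * f x + lc v c x) =
      c₀ ^ 2 * hf w q f + 2 * c₀ * (∑ i, c i * hB w q (v i) f) + hf w q (lc v c) := by
  have hl : Tst (lc v c) := Tst.lc hv c
  have hcf : Tst (fun x => c₀ * f x) := hf1.const_mul c₀
  have hadd : Tst (fun x => c₀ * f x + lc v c x) := hcf.add hl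
  have hs : hB w q (lc v c) f = ∑ i, c i * hB w q (v i) f :=
    t6_hB_sum_left w hw q Finset.univ c v hv hf1
  rw [hf_eq_hB, t6_hB_add_left w hw q hcf hl hadd, t6_hB_mul_left, hB_comm w q f,
    t6_hB_add_left w hw q hcf hl hf1, t6_hB_mul_left, hB_comm w q (lc v c) (fun x => c₀ * f x + lc v c x),
    t6_hB_add_left w hw q hcf hl hl, t6_hB_mul_left, hB_comm w q f (lc v c), hs, ← hf_eq_hB,
    ← hf_eq_hB]
  ring

/-- [RC-T6] Maximal negative families and their form-orthogonal complement.
PROOF. The empty family (`n = 0`) is negative. Let `n` be the largest size `≤ N` of a negative family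
(`Nat.findGreatest` or well-founded maximum), `v` such a family. Let `f` be a test function with `hB w q (v i) f = 0` for all
`i` and suppose `hf w q f < 0`. Then `Fin.cons f v` (size `n+1`) is a negative family: for `c = (c₀, c') ≠ 0`, by `t6_expand`
(`Fin.sum_univ_succ`) `hf (lc ..) = c₀² hf f + hf (lc v c') < 0` (`hf (lc v c') < 0` if `c' ≠ 0`, `= 0` if `c' = 0`, and then
`c₀ ≠ 0`). Contradiction with the maximality (`n + 1 ≤ N` by `hN`). -/
theorem t6_max (w : ℝ → ℝ) (hw : Pot w) (q : ℝ) (N : ℕ)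
    (hN : ∀ (n : ℕ) (v : Fin n → ℝ → ℝ), Neg w q v → n ≤ N) :
    ∃ (n : ℕ) (v : Fin n → ℝ → ℝ), Neg w q v ∧
      ∀ f, Tst f → (∀ i, hB w q (v i) f = 0) → 0 ≤ hf w q f := by
  classical
  set P : ℕ → Prop := fun n => ∃ v : Fin n → ℝ → ℝ, Neg w q v with hP
  have h0 : P 0 := by
    refine ⟨fun i => i.elim0, fun i => i.elim0, fun c hc => ?_⟩
    exact absurd (Subsingleton.elim c 0) hc
  have hG : P (Nat.findGreatest P N) := Nat.findGreatest_spec (Nat.zero_le N) h0
  obtain ⟨v, hv⟩ := hG
  refine ⟨Nat.findGreatest P N, v, hv, fun f hft hfo => ?_⟩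
  by_contra hneg
  push Not at hneg
  have hP1 : P (Nat.findGreatest P N + 1) := by
    refine ⟨Fin.cons f v, ?_, ?_⟩
    · intro i
      refine Fin.cases ?_ (fun j => ?_) i
      · simpa using hft
      · simpa using hv.1 j
    · intro c hc
      have h1 : lc (Fin.cons f v) c = fun x => c 0 * f x + lc v (fun i => c i.succ) x := by
        ext x
        simp [lc, Fin.sum_univ_succ]
      rw [h1, t6_expand w hw q v hv.1 f hft]
      have h2 : ∑ i, (fun i : Fin (Nat.findGreatest P N) => c i.succ) i * hB w q (v i) f = 0 :=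
        Finset.sum_eq_zero fun i _ => by rw [hfo i, mul_zero]
      rw [h2]
      by_cases hc' : (fun i : Fin (Nat.findGreatest P N) => c i.succ) = 0
      · have h3 : c 0 ≠ 0 := by
          intro h
          apply hc
          ext i
          refine Fin.cases ?_ (fun j => ?_) i
          · simpa using h
          · simpa using congrFun hc' j
        have h4 : hf w q (lc v (fun i => c i.succ)) = 0 := by
          rw [hc']
          have h5 : lc v (0 : Fin (Nat.findGreatest P N) → ℝ) = fun _ => 0 := by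
            ext x
            simp [lc]
          rw [h5]
          simp [hf]
        rw [h4]
        have h6 : 0 < c 0 ^ 2 := by positivity
        nlinarith [mul_pos h6 (neg_pos.2 hneg)]
      · have h3 := hv.2 _ hc'
        nlinarith [mul_nonneg (sq_nonneg (c 0)) (neg_pos.2 hneg).le]
  have h7 : Nat.findGreatest P N + 1 ≤ N := by
    obtain ⟨u, hu⟩ := hP1
    exact hN _ u hu
  have h8 := Nat.le_findGreatest h7 hP1
  omega

end Pool.Agent.RC
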