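import Pool.Agent.RC.D3
import Pool.Agent.RC.S7
import Pool.Agent.RC.T5
import Pool.Agent.RC.T6

set_option autoImplicit false

open MeasureTheory Set Real

namespace Pool.Agent.RC

/-- [RC-T7] `Ann` is closed under linear combinations, and the coefficient functions are linear. -/
theorem t7_ann_sum {n : ℕ} (u : Fin n → E3 → ℝ) (hu : ∀ i, Ann (u i)) (c : Fin n → ℝ) :
    Ann (fun y => ∑ i, c i * u i y) := by
  refine ⟨?_, ?_, ?_⟩
  · exact ContDiff.sum fun i _ => contDiff_const.mul (hu i).1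
  · refine HasCompactSupport.intro (K := ⋃ i, tsupport (u i))
      (isCompact_iUnion fun i => (hu i).2.1) ?_
    intro y hy
    refine Finset.sum_eq_zero fun i _ => ?_
    have h1 : y ∉ tsupport (u i) := fun h => hy (mem_iUnion.2 ⟨i, h⟩)
    rw [image_eq_zero_of_notMem_tsupport h1, mul_zero]
  · choose ε hε h0 using fun i => (hu i).2.2
    have h1 : ∀ᶠ δ : ℝ in nhdsWithin 0 (Ioi 0), 0 < δ ∧ ∀ i, δ < ε i := by
      refine Filter.Eventually.and self_mem_nhdsWithin ?_
      rw [Filter.eventually_all]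
      intro i
      filter_upwards [Ioo_mem_nhdsGT (hε i)] with δ hδ using hδ.2
    obtain ⟨δ, hδ, hi⟩ := h1.exists
    refine ⟨δ, hδ, fun x hx => ?_⟩
    refine Finset.sum_eq_zero fun i _ => ?_
    rw [h0 i x (hx.trans (hi i)), mul_zero]

theorem t7_cf_sum {n : ℕ} (u : Fin n → E3 → ℝ) (hu : ∀ i, Ann (u i)) (c : Fin n → ℝ) (Y : E3 → ℝ)
    (hY : Continuous Y) (s : ℝ) :
    cf (fun y => ∑ i, c i * u i y) Y s = ∑ i, c i * cf (u i) Y s := by
  unfold cf
  have h1 : vv (fun y => ∑ i, c i * u i y) s = fun x => ∑ i, (fun x => c i * vv (u i) s x) x := by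
    ext x
    unfold vv
    simp only
    rw [Finset.mul_sum]
    refine Finset.sum_congr rfl fun i _ => ?_
    ring
  have h2 : ∀ i, Continuous (vv (u i) s) := fun i => (t2_contDiff (u i) (hu i).1 s).1.continuous
  rw [h1, ip_sum Finset.univ (fun i => fun x => c i * vv (u i) s x)
    (fun i _ => continuous_const.mul (h2 i)) hY]
  refine Finset.sum_congr rfl fun i _ => ?_
  exact ip_smul (c i) (vv (u i) s) Y

/-- `hB` is linear in the second argument -/
theorem t7_hB_lin (w : ℝ → ℝ) (hw : Pot w) (q : ℝ) (f : ℝ → ℝ) (hf1 : Tst f) {n : ℕ}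
    (g : Fin n → ℝ → ℝ) (hg : ∀ i, Tst (g i)) (c : Fin n → ℝ) :
    hB w q f (fun s => ∑ i, c i * g i s) = ∑ i, c i * hB w q f (g i) := by
  unfold hB
  have h1 : ∀ x, deriv (fun s => ∑ i, c i * g i s) x = ∑ i, c i * deriv (g i) x := by
    intro x
    have h2 : HasDerivAt (fun s => ∑ i, c i * g i s) (∑ i, c i * deriv (g i) x) x :=
      HasDerivAt.fun_sum fun i _ => ((hg i).differentiable x).hasDerivAt.const_mul (c i)
    exact h2.deriv
  have h3 : ∀ x, deriv f x * deriv (fun s => ∑ i, c i * g i s) x +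
      (q - w x) * (f x * ∑ i, c i * g i x) =
      ∑ i, c i * (deriv f x * deriv (g i) x + (q - w x) * (f x * g i x)) := by
    intro x
    rw [h1 x, Finset.mul_sum, Finset.mul_sum, Finset.mul_sum, ← Finset.sum_add_distrib]
    refine Finset.sum_congr rfl fun i _ => ?_
    ring
  simp only [h3]
  rw [integral_finsetSum _ fun i _ => (hf1.int_form (hg i) hw q).const_mul (c i)]
  refine Finset.sum_congr rfl fun i _ => ?_
  rw [integral_const_mul]

/-- sizes of negative families are bounded -/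
theorem t7_bdd (w : ℝ → ℝ) (hw : Pot w) (j : ℕ) (n : ℕ) (v : Fin n → ℝ → ℝ)
    (hv : Neg w (((j : ℝ) + 1 / 2) ^ 2) v) :
    (n : ℝ) ≤ 16 / (3 * √3 * π) * ∫ x, w x ^ (3 / 2 : ℝ) := by
  classical
  let z : (n : ℕ) × (Fin n → ℝ → ℝ) := ⟨0, fun _ _ => 0⟩
  let fam : ℕ → (n : ℕ) × (Fin n → ℝ → ℝ) := fun l => if l = j then ⟨n, v⟩ else z
  have hj : fam j = ⟨n, v⟩ := if_pos rfl
  have hz : ∀ l, l ≠ j → fam l = z := fun l hl => if_neg hl
  have h1 := d3_pot w hw (j + 1) (fun l => (fam l).1) (fun l => (fam l).2) (by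
    intro l _
    by_cases h : l = j
    · subst h
      rw [hj]
      exact hv
    · rw [hz l h]
      refine ⟨fun i => i.elim0, fun c hc => ?_⟩
      exact absurd (Subsingleton.elim c 0) hc)
  refine le_trans ?_ h1
  have h2 : (2 * (j : ℝ) + 1) * ((fam j).1 : ℕ) ≤
      ∑ l ∈ Finset.range (j + 1), (2 * (l : ℝ) + 1) * ((fam l).1 : ℕ) :=
    Finset.single_le_sum (f := fun l : ℕ => (2 * (l : ℝ) + 1) * ((fam l).1 : ℕ))
      (fun l _ => by positivity) (Finset.mem_range.2 (Nat.lt_succ_self j))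
  refine le_trans ?_ h2
  rw [hj]
  simp only
  have h3 : (0 : ℝ) ≤ (n : ℝ) := Nat.cast_nonneg n
  have h4 : (0 : ℝ) ≤ (j : ℝ) := Nat.cast_nonneg j
  nlinarith [mul_nonneg h4 h3]

/-- [RC-T7] The theorem for potentials supported in an annulus.
PROOF. `H` from `s7_har`; `w = wU U` is bounded, take `L` with `w ≤ 1/4 + L(L+1)`. For every `j < L`, sizes of negative
families at level `q_j = (j+1/2)²` are bounded: `d3_pot` with `L' = j+1` and empty families at the levels `< j` gives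
`(2j+1) n ≤ c ∫ w^{3/2}`; so `t6_max` gives a family `v_j` of size `n_j`. Suppose `∑_{j<L} d_j n_j < n`. The linear map
`c ↦ (hB w q_j (v_j i) (cf u_c Y_{jm}))_{j<L, m, i}`, `u_c = ∑ c_i u_i` (linear by `t7_cf_sum` and linearity of `hB` in the second
argument on test functions, `t3_tst`) from `ℝⁿ` to `ℝ^{∑ d_j n_j}` has a nonzero kernel element `c`. Then
`hf w q_j (cf u_c Y_{jm}) ≥ 0` for all `j < L`, `m`, so by `t5_lower` the form at `u_c` is `≥ 0`, a contradiction. Hence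
`n ≤ ∑_{j<L} d_j n_j ≤ ∑_{j<L} (2j+1) n_j ≤ c ∫ w^{3/2}` by `H.hd` and `d3_pot`. -/
theorem t7_ann (U : ℝ → ℝ) (hU : Measurable U) (h0 : ∀ r, 0 ≤ U r) (K : ℝ) (hK : ∀ r, U r ≤ K)
    (hw : Pot (wU U)) (n : ℕ) (u : Fin n → E3 → ℝ) (hu : ∀ i, Ann (u i))
    (hneg : ∀ c : Fin n → ℝ, c ≠ 0 →
      ∫ x : E3, (‖fderiv ℝ (fun y => ∑ i, c i * u i y) x‖ ^ 2 -
        U ‖x‖ * (∑ i, c i * u i x) ^ 2) < 0) :
    (n : ℝ) ≤ 16 / (3 * √3 * π) * ∫ s, wU U s ^ (3 / 2 : ℝ) := by
  classical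
  obtain ⟨H⟩ := s7_har
  obtain ⟨Kw, hKw⟩ := hw.2.2.1
  obtain ⟨L, hL⟩ := exists_nat_ge Kw
  have hL' : ∀ s, wU U s ≤ 1 / 4 + (L : ℝ) * (L + 1) := by
    intro s
    have h1 := hKw s
    have h2 : (0 : ℝ) ≤ (L : ℝ) := Nat.cast_nonneg L
    nlinarith
  obtain ⟨N, hN⟩ := exists_nat_ge (16 / (3 * √3 * π) * ∫ s, wU U s ^ (3 / 2 : ℝ))
  have hmax0 := fun j : ℕ => t6_max (wU U) hw (((j : ℝ) + 1 / 2) ^ 2) N (by
    intro n' v' hv'
    have h1 := t7_bdd (wU U) hw j n' v' hv'
    exact_mod_cast h1.trans hN)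
  choose nn v hv hmax using hmax0
  have hsum := d3_pot (wU U) hw L nn v fun j _ => hv j
  refine le_trans ?_ hsum
  have hd : (∑ j ∈ Finset.range L, ((H.d j : ℕ) : ℝ) * nn j) ≤
      ∑ j ∈ Finset.range L, (2 * (j : ℝ) + 1) * nn j := by
    refine Finset.sum_le_sum fun j _ => ?_
    refine mul_le_mul_of_nonneg_right ?_ (Nat.cast_nonneg _)
    have h1 := H.hd j
    exact_mod_cast h1
  refine le_trans ?_ hd
  have goalN : n ≤ ∑ j ∈ Finset.range L, H.d j * nn j := by
    by_contra hlt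
    push Not at hlt
    -- the linear map
    let ι : Type := (j : Fin L) × (Fin (H.d j) × Fin (nn j))
    let A : Matrix ι (Fin n) ℝ := fun p k =>
      hB (wU U) ((((p.1 : ℕ) : ℝ) + 1 / 2) ^ 2) (v p.1 p.2.2) (cf (u k) (ev (H.Y p.1 p.2.1)))
    have hcard : Fintype.card ι = ∑ j ∈ Finset.range L, H.d j * nn j := by
      simp only [ι, Fintype.card_sigma, Fintype.card_prod, Fintype.card_fin]
      exact Fin.sum_univ_eq_sum_range (fun j => H.d j * nn j) L
    have hfr : Module.finrank ℝ (ι → ℝ) < Module.finrank ℝ (Fin n → ℝ) := by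
      rw [Module.finrank_fintype_fun_eq_card, Module.finrank_fintype_fun_eq_card, hcard,
        Fintype.card_fin]
      exact hlt
    have hker := LinearMap.ker_ne_bot_of_finrank_lt (f := Matrix.mulVecLin A) hfr
    obtain ⟨c, hc, hc0⟩ := Submodule.exists_mem_ne_zero_of_ne_bot hker
    rw [LinearMap.mem_ker, Matrix.mulVecLin_apply] at hc
    have hann := t7_ann_sum u hu c
    have hlow := t5_lower H (fun y => ∑ i, c i * u i y) hann U hU h0 K hK hw L hL'
    have hpos : 0 ≤ ∑ j ∈ Finset.range L, ∑ m : Fin (H.d j),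
        hf (wU U) (((j : ℝ) + 1 / 2) ^ 2) (cf (fun y => ∑ i, c i * u i y) (ev (H.Y j m))) := by
      refine Finset.sum_nonneg fun j hj => Finset.sum_nonneg fun m _ => ?_
      have hT := (t3_tst (fun y => ∑ i, c i * u i y) (ev (H.Y j m)) hann (continuous_ev _)).1
      refine hmax j _ hT ?_
      intro i
      have hj' : j < L := Finset.mem_range.1 hj
      have h1 := congrFun hc (⟨⟨j, hj'⟩, (m, i)⟩ : ι)
      have h2 : cf (fun y => ∑ i, c i * u i y) (ev (H.Y j m)) =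
          fun s => ∑ k, c k * cf (u k) (ev (H.Y j m)) s := by
        ext s
        exact t7_cf_sum u hu c (ev (H.Y j m)) (continuous_ev _) s
      rw [h2, t7_hB_lin (wU U) hw _ (v j i) ((hv j).1 i) _
        (fun k => (t3_tst (u k) (ev (H.Y j m)) (hu k) (continuous_ev _)).1) c]
      have h3 : (Matrix.mulVec A c) (⟨⟨j, hj'⟩, (m, i)⟩ : ι) =
          ∑ k, hB (wU U) (((j : ℝ) + 1 / 2) ^ 2) (v j i) (cf (u k) (ev (H.Y j m))) * c k := rfl
      rw [h3, Pi.zero_apply] at h1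
      rw [← h1]
      refine Finset.sum_congr rfl fun k _ => ?_
      ring
    have hcon := hneg c hc0
    exact absurd (hpos.trans hlow) (not_le.2 hcon)
  exact_mod_cast goalN

end Pool.Agent.RC
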