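import Pool.Agent.RC.Sph

set_option autoImplicit false

open MeasureTheory Set Real Filter Topology

namespace Pool.Agent.RC

/-- cut-off functions near the origin -/
def Cut (χ : ℕ → E3 → ℝ) : Prop :=
  (∀ k, ContDiff ℝ (⊤ : ℕ∞) (χ k)) ∧ (∀ k x, 0 ≤ χ k x ∧ χ k x ≤ 1) ∧
  (∀ k, ∃ ε > 0, ∀ x, ‖x‖ < ε → χ k x = 0) ∧
  (∀ (k : ℕ) (x : E3), 2 / ((k : ℝ) + 1) ≤ ‖x‖ → χ k x = 1) ∧
  ∃ C : ℝ, ∀ (k : ℕ) (x : E3), ‖fderiv ℝ (χ k) x‖ ≤ C * (k + 1)

/-- bilinear kinetic form -/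
noncomputable def kin (f g : E3 → ℝ) : ℝ :=
  ∫ x : E3, ∑ a : Fin 3, fderiv ℝ f x (EuclideanSpace.single a 1) *
    fderiv ℝ g x (EuclideanSpace.single a 1)

/-- [RC-T8] PROOF. `χ k x = 1 - b ((k+1) x)` for a bump function `b` (`ContDiffBump` centred at `0`, `rIn = 1`, `rOut = 2`):
`0` for `‖x‖ ≤ 1/(k+1)`, `1` for `‖x‖ ≥ 2/(k+1)`, derivative bounded by `(k+1) sup ‖fderiv b‖`. -/
theorem t8_cut : ∃ χ, Cut χ := by
  let b : ContDiffBump (0 : E3) := ⟨1, 2, one_pos, one_lt_two⟩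
  have hb : ContDiff ℝ (⊤ : ℕ∞) (b : E3 → ℝ) := b.contDiff
  have hbc : HasCompactSupport (b : E3 → ℝ) := b.hasCompactSupport
  obtain ⟨C, hC⟩ := (hb.continuous_fderiv (by simp)).bounded_above_of_compact_support (hbc.fderiv (𝕜 := ℝ))
  have hk : ∀ k : ℕ, (0 : ℝ) < (k : ℝ) + 1 := fun k => by positivity
  have hn : ∀ (k : ℕ) (x : E3), ‖((k : ℝ) + 1) • x‖ = ((k : ℝ) + 1) * ‖x‖ := fun k x => by
    rw [norm_smul, Real.norm_eq_abs, abs_of_pos (hk k)]
  refine ⟨fun k x => 1 - b (((k : ℝ) + 1) • x), ?_, ?_, ?_, ?_, ?_⟩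
  · intro k
    have h1 : ContDiff ℝ (⊤ : ℕ∞) (fun x : E3 => ((k : ℝ) + 1) • x) := contDiff_id.const_smul _
    exact contDiff_const.sub (hb.comp h1)
  · intro k x
    have h1 := b.nonneg (x := ((k : ℝ) + 1) • x)
    have h2 := b.le_one (x := ((k : ℝ) + 1) • x)
    constructor <;> simp only <;> linarith
  · intro k
    refine ⟨1 / ((k : ℝ) + 1), by have := hk k; positivity, fun x hx => ?_⟩
    have h1 : ((k : ℝ) + 1) • x ∈ Metric.closedBall (0 : E3) b.rIn := by
      rw [mem_closedBall_zero_iff, hn]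
      rw [lt_div_iff₀ (hk k)] at hx
      show _ ≤ (1 : ℝ)
      linarith
    simp only
    rw [b.one_of_mem_closedBall h1, sub_self]
  · intro k x hx
    have h1 : b.rOut ≤ dist (((k : ℝ) + 1) • x) 0 := by
      rw [dist_zero_right, hn]
      rw [div_le_iff₀ (hk k)] at hx
      show (2 : ℝ) ≤ _
      linarith
    simp only
    rw [b.zero_of_le_dist h1, sub_zero]
  · refine ⟨C, fun k x => ?_⟩
    have h1 : HasFDerivAt (fun y : E3 => ((k : ℝ) + 1) • y) (((k : ℝ) + 1) • ContinuousLinearMap.id ℝ E3) x :=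
      (hasFDerivAt_id x).const_smul ((k : ℝ) + 1)
    have h2 : HasFDerivAt (b : E3 → ℝ) (fderiv ℝ b (((k : ℝ) + 1) • x)) (((k : ℝ) + 1) • x) :=
      (hb.differentiable (by simp)).differentiableAt.hasFDerivAt
    have h3 : HasFDerivAt (fun y : E3 => 1 - b (((k : ℝ) + 1) • y))
        (-((fderiv ℝ b (((k : ℝ) + 1) • x)).comp (((k : ℝ) + 1) • ContinuousLinearMap.id ℝ E3))) x :=
      (h2.comp x h1).const_sub 1
    rw [h3.fderiv, norm_neg]
    refine (ContinuousLinearMap.opNorm_comp_le _ _).trans ?_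
    have h4 : ‖((k : ℝ) + 1) • ContinuousLinearMap.id ℝ E3‖ ≤ (k : ℝ) + 1 := by
      rw [norm_smul, Real.norm_eq_abs, abs_of_pos (hk k)]
      exact mul_le_of_le_one_right (hk k).le ContinuousLinearMap.norm_id_le
    exact mul_le_mul (hC _) h4 (norm_nonneg _) ((norm_nonneg _).trans (hC x))

theorem t8_single (a : Fin 3) : ‖(EuclideanSpace.single a (1 : ℝ) : E3)‖ = 1 := by
  simp

theorem t8_bound (χ : ℕ → E3 → ℝ) (hχ : Cut χ) (f : E3 → ℝ) (hf : ContDiff ℝ (⊤ : ℕ∞) f)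
    (hfc : HasCompactSupport f) : ∃ K : ℝ, 0 ≤ K ∧ ∀ (k : ℕ) (x : E3),
      ‖fderiv ℝ f x‖ ≤ K * (k + 1) ∧ ‖fderiv ℝ (fun x => χ k x * f x) x‖ ≤ K * (k + 1) := by
  obtain ⟨A, hA⟩ := (hf.continuous_fderiv (by simp)).bounded_above_of_compact_support (hfc.fderiv (𝕜 := ℝ))
  obtain ⟨B, hB⟩ := hf.continuous.bounded_above_of_compact_support hfc
  obtain ⟨h1, h2, h3, h4, C, hC⟩ := hχ
  have hA0 : 0 ≤ A := (norm_nonneg _).trans (hA 0)
  have hB0 : 0 ≤ B := (norm_nonneg _).trans (hB 0)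
  have hC0 : 0 ≤ C := by
    have := (norm_nonneg _).trans (hC 0 0)
    simpa using this
  refine ⟨A + B * C, by positivity, fun k x => ⟨?_, ?_⟩⟩
  · have hk : (0 : ℝ) ≤ k := Nat.cast_nonneg k
    have := hA x
    nlinarith [mul_nonneg hA0 hk, mul_nonneg (mul_nonneg hB0 hC0) hk, mul_nonneg hB0 hC0]
  · have hk : (0 : ℝ) ≤ k := Nat.cast_nonneg k
    have hd1 : DifferentiableAt ℝ (χ k) x := ((h1 k).differentiable (by simp)).differentiableAt
    have hd2 : DifferentiableAt ℝ f x := (hf.differentiable (by simp)).differentiableAt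
    have e1 : fderiv ℝ (fun x => χ k x * f x) x = χ k x • fderiv ℝ f x + f x • fderiv ℝ (χ k) x :=
      fderiv_fun_mul hd1 hd2
    rw [e1]
    refine (norm_add_le _ _).trans ?_
    rw [norm_smul, norm_smul]
    have e2 : ‖χ k x‖ ≤ 1 := by
      rw [Real.norm_eq_abs, abs_of_nonneg (h2 k x).1]
      exact (h2 k x).2
    have e3 : ‖χ k x‖ * ‖fderiv ℝ f x‖ ≤ 1 * A :=
      mul_le_mul e2 (hA x) (norm_nonneg _) zero_le_one
    have e4 : ‖f x‖ * ‖fderiv ℝ (χ k) x‖ ≤ B * (C * (k + 1)) :=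
      mul_le_mul (hB x) (hC k x) (norm_nonneg _) hB0
    nlinarith [mul_nonneg hA0 hk]

theorem t8_int (f g : E3 → ℝ) (hf : ContDiff ℝ (⊤ : ℕ∞) f) (hg : ContDiff ℝ (⊤ : ℕ∞) g)
    (hgc : HasCompactSupport g) (a : Fin 3) :
    Integrable (fun x => fderiv ℝ f x (EuclideanSpace.single a 1) * fderiv ℝ g x (EuclideanSpace.single a 1)) := by
  have h1 : Continuous fun x => fderiv ℝ f x (EuclideanSpace.single a 1) :=
    (hf.continuous_fderiv (by simp)).clm_apply continuous_const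
  have h2 : Continuous fun x => fderiv ℝ g x (EuclideanSpace.single a 1) :=
    (hg.continuous_fderiv (by simp)).clm_apply continuous_const
  have h3 : HasCompactSupport fun x => fderiv ℝ g x (EuclideanSpace.single a 1) :=
    hgc.fderiv_apply (𝕜 := ℝ) _
  exact (h1.mul h2).integrable_of_hasCompactSupport h3.mul_left

theorem t8_sumint (f g : E3 → ℝ) (hf : ContDiff ℝ (⊤ : ℕ∞) f) (hg : ContDiff ℝ (⊤ : ℕ∞) g)
    (hgc : HasCompactSupport g) :
    Integrable (fun x => ∑ a : Fin 3, fderiv ℝ f x (EuclideanSpace.single a 1) *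
      fderiv ℝ g x (EuclideanSpace.single a 1)) :=
  integrable_finsetSum _ fun a _ => t8_int f g hf hg hgc a

theorem t8_pt {F G : E3 → ℝ} {x : E3} {K L : ℝ} (hF : ‖fderiv ℝ F x‖ ≤ K) (hG : ‖fderiv ℝ G x‖ ≤ L) :
    |∑ a : Fin 3, fderiv ℝ F x (EuclideanSpace.single a 1) * fderiv ℝ G x (EuclideanSpace.single a 1)| ≤
      3 * (K * L) := by
  refine (Finset.abs_sum_le_sum_abs _ _).trans ?_
  have h1 : ∀ a : Fin 3, |fderiv ℝ F x (EuclideanSpace.single a 1) * fderiv ℝ G x (EuclideanSpace.single a 1)| ≤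
      K * L := by
    intro a
    rw [abs_mul]
    have e1 : |fderiv ℝ F x (EuclideanSpace.single a 1)| ≤ K := by
      refine ((fderiv ℝ F x).le_opNorm _).trans ?_
      rw [t8_single, mul_one]
      exact hF
    have e2 : |fderiv ℝ G x (EuclideanSpace.single a 1)| ≤ L := by
      refine ((fderiv ℝ G x).le_opNorm _).trans ?_
      rw [t8_single, mul_one]
      exact hG
    exact mul_le_mul e1 e2 (abs_nonneg _) ((abs_nonneg _).trans e1)
  refine (Finset.sum_le_sum fun a _ => h1 a).trans ?_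
  rw [Finset.sum_const, Finset.card_univ, Fintype.card_fin, nsmul_eq_mul]
  norm_num

/-- [RC-T8] Points have zero capacity: the kinetic form converges.
PROOF. Write `D_a` for the derivative in the direction `single a 1`. The integrands of `kin (χ_k f) (χ_k g)` and `kin f g`
agree where `χ_k = 1` near the point, i.e. for `‖x‖ > 2/(k+1)`; on the ball `‖x‖ ≤ 2/(k+1)`,
`|D_a (χ_k f)| ≤ |D_a f| + |f| C (k+1) ≤ C' (k+1)`, so the difference of the integrands is `≤ C'' (k+1)²` there, and the volume of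
the ball is `≤ C''' / (k+1)³` (`volume_ball_fin_three` or `Measure.addHaar_closedBall`). So the difference of the integrals is
`≤ C''''/(k+1) → 0`. -/
theorem t8_kin (χ : ℕ → E3 → ℝ) (hχ : Cut χ) (f g : E3 → ℝ) (hf : ContDiff ℝ (⊤ : ℕ∞) f)
    (hfc : HasCompactSupport f) (hg : ContDiff ℝ (⊤ : ℕ∞) g) (hgc : HasCompactSupport g) :
    Tendsto (fun k => kin (fun x => χ k x * f x) (fun x => χ k x * g x)) atTop (𝓝 (kin f g)) := by
  obtain ⟨K, hK0, hK⟩ := t8_bound χ hχ f hf hfc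
  obtain ⟨L, hL0, hL⟩ := t8_bound χ hχ g hg hgc
  obtain ⟨h1, h2, h3, h4, -⟩ := hχ
  have key : ∀ k : ℕ, ‖kin (fun x => χ k x * f x) (fun x => χ k x * g x) - kin f g‖ ≤
      (48 * (K * L) * (volume (Metric.ball (0 : E3) 1)).toReal) * (1 / ((k : ℝ) + 1)) := by
    intro k
    have hk : (0 : ℝ) < (k : ℝ) + 1 := by positivity
    have hcf : ContDiff ℝ (⊤ : ℕ∞) (fun x => χ k x * f x) := (h1 k).mul hf
    have hcg : ContDiff ℝ (⊤ : ℕ∞) (fun x => χ k x * g x) := (h1 k).mul hg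
    have hcgc : HasCompactSupport (fun x => χ k x * g x) := hgc.mul_left
    unfold kin
    rw [← integral_sub (t8_sumint _ _ hcf hcg hcgc) (t8_sumint _ _ hf hg hgc)]
    have hz : ∀ x, x ∉ Metric.closedBall (0 : E3) (2 / ((k : ℝ) + 1)) →
        (∑ a : Fin 3, fderiv ℝ (fun x => χ k x * f x) x (EuclideanSpace.single a 1) *
          fderiv ℝ (fun x => χ k x * g x) x (EuclideanSpace.single a 1)) -
        (∑ a : Fin 3, fderiv ℝ f x (EuclideanSpace.single a 1) *
          fderiv ℝ g x (EuclideanSpace.single a 1)) = 0 := by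
      intro x hx
      rw [mem_closedBall_zero_iff, not_le] at hx
      have e0 : ∀ᶠ y in 𝓝 x, χ k y = 1 := by
        have e1 : ∀ᶠ y in 𝓝 x, 2 / ((k : ℝ) + 1) < ‖y‖ :=
          (continuous_norm.tendsto x).eventually (lt_mem_nhds hx)
        exact e1.mono fun y hy => h4 k y hy.le
      have e1 : fderiv ℝ (fun x => χ k x * f x) x = fderiv ℝ f x :=
        Filter.EventuallyEq.fderiv_eq (e0.mono fun y hy => by simp only; rw [hy, one_mul])
      have e2 : fderiv ℝ (fun x => χ k x * g x) x = fderiv ℝ g x :=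
        Filter.EventuallyEq.fderiv_eq (e0.mono fun y hy => by simp only; rw [hy, one_mul])
      rw [e1, e2, sub_self]
    rw [← setIntegral_eq_integral_of_forall_compl_eq_zero hz]
    have hfin : volume (Metric.closedBall (0 : E3) (2 / ((k : ℝ) + 1))) < ⊤ := measure_closedBall_lt_top
    have hb : ∀ x ∈ Metric.closedBall (0 : E3) (2 / ((k : ℝ) + 1)),
        ‖(∑ a : Fin 3, fderiv ℝ (fun x => χ k x * f x) x (EuclideanSpace.single a 1) *
          fderiv ℝ (fun x => χ k x * g x) x (EuclideanSpace.single a 1)) -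
        (∑ a : Fin 3, fderiv ℝ f x (EuclideanSpace.single a 1) *
          fderiv ℝ g x (EuclideanSpace.single a 1))‖ ≤ 6 * (K * L) * (k + 1) ^ 2 := by
      intro x _
      refine (norm_sub_le _ _).trans ?_
      have e1 := t8_pt (hK k x).2 (hL k x).2
      have e2 := t8_pt (hK k x).1 (hL k x).1
      rw [← Real.norm_eq_abs] at e1 e2
      nlinarith
    refine (norm_setIntegral_le_of_norm_le_const hfin hb).trans ?_
    have hv : (volume : Measure E3).real (Metric.closedBall (0 : E3) (2 / ((k : ℝ) + 1))) =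
        (2 / ((k : ℝ) + 1)) ^ 3 * (volume (Metric.ball (0 : E3) 1)).toReal := by
      have hr : (0 : ℝ) ≤ 2 / ((k : ℝ) + 1) := by positivity
      rw [Measure.real, Measure.addHaar_closedBall _ _ hr, ENNReal.toReal_mul, ENNReal.toReal_ofReal (by positivity),
        finrank_euclideanSpace_fin]
    rw [hv]
    refine le_of_eq ?_
    field_simp
    ring
  rw [tendsto_iff_norm_sub_tendsto_zero]
  refine squeeze_zero (fun k => norm_nonneg _) key ?_
  have h5 := (tendsto_one_div_add_atTop_nhds_zero_nat (𝕜 := ℝ)).const_mul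
    (48 * (K * L) * (volume (Metric.ball (0 : E3) 1)).toReal)
  rwa [mul_zero] at h5

theorem t8_norm_sq (L : E3 →L[ℝ] ℝ) : ‖L‖ ^ 2 = ∑ a : Fin 3, L (EuclideanSpace.single a 1) ^ 2 := by
  obtain ⟨v, rfl⟩ := (InnerProductSpace.toDual ℝ E3).surjective L
  rw [LinearIsometryEquiv.norm_map, EuclideanSpace.norm_sq_eq]
  refine Finset.sum_congr rfl fun a _ => ?_
  rw [InnerProductSpace.toDual_apply_apply, Real.norm_eq_abs, sq_abs]
  congr 1
  rw [EuclideanSpace.inner_single_right]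
  simp

/-- [RC-T8] `‖∇ ∑ c_i u_i‖²` integrates to the quadratic form of the matrix `kin (u i) (u j)`
(`‖L‖² = ∑_a (L e_a)²` for functionals on Euclidean space). -/
theorem t8_quad {n : ℕ} (u : Fin n → E3 → ℝ)
    (hu : ∀ i, ContDiff ℝ (⊤ : ℕ∞) (u i) ∧ HasCompactSupport (u i)) (c : Fin n → ℝ) :
    Integrable (fun x => ‖fderiv ℝ (fun y => ∑ i, c i * u i y) x‖ ^ 2) ∧
    ∫ x, ‖fderiv ℝ (fun y => ∑ i, c i * u i y) x‖ ^ 2 = ∑ i, ∑ j, c i * c j * kin (u i) (u j) := by
  have e1 : ∀ x, fderiv ℝ (fun y => ∑ i, c i * u i y) x = ∑ i, c i • fderiv ℝ (u i) x := by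
    intro x
    have h1 : HasFDerivAt (fun y => ∑ i, c i * u i y) (∑ i, c i • fderiv ℝ (u i) x) x :=
      HasFDerivAt.fun_sum fun i _ =>
        (((hu i).1.differentiable (by simp)).differentiableAt.hasFDerivAt (x := x)).const_mul (c i)
    exact h1.fderiv
  have e2 : (fun x => ‖fderiv ℝ (fun y => ∑ i, c i * u i y) x‖ ^ 2) = fun x => ∑ i, ∑ j, c i * c j *
      ∑ a : Fin 3, fderiv ℝ (u i) x (EuclideanSpace.single a 1) * fderiv ℝ (u j) x (EuclideanSpace.single a 1) := by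
    funext x
    rw [e1, t8_norm_sq]
    have e3 : ∀ a : Fin 3, (∑ i, c i • fderiv ℝ (u i) x) (EuclideanSpace.single a 1) ^ 2 =
        ∑ i, ∑ j, c i * c j * (fderiv ℝ (u i) x (EuclideanSpace.single a 1) *
          fderiv ℝ (u j) x (EuclideanSpace.single a 1)) := by
      intro a
      rw [_root_.sum_apply, sq, Finset.sum_mul_sum]
      refine Finset.sum_congr rfl fun i _ => Finset.sum_congr rfl fun j _ => ?_
      rw [_root_.smul_apply, _root_.smul_apply, smul_eq_mul, smul_eq_mul]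
      ring
    rw [Finset.sum_congr rfl fun a _ => e3 a, Finset.sum_comm]
    refine Finset.sum_congr rfl fun i _ => ?_
    rw [Finset.sum_comm]
    refine Finset.sum_congr rfl fun j _ => ?_
    rw [Finset.mul_sum]
  have h3 : ∀ i j, Integrable (fun x => c i * c j *
      ∑ a : Fin 3, fderiv ℝ (u i) x (EuclideanSpace.single a 1) * fderiv ℝ (u j) x (EuclideanSpace.single a 1)) :=
    fun i j => (t8_sumint _ _ (hu i).1 (hu j).1 (hu j).2).const_mul _
  constructor
  · rw [e2]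
    exact integrable_finsetSum _ fun i _ => integrable_finsetSum _ fun j _ => h3 i j
  · rw [e2, integral_finsetSum _ fun i _ => integrable_finsetSum _ fun j _ => h3 i j]
    refine Finset.sum_congr rfl fun i _ => ?_
    rw [integral_finsetSum _ fun j _ => h3 i j]
    refine Finset.sum_congr rfl fun j _ => ?_
    rw [integral_const_mul]
    rfl

end Pool.Agent.RC
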