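import Pool.Agent.RC.Sph

set_option autoImplicit false

open MeasureTheory Set Real

namespace Pool.Agent.RC

/-- the optimal function -/
noncomputable def v1_u (x : E3) : ℝ := (√(1 + ‖x‖ ^ 2))⁻¹

theorem v1_pos (x : E3) : 0 < v1_u x := by
  unfold v1_u
  positivity

theorem v1_sq (x : E3) : v1_u x ^ 2 * (1 + ‖x‖ ^ 2) = 1 := by
  unfold v1_u
  have h : (0 : ℝ) < 1 + ‖x‖ ^ 2 := by positivity
  rw [inv_pow, Real.sq_sqrt h.le, inv_mul_cancel₀ h.ne']

theorem v1_sq' (x : E3) : v1_u x ^ 2 = (1 + ‖x‖ ^ 2)⁻¹ := by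
  have h : (0 : ℝ) < 1 + ‖x‖ ^ 2 := by positivity
  exact eq_inv_of_mul_eq_one_left (v1_sq x)

theorem v1_contDiff : ContDiff ℝ (⊤ : ℕ∞) v1_u := by
  unfold v1_u
  refine ContDiff.inv (ContDiff.sqrt ?_ ?_) ?_
  · exact contDiff_const.add (contDiff_norm_sq ℝ)
  · intro x
    positivity
  · intro x
    positivity

theorem v1_hasFDeriv (x : E3) :
    HasFDerivAt v1_u (-(v1_u x ^ 3) • (innerSL ℝ x)) x := by
  have h0 : (0 : ℝ) < 1 + ‖x‖ ^ 2 := by positivity
  have h1 : HasFDerivAt (fun y : E3 => 1 + ‖y‖ ^ 2) (2 • (innerSL ℝ x)) x := by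
    have := (hasStrictFDerivAt_norm_sq x).hasFDerivAt.const_add (1 : ℝ)
    exact this
  have h2 := h1.sqrt h0.ne'
  have h3 := (hasDerivAt_inv (Real.sqrt_pos.2 h0).ne').comp_hasFDerivAt x h2
  have h4 : v1_u = (fun y => y⁻¹) ∘ (fun y : E3 => √(1 + ‖y‖ ^ 2)) := rfl
  rw [h4]
  refine h3.congr_fderiv ?_
  ext v
  simp only [smul_apply, smul_eq_mul, Function.comp, nsmul_eq_mul, Nat.cast_ofNat]
  have h5 : √(1 + ‖x‖ ^ 2) ≠ 0 := (Real.sqrt_pos.2 h0).ne'
  field_simp

theorem v1_fderiv (x v : E3) : fderiv ℝ v1_u x v = -(v1_u x ^ 3) * inner ℝ x v := by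
  rw [(v1_hasFDeriv x).fderiv]
  rfl

/-- the components of the gradient of the optimal function -/
noncomputable def v1_g (i : Fin 3) (x : E3) : ℝ := -(v1_u x ^ 3) * x i

theorem v1_g_eq (i : Fin 3) (x : E3) :
    fderiv ℝ v1_u x (EuclideanSpace.single i 1) = v1_g i x := by
  rw [v1_fderiv, EuclideanSpace.inner_single_right]
  simp [v1_g]

theorem v1_g_contDiff (i : Fin 3) : ContDiff ℝ (⊤ : ℕ∞) (v1_g i) := by
  unfold v1_g
  refine ContDiff.mul (v1_contDiff.pow 3).neg ?_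
  fun_prop

theorem v1_g_fderiv (i : Fin 3) (x : E3) :
    fderiv ℝ (v1_g i) x (EuclideanSpace.single i 1) =
      -(v1_u x ^ 3) + 3 * x i ^ 2 * v1_u x ^ 5 := by
  have h1 := v1_hasFDeriv x
  have h2 : HasFDerivAt (fun y : E3 => y i) (EuclideanSpace.proj i : E3 →L[ℝ] ℝ) x :=
    (EuclideanSpace.proj i : E3 →L[ℝ] ℝ).hasFDerivAt
  have h3 : HasFDerivAt (fun y : E3 => -(v1_u y ^ 3) * y i) _ x := ((h1.pow 3).neg).mul h2
  have h4 : v1_g i = fun y : E3 => -(v1_u y ^ 3) * y i := rfl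
  rw [h4, h3.fderiv]
  simp [EuclideanSpace.inner_single_right]
  ring

theorem v1_div (x : E3) :
    ∑ i : Fin 3, fderiv ℝ (v1_g i) x (EuclideanSpace.single i 1) = -3 * v1_u x ^ 5 := by
  have h1 : ∑ i : Fin 3, x i ^ 2 = ‖x‖ ^ 2 := by
    rw [EuclideanSpace.real_norm_sq_eq]
  simp only [v1_g_fderiv]
  rw [Finset.sum_add_distrib]
  have h2 : ∑ i : Fin 3, 3 * x i ^ 2 * v1_u x ^ 5 = 3 * ‖x‖ ^ 2 * v1_u x ^ 5 := by
    rw [← h1, Finset.mul_sum, Finset.sum_mul]
  rw [h2]
  have h3 := v1_sq x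
  simp only [Finset.sum_const, Finset.card_univ, Fintype.card_fin, nsmul_eq_mul]
  push_cast
  have h4 : v1_u x ^ 3 * (v1_u x ^ 2 * (1 + ‖x‖ ^ 2)) = v1_u x ^ 3 := by rw [h3, mul_one]
  linear_combination 3 * h4

theorem v1_normsq (L : E3 →L[ℝ] ℝ) :
    ‖L‖ ^ 2 = ∑ i : Fin 3, (L (EuclideanSpace.single i 1)) ^ 2 := by
  obtain ⟨w, rfl⟩ := (InnerProductSpace.toDual ℝ E3).surjective L
  rw [LinearIsometryEquiv.norm_map, EuclideanSpace.real_norm_sq_eq]
  refine Finset.sum_congr rfl fun i _ => ?_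
  rw [InnerProductSpace.toDual_apply_apply, EuclideanSpace.inner_single_right]
  simp

/-- the energy identity -/
theorem v1_energy {η : E3 → ℝ} (hη : ContDiff ℝ (⊤ : ℕ∞) η) (hc : HasCompactSupport η) (δ : ℝ) :
    ∫ x, (‖fderiv ℝ (fun y => η y * v1_u y) x‖ ^ 2 -
        (3 * (1 + δ)) / (1 + ‖x‖ ^ 2) ^ 2 * (η x * v1_u x) ^ 2) =
      (∫ x, v1_u x ^ 2 * ‖fderiv ℝ η x‖ ^ 2) - 3 * δ * ∫ x, η x ^ 2 * v1_u x ^ 6 := by
  have hηc := hη.continuous
  have huc := v1_contDiff.continuous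
  have hfd : Differentiable ℝ η := hη.differentiable (by simp)
  have hud : Differentiable ℝ v1_u := v1_contDiff.differentiable (by simp)
  have hfdc : Continuous (fderiv ℝ η) := hη.continuous_fderiv (by simp)
  have hη2 : HasCompactSupport fun x => η x ^ 2 := by
    have : (fun x => η x ^ 2) = fun x => η x * η x := by funext x; ring
    rw [this]
    exact hc.mul_right
  -- the function `f = η² u₀`
  have hf : ContDiff ℝ (⊤ : ℕ∞) fun x => η x ^ 2 * v1_u x := (hη.pow 2).mul v1_contDiff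
  have hfcs : HasCompactSupport fun x => η x ^ 2 * v1_u x := hη2.mul_right
  have hfd2 : Differentiable ℝ fun x => η x ^ 2 * v1_u x := hf.differentiable (by simp)
  have hff : ∀ x v, fderiv ℝ (fun x => η x ^ 2 * v1_u x) x v =
      2 * η x * fderiv ℝ η x v * v1_u x + η x ^ 2 * fderiv ℝ v1_u x v := by
    intro x v
    have h1 : HasFDerivAt (fun x => η x ^ 2 * v1_u x) _ x :=
      ((hfd x).hasFDerivAt.pow 2).mul (hud x).hasFDerivAt
    rw [h1.fderiv]
    simp
    ring
  have hgg : ∀ x v, fderiv ℝ (fun y => η y * v1_u y) x v =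
      fderiv ℝ η x v * v1_u x + η x * fderiv ℝ v1_u x v := by
    intro x v
    have h1 : HasFDerivAt (fun x => η x * v1_u x) _ x :=
      (hfd x).hasFDerivAt.mul (hud x).hasFDerivAt
    rw [h1.fderiv]
    simp
    ring
  have hpt : ∀ x, ‖fderiv ℝ (fun y => η y * v1_u y) x‖ ^ 2 =
      v1_u x ^ 2 * ‖fderiv ℝ η x‖ ^ 2 +
        ∑ i : Fin 3, fderiv ℝ (fun x => η x ^ 2 * v1_u x) x (EuclideanSpace.single i 1) *
          v1_g i x := by
    intro x
    rw [v1_normsq, v1_normsq (fderiv ℝ η x), Finset.mul_sum, ← Finset.sum_add_distrib]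
    refine Finset.sum_congr rfl fun i _ => ?_
    rw [hff, hgg, v1_g_eq]
    ring
  have hgc : ∀ i, Continuous (v1_g i) := fun i => (v1_g_contDiff i).continuous
  have hgd : ∀ i, Differentiable ℝ (v1_g i) := fun i => (v1_g_contDiff i).differentiable (by simp)
  have hI1 : ∀ i : Fin 3, Integrable fun x => fderiv ℝ (fun x => η x ^ 2 * v1_u x) x
      (EuclideanSpace.single i 1) * v1_g i x := by
    intro i
    refine Continuous.integrable_of_hasCompactSupport ?_ ?_
    · exact ((hf.continuous_fderiv (by simp)).clm_apply continuous_const).mul (hgc i)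
    · exact HasCompactSupport.mul_right (hfcs.fderiv_apply ℝ (EuclideanSpace.single i 1))
  have hI2 : ∀ i : Fin 3, Integrable fun x => (η x ^ 2 * v1_u x) *
      fderiv ℝ (v1_g i) x (EuclideanSpace.single i 1) := by
    intro i
    refine Continuous.integrable_of_hasCompactSupport ?_ ?_
    · exact hf.continuous.mul
        (((v1_g_contDiff i).continuous_fderiv (by simp)).clm_apply continuous_const)
    · exact hfcs.mul_right
  have hI3 : ∀ i : Fin 3, Integrable fun x => (η x ^ 2 * v1_u x) * v1_g i x := by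
    intro i
    refine Continuous.integrable_of_hasCompactSupport (hf.continuous.mul (hgc i)) hfcs.mul_right
  have hibp : ∀ i : Fin 3, ∫ x, fderiv ℝ (fun x => η x ^ 2 * v1_u x) x
      (EuclideanSpace.single i 1) * v1_g i x =
      -∫ x, (η x ^ 2 * v1_u x) * fderiv ℝ (v1_g i) x (EuclideanSpace.single i 1) := by
    intro i
    rw [integral_mul_fderiv_eq_neg_fderiv_mul_of_integrable (hI1 i) (hI2 i) (hI3 i) 
      (fun x _ => hfd2 x) (fun x _ => hgd i x), neg_neg]
  have hJ1 : Integrable fun x => v1_u x ^ 2 * ‖fderiv ℝ η x‖ ^ 2 := by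
    refine Continuous.integrable_of_hasCompactSupport ((huc.pow 2).mul (hfdc.norm.pow 2)) ?_
    have h1 : HasCompactSupport fun x => ‖fderiv ℝ η x‖ ^ 2 := by
      have h2 : HasCompactSupport (fderiv ℝ η) := hc.fderiv ℝ
      exact h2.comp_left (g := fun L => ‖L‖ ^ 2) (by simp)
    exact h1.mul_left
  have hJ2 : Integrable fun x => η x ^ 2 * v1_u x ^ 6 :=
    Continuous.integrable_of_hasCompactSupport ((hηc.pow 2).mul (huc.pow 6)) hη2.mul_right
  have hsum : ∫ x, ∑ i : Fin 3, fderiv ℝ (fun x => η x ^ 2 * v1_u x) x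
      (EuclideanSpace.single i 1) * v1_g i x = 3 * ∫ x, η x ^ 2 * v1_u x ^ 6 := by
    rw [integral_finsetSum _ fun i _ => hI1 i]
    simp only [hibp]
    rw [Finset.sum_neg_distrib, ← integral_finsetSum _ fun i _ => hI2 i, ← integral_neg,
      ← integral_const_mul]
    refine integral_congr_ae (Filter.Eventually.of_forall fun x => ?_)
    simp only
    rw [← Finset.mul_sum, v1_div]
    ring
  have hsumI : Integrable fun x => ∑ i : Fin 3, fderiv ℝ (fun x => η x ^ 2 * v1_u x) x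
      (EuclideanSpace.single i 1) * v1_g i x := integrable_finsetSum _ fun i _ => hI1 i
  have hmain : ∀ x, ‖fderiv ℝ (fun y => η y * v1_u y) x‖ ^ 2 -
        (3 * (1 + δ)) / (1 + ‖x‖ ^ 2) ^ 2 * (η x * v1_u x) ^ 2 =
      (v1_u x ^ 2 * ‖fderiv ℝ η x‖ ^ 2 +
        ∑ i : Fin 3, fderiv ℝ (fun x => η x ^ 2 * v1_u x) x (EuclideanSpace.single i 1) *
          v1_g i x) - 3 * (1 + δ) * (η x ^ 2 * v1_u x ^ 6) := by
    intro x
    rw [hpt x]
    have h1 : (3 * (1 + δ)) / (1 + ‖x‖ ^ 2) ^ 2 = 3 * (1 + δ) * v1_u x ^ 4 := by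
      rw [div_eq_mul_inv, ← inv_pow, ← v1_sq']
      ring
    rw [h1]
    ring
  simp only [hmain]
  have e1 := integral_sub (hJ1.add hsumI) (hJ2.const_mul (3 * (1 + δ)))
  simp only [Pi.add_apply] at e1
  rw [e1, integral_add hJ1 hsumI, hsum, integral_const_mul]
  ring

theorem v1_form_le {η : E3 → ℝ} (hη : ContDiff ℝ (⊤ : ℕ∞) η) (hc : HasCompactSupport η) {δ : ℝ}
    (hδ : 0 < δ) {R K : ℝ} (hR : 1 ≤ R) (h1 : ∀ x : E3, ‖x‖ ≤ R → η x = 1)
    (h2 : ∀ x : E3, ‖x‖ < R ∨ 2 * R < ‖x‖ → fderiv ℝ η x = 0) (h3 : ∀ x, ‖fderiv ℝ η x‖ ≤ K / R) :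
    (∫ x, v1_u x ^ 2 * ‖fderiv ℝ η x‖ ^ 2) - 3 * δ * ∫ x, η x ^ 2 * v1_u x ^ 6 ≤
      (8 * K ^ 2 / R - 3 * δ / 8) * (volume (Metric.ball (0 : E3) 1)).toReal := by
  have hR0 : 0 < R := by linarith
  have hηc := hη.continuous
  have huc := v1_contDiff.continuous
  have hfdc : Continuous (fderiv ℝ η) := hη.continuous_fderiv (by simp)
  have hη2 : HasCompactSupport fun x => η x ^ 2 := by
    have : (fun x => η x ^ 2) = fun x => η x * η x := by funext x; ring
    rw [this]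
    exact hc.mul_right
  have hJ1 : Integrable fun x => v1_u x ^ 2 * ‖fderiv ℝ η x‖ ^ 2 := by
    refine Continuous.integrable_of_hasCompactSupport ((huc.pow 2).mul (hfdc.norm.pow 2)) ?_
    have h1 : HasCompactSupport fun x => ‖fderiv ℝ η x‖ ^ 2 := by
      have h2 : HasCompactSupport (fderiv ℝ η) := hc.fderiv ℝ
      exact h2.comp_left (g := fun L => ‖L‖ ^ 2) (by simp)
    exact h1.mul_left
  have hJ2 : Integrable fun x => η x ^ 2 * v1_u x ^ 6 :=
    Continuous.integrable_of_hasCompactSupport ((hηc.pow 2).mul (huc.pow 6)) hη2.mul_right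
  have hV0 : 0 ≤ (volume (Metric.ball (0 : E3) 1)).toReal := ENNReal.toReal_nonneg
  -- first term
  have hA : ∫ x, v1_u x ^ 2 * ‖fderiv ℝ η x‖ ^ 2 ≤
      8 * K ^ 2 / R * (volume (Metric.ball (0 : E3) 1)).toReal := by
    have hvol : (volume (Metric.closedBall (0 : E3) (2 * R))).toReal =
        (2 * R) ^ 3 * (volume (Metric.ball (0 : E3) 1)).toReal := by
      rw [Measure.addHaar_closedBall _ _ (by positivity : (0 : ℝ) ≤ 2 * R), ENNReal.toReal_mul,
        ENNReal.toReal_ofReal (by positivity), finrank_euclideanSpace_fin]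
    have hI : Integrable ((Metric.closedBall (0 : E3) (2 * R)).indicator
        fun _ => K ^ 2 / R ^ 4) := by
      rw [integrable_indicator_iff Metric.isClosed_closedBall.measurableSet]
      exact integrableOn_const (measure_closedBall_lt_top).ne
    calc ∫ x, v1_u x ^ 2 * ‖fderiv ℝ η x‖ ^ 2
        ≤ ∫ x, (Metric.closedBall (0 : E3) (2 * R)).indicator (fun _ => K ^ 2 / R ^ 4) x := by
          refine integral_mono hJ1 hI fun x => ?_
          simp only
          by_cases hx : ‖x‖ < R ∨ 2 * R < ‖x‖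
          · rw [h2 x hx, norm_zero]
            have : 0 ≤ (Metric.closedBall (0 : E3) (2 * R)).indicator (fun _ => K ^ 2 / R ^ 4) x :=
              Set.indicator_nonneg (fun _ _ => by positivity) x
            simpa using this
          · push Not at hx
            rw [Set.indicator_of_mem (by simpa using hx.2)]
            have e1 : v1_u x ^ 2 ≤ (R ^ 2)⁻¹ := by
              rw [v1_sq']
              refine inv_anti₀ (by positivity) ?_
              nlinarith [hx.1]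
            have e2 : ‖fderiv ℝ η x‖ ^ 2 ≤ (K / R) ^ 2 :=
              pow_le_pow_left₀ (norm_nonneg _) (h3 x) 2
            calc v1_u x ^ 2 * ‖fderiv ℝ η x‖ ^ 2 ≤ (R ^ 2)⁻¹ * (K / R) ^ 2 :=
                  mul_le_mul e1 e2 (by positivity) (by positivity)
              _ = K ^ 2 / R ^ 4 := by field_simp
      _ = 8 * K ^ 2 / R * (volume (Metric.ball (0 : E3) 1)).toReal := by
          rw [integral_indicator Metric.isClosed_closedBall.measurableSet, setIntegral_const,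
            smul_eq_mul, Measure.real, hvol]
          field_simp
          ring
  have hB : (1 / 8) * (volume (Metric.ball (0 : E3) 1)).toReal ≤
      ∫ x, η x ^ 2 * v1_u x ^ 6 := by
    have hI : Integrable ((Metric.ball (0 : E3) 1).indicator fun _ => (1 / 8 : ℝ)) := by
      rw [integrable_indicator_iff Metric.isOpen_ball.measurableSet]
      exact integrableOn_const (measure_ball_lt_top).ne
    calc (1 / 8) * (volume (Metric.ball (0 : E3) 1)).toReal
        = ∫ x, (Metric.ball (0 : E3) 1).indicator (fun _ => (1 / 8 : ℝ)) x := by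
          rw [integral_indicator Metric.isOpen_ball.measurableSet, setIntegral_const,
            smul_eq_mul, Measure.real, mul_comm]
      _ ≤ ∫ x, η x ^ 2 * v1_u x ^ 6 := by
          refine integral_mono hI hJ2 fun x => ?_
          simp only
          by_cases hx : x ∈ Metric.ball (0 : E3) 1
          · rw [Set.indicator_of_mem hx]
            have hx' : ‖x‖ < 1 := by simpa using hx
            rw [h1 x (by linarith)]
            have e1 : (1 / 2 : ℝ) ≤ v1_u x ^ 2 := by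
              rw [v1_sq', one_div]
              refine inv_anti₀ (by positivity) ?_
              nlinarith [norm_nonneg x]
            have e2 : (1 / 2 : ℝ) ^ 3 ≤ (v1_u x ^ 2) ^ 3 :=
              pow_le_pow_left₀ (by norm_num) e1 3
            calc (1 / 8 : ℝ) = (1 / 2 : ℝ) ^ 3 := by norm_num
              _ ≤ (v1_u x ^ 2) ^ 3 := e2
              _ = 1 ^ 2 * v1_u x ^ 6 := by ring
          · rw [Set.indicator_of_notMem hx]
            have := v1_pos x
            positivity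
  have hC : 3 * δ * ((1 / 8) * (volume (Metric.ball (0 : E3) 1)).toReal) ≤
      3 * δ * ∫ x, η x ^ 2 * v1_u x ^ 6 := mul_le_mul_of_nonneg_left hB (by positivity)
  linarith

/-- [RC-V1] Test functions for the optimal potential.
PROOF. `u₀ x = (1+‖x‖²)^{-1/2}` satisfies `-Δ u₀ = 3 (1+‖x‖²)^{-2} u₀` (`∂_i u₀ = -x_i (1+|x|²)^{-3/2}`,
`Δ u₀ = -3 (1+|x|²)^{-3/2} + 3|x|² (1+|x|²)^{-5/2} = -3 (1+|x|²)^{-5/2}`). For a smooth compactly supported `η`, integration by parts
(`integral_mul_fderiv_eq_neg_fderiv_mul_of_integrable` in each coordinate direction, applied to `η² u₀` and `∂_i u₀`):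
`∫ |∇(η u₀)|² = ∫ u₀² |∇η|² + ∫ ∇(η² u₀)·∇u₀ = ∫ u₀² |∇η|² + 3 ∫ η² (1+|x|²)^{-2} u₀²`. So for `u = η u₀` the form is
`∫ u₀² |∇η|² - 3δ ∫ η² (1+|x|²)^{-3}`. Take `η = b(x/R)`, `b` a bump function equal to `1` on the unit ball and `0` outside the ball of
radius `2`: the second term is `≤ -3δ ∫_{|x| ≤ 1} (1+|x|²)^{-3} = -c₀ δ < 0` for `R ≥ 1`, and
`|∇η| ≤ C/R` supported in `R ≤ |x| ≤ 2R` where `u₀² ≤ 1/R²`: the first term is `≤ C² R^{-4} · vol(B_{2R}) ≤ C'/R → 0`. -/
theorem v1_test (δ : ℝ) (hδ : 0 < δ) : ∃ u : E3 → ℝ, ContDiff ℝ (⊤ : ℕ∞) u ∧ HasCompactSupport u ∧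
    ∫ x, (‖fderiv ℝ u x‖ ^ 2 - (3 * (1 + δ)) / (1 + ‖x‖ ^ 2) ^ 2 * u x ^ 2) < 0 := by
  let b : ContDiffBump (0 : E3) := ⟨1, 2, one_pos, one_lt_two⟩
  have hb : ContDiff ℝ (⊤ : ℕ∞) b := b.contDiff
  have hbc : HasCompactSupport b := b.hasCompactSupport
  have hbd : Differentiable ℝ b := hb.differentiable (by simp)
  obtain ⟨K, hK⟩ := (hb.continuous_fderiv (by simp)).bounded_above_of_compact_support
    (hbc.fderiv ℝ)
  set R : ℝ := 1 + 64 * K ^ 2 / (3 * δ) with hRdef
  have hR : 1 ≤ R := by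
    rw [hRdef]
    have : 0 ≤ 64 * K ^ 2 / (3 * δ) := by positivity
    linarith
  have hR0 : 0 < R := by linarith
  set η : E3 → ℝ := fun x => b (R⁻¹ • x) with hηdef
  have hη : ContDiff ℝ (⊤ : ℕ∞) η := hb.comp (contDiff_const_smul R⁻¹)
  have hc : HasCompactSupport η := hbc.comp_smul (inv_ne_zero hR0.ne')
  have hfd : ∀ x, fderiv ℝ η x = R⁻¹ • fderiv ℝ b (R⁻¹ • x) := by
    intro x
    have e1 : HasFDerivAt (fun y : E3 => R⁻¹ • y) (R⁻¹ • ContinuousLinearMap.id ℝ E3) x :=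
      (hasFDerivAt_id x).const_smul R⁻¹
    have e2 := ((hbd (R⁻¹ • x)).hasFDerivAt).comp x e1
    have e3 : η = b ∘ fun y : E3 => R⁻¹ • y := rfl
    rw [e3, e2.fderiv]
    ext v
    simp
  have h1 : ∀ x : E3, ‖x‖ ≤ R → η x = 1 := by
    intro x hx
    refine b.one_of_mem_closedBall ?_
    rw [mem_closedBall_zero_iff, norm_smul, norm_inv, Real.norm_of_nonneg hR0.le]
    show R⁻¹ * ‖x‖ ≤ 1
    rw [inv_mul_le_iff₀ hR0]
    linarith
  have h1' : ∀ x : E3, 2 * R ≤ ‖x‖ → η x = 0 := by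
    intro x hx
    refine b.zero_of_le_dist ?_
    rw [dist_zero_right, norm_smul, norm_inv, Real.norm_of_nonneg hR0.le]
    show 2 ≤ R⁻¹ * ‖x‖
    rw [le_inv_mul_iff₀ hR0]
    linarith
  have h2 : ∀ x : E3, ‖x‖ < R ∨ 2 * R < ‖x‖ → fderiv ℝ η x = 0 := by
    intro x hx
    rcases hx with hx | hx
    · have e1 : η =ᶠ[nhds x] fun _ => (1 : ℝ) := by
        filter_upwards [(isOpen_lt continuous_norm continuous_const).mem_nhds hx] with y hy
        exact h1 y (le_of_lt hy)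
      rw [e1.fderiv_eq]
      simp
    · have e1 : η =ᶠ[nhds x] fun _ => (0 : ℝ) := by
        filter_upwards [(isOpen_lt continuous_const continuous_norm).mem_nhds hx] with y hy
        exact h1' y (le_of_lt hy)
      rw [e1.fderiv_eq]
      simp
  have h3 : ∀ x, ‖fderiv ℝ η x‖ ≤ K / R := by
    intro x
    rw [hfd, norm_smul, norm_inv, Real.norm_of_nonneg hR0.le, div_eq_inv_mul]
    exact mul_le_mul_of_nonneg_left (hK _) (by positivity)
  refine ⟨fun x => η x * v1_u x, hη.mul v1_contDiff, hc.mul_right, ?_⟩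
  rw [v1_energy hη hc δ]
  refine lt_of_le_of_lt (v1_form_le hη hc hδ hR h1 h2 h3) ?_
  have hV : 0 < (volume (Metric.ball (0 : E3) 1)).toReal :=
    ENNReal.toReal_pos (Metric.measure_ball_pos _ _ one_pos).ne' measure_ball_lt_top.ne
  refine mul_neg_of_neg_of_pos ?_ hV
  have hRK : 64 * K ^ 2 < 3 * δ * R := by
    rw [hRdef]
    have e1 : 3 * δ * (1 + 64 * K ^ 2 / (3 * δ)) = 3 * δ + 64 * K ^ 2 := by field_simp
    rw [e1]
    linarith
  rw [sub_neg, div_lt_div_iff₀ hR0 (by norm_num)]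
  linarith

end Pool.Agent.RC
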