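import Pool.Agent.RC.T1

set_option autoImplicit false

open MeasureTheory Set Real

namespace Pool.Agent.RC

theorem v2_deriv (r : ℝ) : HasDerivAt
    (fun r : ℝ => arctan r / 8 + (r ^ 3 - r) / (8 * (1 + r ^ 2) ^ 2))
    (r ^ 2 * ((1 + r ^ 2) ^ 3)⁻¹) r := by
  have h0 : (1 + r ^ 2) ≠ 0 := by positivity
  have h1 : HasDerivAt (fun r : ℝ => arctan r / 8) (1 / (1 + r ^ 2) / 8) r :=
    (hasDerivAt_arctan r).div_const 8
  have h2 : HasDerivAt (fun r : ℝ => r ^ 3 - r) (3 * r ^ 2 - 1) r := by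
    have := (hasDerivAt_pow 3 r).fun_sub (hasDerivAt_id' r)
    simpa using this
  have h3 : HasDerivAt (fun r : ℝ => 8 * (1 + r ^ 2) ^ 2) (8 * (2 * (1 + r ^ 2) * (2 * r))) r := by
    have h4 : HasDerivAt (fun r : ℝ => 1 + r ^ 2) (2 * r) r := by
      have := (hasDerivAt_pow 2 r).const_add 1
      simpa using this
    have h5 := (h4.pow 2).const_mul 8
    simpa using h5
  have h6 := h1.add (h2.div h3 (by positivity))
  refine h6.congr_deriv ?_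
  field_simp
  ring

theorem v2_lim : Filter.Tendsto
    (fun r : ℝ => arctan r / 8 + (r ^ 3 - r) / (8 * (1 + r ^ 2) ^ 2)) Filter.atTop
    (nhds (π / 16)) := by
  have h1 : Filter.Tendsto (fun r : ℝ => arctan r / 8) Filter.atTop (nhds (π / 2 / 8)) :=
    (tendsto_nhds_of_tendsto_nhdsWithin tendsto_arctan_atTop).div_const 8
  have h2 : Filter.Tendsto (fun r : ℝ => (r ^ 3 - r) / (8 * (1 + r ^ 2) ^ 2)) Filter.atTop
      (nhds 0) := by
    refine squeeze_zero' (t₀ := Filter.atTop) (g := fun r : ℝ => r⁻¹) ?_ ?_ tendsto_inv_atTop_zero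
    · filter_upwards [Filter.eventually_ge_atTop (1 : ℝ)] with r hr
      apply div_nonneg _ (by positivity)
      have : r ^ 3 - r = r * (r - 1) * (r + 1) := by ring
      rw [this]
      have h3 : 0 ≤ r - 1 := by linarith
      positivity
    · filter_upwards [Filter.eventually_ge_atTop (1 : ℝ)] with r hr
      have hr0 : 0 < r := by linarith
      rw [div_le_iff₀ (by positivity), inv_mul_eq_div, le_div_iff₀ hr0]
      nlinarith [sq_nonneg (r ^ 2), sq_nonneg r]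
  have h3 := h1.add h2
  have h4 : π / 2 / 8 + 0 = π / 16 := by ring
  rwa [h4] at h3

theorem v2_one : IntegrableOn (fun r : ℝ => r ^ 2 * ((1 + r ^ 2) ^ 3)⁻¹) (Ioi 0) ∧
    ∫ r in Ioi (0 : ℝ), r ^ 2 * ((1 + r ^ 2) ^ 3)⁻¹ = π / 16 := by
  refine ⟨integrableOn_Ioi_deriv_of_nonneg' (fun x _ => v2_deriv x) (fun x _ => by positivity)
    v2_lim, ?_⟩
  have h := integral_Ioi_of_hasDerivAt_of_nonneg' (a := (0 : ℝ)) (fun x _ => v2_deriv x)
    (fun x _ => by positivity) v2_lim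
  rw [h]
  simp

/-- [RC-V2] `∫ (1+|x|²)^{-3} dx = π²/4`.
PROOF. `integral_fun_norm_addHaar` (or `t1_radial`): `= 4π ∫_0^∞ r² (1+r²)^{-3} dr` and
`∫_0^∞ r²/(1+r²)³ dr = π/16` (antiderivative `(1/8) arctan r + (r³ - r)/(8(1+r²)²)`;
`integral_Ioi_of_hasDerivAt_of_nonneg`). Integrability: `integrable_one_add_norm`-type lemma or `integral_Ioi...`. -/
theorem v2_int : Integrable (fun x : E3 => ((1 + ‖x‖ ^ 2) ^ 3)⁻¹) ∧
    ∫ x : E3, ((1 + ‖x‖ ^ 2) ^ 3)⁻¹ = π ^ 2 / 4 := by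
  have hdim : Module.finrank ℝ E3 = 3 := by simp [E3]
  constructor
  · have h1 := (integrable_fun_norm_addHaar (volume : Measure E3)
      (f := fun r : ℝ => ((1 + r ^ 2) ^ 3)⁻¹)).2
    apply h1
    rw [hdim]
    simpa using v2_one.1
  · have h1 := integral_fun_norm_addHaar (volume : Measure E3)
      (fun r : ℝ => ((1 + r ^ 2) ^ 3)⁻¹)
    rw [h1, hdim]
    have h2 : (volume : Measure E3).real (Metric.ball 0 1) = π * 4 / 3 := by
      rw [Measure.real, EuclideanSpace.volume_ball_fin_three]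
      simp [ENNReal.toReal_ofReal (by positivity : 0 ≤ π * 4 / 3)]
    rw [h2]
    have h3 : ∫ y in Ioi (0 : ℝ), y ^ (3 - 1) • ((1 + y ^ 2) ^ 3)⁻¹ = π / 16 := by
      simpa using v2_one.2
    rw [h3]
    simp only [smul_eq_mul, nsmul_eq_mul]
    push_cast
    ring

/-- [RC-V2] `W_δ = 3(1+δ)/(1+|x|²)²`: `∫ W_δ^{3/2} = (1+δ)^{3/2} 3√3 π²/4` (`Real.rpow` of products, `(r²)^{3/2} = r³`). -/
theorem v2_pow (δ : ℝ) (hδ : 0 ≤ δ) :
    Integrable (fun x : E3 => ((3 * (1 + δ)) / (1 + ‖x‖ ^ 2) ^ 2) ^ (3 / 2 : ℝ)) ∧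
    ∫ x : E3, ((3 * (1 + δ)) / (1 + ‖x‖ ^ 2) ^ 2) ^ (3 / 2 : ℝ) =
      (1 + δ) ^ (3 / 2 : ℝ) * (3 * √3 * π ^ 2 / 4) := by
  have h1 : ∀ x : E3, ((3 * (1 + δ)) / (1 + ‖x‖ ^ 2) ^ 2) ^ (3 / 2 : ℝ) =
      (3 * √3 * (1 + δ) ^ (3 / 2 : ℝ)) * ((1 + ‖x‖ ^ 2) ^ 3)⁻¹ := by
    intro x
    have h2 : (0 : ℝ) ≤ 1 + ‖x‖ ^ 2 := by positivity
    have h3 : (0 : ℝ) ≤ 1 + δ := by linarith
    rw [Real.div_rpow (by positivity) (by positivity), Real.mul_rpow (by norm_num) h3]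
    have h4 : ((1 + ‖x‖ ^ 2) ^ 2) ^ (3 / 2 : ℝ) = (1 + ‖x‖ ^ 2) ^ 3 := by
      rw [← Real.rpow_natCast, ← Real.rpow_mul h2, ← Real.rpow_natCast]
      norm_num
    have h5 : (3 : ℝ) ^ (3 / 2 : ℝ) = 3 * √3 := by
      have : (3 / 2 : ℝ) = 1 + 1 / 2 := by norm_num
      rw [this, Real.rpow_add (by norm_num), Real.rpow_one, Real.sqrt_eq_rpow]
    rw [h4, h5, div_eq_mul_inv]
  simp_rw [h1]
  refine ⟨v2_int.1.const_mul _, ?_⟩
  rw [integral_const_mul, v2_int.2]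
  ring

end Pool.Agent.RC
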