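import Pool.Agent.RC.T10
import Pool.Agent.RC.V1
import Pool.Agent.RC.V2

set_option autoImplicit false

open MeasureTheory Set Real Filter Topology

namespace Pool.Agent.RC

/-- One application of the inequality. -/
theorem v3_step (C : ℝ)
    (hC : ∀ W : EuclideanSpace ℝ (Fin 3) → ℝ, Measurable W → (∀ x, 0 ≤ W x) →
      (∀ x y, ‖x‖ = ‖y‖ → W x = W y) →
      Integrable (fun x => W x ^ (3 / 2 : ℝ)) →
      ∀ (n : ℕ) (u : Fin n → EuclideanSpace ℝ (Fin 3) → ℝ),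
        (∀ i, ContDiff ℝ (⊤ : ℕ∞) (u i) ∧ HasCompactSupport (u i)) →
        (∀ c : Fin n → ℝ, c ≠ 0 →
          ∫ x, (‖fderiv ℝ (fun y => ∑ i, c i * u i y) x‖ ^ 2
                - W x * (∑ i, c i * u i x) ^ 2) < 0) →
        (n : ℝ) ≤ C * ∫ x, W x ^ (3 / 2 : ℝ)) (δ : ℝ) (hδ : 0 < δ) :
    1 ≤ C * ((1 + δ) ^ (3 / 2 : ℝ) * (3 * √3 * π ^ 2 / 4)) := by
  obtain ⟨u, hu1, hu2, hu3⟩ := v1_test δ hδ
  obtain ⟨hi, hv⟩ := v2_pow δ hδ.le
  have hpos : ∀ x : E3, (0 : ℝ) < (1 + ‖x‖ ^ 2) ^ 2 := fun x => by positivity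
  have h := hC (fun x => (3 * (1 + δ)) / (1 + ‖x‖ ^ 2) ^ 2) (by fun_prop)
    (fun x => by positivity) (fun x y hxy => by simp only [hxy]) hi 1 (fun _ => u)
    (fun _ => ⟨hu1, hu2⟩) (by
      intro c hc
      have hc0 : c 0 ≠ 0 := by
        intro h0
        apply hc
        funext i
        rw [Subsingleton.elim i 0, h0]
        rfl
      have hfun : (fun y => ∑ i : Fin 1, c i * u y) = fun y => c 0 * u y := by
        funext y
        simp
      have hd : Differentiable ℝ u := hu1.differentiable (by simp)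
      have hfd : ∀ x : E3, fderiv ℝ (fun y => c 0 * u y) x = c 0 • fderiv ℝ u x := fun x =>
        fderiv_const_mul (hd x) (c 0)
      have hint : ∫ x : E3, (‖fderiv ℝ (fun y => ∑ i : Fin 1, c i * u y) x‖ ^ 2 -
          (3 * (1 + δ)) / (1 + ‖x‖ ^ 2) ^ 2 * (∑ i : Fin 1, c i * u x) ^ 2) =
          c 0 ^ 2 * ∫ x : E3, (‖fderiv ℝ u x‖ ^ 2 -
            (3 * (1 + δ)) / (1 + ‖x‖ ^ 2) ^ 2 * u x ^ 2) := by
        rw [← integral_const_mul]
        refine integral_congr_ae (Eventually.of_forall fun x => ?_)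
        simp only
        rw [hfun, hfd, norm_smul, Fin.sum_univ_one, mul_pow, Real.norm_eq_abs, sq_abs]
        ring
      rw [hint]
      exact mul_neg_of_pos_of_neg (by positivity) hu3)
  rw [hv] at h
  simpa using h

/-- [RC-V3] The final theorem: the best constant of the Cwikel-Lieb-Rozenblum inequality in dimension three restricted
to RADIAL potentials is the conjectured one.
PROOF. Membership: `t10_main`. Lower bound: let `C` be in the set and `δ > 0`; apply it to the radial potential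
`W_δ = 3(1+δ)/(1+‖x‖²)²`, `n = 1` and the function of `v1_test` (`c ≠ 0` in `Fin 1 → ℝ`: the form is `c₀²` times the form of
`u`): `1 ≤ C (1+δ)^{3/2} 3√3π²/4` (`v2_pow`). Let `δ → 0`: `C ≥ 4/(3√3π²)` and `t10_const`. -/
theorem final : IsLeast
    {C : ℝ | ∀ W : EuclideanSpace ℝ (Fin 3) → ℝ, Measurable W → (∀ x, 0 ≤ W x) →
      (∀ x y, ‖x‖ = ‖y‖ → W x = W y) →
      Integrable (fun x => W x ^ (3 / 2 : ℝ)) →
      ∀ (n : ℕ) (u : Fin n → EuclideanSpace ℝ (Fin 3) → ℝ),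
        (∀ i, ContDiff ℝ (⊤ : ℕ∞) (u i) ∧ HasCompactSupport (u i)) →
        (∀ c : Fin n → ℝ, c ≠ 0 →
          ∫ x, (‖fderiv ℝ (fun y => ∑ i, c i * u i y) x‖ ^ 2
                - W x * (∑ i, c i * u i x) ^ 2) < 0) →
        (n : ℝ) ≤ C * ∫ x, W x ^ (3 / 2 : ℝ)}
    ((3 * π) ^ (-(3 / 2 : ℝ)) * Real.Gamma 3 / Real.Gamma (3 / 2)) := by
  refine ⟨t10_main, ?_⟩
  intro C hC
  rw [t10_const]
  have hs3 : (0 : ℝ) < √3 := Real.sqrt_pos.2 (by norm_num)
  have hpi := Real.pi_pos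
  have hcont : Continuous fun δ : ℝ => C * ((1 + δ) ^ (3 / 2 : ℝ) * (3 * √3 * π ^ 2 / 4)) := by
    have h1 : Continuous fun δ : ℝ => (1 + δ) ^ (3 / 2 : ℝ) :=
      (continuous_const.add continuous_id).rpow_const fun _ => Or.inr (by norm_num)
    exact continuous_const.mul (h1.mul continuous_const)
  have hlim : Tendsto (fun δ : ℝ => C * ((1 + δ) ^ (3 / 2 : ℝ) * (3 * √3 * π ^ 2 / 4)))
      (𝓝[>] 0) (𝓝 (C * ((1 + 0) ^ (3 / 2 : ℝ) * (3 * √3 * π ^ 2 / 4)))) :=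
    (hcont.tendsto 0).mono_left nhdsWithin_le_nhds
  have hge : 1 ≤ C * ((1 + 0) ^ (3 / 2 : ℝ) * (3 * √3 * π ^ 2 / 4)) := by
    refine ge_of_tendsto hlim ?_
    filter_upwards [self_mem_nhdsWithin] with δ hδ
    exact v3_step C hC δ hδ
  rw [add_zero, Real.one_rpow, one_mul] at hge
  have hk : (0 : ℝ) < 3 * √3 * π ^ 2 / 4 := by positivity
  have h4 : 4 / (3 * √3 * π ^ 2) = 1 / (3 * √3 * π ^ 2 / 4) := by
    field_simp
  rw [h4, div_le_iff₀ hk]
  exact hge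

end Pool.Agent.RC
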